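import Pool.Agent.TH850.UV.NVg

set_option autoImplicit false

/-! # The number variance for all scales -/

namespace Pool.Agent.TH850.UV

open Filter Topology MeasureTheory Set
open H370 (Zf)

lemma NS_mono (S : Finset ℂ) {h h' : ℝ} (hh : h ≤ h') (t : ℝ) : NS S h t ≤ NS S h' t := by
  unfold NS
  refine Finset.sum_le_sum fun s _ => mul_le_mul_of_nonneg_left ?_ (mS_nonneg s)
  by_cases h1 : t < s.im ∧ s.im ≤ t + h
  · rw [if_pos h1, if_pos ⟨h1.1, by linarith [h1.2]⟩]
  · rw [if_neg h1]
    split_ifs <;> norm_num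

lemma NS_le (S : Finset ℂ) (h t : ℝ) : NS S h t ≤ ∑ s ∈ S, mS s := by
  unfold NS
  refine Finset.sum_le_sum fun s _ => ?_
  have := mS_nonneg s
  split_ifs
  · rw [mul_one]
  · rw [mul_zero]; exact this

lemma sq_int (S : Finset ℂ) (h a : ℝ) (A B : ℝ) :
    IntervalIntegrable (fun t => (NS S h t - a) ^ 2) volume A B := by
  set M := ∑ s ∈ S, mS s with hM
  refine bdd_int (((NS_meas S h).sub_const a).pow_const 2) (M := (M + |a|) ^ 2) (fun t => ?_) A B
  rw [abs_of_nonneg (sq_nonneg _)]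
  have h1 := NS_nonneg S h t
  have h2 : NS S h t ≤ M := NS_le S h t
  rw [← sq_abs (NS S h t - a)]
  apply pow_le_pow_left₀ (abs_nonneg _)
  have h3 := abs_nonneg a
  rw [abs_le]
  constructor <;> linarith [le_abs_self a, neg_abs_le a]

theorem nv2 (B : ℝ) (hB : 1 ≤ B) : ∃ C T0 : ℝ, 0 < C ∧ 10 ≤ T0 ∧ ∀ T : ℝ, T0 ≤ T →
    ∀ a : ℝ, 0 < a → a * Real.log a ≤ B * Real.log T →
    IntervalIntegrable (fun t => ((cnt t (2 * Real.pi * a / Real.log T) : ℝ) - a) ^ 2)
      volume T (2 * T) ∧
    |(∫ t in T..(2 * T), ((cnt t (2 * Real.pi * a / Real.log T) : ℝ) - a) ^ 2) -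
      T / Real.pi ^ 2 * Real.log (1 + a)| ≤ C * T := by
  obtain ⟨C, T0, hC, hT0, hnv⟩ := nv B hB
  have hpi := Real.pi_pos
  have hpi3 := Real.pi_gt_three
  refine ⟨4 * C + 8, T0, by linarith, hT0, fun T hT a ha haL => ?_⟩
  have hT10 : 10 ≤ T := hT0.trans hT
  have hTpos : 0 < T := by linarith
  have hL0 : 0 < Real.log T := Real.log_pos (by linarith)
  have hL1 : 2 ≤ Real.log T := by
    rw [Real.le_log_iff_exp_le hTpos]
    have : Real.exp 2 = Real.exp 1 ^ 2 := by rw [← Real.exp_nat_mul]; norm_num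
    rw [this]
    have h2 := Real.exp_one_lt_d9
    have h3 := Real.exp_pos 1
    nlinarith
  have hP : T / Real.pi ^ 2 ≤ T := div_le_self hTpos.le (by nlinarith only [hpi3])
  have hP0 : 0 ≤ T / Real.pi ^ 2 := by positivity
  rcases le_total 1 a with h1 | h1
  · obtain ⟨h2, h3⟩ := hnv T hT a h1 haL
    refine ⟨h2, ?_⟩
    have h4 : Real.log (1 + a) - Real.log a ≤ 1 := by
      rw [← Real.log_div (by linarith) (by linarith)]
      have h5 := Real.log_le_sub_one_of_pos (show 0 < (1 + a) / a by positivity)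
      have h6 : (1 + a) / a - 1 = 1 / a := by field_simp; ring
      rw [h6] at h5
      have h7 : 1 / a ≤ 1 := by rw [div_le_one ha]; exact h1
      linarith
    have h5 : 0 ≤ Real.log (1 + a) - Real.log a := by
      have := Real.log_le_log ha (by linarith : a ≤ 1 + a)
      linarith
    have h6 : T / Real.pi ^ 2 * (Real.log (1 + a) - Real.log a) ≤ T * 1 :=
      mul_le_mul hP h4 h5 hTpos.le
    have h7 : 0 ≤ T / Real.pi ^ 2 * (Real.log (1 + a) - Real.log a) := mul_nonneg hP0 h5
    have h8 := abs_le.1 h3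
    have h9 : 0 < C * T := by positivity
    rw [abs_le]
    constructor
    · nlinarith only [h8.1, h6, h7, h9, hTpos]
    · nlinarith only [h8.2, h6, h7, h9, hTpos]
  · -- small windows
    obtain ⟨h2, h3⟩ := hnv T hT 1 le_rfl (by rw [Real.log_one, mul_zero]; positivity)
    set h := 2 * Real.pi * a / Real.log T with hh
    set h' := 2 * Real.pi * 1 / Real.log T with hh'
    have hh0 : 0 < h := by positivity
    have hle : h ≤ h' := by rw [hh, hh']; gcongr
    have hh7 : h' ≤ 7 := by
      rw [hh', div_le_iff₀ hL0]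
      nlinarith only [Real.pi_lt_d2, hL1]
    set S := Zf riemannZeta T (3 * T) with hS
    have hc : ∀ t ∈ Icc T (2 * T), (cnt t h : ℝ) = NS S h t := fun t ht =>
      cnt_eq (by linarith) ht.1 (by linarith [ht.2])
    have hc' : ∀ t ∈ Icc T (2 * T), (cnt t h' : ℝ) = NS S h' t := fun t ht =>
      cnt_eq (by linarith) ht.1 (by linarith [ht.2])
    have e1 : ∫ t in T..(2 * T), ((cnt t h : ℝ) - a) ^ 2 =
        ∫ t in T..(2 * T), (NS S h t - a) ^ 2 := by
      refine intervalIntegral.integral_congr fun t ht => ?_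
      rw [uIcc_of_le (by linarith)] at ht
      show ((cnt t h : ℝ) - a) ^ 2 = (NS S h t - a) ^ 2
      rw [hc t ht]
    have e2 : ∫ t in T..(2 * T), ((cnt t h' : ℝ) - 1) ^ 2 =
        ∫ t in T..(2 * T), (NS S h' t - 1) ^ 2 := by
      refine intervalIntegral.integral_congr fun t ht => ?_
      rw [uIcc_of_le (by linarith)] at ht
      show ((cnt t h' : ℝ) - 1) ^ 2 = (NS S h' t - 1) ^ 2
      rw [hc' t ht]
    have hi : IntervalIntegrable (fun t => ((cnt t h : ℝ) - a) ^ 2) volume T (2 * T) := by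
      refine (sq_int S h a T (2 * T)).congr fun t ht => ?_
      rw [uIoc_of_le (by linarith)] at ht
      show (NS S h t - a) ^ 2 = ((cnt t h : ℝ) - a) ^ 2
      rw [hc t ⟨ht.1.le, ht.2⟩]
    refine ⟨hi, ?_⟩
    rw [e1]
    rw [e2, Real.log_one, mul_zero, sub_zero] at h3
    have h4 : ∫ t in T..(2 * T), (NS S h t - a) ^ 2 ≤
        ∫ t in T..(2 * T), (4 * (NS S h' t - 1) ^ 2 + 6) := by
      refine intervalIntegral.integral_mono_on (by linarith) (sq_int S h a T (2 * T))
        (((sq_int S h' 1 T (2 * T)).const_mul 4).add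
          (continuous_const.intervalIntegrable _ _)) fun t _ => ?_
      have h5 := NS_mono S hle t
      have h6 := NS_nonneg S h t
      have h7 : (NS S h t - a) ^ 2 ≤ 2 * NS S h' t ^ 2 + 2 := by nlinarith
      have h8 : 2 * NS S h' t ^ 2 ≤ 4 * (NS S h' t - 1) ^ 2 + 4 := by
        nlinarith [sq_nonneg (NS S h' t - 2)]
      linarith
    rw [intervalIntegral.integral_add ((sq_int S h' 1 T (2 * T)).const_mul 4)
      (continuous_const.intervalIntegrable _ _), intervalIntegral.integral_const_mul,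
      intervalIntegral.integral_const, smul_eq_mul] at h4
    have h5 := (abs_le.1 h3).2
    have h6 : 0 ≤ ∫ t in T..(2 * T), (NS S h t - a) ^ 2 :=
      intervalIntegral.integral_nonneg (by linarith) fun t _ => sq_nonneg _
    have h7 : Real.log (1 + a) ≤ 1 := by
      have := Real.log_le_sub_one_of_pos (show 0 < 1 + a by linarith)
      linarith
    have h8 : 0 ≤ Real.log (1 + a) := Real.log_nonneg (by linarith)
    have h9 : T / Real.pi ^ 2 * Real.log (1 + a) ≤ T * 1 := mul_le_mul hP h7 h8 hTpos.le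
    have h10 : 0 ≤ T / Real.pi ^ 2 * Real.log (1 + a) := mul_nonneg hP0 h8
    rw [abs_le]
    constructor
    · nlinarith only [h6, h9, hTpos, mul_pos hC hTpos]
    · nlinarith only [h4, h5, h10, hTpos, mul_pos hC hTpos]

end Pool.Agent.TH850.UV
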