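import Pool.Agent.TH850.UR.ExpMom

set_option autoImplicit false

/-! # Second moment of weighted local counts of zeros -/

namespace Pool.Agent.TH850.UV

open MeasureTheory
open Pool.Agent.TH850.UR (ew)
open H370 (Zf mult)

namespace Loc

open Complex Set
open Pool.Agent.H24R2.JP (XX)
open Pool.Agent.H24R2.DZ (ra)
open Pool.Agent.W571.SD (wt wt_nonneg ra_eq BB GJ exists_J geo)
open Pool.Agent.TH850.UR
open H370 (zset mem_Zf good_zeta)

theorem sqexp (b x : ℝ) (hb : 0 < b) (hx : 0 ≤ x) : x ^ 2 * Real.exp (-(b * x)) ≤ 2 / b ^ 2 := by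
  have h := Real.quadratic_le_exp_of_nonneg (show 0 ≤ b * x by positivity)
  rw [Real.exp_neg, ← div_eq_mul_inv, div_le_div_iff₀ (Real.exp_pos _) (by positivity)]
  have h2 : 0 ≤ b * x := by positivity
  nlinarith

theorem hull (B : Set ℝ) (K v : ℝ) (hK : 0 ≤ K) (hB : volume B ≤ ENNReal.ofReal v) :
    ∫⁻ t, (toMeasurable volume B).indicator (fun _ => ENNReal.ofReal K) t ≤
      ENNReal.ofReal (K * v) := by
  rw [lintegral_indicator_const (measurableSet_toMeasurable _ _), measure_toMeasurable,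
    ENNReal.ofReal_mul hK]
  gcongr

/-- the set of heights near zeros far from the line -/
def Far (T : ℝ) : Set ℝ :=
  {t : ℝ | T / 2 ≤ t ∧ t ≤ 3 * T ∧ ∃ z : ℂ, XX z = 0 ∧ 1 / 50 ≤ |z.re| ∧ |z.im - t| ≤ 1}

theorem mem_img {T : ℝ} (hT : 10 ≤ T) {S : Finset ℂ} (hS : S ⊆ Zf riemannZeta T (2 * T))
    {s' : ℂ} (hs' : s' ∈ S.image (fun s => s - 1 / 2)) :
    ∃ s ∈ S, s' = s - 1 / 2 ∧ s'.re = s.re - 1 / 2 ∧ s'.im = s.im ∧ XX s' = 0 ∧ T < s.im ∧
      s.im ≤ 2 * T ∧ |s'.re| ≤ 1 / 2 := by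
  rw [Finset.mem_image] at hs'
  obtain ⟨s, hs, rfl⟩ := hs'
  have h := hS hs
  rw [mem_Zf good_zeta (by linarith)] at h
  obtain ⟨g1, g2, g3, g4, g5⟩ := h
  have e1 : (s - 1 / 2 : ℂ).re = s.re - 1 / 2 := by simp
  have e2 : (s - 1 / 2 : ℂ).im = s.im := by simp
  refine ⟨s, hs, rfl, e1, e2, XX_zero (by linarith) g1 g5, g3, g4, ?_⟩
  rw [e1, abs_le]
  constructor <;> linarith

theorem sum_img {T : ℝ} (hT : 10 ≤ T) {S : Finset ℂ} (hS : S ⊆ Zf riemannZeta T (2 * T)) :
    ∑ s ∈ S, (mult riemannZeta s : ℝ) = ∑ s ∈ S.image (fun s => s - 1 / 2), wt 0 s := by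
  have hinj : Set.InjOn (fun s : ℂ => s - 1 / 2) S := fun a _ b _ hab => sub_left_injective hab
  rw [Finset.sum_image hinj]
  refine Finset.sum_congr rfl fun s hs => ?_
  have h := hS hs
  rw [mem_Zf good_zeta (by linarith)] at h
  obtain ⟨g1, g2, g3, g4, g5⟩ := h
  unfold H370.mult Pool.Agent.W571.SD.wt
  rw [order_eq (by linarith) g1, iteratedDeriv_zero]

/-- bound of a weighted sum -/
theorem wsum {κ L K W : ℝ} {S : Finset ℂ} (hW : ∀ s ∈ S, ew κ L s ≤ W) (hW0 : 0 ≤ W)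
    (hK : ∑ s ∈ S, (mult riemannZeta s : ℝ) ≤ K) :
    ∑ s ∈ S, (mult riemannZeta s : ℝ) * ew κ L s ≤ K * W := by
  calc ∑ s ∈ S, (mult riemannZeta s : ℝ) * ew κ L s ≤ ∑ s ∈ S, (mult riemannZeta s : ℝ) * W :=
        Finset.sum_le_sum fun s hs => mul_le_mul_of_nonneg_left (hW s hs) (Nat.cast_nonneg _)
    _ = (∑ s ∈ S, (mult riemannZeta s : ℝ)) * W := by rw [Finset.sum_mul]
    _ ≤ K * W := mul_le_mul_of_nonneg_right hK hW0

theorem main : ∃ κ C T0 : ℝ, 0 < κ ∧ κ ≤ 1 ∧ 0 < C ∧ 10 ≤ T0 ∧ ∀ T : ℝ, T0 ≤ T →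
    ∫⁻ t : ℝ, ENNReal.ofReal ((∑ s ∈ (Zf riemannZeta T (2 * T)).filter
      (fun s => |s.im - t| ≤ 1 / Real.log T),
      (mult riemannZeta s : ℝ) * ew κ (Real.log T) s) ^ 2) ≤ ENNReal.ofReal (C * T) := by
  classical
  obtain ⟨η, C4, hη, hC4, hcount⟩ := scount
  obtain ⟨η1, ε1, hη1, hε1, hsc2⟩ := sc2 η hη
  obtain ⟨θ, c1, C1, a1, T1, hθ, hθ', hc1, hC1, ha1, hT1, hsc1⟩ :=
    Pool.Agent.W186.SD.sc1 η1 ε1 hη1 hε1
  obtain ⟨a2, T2, hsc2'⟩ := hsc2 θ hθ hθ'
  obtain ⟨c3, C3, T3, hc3, hC3, hT3, hfar⟩ := W327.SD.sfar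
  obtain ⟨C5, T5, hC5, hT5, hunit⟩ := sunit
  have hc1' : 0 < c1 / 4 := by positivity
  have hq1 : Real.exp (-(c1 / 4)) < 1 := Real.exp_lt_one_iff.2 (by linarith)
  obtain ⟨Q, hQ⟩ : ∃ Q : ℝ, Q = 1 / (1 - Real.exp (-(c1 / 4))) := ⟨_, rfl⟩
  have hQ0 : 0 < Q := by rw [hQ]; apply one_div_pos.2; linarith
  obtain ⟨n, hn⟩ : ∃ n : ℕ, n = max ⌈a1⌉₊ (max ⌈a2⌉₊ 50) := ⟨_, rfl⟩
  have hn50 : 50 ≤ n := by rw [hn]; exact (le_max_right _ _).trans (le_max_right _ _)
  have hn1 : 1 ≤ n := by omega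
  have hn50' : (50 : ℝ) ≤ n := by exact_mod_cast hn50
  have hn1' : (1 : ℝ) ≤ n := by linarith
  have hna1 : a1 ≤ n := by
    have : ⌈a1⌉₊ ≤ n := by rw [hn]; exact le_max_left _ _
    exact (Nat.le_ceil a1).trans (by exact_mod_cast this)
  have hna2 : a2 ≤ n := by
    have : ⌈a2⌉₊ ≤ n := by rw [hn]; exact (le_max_left _ _).trans (le_max_right _ _)
    exact (Nat.le_ceil a2).trans (by exact_mod_cast this)
  obtain ⟨κ, hκ⟩ : ∃ κ : ℝ, κ = min 1 (min (c1 / 800) (c3 / 2)) := ⟨_, rfl⟩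
  have hκ0 : 0 < κ := by
    rw [hκ]; exact lt_min one_pos (lt_min (by positivity) (by positivity))
  have hκ1 : κ ≤ c1 / 800 := by rw [hκ]; exact (min_le_right _ _).trans (min_le_left _ _)
  have hκ3 : κ ≤ c3 / 2 := by rw [hκ]; exact (min_le_right _ _).trans (min_le_right _ _)
  -- the levels
  obtain ⟨K, hK⟩ : ∃ K : ℕ → ℝ, ∀ i, K i = C4 * (2 ^ i * n) * Real.exp (κ * (2 * (2 ^ i * n)) / 1000) :=
    ⟨fun i => C4 * (2 ^ i * n) * Real.exp (κ * (2 * (2 ^ i * n)) / 1000), fun i => rfl⟩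
  have hK0 : ∀ i, 0 ≤ K i := by intro i; rw [hK]; positivity
  refine ⟨κ, 2 * K 0 ^ 2 + C1 * (4 * C4 ^ 2 * (2 / (c1 / 4) ^ 2)) * Q +
    4 * C5 ^ 2 * C1 * (2 / (c1 / 800) ^ 2) + 4 * C5 ^ 2 * C3 * (2 / (c3 / 2) ^ 2),
    max (max (max T1 T2) T3) (max (2 * T5 + 2) (max 1000 (Real.exp (400 * n)))), hκ0,
    by rw [hκ]; exact min_le_left _ _, by positivity, ?_, ?_⟩
  · exact le_trans (by norm_num) (((le_max_left _ _).trans (le_max_right _ _)).trans (le_max_right _ _))
  intro T hT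
  have hTT1 : T1 ≤ T := ((le_max_left _ _).trans ((le_max_left _ _).trans (le_max_left _ _))).trans hT
  have hTT2 : T2 ≤ T := ((le_max_right _ _).trans ((le_max_left _ _).trans (le_max_left _ _))).trans hT
  have hTT3 : T3 ≤ T := ((le_max_right _ _).trans (le_max_left _ _)).trans hT
  have hTT5 : 2 * T5 + 2 ≤ T := ((le_max_left _ _).trans (le_max_right _ _)).trans hT
  have hT1000 : 1000 ≤ T :=
    (((le_max_left _ _).trans (le_max_right _ _)).trans (le_max_right _ _)).trans hT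
  have hTe : Real.exp (400 * n) ≤ T :=
    (((le_max_right _ _).trans (le_max_right _ _)).trans (le_max_right _ _)).trans hT
  have hT0 : 0 < T := by linarith
  obtain ⟨L, hL⟩ : ∃ L : ℝ, L = Real.log T := ⟨_, rfl⟩
  have hnL : (n : ℝ) ≤ L / 400 := by
    have h1 := (Real.le_log_iff_exp_le hT0).2 hTe
    rw [hL]; linarith
  have hL400 : 400 ≤ L := by linarith
  have hL0 : 0 < L := by linarith
  have hL1 : 1 / L ≤ 1 := by rw [div_le_one hL0]; linarith
  have hlog3 : Real.log (3 * T) ≤ 2 * L := by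
    rw [Real.log_mul (by norm_num) hT0.ne', ← hL]
    have : Real.log 3 ≤ 2 := by
      have := Real.log_le_sub_one_of_pos (show (0 : ℝ) < 3 by norm_num)
      linarith
    linarith
  obtain ⟨J, hJ1, hJ2, hJ3⟩ := exists_J hn1 hnL
  -- the radii
  have hr : ∀ j : ℕ, ra T (2 ^ j * n) = 2 * (2 ^ j * n) / L := fun j => by rw [hL]; exact ra_eq _ _
  have hrpos : ∀ j : ℕ, 0 < ra T (2 ^ j * n) := by
    intro j; rw [hr]; positivity
  have hrJ2 : 1 / 200 < ra T (2 ^ J * n) := by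
    rw [hr, lt_div_iff₀ hL0]; linarith
  have hpow : ∀ j : ℕ, j ≤ J → (2 : ℝ) ^ j * n ≤ L / 200 := by
    intro j hj
    refine le_trans ?_ hJ2
    apply mul_le_mul_of_nonneg_right _ (by positivity)
    exact pow_le_pow_right₀ (by norm_num) hj
  have hpow1 : ∀ j : ℕ, (n : ℝ) ≤ 2 ^ j * n := by
    intro j
    exact le_mul_of_one_le_left (by positivity) (one_le_pow₀ (by norm_num))
  have hrL : ∀ j : ℕ, 1 / L ≤ ra T (2 ^ j * n) / 100 := by
    intro j
    rw [hr, div_div, div_le_div_iff₀ hL0 (by positivity)]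
    have := hpow1 j
    nlinarith
  -- bad heights
  have hBvol : ∀ j : ℕ, j ≤ J → volume (BB η T (2 ^ j * n)) ≤
      ENNReal.ofReal (C1 * T * Real.exp (-(c1 * (2 ^ j * n)))) := by
    intro j hj
    refine le_trans (measure_mono ?_) (hsc1 T (2 ^ j * n) hTT1 (hna1.trans (hpow1 j))
      (by rw [← hL]; exact hpow j hj))
    intro t0 ht0
    refine ⟨ht0.1, ht0.2.1, fun hG => ht0.2.2 ?_⟩
    exact hsc2' T (2 ^ j * n) t0 hTT2 (hna2.trans (hpow1 j)) (by rw [← hL]; exact hpow j hj)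
      ht0.1 ht0.2.1 hG
  have hFvol : volume (Far T) ≤ ENNReal.ofReal (C3 * T ^ (1 - c3)) := hfar T hTT3
  -- the function
  obtain ⟨f, hf⟩ : ∃ f : ℝ → ℝ, ∀ t, f t = ∑ s ∈ (Zf riemannZeta T (2 * T)).filter
      (fun s => |s.im - t| ≤ 1 / L), (mult riemannZeta s : ℝ) * ew κ L s :=
    ⟨fun t => ∑ s ∈ (Zf riemannZeta T (2 * T)).filter
      (fun s => |s.im - t| ≤ 1 / L), (mult riemannZeta s : ℝ) * ew κ L s, fun t => rfl⟩
  have hf0 : ∀ t, 0 ≤ f t := by
    intro t
    rw [hf]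
    refine Finset.sum_nonneg fun s _ => mul_nonneg (Nat.cast_nonneg _) (Real.exp_pos _).le
  obtain ⟨Kc, hKc⟩ : ∃ Kc : ℝ, Kc = 2 * C5 * L * Real.exp (κ * (1 / 2 * L)) := ⟨_, rfl⟩
  have hKc0 : 0 ≤ Kc := by rw [hKc]; positivity
  -- outside
  have hout : ∀ t, t ∉ Icc (T - 1) (2 * T + 1) → f t = 0 := by
    intro t ht
    rw [hf]
    apply Finset.sum_eq_zero
    intro s hs
    exfalso
    rw [Finset.mem_filter, mem_Zf good_zeta (by linarith)] at hs
    obtain ⟨⟨g1, g2, g3, g4, g5⟩, h⟩ := hs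
    apply ht
    have := abs_le.1 (h.trans hL1)
    exact ⟨by linarith, by linarith⟩
  -- the crude bound
  have hcrude : ∀ t, t ∈ Icc (T - 1) (2 * T + 1) → f t ≤ Kc := by
    intro t ht
    rw [hf, hKc]
    have hsub : (Zf riemannZeta T (2 * T)).filter (fun s => |s.im - t| ≤ 1 / L) ⊆
        Zf riemannZeta T (2 * T) := Finset.filter_subset _ _
    refine wsum ?_ (Real.exp_pos _).le ?_
    · intro s hs
      unfold ew
      apply Real.exp_le_exp.2
      have h1 := hsub hs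
      rw [mem_Zf good_zeta (by linarith)] at h1
      obtain ⟨g1, g2, g3, g4, g5⟩ := h1
      have hx1 : |s.re - 1 / 2| ≤ 1 / 2 := by rw [abs_le]; constructor <;> linarith
      gcongr
    · rw [sum_img (by linarith) hsub]
      have h1 := hunit t 0 (by linarith [ht.1]) (by
        have := Real.log_nonneg (show (1 : ℝ) ≤ t by linarith [ht.1])
        push_cast
        linarith) (((Zf riemannZeta T (2 * T)).filter (fun s => |s.im - t| ≤ 1 / L)).image
          (fun s => s - 1 / 2)) (by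
        intro s' hs'
        obtain ⟨s, hs, -, e1, e2, h0, h3, h4, -⟩ := mem_img (by linarith) hsub hs'
        rw [Finset.mem_filter] at hs
        refine ⟨?_, by rw [iteratedDeriv_zero]; exact h0⟩
        rw [e2]
        exact hs.2.trans hL1)
      refine h1.trans ?_
      have h2 : Real.log t ≤ 2 * L := (Real.log_le_log (by linarith [ht.1])
        (by linarith [ht.2])).trans hlog3
      calc C5 * Real.log t ≤ C5 * (2 * L) := mul_le_mul_of_nonneg_left h2 hC5.le
        _ = 2 * C5 * L := by ring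
  -- the level bound
  have hlevel : ∀ t, t ∈ Icc (T - 1) (2 * T + 1) → t ∉ Far T → ∀ i ≤ J,
      (∀ j, i ≤ j → j ≤ J → t ∉ BB η T (2 ^ j * n)) → f t ≤ K i := by
    intro t ht htF i hiJ hB
    have ht1 : T / 2 ≤ t := by linarith [ht.1]
    have ht2 : t ≤ 3 * T := by linarith [ht.2]
    have hNN : ∀ j, i ≤ j → j ≤ J → Pool.Agent.H24R2.DZ.NN (2 ^ j * n) η
        (fun z => XX (I * t + ra T (2 ^ j * n) * z)) := by
      intro j hij hjJ
      by_contra hcon
      exact hB j hij hjJ ⟨ht1, ht2, hcon⟩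
    have hsub : (Zf riemannZeta T (2 * T)).filter (fun s => |s.im - t| ≤ 1 / L) ⊆
        Zf riemannZeta T (2 * T) := Finset.filter_subset _ _
    have hre : ∀ s' ∈ ((Zf riemannZeta T (2 * T)).filter (fun s => |s.im - t| ≤ 1 / L)).image
        (fun s => s - 1 / 2), |s'.re| < ra T (2 ^ i * n) / 1000 ∧ |s'.im - t| ≤ 1 / L ∧
          XX s' = 0 := by
      intro s' hs'
      obtain ⟨s, hs, -, e1, e2, h0, h3, h4, -⟩ := mem_img (by linarith) hsub hs'
      rw [Finset.mem_filter] at hs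
      have him : |s'.im - t| ≤ 1 / L := by rw [e2]; exact hs.2
      refine ⟨?_, him, h0⟩
      refine descend (η := η) (by rw [← hL]; exact hL0) hn1 h0 i J hiJ ?_ ?_
      · intro j hij hjJ
        exact ⟨t, him.trans (hrL j), hNN j hij hjJ⟩
      · by_contra hcon
        push Not at hcon
        apply htF
        refine ⟨ht1, ht2, s', h0, by linarith, him.trans hL1⟩
    rw [hf, hK]
    refine wsum ?_ (Real.exp_pos _).le ?_
    · intro s hs
      unfold ew
      apply Real.exp_le_exp.2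
      have h1 := (hre (s - 1 / 2) (Finset.mem_image_of_mem _ hs)).1
      have e1 : (s - 1 / 2 : ℂ).re = s.re - 1 / 2 := by simp
      rw [e1, hr] at h1
      have h2 : |s.re - 1 / 2| * L ≤ 2 * (2 ^ i * n) / 1000 := by
        calc |s.re - 1 / 2| * L ≤ 2 * (2 ^ i * n) / L / 1000 * L := by gcongr
          _ = 2 * (2 ^ i * n) / 1000 := by field_simp
      calc κ * (|s.re - 1 / 2| * L) ≤ κ * (2 * (2 ^ i * n) / 1000) :=
            mul_le_mul_of_nonneg_left h2 hκ0.le
        _ = κ * (2 * (2 ^ i * n)) / 1000 := by ring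
    · rw [sum_img (by linarith) hsub]
      have h1 := hcount (2 ^ i * n) (ra T (2 ^ i * n)) t 0 XX (hn1'.trans (hpow1 _))
        (by push_cast; positivity) (hrpos i) XX_diff (hNN i le_rfl hiJ)
        (((Zf riemannZeta T (2 * T)).filter (fun s => |s.im - t| ≤ 1 / L)).image
          (fun s => s - 1 / 2)) (by
        intro s' hs'
        obtain ⟨h2, h3, h4⟩ := hre s' hs'
        refine ⟨?_, by rw [iteratedDeriv_zero]; exact h4⟩
        have h12 : (s' - I * t).re = s'.re := by simp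
        have h13 : (s' - I * t).im = s'.im - t := by simp
        have h14 := Complex.norm_le_abs_re_add_abs_im (s' - I * t)
        rw [h12, h13] at h14
        linarith [hrL i, hrpos i])
      exact h1
  -- the pointwise bound
  have hpt : ∀ t, ENNReal.ofReal (f t ^ 2) ≤
      (Icc (T - 1) (2 * T + 1)).indicator (fun _ => ENNReal.ofReal (K 0 ^ 2)) t +
      (∑ i ∈ Finset.range J, (toMeasurable volume (BB η T (2 ^ i * n))).indicator
        (fun _ => ENNReal.ofReal (K (i + 1) ^ 2)) t) +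
      ((toMeasurable volume (BB η T (2 ^ J * n))).indicator (fun _ => ENNReal.ofReal (Kc ^ 2)) t +
      (toMeasurable volume (Far T)).indicator (fun _ => ENNReal.ofReal (Kc ^ 2)) t) := by
    intro t
    by_cases ht : t ∈ Icc (T - 1) (2 * T + 1)
    swap
    · rw [hout t ht]
      simp
    by_cases h1 : t ∈ Far T
    · have h2 : t ∈ toMeasurable volume (Far T) := subset_toMeasurable _ _ h1
      refine le_trans ?_ le_add_self
      refine le_trans ?_ le_add_self
      rw [Set.indicator_of_mem h2]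
      exact ENNReal.ofReal_le_ofReal (pow_le_pow_left₀ (hf0 t) (hcrude t ht) 2)
    by_cases h2 : t ∈ BB η T (2 ^ J * n)
    · have h3 : t ∈ toMeasurable volume (BB η T (2 ^ J * n)) := subset_toMeasurable _ _ h2
      refine le_trans ?_ le_add_self
      refine le_trans ?_ le_self_add
      rw [Set.indicator_of_mem h3]
      exact ENNReal.ofReal_le_ofReal (pow_le_pow_left₀ (hf0 t) (hcrude t ht) 2)
    by_cases h3 : ∀ j, j ≤ J → t ∉ BB η T (2 ^ j * n)
    · refine le_trans ?_ le_self_add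
      refine le_trans ?_ le_self_add
      rw [Set.indicator_of_mem ht]
      exact ENNReal.ofReal_le_ofReal (pow_le_pow_left₀ (hf0 t)
        (hlevel t ht h1 0 (Nat.zero_le _) (fun j _ hj => h3 j hj)) 2)
    · push Not at h3
      obtain ⟨j1, hj1, hj1'⟩ := h3
      obtain ⟨i, hi⟩ : ∃ i, i = Nat.findGreatest (fun j => t ∈ BB η T (2 ^ j * n)) J := ⟨_, rfl⟩
      have hi1 : t ∈ BB η T (2 ^ i * n) := by
        rw [hi]
        exact Nat.findGreatest_spec (P := fun j => t ∈ BB η T (2 ^ j * n)) hj1 hj1'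
      have hi2 : i ≤ J := by rw [hi]; exact Nat.findGreatest_le J
      have hi3 : i < J := by
        rcases hi2.lt_or_eq with h | h
        · exact h
        · rw [h] at hi1; exact absurd hi1 h2
      have hi4 : ∀ j, i + 1 ≤ j → j ≤ J → t ∉ BB η T (2 ^ j * n) := by
        intro j hj1 hj2 hcon
        have := Nat.le_findGreatest (P := fun j => t ∈ BB η T (2 ^ j * n)) hj2 hcon
        rw [← hi] at this
        omega
      have h4 := hlevel t ht h1 (i + 1) hi3 hi4
      have h5 : t ∈ toMeasurable volume (BB η T (2 ^ i * n)) := subset_toMeasurable _ _ hi1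
      refine le_trans ?_ le_self_add
      refine le_trans ?_ le_add_self
      refine le_trans ?_ (Finset.single_le_sum (f := fun i =>
        (toMeasurable volume (BB η T (2 ^ i * n))).indicator
        (fun _ => ENNReal.ofReal (K (i + 1) ^ 2)) t) (fun _ _ => zero_le)
        (Finset.mem_range.2 hi3))
      rw [Set.indicator_of_mem h5]
      exact ENNReal.ofReal_le_ofReal (pow_le_pow_left₀ (hf0 t) h4 2)
  -- integration
  have hmi : ∀ i, Measurable ((toMeasurable volume (BB η T (2 ^ i * n))).indicator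
      (fun _ => ENNReal.ofReal (K (i + 1) ^ 2))) := fun i =>
    measurable_const.indicator (measurableSet_toMeasurable _ _)
  have hint : ∫⁻ t, ENNReal.ofReal (f t ^ 2) ≤
      ENNReal.ofReal (K 0 ^ 2 * (T + 2)) +
      (∑ i ∈ Finset.range J,
        ENNReal.ofReal (K (i + 1) ^ 2 * (C1 * T * Real.exp (-(c1 * (2 ^ i * n)))))) +
      (ENNReal.ofReal (Kc ^ 2 * (C1 * T * Real.exp (-(c1 * (2 ^ J * n))))) +
      ENNReal.ofReal (Kc ^ 2 * (C3 * T ^ (1 - c3)))) := by
    refine (lintegral_mono hpt).trans ?_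
    have m1 : Measurable (fun t => (Icc (T - 1) (2 * T + 1)).indicator
        (fun _ => ENNReal.ofReal (K 0 ^ 2)) t) := measurable_const.indicator measurableSet_Icc
    have m2 : Measurable (fun t => ∑ i ∈ Finset.range J,
        (toMeasurable volume (BB η T (2 ^ i * n))).indicator
        (fun _ => ENNReal.ofReal (K (i + 1) ^ 2)) t) :=
      Finset.measurable_fun_sum _ fun i _ => hmi i
    have m3 : Measurable (fun t => (toMeasurable volume (BB η T (2 ^ J * n))).indicator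
        (fun _ => ENNReal.ofReal (Kc ^ 2)) t) :=
      measurable_const.indicator (measurableSet_toMeasurable _ _)
    have m12 : Measurable (fun t => (Icc (T - 1) (2 * T + 1)).indicator
        (fun _ => ENNReal.ofReal (K 0 ^ 2)) t + ∑ i ∈ Finset.range J,
        (toMeasurable volume (BB η T (2 ^ i * n))).indicator
        (fun _ => ENNReal.ofReal (K (i + 1) ^ 2)) t) := m1.add m2
    rw [lintegral_add_left m12, lintegral_add_left m1, lintegral_add_left m3,
      lintegral_finsetSum _ fun i _ => hmi i]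
    refine add_le_add (add_le_add ?_ ?_) (add_le_add ?_ ?_)
    · rw [lintegral_indicator_const measurableSet_Icc, Real.volume_Icc,
        ENNReal.ofReal_mul (by positivity)]
      apply le_of_eq
      congr 2
      ring
    · refine Finset.sum_le_sum fun i hi => ?_
      rw [Finset.mem_range] at hi
      exact hull _ _ _ (by positivity) (hBvol i hi.le)
    · exact hull _ _ _ (by positivity) (hBvol J le_rfl)
    · exact hull _ _ _ (by positivity) hFvol
  -- the estimates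
  have e1 : K 0 ^ 2 * (T + 2) ≤ 2 * K 0 ^ 2 * T := by
    have : 0 ≤ K 0 ^ 2 := by positivity
    nlinarith
  have e2 : ∀ i, K (i + 1) ^ 2 * (C1 * T * Real.exp (-(c1 * (2 ^ i * n)))) ≤
      C1 * (4 * C4 ^ 2 * (2 / (c1 / 4) ^ 2)) * T * Real.exp (-(c1 / 4 * (2 ^ i * n))) := by
    intro i
    obtain ⟨x, hx⟩ : ∃ x : ℝ, x = 2 ^ i * n := ⟨_, rfl⟩
    have hx0 : 0 ≤ x := by rw [hx]; positivity
    have hKx : K (i + 1) = C4 * (2 * x) * Real.exp (κ * (4 * x) / 1000) := by
      rw [hK, hx, pow_succ]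
      congr 2
      · ring
      · ring
    rw [hKx, ← hx]
    have h1 : Real.exp (κ * (4 * x) / 1000) ^ 2 * Real.exp (-(c1 * x)) ≤
        Real.exp (-(c1 / 4 * x)) * Real.exp (-(c1 / 4 * x)) := by
      rw [← Real.exp_nat_mul, ← Real.exp_add, ← Real.exp_add]
      apply Real.exp_le_exp.2
      have h2 : κ * x ≤ c1 / 800 * x := mul_le_mul_of_nonneg_right hκ1 hx0
      have h3 : 0 ≤ c1 * x := by positivity
      push_cast
      nlinarith
    have h2 := sqexp (c1 / 4) x hc1' hx0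
    calc (C4 * (2 * x) * Real.exp (κ * (4 * x) / 1000)) ^ 2 *
          (C1 * T * Real.exp (-(c1 * x))) =
          4 * C4 ^ 2 * C1 * T * x ^ 2 *
            (Real.exp (κ * (4 * x) / 1000) ^ 2 * Real.exp (-(c1 * x))) := by ring
      _ ≤ 4 * C4 ^ 2 * C1 * T * x ^ 2 *
            (Real.exp (-(c1 / 4 * x)) * Real.exp (-(c1 / 4 * x))) := by gcongr
      _ = 4 * C4 ^ 2 * C1 * T * Real.exp (-(c1 / 4 * x)) *
            (x ^ 2 * Real.exp (-(c1 / 4 * x))) := by ring
      _ ≤ 4 * C4 ^ 2 * C1 * T * Real.exp (-(c1 / 4 * x)) * (2 / (c1 / 4) ^ 2) := by gcongr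
      _ = _ := by ring
  have e3 : ∑ i ∈ Finset.range J, K (i + 1) ^ 2 * (C1 * T * Real.exp (-(c1 * (2 ^ i * n)))) ≤
      C1 * (4 * C4 ^ 2 * (2 / (c1 / 4) ^ 2)) * Q * T := by
    calc ∑ i ∈ Finset.range J, K (i + 1) ^ 2 * (C1 * T * Real.exp (-(c1 * (2 ^ i * n)))) ≤
          ∑ i ∈ Finset.range J, C1 * (4 * C4 ^ 2 * (2 / (c1 / 4) ^ 2)) * T *
            Real.exp (-(c1 / 4 * (2 ^ i * n))) := Finset.sum_le_sum fun i _ => e2 i
      _ = C1 * (4 * C4 ^ 2 * (2 / (c1 / 4) ^ 2)) * T *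
            ∑ i ∈ Finset.range J, Real.exp (-(c1 / 4 * (2 ^ i * n))) := by
          rw [Finset.mul_sum]
      _ ≤ C1 * (4 * C4 ^ 2 * (2 / (c1 / 4) ^ 2)) * T * Q := by
          apply mul_le_mul_of_nonneg_left _ (by positivity)
          refine (geo (c1 / 4) hc1' n J hn1).trans ?_
          rw [← hQ]
          apply mul_le_of_le_one_left hQ0.le
          rw [Real.exp_le_one_iff]
          have : 0 ≤ c1 / 4 * (n : ℝ) := by positivity
          linarith
      _ = _ := by ring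
  have e4 : Kc ^ 2 * (C1 * T * Real.exp (-(c1 * (2 ^ J * n)))) ≤
      4 * C5 ^ 2 * C1 * (2 / (c1 / 800) ^ 2) * T := by
    have h1 : Real.exp (κ * (1 / 2 * L)) ^ 2 * Real.exp (-(c1 * (2 ^ J * n))) ≤
        Real.exp (-(c1 / 800 * L)) := by
      rw [← Real.exp_nat_mul, ← Real.exp_add]
      apply Real.exp_le_exp.2
      have h2 : κ * L ≤ c1 / 800 * L := mul_le_mul_of_nonneg_right hκ1 hL0.le
      have h3 : c1 * (L / 400) ≤ c1 * (2 ^ J * n) := mul_le_mul_of_nonneg_left hJ3.le hc1.le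
      push_cast
      linarith
    have h2 := sqexp (c1 / 800) L (by positivity) hL0.le
    rw [hKc]
    calc (2 * C5 * L * Real.exp (κ * (1 / 2 * L))) ^ 2 *
          (C1 * T * Real.exp (-(c1 * (2 ^ J * n)))) =
          4 * C5 ^ 2 * C1 * T * L ^ 2 *
            (Real.exp (κ * (1 / 2 * L)) ^ 2 * Real.exp (-(c1 * (2 ^ J * n)))) := by ring
      _ ≤ 4 * C5 ^ 2 * C1 * T * L ^ 2 * Real.exp (-(c1 / 800 * L)) := by gcongr
      _ = 4 * C5 ^ 2 * C1 * T * (L ^ 2 * Real.exp (-(c1 / 800 * L))) := by ring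
      _ ≤ 4 * C5 ^ 2 * C1 * T * (2 / (c1 / 800) ^ 2) := by gcongr
      _ = _ := by ring
  have e5 : Kc ^ 2 * (C3 * T ^ (1 - c3)) ≤ 4 * C5 ^ 2 * C3 * (2 / (c3 / 2) ^ 2) * T := by
    have hTc : T ^ (1 - c3) = T * Real.exp (-(c3 * L)) := by
      rw [Real.rpow_sub hT0, Real.rpow_one, Real.rpow_def_of_pos hT0, div_eq_mul_inv,
        ← Real.exp_neg, ← hL]
      congr 3
      ring
    have h1 : Real.exp (κ * (1 / 2 * L)) ^ 2 * Real.exp (-(c3 * L)) ≤
        Real.exp (-(c3 / 2 * L)) := by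
      rw [← Real.exp_nat_mul, ← Real.exp_add]
      apply Real.exp_le_exp.2
      have h2 : κ * L ≤ c3 / 2 * L := mul_le_mul_of_nonneg_right hκ3 hL0.le
      push_cast
      linarith
    have h2 := sqexp (c3 / 2) L (by positivity) hL0.le
    rw [hKc, hTc]
    calc (2 * C5 * L * Real.exp (κ * (1 / 2 * L))) ^ 2 * (C3 * (T * Real.exp (-(c3 * L)))) =
          4 * C5 ^ 2 * C3 * T * L ^ 2 *
            (Real.exp (κ * (1 / 2 * L)) ^ 2 * Real.exp (-(c3 * L))) := by ring
      _ ≤ 4 * C5 ^ 2 * C3 * T * L ^ 2 * Real.exp (-(c3 / 2 * L)) := by gcongr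
      _ = 4 * C5 ^ 2 * C3 * T * (L ^ 2 * Real.exp (-(c3 / 2 * L))) := by ring
      _ ≤ 4 * C5 ^ 2 * C3 * T * (2 / (c3 / 2) ^ 2) := by gcongr
      _ = _ := by ring
  have hgoal : ∫⁻ t : ℝ, ENNReal.ofReal ((∑ s ∈ (Zf riemannZeta T (2 * T)).filter
      (fun s => |s.im - t| ≤ 1 / Real.log T),
      (mult riemannZeta s : ℝ) * ew κ (Real.log T) s) ^ 2) = ∫⁻ t, ENNReal.ofReal (f t ^ 2) := by
    refine lintegral_congr fun t => ?_
    rw [hf, hL]
  rw [hgoal]
  refine hint.trans ?_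
  rw [← ENNReal.ofReal_sum_of_nonneg (fun i _ => by positivity),
    ← ENNReal.ofReal_add (by positivity) (Finset.sum_nonneg fun i _ => by positivity),
    ← ENNReal.ofReal_add (by positivity) (by positivity),
    ← ENNReal.ofReal_add (add_nonneg (by positivity) (Finset.sum_nonneg fun i _ => by positivity))
      (by positivity)]
  apply ENNReal.ofReal_le_ofReal
  linarith

end Loc

theorem loc2 : ∃ κ C T0 : ℝ, 0 < κ ∧ κ ≤ 1 ∧ 0 < C ∧ 10 ≤ T0 ∧ ∀ T : ℝ, T0 ≤ T →
    ∫⁻ t : ℝ, ENNReal.ofReal ((∑ s ∈ (Zf riemannZeta T (2 * T)).filter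
      (fun s => |s.im - t| ≤ 1 / Real.log T),
      (mult riemannZeta s : ℝ) * ew κ (Real.log T) s) ^ 2) ≤ ENNReal.ofReal (C * T) := Loc.main

end Pool.Agent.TH850.UV
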