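import Pool.Agent.TH850.UV.Defs
import Pool.Agent.TH850.UR.K

/-!
# UV-A: the kernel
-/

set_option autoImplicit false

namespace Pool.Agent.TH850.UV

open Complex MeasureTheory Set Filter Topology

theorem om_cont : Continuous om := by
  unfold om
  fun_prop

namespace KernAux

lemma om_nonneg (α : ℝ) : 0 ≤ om α := by
  unfold om
  positivity

lemma om_le_one (α : ℝ) : om α ≤ 1 := by
  unfold om
  refine pow_le_one₀ (le_max_left _ _) (max_le zero_le_one ?_)
  nlinarith [sq_nonneg α]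

lemma om_neg (α : ℝ) : om (-α) = om α := by
  unfold om
  rw [neg_sq]

lemma om_zero : om 0 = 1 := by
  unfold om
  norm_num

lemma om_eq {α : ℝ} (h1 : -(1 / 2) ≤ α) (h2 : α ≤ 1 / 2) : om α = (1 - 4 * α ^ 2) ^ 4 := by
  unfold om
  rw [max_eq_right]
  nlinarith

lemma om_out {α : ℝ} (h : 1 / 2 ≤ |α|) : om α = 0 := by
  unfold om
  rw [max_eq_left]
  · norm_num
  · have : (1 / 2) ^ 2 ≤ α ^ 2 := by
      rw [← sq_abs α]
      exact pow_le_pow_left₀ (by norm_num) h 2
    linarith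

lemma cos_bd {α : ℝ} (h1 : -(1 / 2) ≤ α) (h2 : α ≤ 1 / 2) (z : ℂ) :
    ‖Complex.cos (2 * Real.pi * α * z)‖ ≤ Real.exp (Real.pi * |z.im|) := by
  have hpi := Real.pi_pos
  refine (Pool.Agent.TH850.UR.norm_cos_le _).trans (Real.exp_le_exp.2 ?_)
  have h : (2 * (Real.pi : ℂ) * α * z).im = 2 * Real.pi * α * z.im := by
    have : (2 * (Real.pi : ℂ) * α * z) = ((2 * Real.pi * α : ℝ) : ℂ) * z := by push_cast; ring
    rw [this, Complex.im_ofReal_mul]
  rw [h, abs_mul, abs_mul, abs_mul, abs_of_pos hpi, abs_of_pos (by norm_num : (0 : ℝ) < 2)]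
  have h3 : |α| ≤ 1 / 2 := abs_le.2 ⟨h1, h2⟩
  have h4 := abs_nonneg z.im
  nlinarith [mul_nonneg hpi.le h4]

end KernAux

open KernAux

theorem kC_cont : Continuous kC := by
  have htc := om_cont
  unfold kC
  fun_prop

theorem kC_neg (z : ℂ) : kC (-z) = kC z := by
  unfold kC
  congr 1
  funext α
  rw [mul_neg, Complex.cos_neg]

theorem kC_conj (z : ℂ) : kC ((starRingEnd ℂ) z) = (starRingEnd ℂ) (kC z) := by
  unfold kC
  rw [intervalIntegral.integral_of_le (by norm_num), intervalIntegral.integral_of_le (by norm_num),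
    ← integral_conj]
  refine integral_congr_ae (Eventually.of_forall fun α => ?_)
  simp only [map_mul, Complex.conj_ofReal, ← Complex.cos_conj, map_ofNat]

theorem kC_le (z : ℂ) : ‖kC z‖ ≤ Real.exp (Real.pi * |z.im|) := by
  have htc := om_cont
  unfold kC
  calc ‖∫ α in (-(1 / 2 : ℝ))..(1 / 2), (om α : ℂ) * Complex.cos (2 * Real.pi * α * z)‖ ≤
      Real.exp (Real.pi * |z.im|) * |1 / 2 - (-(1 / 2 : ℝ))| := by
        refine intervalIntegral.norm_integral_le_of_norm_le_const fun α hα => ?_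
        rw [Set.uIoc_of_le (by norm_num)] at hα
        rw [norm_mul, Complex.norm_real, Real.norm_of_nonneg (om_nonneg α)]
        calc om α * ‖Complex.cos (2 * Real.pi * α * z)‖ ≤ 1 * Real.exp (Real.pi * |z.im|) :=
              mul_le_mul (om_le_one α) (cos_bd hα.1.le hα.2 z) (norm_nonneg _) zero_le_one
          _ = _ := one_mul _
    _ = _ := by norm_num

namespace KernAux

/-- four integrations by parts -/
lemma parts (w : ℂ) (hw : w ≠ 0) :
    ∫ α in (-(1 / 2 : ℝ))..(1 / 2), ((1 - 4 * (α : ℂ) ^ 2) ^ 4 * Complex.cos (w * α)) =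
      ∫ α in (-(1 / 2 : ℝ))..(1 / 2),
        ((2304 - 92160 * (α : ℂ) ^ 2 + 430080 * (α : ℂ) ^ 4) * (Complex.cos (w * α) / w ^ 4)) := by
  rw [← sub_eq_zero, ← intervalIntegral.integral_sub
    (Continuous.intervalIntegrable (by fun_prop) _ _)
    (Continuous.intervalIntegrable (by fun_prop) _ _)]
  have hd : ∀ α ∈ Set.uIcc (-(1 / 2 : ℝ)) (1 / 2), HasDerivAt
      (fun α : ℝ => (1 - 4 * (α : ℂ) ^ 2) ^ 4 * (Complex.sin (w * α) / w) +
        (-32 * (α : ℂ) * (1 - 4 * (α : ℂ) ^ 2) ^ 3) * (Complex.cos (w * α) / w ^ 2) -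
        ((1 - 4 * (α : ℂ) ^ 2) ^ 2 * (896 * (α : ℂ) ^ 2 - 32)) * (Complex.sin (w * α) / w ^ 3) -
        ((1 - 4 * (α : ℂ) ^ 2) * α * (2304 - 21504 * (α : ℂ) ^ 2)) *
          (Complex.cos (w * α) / w ^ 4))
      ((1 - 4 * (α : ℂ) ^ 2) ^ 4 * Complex.cos (w * α) -
        (2304 - 92160 * (α : ℂ) ^ 2 + 430080 * (α : ℂ) ^ 4) * (Complex.cos (w * α) / w ^ 4)) α := by
    intro α _
    have hlin : HasDerivAt (fun z : ℂ => w * z) w (α : ℂ) := by
      simpa using (hasDerivAt_id' (α : ℂ)).const_mul w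
    have hs := hlin.csin
    have hc := hlin.ccos
    have hq : HasDerivAt (fun z : ℂ => 1 - 4 * z ^ 2) (-(4 * (2 * (α : ℂ)))) (α : ℂ) := by
      have h := (((hasDerivAt_id' (α : ℂ)).fun_pow 2).const_mul 4).const_sub 1
      refine h.congr_deriv ?_
      simp
    have h0 := (hq.fun_pow 4).fun_mul (hs.div_const w)
    have h1 := (((hasDerivAt_id' (α : ℂ)).const_mul (-32)).fun_mul (hq.fun_pow 3)).fun_mul
      (hc.div_const (w ^ 2))
    have h2 := ((hq.fun_pow 2).fun_mul ((((hasDerivAt_id' (α : ℂ)).fun_pow 2).const_mul 896).sub_const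
      32)).fun_mul (hs.div_const (w ^ 3))
    have h3 := ((hq.fun_mul (hasDerivAt_id' (α : ℂ))).fun_mul
      ((((hasDerivAt_id' (α : ℂ)).fun_pow 2).const_mul 21504).const_sub 2304)).fun_mul
        (hc.div_const (w ^ 4))
    have h := (((h0.fun_add h1).fun_sub h2).fun_sub h3).comp_ofReal
    refine h.congr_deriv ?_
    field_simp
    push_cast
    ring
  rw [intervalIntegral.integral_eq_sub_of_hasDerivAt hd
    (Continuous.intervalIntegrable (by fun_prop) _ _)]
  push_cast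
  norm_num

lemma kC_decay4 (z : ℂ) : ‖kC z‖ * ‖z‖ ^ 4 ≤ 41 * Real.exp (Real.pi * |z.im|) := by
  have hpi := Real.pi_pos
  have hpi3 := Real.pi_gt_three
  set E := Real.exp (Real.pi * |z.im|) with hE
  have hE0 : 0 < E := Real.exp_pos _
  by_cases hz : z = 0
  · subst hz
    simp
    positivity
  have hw : (2 * Real.pi * z : ℂ) ≠ 0 := by
    refine mul_ne_zero (mul_ne_zero (by norm_num) ?_) hz
    exact_mod_cast hpi.ne'
  have h1 : kC z = ∫ α in (-(1 / 2 : ℝ))..(1 / 2),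
      ((2304 - 92160 * (α : ℂ) ^ 2 + 430080 * (α : ℂ) ^ 4) *
        (Complex.cos ((2 * Real.pi * z) * α) / (2 * Real.pi * z) ^ 4)) := by
    rw [← parts _ hw]
    unfold kC
    refine intervalIntegral.integral_congr fun α hα => ?_
    rw [Set.uIcc_of_le (by norm_num)] at hα
    rw [om_eq hα.1 hα.2]
    push_cast
    congr 2
    ring
  have hnz : 0 < ‖z‖ := norm_pos_iff.2 hz
  have hnw : ‖(2 * Real.pi * z : ℂ) ^ 4‖ = (2 * Real.pi) ^ 4 * ‖z‖ ^ 4 := by
    rw [norm_pow, norm_mul, norm_mul, Complex.norm_real, Real.norm_of_nonneg hpi.le,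
      Complex.norm_ofNat]
    ring
  have h2 : ‖kC z‖ ≤ 52224 * E / ((2 * Real.pi) ^ 4 * ‖z‖ ^ 4) := by
    rw [h1]
    calc _ ≤ (52224 * E / ((2 * Real.pi) ^ 4 * ‖z‖ ^ 4)) * |1 / 2 - (-(1 / 2 : ℝ))| := by
          refine intervalIntegral.norm_integral_le_of_norm_le_const fun α hα => ?_
          rw [Set.uIoc_of_le (by norm_num)] at hα
          rw [norm_mul, norm_div, hnw, mul_div_assoc]
          have h3 : ‖(2304 - 92160 * (α : ℂ) ^ 2 + 430080 * (α : ℂ) ^ 4)‖ ≤ 52224 := by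
            have e : (2304 - 92160 * (α : ℂ) ^ 2 + 430080 * (α : ℂ) ^ 4) =
                ((2304 - 92160 * α ^ 2 + 430080 * α ^ 4 : ℝ) : ℂ) := by push_cast; ring
            rw [e, Complex.norm_real, Real.norm_eq_abs, abs_le]
            have h4 : α ^ 2 ≤ 1 / 4 := by nlinarith [hα.1, hα.2]
            have h5 : 0 ≤ α ^ 2 := sq_nonneg α
            have h6 : α ^ 4 = α ^ 2 * α ^ 2 := by ring
            rw [h6]
            constructor <;> nlinarith
          have h7 : ‖Complex.cos (2 * Real.pi * z * α)‖ ≤ E := by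
            have := cos_bd hα.1.le hα.2 z
            rw [show (2 * Real.pi * z * α : ℂ) = 2 * Real.pi * α * z by ring]
            exact this
          gcongr
      _ = _ := by norm_num
  have h8 : (6 : ℝ) ^ 4 ≤ (2 * Real.pi) ^ 4 := by
    apply pow_le_pow_left₀ (by norm_num)
    linarith
  calc ‖kC z‖ * ‖z‖ ^ 4 ≤ 52224 * E / ((2 * Real.pi) ^ 4 * ‖z‖ ^ 4) * ‖z‖ ^ 4 := by gcongr
    _ = 52224 * E / (2 * Real.pi) ^ 4 := by field_simp
    _ ≤ 52224 * E / 6 ^ 4 := by gcongr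
    _ ≤ 41 * E := by
        rw [div_le_iff₀ (by norm_num)]
        nlinarith

end KernAux

theorem kC_decay : ∃ C : ℝ, 0 < C ∧ ∀ z : ℂ,
    ‖kC z‖ * (1 + ‖z‖ ^ 2) ^ 2 ≤ C * Real.exp (Real.pi * |z.im|) := by
  refine ⟨84, by norm_num, fun z => ?_⟩
  have h1 := kC_le z
  have h2 := kC_decay4 z
  have h3 := norm_nonneg (kC z)
  have h4 : (1 + ‖z‖ ^ 2) ^ 2 ≤ 2 + 2 * ‖z‖ ^ 4 := by nlinarith [sq_nonneg (1 - ‖z‖ ^ 2)]
  calc ‖kC z‖ * (1 + ‖z‖ ^ 2) ^ 2 ≤ ‖kC z‖ * (2 + 2 * ‖z‖ ^ 4) := by gcongr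
    _ = 2 * ‖kC z‖ + 2 * (‖kC z‖ * ‖z‖ ^ 4) := by ring
    _ ≤ 2 * Real.exp (Real.pi * |z.im|) + 2 * (41 * Real.exp (Real.pi * |z.im|)) := by gcongr
    _ = _ := by ring

theorem qk_cont : Continuous fun p : ℝ × ℝ => qk p.1 p.2 := by
  have h := kC_cont
  unfold qk
  fun_prop

theorem qk_even (y x : ℝ) : qk y (-x) = qk y x := by
  unfold qk
  have h : (((-x : ℝ) : ℂ) + y * I) = -((starRingEnd ℂ) (x + y * I)) := by
    simp [Complex.conj_ofReal]
    ring
  rw [h, kC_neg, kC_conj, Complex.conj_re]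

theorem qk_symm (y x : ℝ) : qk (-y) x = qk y x := by
  unfold qk
  have h : ((x : ℂ) + ((-y : ℝ) : ℂ) * I) = (starRingEnd ℂ) (x + y * I) := by
    simp [Complex.conj_ofReal]
  rw [h, kC_conj, Complex.conj_re]

theorem qk_decay : ∃ C : ℝ, 0 < C ∧ ∀ y x : ℝ,
    |qk y x| ≤ C * Real.exp (Real.pi * |y|) / (1 + x ^ 2) ^ 2 := by
  obtain ⟨C, hC, h⟩ := kC_decay
  refine ⟨C, hC, fun y x => ?_⟩
  have h1 := h (x + y * I)
  have h2 : ((x : ℂ) + y * I).im = y := by simp
  have h3 : ‖(x : ℂ) + y * I‖ ^ 2 = x ^ 2 + y ^ 2 := by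
    rw [Complex.sq_norm, Complex.normSq_apply]
    simp
    ring
  rw [h2, h3] at h1
  rw [le_div_iff₀ (by positivity)]
  calc |qk y x| * (1 + x ^ 2) ^ 2 ≤ ‖kC (x + y * I)‖ * (1 + (x ^ 2 + y ^ 2)) ^ 2 := by
        have h4 : |qk y x| ≤ ‖kC (x + y * I)‖ := Complex.abs_re_le_norm _
        have h5 : 1 + x ^ 2 ≤ 1 + (x ^ 2 + y ^ 2) := by nlinarith [sq_nonneg y]
        gcongr
    _ ≤ _ := h1

namespace KernAux

lemma cont_y (y : ℝ) : Continuous (qk y) := by
  have h := kC_cont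
  have e : qk y = fun x : ℝ => (kC (x + y * I)).re := rfl
  rw [e]
  fun_prop

end KernAux

theorem qk_integrable (y : ℝ) : Integrable (qk y) := by
  obtain ⟨C, hC, h⟩ := qk_decay
  refine Integrable.mono' ((integrable_inv_one_add_sq).const_mul (C * Real.exp (Real.pi * |y|)))
    (cont_y y).aestronglyMeasurable (Eventually.of_forall fun x => ?_)
  rw [Real.norm_eq_abs]
  refine (h y x).trans ?_
  rw [div_eq_mul_inv]
  have h1 : ((1 + x ^ 2) ^ 2)⁻¹ ≤ (1 + x ^ 2)⁻¹ := by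
    apply inv_anti₀ (by positivity)
    nlinarith [sq_nonneg x, sq_nonneg (x ^ 2)]
  have h2 : 0 ≤ C * Real.exp (Real.pi * |y|) := by positivity
  exact mul_le_mul_of_nonneg_left h1 h2

namespace KernAux

/-- exponential form of the kernel -/
lemma kC_exp (z : ℂ) : ∫ α in (-(1 / 2 : ℝ))..(1 / 2),
    (om α : ℂ) * cexp (-(2 * Real.pi * α * z) * I) = kC z := by
  have htc := om_cont
  have hneg := intervalIntegral.integral_comp_neg (a := (-(1 / 2 : ℝ))) (b := 1 / 2)
    (fun α : ℝ => (om α : ℂ) * cexp (-(2 * Real.pi * α * z) * I))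
  rw [neg_neg] at hneg
  have h2 : (2 : ℂ) * ∫ α in (-(1 / 2 : ℝ))..(1 / 2),
      (om α : ℂ) * cexp (-(2 * Real.pi * α * z) * I) = 2 * kC z := by
    rw [two_mul]
    nth_rewrite 1 [← hneg]
    rw [← intervalIntegral.integral_add (Continuous.intervalIntegrable (by fun_prop) _ _)
      (Continuous.intervalIntegrable (by fun_prop) _ _)]
    unfold kC
    rw [← intervalIntegral.integral_const_mul]
    refine intervalIntegral.integral_congr fun α _ => ?_
    rw [om_neg, Complex.cos]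
    push_cast
    have e1 : (-(2 * Real.pi * -(α : ℂ) * z) * I : ℂ) = 2 * Real.pi * α * z * I := by ring
    rw [e1]
    ring
  exact mul_left_cancel₀ two_ne_zero h2

/-- the function whose Fourier transform is the kernel on a horizontal line -/
noncomputable def ff (y a : ℝ) : ℂ := (om a : ℂ) * cexp ((-(2 * Real.pi * a * y) : ℝ) : ℂ)

lemma ff_cont (y : ℝ) : Continuous (ff y) := by
  have htc := om_cont
  unfold ff
  fun_prop

lemma ff_int (y : ℝ) : Integrable (ff y) := by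
  refine (ff_cont y).integrable_of_hasCompactSupport ?_
  refine HasCompactSupport.intro (K := Icc (-(1 / 2 : ℝ)) (1 / 2)) isCompact_Icc fun a ha => ?_
  unfold ff
  rw [om_out, Complex.ofReal_zero, zero_mul]
  by_contra hcon
  push Not at hcon
  exact ha ⟨(abs_lt.1 hcon).1.le, (abs_lt.1 hcon).2.le⟩

lemma ff_four (y w : ℝ) : FourierTransform.fourier (ff y) w = kC (w - y * I) := by
  rw [Real.fourier_real_eq_integral_exp_smul, ← kC_exp,
    intervalIntegral.integral_of_le (by norm_num), ← integral_Icc_eq_integral_Ioc]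
  symm
  have h1 : ∀ a : ℝ, (om a : ℂ) * cexp (-(2 * Real.pi * a * (w - y * I)) * I) =
      cexp (((-2 * Real.pi * a * w : ℝ) : ℂ) * I) • ff y a := by
    intro a
    unfold ff
    rw [smul_eq_mul, mul_left_comm, ← Complex.exp_add]
    congr 2
    push_cast
    linear_combination (2 * Real.pi * a * y : ℂ) * Complex.I_sq
  simp only [h1]
  refine setIntegral_eq_integral_of_forall_compl_eq_zero fun a ha => ?_
  unfold ff
  rw [om_out, Complex.ofReal_zero, zero_mul, smul_zero]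
  by_contra hcon
  push Not at hcon
  exact ha ⟨(abs_lt.1 hcon).1.le, (abs_lt.1 hcon).2.le⟩

lemma kC_line_int (y : ℝ) : Integrable fun w : ℝ => kC (w - y * I) := by
  obtain ⟨C, hC, h⟩ := kC_decay
  have hc : Continuous fun w : ℝ => kC (w - y * I) := by
    have h := kC_cont
    fun_prop
  refine Integrable.mono' ((integrable_inv_one_add_sq).const_mul (C * Real.exp (Real.pi * |y|)))
    hc.aestronglyMeasurable (Eventually.of_forall fun x => ?_)
  have h1 := h (x - y * I)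
  have h2 : |((x : ℂ) - y * I).im| = |y| := by simp
  have h3 : ‖(x : ℂ) - y * I‖ ^ 2 = x ^ 2 + y ^ 2 := by
    rw [Complex.sq_norm, Complex.normSq_apply]
    simp
    ring
  rw [h2, h3] at h1
  rw [← div_eq_mul_inv, le_div_iff₀ (by positivity)]
  refine le_trans ?_ h1
  refine mul_le_mul_of_nonneg_left ?_ (norm_nonneg _)
  nlinarith [sq_nonneg x, sq_nonneg y, sq_nonneg (x ^ 2 + y ^ 2)]

lemma line_integral (y : ℝ) : ∫ w : ℝ, kC (w - y * I) = 1 := by
  have hF : FourierTransform.fourier (ff y) = fun w : ℝ => kC (w - y * I) := by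
    funext w
    exact ff_four y w
  have h := Continuous.fourierInv_fourier_eq (ff_cont y) (ff_int y) (by
    rw [hF]; exact kC_line_int y)
  have h0 := congrFun h 0
  rw [Real.fourierInv_eq', hF] at h0
  simp only [inner_zero_right, mul_zero, Complex.ofReal_zero, zero_mul, Complex.exp_zero,
    one_smul] at h0
  rw [h0]
  unfold ff
  rw [om_zero]
  simp

end KernAux

theorem qk_integral (y : ℝ) : ∫ x, qk y x = 1 := by
  have h := line_integral y
  have h2 : ∫ w : ℝ, (kC (w - y * I)).re = (∫ w : ℝ, kC (w - y * I)).re :=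
    integral_re (kC_line_int y)
  rw [h, Complex.one_re] at h2
  rw [← h2]
  refine integral_congr_ae (Eventually.of_forall fun x => ?_)
  simp only
  rw [← qk_symm]
  unfold qk
  congr 2
  push_cast
  ring

namespace KernAux

lemma pow_deriv (n : ℕ) (x : ℝ) (hx : 0 ≤ x) :
    HasDerivAt (fun u : ℝ => -(1 / ((n : ℝ) + 1)) * ((1 + u) ^ (n + 1))⁻¹)
      (((1 + x) ^ (n + 2))⁻¹) x := by
  have h1 : (1 + x) ≠ 0 := by positivity
  have h2 : HasDerivAt (fun u : ℝ => (1 + u) ^ (n + 1)) (((n + 1 : ℕ) : ℝ) * (1 + x) ^ n) x := by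
    have h := (((hasDerivAt_id' x).const_add 1).fun_pow (n + 1))
    refine h.congr_deriv ?_
    simp
  have h3 := (h2.fun_inv (pow_ne_zero _ h1)).const_mul (-(1 / ((n : ℝ) + 1)))
  refine h3.congr_deriv ?_
  have h4 : ((n : ℝ) + 1) ≠ 0 := by positivity
  push_cast
  field_simp
  ring

lemma pow_tendsto (n : ℕ) :
    Tendsto (fun u : ℝ => -(1 / ((n : ℝ) + 1)) * ((1 + u) ^ (n + 1))⁻¹) atTop (𝓝 0) := by
  have h1 : Tendsto (fun u : ℝ => (1 + u) ^ (n + 1)) atTop atTop :=
    (tendsto_pow_atTop (Nat.succ_ne_zero n)).comp (tendsto_atTop_add_const_left _ _ tendsto_id)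
  have h2 := (tendsto_inv_atTop_zero.comp h1).const_mul (-(1 / ((n : ℝ) + 1)))
  simpa using h2

lemma pow_intOn (n : ℕ) {x : ℝ} (hx : 0 ≤ x) :
    IntegrableOn (fun u : ℝ => ((1 + u) ^ (n + 2))⁻¹) (Ioi x) := by
  refine integrableOn_Ioi_deriv_of_nonneg' (fun u hu => pow_deriv n u (hx.trans hu)) (fun u hu => ?_)
    (pow_tendsto n)
  have : 0 < 1 + u := by have := hu.out; linarith
  positivity

lemma pow_int (n : ℕ) {x : ℝ} (hx : 0 ≤ x) :
    ∫ u in Ioi x, ((1 + u) ^ (n + 2))⁻¹ = (1 / ((n : ℝ) + 1)) * ((1 + x) ^ (n + 1))⁻¹ := by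
  have h := integral_Ioi_of_hasDerivAt_of_tendsto' (fun u hu => pow_deriv n u (hx.trans hu))
    (pow_intOn n hx) (pow_tendsto n)
  rw [h]
  ring

/-- tail of the kernel -/
noncomputable def TT (y x : ℝ) : ℝ := 1 / 2 - ∫ u in (0 : ℝ)..x, qk y u

lemma TT_cont (y : ℝ) : Continuous (TT y) := by
  unfold TT
  exact continuous_const.sub (intervalIntegral.continuous_primitive
    (fun a b => (cont_y y).intervalIntegrable a b) 0)

lemma half (y : ℝ) : ∫ u in Ioi (0 : ℝ), qk y u = 1 / 2 := by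
  have h1 := intervalIntegral.integral_Iic_add_Ioi (f := qk y) (μ := volume) (b := 0)
    (qk_integrable y).integrableOn (qk_integrable y).integrableOn
  have h2 : ∫ u in Iic (0 : ℝ), qk y u = ∫ u in Ioi (0 : ℝ), qk y u := by
    have h := integral_comp_neg_Iic (0 : ℝ) (qk y)
    rw [neg_zero] at h
    rw [← h]
    simp only [qk_even]
  rw [h2, qk_integral] at h1
  linarith

lemma TT_eq (y x : ℝ) (hx : 0 ≤ x) : TT y x = ∫ u in Ioi x, qk y u := by
  unfold TT
  have h := intervalIntegral.integral_Ioi_sub_Ioi (f := qk y) (μ := volume) (a := 0) (b := x)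
    (qk_integrable y).integrableOn hx
  rw [half] at h
  linarith

lemma TT_bound : ∃ C : ℝ, 0 < C ∧ ∀ y x : ℝ, 0 ≤ x →
    |TT y x| ≤ C * Real.exp (Real.pi * |y|) * ((1 + x) ^ 3)⁻¹ := by
  obtain ⟨C, hC, h⟩ := qk_decay
  refine ⟨4 * C, by positivity, fun y x hx => ?_⟩
  rw [TT_eq y x hx]
  set E := Real.exp (Real.pi * |y|) with hE
  have hE0 : 0 < E := Real.exp_pos _
  have h1 : ∀ u : ℝ, 0 ≤ u → |qk y u| ≤ 4 * C * E * ((1 + u) ^ (2 + 2))⁻¹ := by
    intro u hu
    refine (h y u).trans ?_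
    rw [div_eq_mul_inv]
    have h2 : ((1 + u ^ 2) ^ 2)⁻¹ ≤ 4 * ((1 + u) ^ (2 + 2))⁻¹ := by
      rw [← div_eq_mul_inv, inv_eq_one_div, div_le_div_iff₀ (by positivity) (by positivity)]
      have h3 : (1 + u) ^ 2 ≤ 2 * (1 + u ^ 2) := by nlinarith [sq_nonneg (1 - u)]
      have h4 : (1 + u) ^ (2 + 2) = ((1 + u) ^ 2) ^ 2 := by ring
      rw [h4]
      have h5 := pow_le_pow_left₀ (sq_nonneg (1 + u)) h3 2
      nlinarith
    calc C * E * ((1 + u ^ 2) ^ 2)⁻¹ ≤ C * E * (4 * ((1 + u) ^ (2 + 2))⁻¹) := by gcongr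
      _ = _ := by ring
  calc |∫ u in Ioi x, qk y u| ≤ ∫ u in Ioi x, |qk y u| := abs_integral_le_integral_abs
    _ ≤ ∫ u in Ioi x, 4 * C * E * ((1 + u) ^ (2 + 2))⁻¹ := by
        refine setIntegral_mono_on (qk_integrable y).abs.integrableOn
          ((pow_intOn 2 hx).const_mul _) measurableSet_Ioi fun u hu => ?_
        exact h1 u (hx.trans hu.out.le)
    _ = 4 * C * E * ((1 / ((2 : ℕ) + 1 : ℝ)) * ((1 + x) ^ (2 + 1))⁻¹) := by
        rw [integral_const_mul, pow_int 2 hx]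
    _ ≤ 4 * C * E * (1 * ((1 + x) ^ (2 + 1))⁻¹) := by
        gcongr
        norm_num
    _ = _ := by ring

lemma prim_odd (y x : ℝ) : ∫ u in (0 : ℝ)..(-x), qk y u = -∫ u in (0 : ℝ)..x, qk y u := by
  have h := intervalIntegral.integral_comp_neg (a := (0 : ℝ)) (b := x) (qk y)
  simp only [qk_even, neg_zero] at h
  rw [h, intervalIntegral.integral_symm]

lemma Qk_eq1 (y x : ℝ) : Qk y x = 1 - TT y x := by
  unfold Qk TT
  ring

lemma Qk_eq2 (y x : ℝ) : Qk y x = TT y (-x) := by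
  unfold Qk TT
  rw [prim_odd]
  ring

lemma Qk_cont (y : ℝ) : Continuous (Qk y) := by
  have h : Qk y = fun x => 1 - TT y x := by
    funext x
    exact Qk_eq1 y x
  rw [h]
  exact continuous_const.sub (TT_cont y)

lemma Jk_abs (y x : ℝ) : |Jk y x| = |TT y (|x|)| := by
  unfold Jk
  by_cases hx : 0 < x
  · rw [if_pos hx, abs_of_pos hx, Qk_eq1, ← abs_neg]
    congr 1
    ring
  · rw [if_neg hx, abs_of_nonpos (not_lt.1 hx), Qk_eq2, sub_zero]

lemma inv_le_aux (x : ℝ) : ((1 + |x|) ^ 2)⁻¹ ≤ (1 + x ^ 2)⁻¹ := by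
  apply inv_anti₀ (by positivity)
  have h1 := abs_nonneg x
  have h2 := sq_abs x
  nlinarith

end KernAux

theorem Jk_le : ∃ C : ℝ, 0 < C ∧ ∀ y x : ℝ,
    |Jk y x| ≤ C * Real.exp (Real.pi * |y|) / (1 + x ^ 2) := by
  obtain ⟨C, hC, h⟩ := TT_bound
  refine ⟨C, hC, fun y x => ?_⟩
  rw [Jk_abs]
  refine (h y (|x|) (abs_nonneg x)).trans ?_
  rw [div_eq_mul_inv]
  refine mul_le_mul_of_nonneg_left ?_ (by positivity)
  refine le_trans ?_ (inv_le_aux x)
  apply inv_anti₀ (by positivity)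
  exact pow_le_pow_right₀ (by have := abs_nonneg x; linarith) (by norm_num)

namespace KernAux

lemma TT_intOn (y : ℝ) {x : ℝ} (hx : 0 ≤ x) : IntegrableOn (TT y) (Ioi x) := by
  obtain ⟨C, hC, h⟩ := TT_bound
  refine Integrable.mono' ((pow_intOn 1 hx).const_mul (C * Real.exp (Real.pi * |y|)))
    (TT_cont y).aestronglyMeasurable ?_
  refine (ae_restrict_mem measurableSet_Ioi).mono fun u hu => ?_
  rw [Real.norm_eq_abs]
  exact h y u (hx.trans hu.out.le)

lemma max_deriv (x : ℝ) : HasDerivWithinAt (fun u : ℝ => max u 0) (if 0 < x then 1 else 0)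
    (Iio x) x := by
  by_cases hx : 0 < x
  · rw [if_pos hx]
    refine HasDerivAt.hasDerivWithinAt ?_
    refine (hasDerivAt_id' x).congr_of_eventuallyEq ?_
    filter_upwards [lt_mem_nhds hx] with u hu
    exact max_eq_left hu.le
  · rw [if_neg hx]
    have hx' := not_lt.1 hx
    refine (hasDerivWithinAt_const x (Iio x) (0 : ℝ)).congr (fun u hu => ?_) ?_
    · exact max_eq_right (hu.out.le.trans hx')
    · exact max_eq_right hx'

end KernAux

theorem Pk_exists : ∃ C : ℝ, 0 < C ∧ ∀ y : ℝ, ∃ P : ℝ → ℝ, Continuous P ∧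
    (∀ x : ℝ, HasDerivWithinAt P (Jk y x) (Iio x) x) ∧
    ∀ x : ℝ, |P x| ≤ C * Real.exp (Real.pi * |y|) / (1 + x ^ 2) := by
  obtain ⟨C, hC, h⟩ := TT_bound
  refine ⟨C, hC, fun y => ?_⟩
  have hQ := Qk_cont y
  have hT := TT_cont y
  refine ⟨fun x => (∫ u in Ioi (0 : ℝ), TT y u) + (∫ u in (0 : ℝ)..x, Qk y u) - max x 0, ?_, ?_, ?_⟩
  · exact (continuous_const.add (intervalIntegral.continuous_primitive
      (fun a b => hQ.intervalIntegrable a b) 0)).sub (continuous_id.max continuous_const)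
  · intro x
    have h1 := (hQ.integral_hasStrictDerivAt 0 x).hasDerivAt.hasDerivWithinAt (s := Iio x)
    have h2 := (h1.const_add (∫ u in Ioi (0 : ℝ), TT y u)).sub (max_deriv x)
    exact h2
  · intro x
    have hP : (∫ u in Ioi (0 : ℝ), TT y u) + (∫ u in (0 : ℝ)..x, Qk y u) - max x 0 =
        ∫ u in Ioi |x|, TT y u := by
      rcases le_total 0 x with hx | hx
      · rw [abs_of_nonneg hx, max_eq_left hx]
        have h1 := intervalIntegral.integral_Ioi_sub_Ioi (f := TT y) (μ := volume) (a := 0) (b := x)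
          (TT_intOn y le_rfl) hx
        have h2 : ∫ u in (0 : ℝ)..x, Qk y u = x - ∫ u in (0 : ℝ)..x, TT y u := by
          have e : ∀ u ∈ Set.uIcc (0 : ℝ) x, Qk y u = 1 - TT y u := fun u _ => Qk_eq1 y u
          rw [intervalIntegral.integral_congr e, intervalIntegral.integral_sub
            (Continuous.intervalIntegrable continuous_const _ _) (hT.intervalIntegrable _ _)]
          simp
        rw [h2]
        linarith
      · rw [abs_of_nonpos hx, max_eq_right hx]
        have h1 := intervalIntegral.integral_Ioi_sub_Ioi (f := TT y) (μ := volume) (a := 0)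
          (b := -x) (TT_intOn y le_rfl) (by linarith)
        have h2 : ∫ u in (0 : ℝ)..x, Qk y u = -∫ u in (0 : ℝ)..(-x), TT y u := by
          have e : ∀ u ∈ Set.uIcc (0 : ℝ) x, Qk y u = TT y (-u) := fun u _ => Qk_eq2 y u
          rw [intervalIntegral.integral_congr e, intervalIntegral.integral_comp_neg, neg_zero,
            intervalIntegral.integral_symm]
        rw [h2]
        linarith
    show |(∫ u in Ioi (0 : ℝ), TT y u) + (∫ u in (0 : ℝ)..x, Qk y u) - max x 0| ≤ _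
    rw [hP]
    have hx := abs_nonneg x
    set E := Real.exp (Real.pi * |y|) with hE
    have hE0 : 0 < E := Real.exp_pos _
    calc |∫ u in Ioi |x|, TT y u| ≤ ∫ u in Ioi |x|, |TT y u| := abs_integral_le_integral_abs
      _ ≤ ∫ u in Ioi |x|, C * E * ((1 + u) ^ (1 + 2))⁻¹ := by
          refine setIntegral_mono_on (TT_intOn y hx).abs
            ((pow_intOn 1 hx).const_mul _) measurableSet_Ioi fun u hu => ?_
          exact h y u (hx.trans hu.out.le)
      _ = C * E * ((1 / ((1 : ℕ) + 1 : ℝ)) * ((1 + |x|) ^ (1 + 1))⁻¹) := by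
          rw [integral_const_mul, pow_int 1 hx]
      _ ≤ C * E * (1 * (1 + x ^ 2)⁻¹) := by
          have h1 := inv_le_aux x
          have h2 : (1 / ((1 : ℕ) + 1 : ℝ)) ≤ 1 := by norm_num
          gcongr
      _ = _ := by rw [one_mul, div_eq_mul_inv]

end Pool.Agent.TH850.UV
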