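import Pool.Agent.TH850.UV.St2

set_option autoImplicit false

/-! # The number variance away from the endpoints -/

namespace Pool.Agent.TH850.UV

open Complex Filter Topology MeasureTheory Set
open Pool.Agent.TH850.UR (ew)
open H370 (zz Zf mult mem_Zf good_zeta NN NN_eq zz_re zz_im)
open H370.A2 (lamC)

/-- Cauchy-Schwarz on an interval -/
lemma cs_int {g : ℝ → ℝ} (hg : Continuous g) (t h : ℝ) (hh : 0 ≤ h) :
    (∫ τ in t..(t + h), g τ) ^ 2 ≤ h * ∫ τ in t..(t + h), g τ ^ 2 := by
  rcases hh.eq_or_lt with hh | hh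
  · rw [← hh]; simp
  set A := ∫ τ in t..(t + h), g τ with hA
  have h1 : 0 ≤ ∫ τ in t..(t + h), (g τ - A / h) ^ 2 :=
    intervalIntegral.integral_nonneg (by linarith) fun x _ => sq_nonneg _
  have h2 : ∫ τ in t..(t + h), (g τ - A / h) ^ 2 =
      (∫ τ in t..(t + h), g τ ^ 2) - 2 * (A / h) * A + (A / h) ^ 2 * h := by
    have e : ∀ τ, (g τ - A / h) ^ 2 = g τ ^ 2 - 2 * (A / h) * g τ + (A / h) ^ 2 := fun τ => by ring
    simp_rw [e]
    rw [intervalIntegral.integral_add (Continuous.intervalIntegrable (by fun_prop) _ _)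
      (Continuous.intervalIntegrable (by fun_prop) _ _),
      intervalIntegral.integral_sub (Continuous.intervalIntegrable (by fun_prop) _ _)
      (Continuous.intervalIntegrable (by fun_prop) _ _), intervalIntegral.integral_const_mul,
      intervalIntegral.integral_const, smul_eq_mul]
    ring
  rw [h2] at h1
  have h3 : 2 * (A / h) * A - (A / h) ^ 2 * h = A ^ 2 / h := by field_simp; ring
  have h4 : A ^ 2 / h ≤ ∫ τ in t..(t + h), g τ ^ 2 := by linarith
  rw [div_le_iff₀ hh] at h4
  linarith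

/-- the bound of the remainder -/
lemma R_est {h c1 c2 A B : ℝ} {R VVf : ℝ → ℝ} (hAB : A ≤ B) (hh : 0 ≤ h)
    (hR : Continuous R) (hV : Continuous VVf) (hVi : Integrable fun t => VVf t ^ 2)
    (hb : ∀ t ∈ Icc A B, |R t| ≤ c1 + c2 * ∫ τ in t..(t + h), VVf τ) :
    ∫ t in A..B, R t ^ 2 ≤ 2 * c1 ^ 2 * (B - A) + 2 * c2 ^ 2 * h * (h * ∫ t, VVf t ^ 2) := by
  have hΦ : Continuous fun t => ∫ τ in t..(t + h), VVf τ ^ 2 := by
    have e : ∀ t, ∫ τ in t..(t + h), VVf τ ^ 2 =
        (∫ τ in (0 : ℝ)..(t + h), VVf τ ^ 2) - ∫ τ in (0 : ℝ)..t, VVf τ ^ 2 := fun t =>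
      (intervalIntegral.integral_interval_sub_left
        (Continuous.intervalIntegrable (by fun_prop) _ _)
        (Continuous.intervalIntegrable (by fun_prop) _ _)).symm
    simp_rw [e]
    have h1 : Continuous fun x => ∫ τ in (0 : ℝ)..x, VVf τ ^ 2 :=
      intervalIntegral.continuous_primitive (fun a b => Continuous.intervalIntegrable
        (by fun_prop) _ _) 0
    exact (h1.comp (by fun_prop)).sub h1
  have h1 : ∫ t in A..B, R t ^ 2 ≤ ∫ t in A..B, (2 * c1 ^ 2 + 2 * c2 ^ 2 * h *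
      ∫ τ in t..(t + h), VVf τ ^ 2) := by
    refine intervalIntegral.integral_mono_on hAB (Continuous.intervalIntegrable (by fun_prop) _ _)
      (Continuous.intervalIntegrable (by fun_prop) _ _) fun t ht => ?_
    have h2 := hb t ht
    have h3 := cs_int hV t h hh
    set J := ∫ τ in t..(t + h), VVf τ with hJ
    have h4 : R t ^ 2 ≤ (c1 + c2 * J) ^ 2 := by
      rw [← sq_abs]
      exact pow_le_pow_left₀ (abs_nonneg _) h2 2
    have h5 : (c1 + c2 * J) ^ 2 ≤ 2 * c1 ^ 2 + 2 * c2 ^ 2 * J ^ 2 := by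
      nlinarith [sq_nonneg (c1 - c2 * J)]
    have h6 : 2 * c2 ^ 2 * J ^ 2 ≤ 2 * c2 ^ 2 * (h * ∫ τ in t..(t + h), VVf τ ^ 2) :=
      mul_le_mul_of_nonneg_left h3 (by positivity)
    linarith
  refine h1.trans ?_
  rw [intervalIntegral.integral_add (Continuous.intervalIntegrable (by fun_prop) _ _)
    (Continuous.intervalIntegrable (by fun_prop) _ _), intervalIntegral.integral_const,
    intervalIntegral.integral_const_mul, smul_eq_mul]
  have h2 := int_win_le hVi (by fun_prop) (fun t => sq_nonneg (VVf t)) hAB hh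
  have h3 : 2 * c2 ^ 2 * h * (∫ t in A..B, ∫ τ in t..(t + h), VVf τ ^ 2) ≤
      2 * c2 ^ 2 * h * (h * ∫ t, VVf t ^ 2) :=
    mul_le_mul_of_nonneg_left h2 (by positivity)
  linarith

/-- the pieces -/
lemma assemble {A B q T CR CD C1 C2 lg : ℝ} {E D R J : ℝ → ℝ} (hAB : A ≤ B)
    (hE : Continuous E) (hD : Continuous D) (hJm : Measurable J) {M : ℝ} (hJM : ∀ t, |J t| ≤ M)
    (hRd : ∀ t, R t = E t + D t) (hq : 0 < q)
    (h1 : ∫ t in A..B, R t ^ 2 ≤ CR) (h2 : q * ∫ t in A..B, R t ^ 2 ≤ CR)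
    (h3 : (1 / q) * ∫ t in A..B, D t ^ 2 ≤ CD)
    (h4 : |∫ t in A..B, E t * J t| ≤ C1) (h5 : ∫ t in A..B, J t ^ 2 ≤ C2)
    (h6 : |(∫ t in A..B, D t ^ 2) - lg| ≤ T) :
    |(∫ t in A..B, (E t - J t) ^ 2) - lg| ≤ T + 2 * CR + CD + 2 * C1 + C2 := by
  have hR : Continuous R := by
    have : R = fun t => E t + D t := funext hRd
    rw [this]; fun_prop
  have hJi : IntervalIntegrable J volume A B := bdd_int hJm hJM A B
  have hJi2 : IntervalIntegrable (fun t => J t ^ 2) volume A B := by
    refine bdd_int (hJm.pow_const 2) (M := M ^ 2) (fun t => ?_) A B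
    rw [abs_pow]
    exact pow_le_pow_left₀ (abs_nonneg _) (hJM t) 2
  have hEJ : IntervalIntegrable (fun t => E t * J t) volume A B := hJi.continuousOn_mul hE.continuousOn
  have e1 : ∀ t, (E t - J t) ^ 2 = (D t ^ 2 + (R t ^ 2 - 2 * R t * D t)) - 2 * (E t * J t) +
      J t ^ 2 := by
    intro t
    rw [hRd]
    ring
  simp_rw [e1]
  have i1 : IntervalIntegrable (fun t => D t ^ 2) volume A B :=
    Continuous.intervalIntegrable (by fun_prop) _ _
  have i2 : IntervalIntegrable (fun t => R t ^ 2 - 2 * R t * D t) volume A B :=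
    Continuous.intervalIntegrable (by fun_prop) _ _
  rw [intervalIntegral.integral_add ((i1.add i2).sub (hEJ.const_mul 2)) hJi2,
    intervalIntegral.integral_sub (i1.add i2) (hEJ.const_mul 2),
    intervalIntegral.integral_add i1 i2, intervalIntegral.integral_const_mul]
  have h7 : |∫ t in A..B, (R t ^ 2 - 2 * R t * D t)| ≤ 2 * CR + CD := by
    refine (intervalIntegral.abs_integral_le_integral_abs hAB).trans ?_
    have h8 : ∫ t in A..B, |R t ^ 2 - 2 * R t * D t| ≤ ∫ t in A..B, (R t ^ 2 + (q * R t ^ 2 +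
        (1 / q) * D t ^ 2)) := by
      refine intervalIntegral.integral_mono_on hAB
        (Continuous.intervalIntegrable (by fun_prop) _ _)
        (Continuous.intervalIntegrable (by fun_prop) _ _) fun t _ => ?_
      refine (abs_sub _ _).trans ?_
      rw [abs_of_nonneg (sq_nonneg (R t))]
      apply add_le_add le_rfl
      have h9 : 0 ≤ (q * |R t| - |D t|) ^ 2 / q := by positivity
      have h10 : (q * |R t| - |D t|) ^ 2 / q = q * R t ^ 2 + (1 / q) * D t ^ 2 -
          2 * |R t| * |D t| := by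
        have e2 : R t ^ 2 = |R t| ^ 2 := (sq_abs _).symm
        have e3 : D t ^ 2 = |D t| ^ 2 := (sq_abs _).symm
        rw [e2, e3]
        field_simp
        ring
      rw [abs_mul, abs_mul, abs_of_pos (by norm_num : (0 : ℝ) < 2)]
      linarith
    refine h8.trans ?_
    rw [intervalIntegral.integral_add (Continuous.intervalIntegrable (by fun_prop) _ _)
      (Continuous.intervalIntegrable (by fun_prop) _ _),
      intervalIntegral.integral_add (Continuous.intervalIntegrable (by fun_prop) _ _)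
      (Continuous.intervalIntegrable (by fun_prop) _ _), intervalIntegral.integral_const_mul,
      intervalIntegral.integral_const_mul]
    linarith
  have h8 : 0 ≤ ∫ t in A..B, J t ^ 2 :=
    intervalIntegral.integral_nonneg hAB fun t _ => sq_nonneg _
  have a1 := abs_le.1 h4
  have a2 := abs_le.1 h6
  have a3 := abs_le.1 h7
  have a4 : 0 ≤ C2 := h8.trans h5
  rw [abs_le]
  constructor
  · linarith [a1.2, a2.1, a3.1]
  · linarith [a1.1, a2.2, a3.2]

end Pool.Agent.TH850.UV
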