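import Pool.Agent.TH850.UV.Core

set_option autoImplicit false

/-! # The number variance away from the endpoints, continued -/

namespace Pool.Agent.TH850.UV

open Complex Filter Topology MeasureTheory Set
open Pool.Agent.TH850.UR (ew)
open H370 (zz Zf mult mem_Zf good_zeta NN NN_eq zz_re zz_im)
open H370.A2 (lamC)

theorem core (B : ℝ) (hB : 1 ≤ B) : ∃ lam C T0 : ℝ, 16 ≤ lam ∧ 0 < C ∧ 10 ≤ T0 ∧ ∀ T : ℝ, T0 ≤ T →
    (Integrable (fun t => VV lam T t ^ 2) ∧ ∫ t, VV lam T t ^ 2 ≤ C * T) ∧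
    ∀ a : ℝ, lam ≤ a → a * Real.log a ≤ B * Real.log T →
    ∃ U1 U2 : ℝ, T ≤ U1 ∧ U1 ≤ T + 1 ∧ 2 * T - 1 ≤ U2 ∧ U2 ≤ 2 * T ∧
    |(∫ t in (T + Real.log T)..(2 * T - Real.log T - 7),
      (NS (Zf riemannZeta U1 U2) (2 * Real.pi * a / Real.log T) t - a) ^ 2) -
      T / Real.pi ^ 2 * Real.log a| ≤ C * T := by
  obtain ⟨lam, CV, T1, hlam, hCV, hT1, hV⟩ := V_facts
  obtain ⟨Cq, hCq, hq⟩ := qk_decay
  obtain ⟨CJ, hCJ, hJ⟩ := Jk_le
  obtain ⟨CP, hCP, P, hPc, hPd, hPb⟩ := prim_exists
  obtain ⟨CA, hCA, hA⟩ := An_Ac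
  obtain ⟨CE, T2, hCE, hT2, hAc⟩ := Ac_est hlam
  obtain ⟨CD, T3, hCD, hT3, hD⟩ := Db_ms hlam B hB
  have hpi := Real.pi_pos
  have hB0 : 0 < B := by linarith
  have hpi3 := Real.pi_gt_three
  have hlam0 : 0 < lam := by linarith
  set Λ := (2 * Real.pi * lam) ^ 2 with hΛ
  have hΛ0 : 0 < Λ := by positivity
  set K := (Cq + CJ + CP) * Λ with hK
  have hK0 : 0 < K := by positivity
  set CR := 2 * CE ^ 2 + 2 * (CA * Λ * (4 * Real.pi ^ 2 * lam)) ^ 2 * CV with hCR
  have hCR0 : 0 < CR := by positivity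
  set Cx := 2 * (4 * Real.pi * K ^ 2 + 4 * Real.pi * lam * K) + 4 * (K ^ 2 * CV) with hCx
  have hCx0 : 0 < Cx := by positivity
  have hev : ∀ᶠ T : ℝ in atTop, 2 * Real.log T + 7 ≤ 1 * T / 2 := by
    have h1 : (fun T : ℝ => 2 * Real.log T + 7) =o[atTop] fun T : ℝ => T :=
      (Real.isLittleO_log_id_atTop.const_mul_left 2).add (Asymptotics.isLittleO_const_id_atTop _)
    have h2 := h1.bound (c := 1 / 2) (by norm_num)
    filter_upwards [h2, eventually_ge_atTop 1] with T hT hT1
    rw [Real.norm_of_nonneg (by linarith : (0 : ℝ) ≤ T)] at hT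
    have := (le_abs_self _).trans hT
    linarith
  obtain ⟨T4, hT4⟩ := (hev.and (Real.tendsto_log_atTop.eventually_ge_atTop
    (Real.exp B))).exists_forall_of_atTop
  refine ⟨lam, CD + 2 * CR + (B + CD) + 2 * Cx + 4 * (K ^ 2 * CV) + CV,
    max (max T1 T2) (max T3 T4), hlam, by positivity,
    hT1.trans ((le_max_left _ _).trans (le_max_left _ _)), fun T hT => ?_⟩
  have hTT1 : T1 ≤ T := ((le_max_left _ _).trans (le_max_left _ _)).trans hT
  have hTT2 : T2 ≤ T := ((le_max_right _ _).trans (le_max_left _ _)).trans hT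
  have hTT3 : T3 ≤ T := ((le_max_left _ _).trans (le_max_right _ _)).trans hT
  obtain ⟨g4, g5⟩ := hT4 T (((le_max_right _ _).trans (le_max_right _ _)).trans hT)
  have hT10 : 10 ≤ T := hT1.trans hTT1
  have hT0 : 0 < T := by linarith
  obtain ⟨hVi, hVb, hVM⟩ := hV T hTT1
  refine ⟨⟨hVi, hVb.trans ?_⟩, fun a ha haL => ?_⟩
  · apply mul_le_mul_of_nonneg_right _ hT0.le
    have h1 : 0 ≤ 4 * (K ^ 2 * CV) := by positivity
    linarith
  have hL0 : 0 < Real.log T := Real.log_pos (by linarith)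
  have ha0 : 0 < a := by linarith
  have hla : 1 ≤ Real.log a := by
    rw [Real.le_log_iff_exp_le ha0]
    linarith [Real.exp_one_lt_d9]
  obtain ⟨U1, U2, hU1, hU1', hU2', hU2, hAct⟩ := hAc T hTT2
  have hDt := hD T hTT3 a ha haL
  have hAt := hA lam T (by linarith) hT10 U1 U2 hU1 hU2
  refine ⟨U1, U2, hU1, hU1', hU2', hU2, ?_⟩
  have hL1 : 1 ≤ Real.log T := by
    have := Real.add_one_le_exp B
    linarith only [this, g5, hB]
  have hU : 1 ≤ U1 := by linarith
  set S := Zf riemannZeta U1 U2 with hS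
  have hsub : S ⊆ Zf riemannZeta T (2 * T) := by
    intro s hs
    rw [hS, mem_Zf good_zeta hU] at hs
    rw [mem_Zf good_zeta (by linarith)]
    exact ⟨hs.1, hs.2.1, by linarith [hs.2.2.1], by linarith [hs.2.2.2.1], hs.2.2.2.2⟩
  set L := Real.log T with hL
  set l := L / lam with hl
  have hl0 : 0 < l := by positivity
  set W := l / (2 * Real.pi) with hW
  have hW0 : 0 < W := by positivity
  set h := 2 * Real.pi * a / L with hh
  have hh0 : 0 < h := by positivity
  have haL' : a ≤ L := range_le (by linarith only [ha, hlam]) (by linarith only [hB]) g5 haL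
  have hh7 : h ≤ 7 := by
    rw [hh, div_le_iff₀ hL0]
    nlinarith only [Real.pi_lt_d2, haL', hL0, ha0]
  have hWh : W * lam * h = a := by
    rw [hW, hl, hh]; field_simp
  have hWh2 : W * h = a / lam := by
    rw [eq_div_iff hlam0.ne', ← hWh]; ring
  have hAB : T + L ≤ 2 * T - L - 7 := by linarith only [g4, hT0]
  -- the majorant
  set Vf : ℝ → ℝ := fun t => K * VV lam T t with hVf
  have hVVc := VV_cont lam T
  have hVV0 : ∀ t, 0 ≤ VV lam T t := VV_nonneg lam T
  have hVfc : Continuous Vf := by simp only [hVf]; fun_prop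
  have hVf0 : ∀ t, 0 ≤ Vf t := fun t => mul_nonneg hK0.le (hVV0 t)
  have hVf2 : (fun t => Vf t ^ 2) = fun t => K ^ 2 * VV lam T t ^ 2 := by
    funext t; simp only [hVf]; ring
  have hVfi : Integrable fun t => Vf t ^ 2 := by
    rw [hVf2]; exact hVi.const_mul _
  have hVfI : ∫ t, Vf t ^ 2 ≤ K ^ 2 * CV * T := by
    rw [hVf2, MeasureTheory.integral_const_mul]
    have : K ^ 2 * ∫ t, VV lam T t ^ 2 ≤ K ^ 2 * (CV * T) := by gcongr
    linarith only [this]
  set M := K * T ^ (1 / 4 : ℝ) with hM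
  have hVfM : ∀ t, Vf t ≤ M := fun t => mul_le_mul_of_nonneg_left (hVM t) hK0.le
  have hM2 : M ^ 2 ≤ K ^ 2 * T := by
    rw [hM, mul_pow]
    apply mul_le_mul_of_nonneg_left _ (by positivity)
    rw [← Real.rpow_natCast, ← Real.rpow_mul hT0.le]
    calc T ^ ((1 / 4 : ℝ) * ((2 : ℕ) : ℝ)) ≤ T ^ (1 : ℝ) :=
          Real.rpow_le_rpow_of_exponent_le (by linarith only [hT10]) (by norm_num)
      _ = T := Real.rpow_one T
  have hM1 : M ≤ K * T := by
    rw [hM]
    apply mul_le_mul_of_nonneg_left _ hK0.le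
    calc T ^ (1 / 4 : ℝ) ≤ T ^ (1 : ℝ) :=
          Real.rpow_le_rpow_of_exponent_le (by linarith only [hT10]) (by norm_num)
      _ = T := Real.rpow_one T
  have hM0 : 0 ≤ M := by positivity
  have hdom : ∀ (f : ℝ → ℝ → ℝ) (C : ℝ), 0 < C → C ≤ Cq + CJ + CP →
      (∀ y x, |f y x| ≤ C * Real.exp (Real.pi * |y|) / (1 + x ^ 2)) → ∀ t, |GS f S l t| ≤ Vf t := by
    intro f C hC hCle hf t
    refine (GS_dom f C lam T hC.le (by linarith only [hlam]) hT10 hf S hsub t).trans ?_
    simp only [hVf, hK]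
    apply mul_le_mul_of_nonneg_right _ (hVV0 t)
    exact mul_le_mul_of_nonneg_right hCle hΛ0.le
  have hqV := hdom qk Cq hCq (by linarith only [hCJ, hCP]) (fun y x => by
    refine (hq y x).trans ?_
    apply div_le_div_of_nonneg_left (by positivity) (by positivity)
    nlinarith only [sq_nonneg x])
  have hJV := hdom Jk CJ hCJ (by linarith only [hCq, hCP]) hJ
  have hPV := hdom P CP hCP (by linarith only [hCq, hCJ]) hPb
  -- the pieces
  set E : ℝ → ℝ := fun t => GS Qk S l t - GS Qk S l (t + h) - a with hE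
  set J : ℝ → ℝ := fun t => GS Jk S l t - GS Jk S l (t + h) with hJd
  set D : ℝ → ℝ := fun t => Db l h (XT T) t with hDd
  have hQc := GSQ_cont S l
  have hqc := GSq_cont S l
  have hJm := GSJ_meas S l
  have hEc : Continuous E := by simp only [hE]; fun_prop
  have hDc : Continuous D := Db_cont l h (XT T)
  have hJmeas : Measurable J := hJm.sub (hJm.comp (measurable_id.add_const h))
  have hJb : ∀ t, |J t| ≤ Vf t + Vf (t + h) := fun t =>
    (abs_sub _ _).trans (add_le_add (hJV t) (hJV (t + h)))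
  have hJM : ∀ t, |J t| ≤ 2 * M := fun t => by
    linarith only [hJb t, hVfM t, hVfM (t + h)]
  have hNS : ∀ t, NS S h t - a = E t - J t := fun t => by
    rw [NS_eq S hl0 hh0.le t]
    simp only [hE, hJd]
    ring
  -- the remainder
  set R : ℝ → ℝ := fun t => E t + D t with hR
  have hRc : Continuous R := by simp only [hR]; fun_prop
  set DP : ℝ → ℝ := fun τ => 2 * (1 / Real.sqrt (2 * Real.pi)) * (DDo lamC l (XT T) τ).re with hDP
  have hDPc : Continuous DP := by
    have := DDo_cont lamC l (XT T)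
    simp only [hDP]
    exact continuous_const.mul (Complex.continuous_re.comp this)
  have hRint : ∀ t, R t = ∫ τ in t..(t + h), W * (GS qk S l τ - lam + DP τ) := by
    intro t
    simp only [hR, hE, hDd]
    rw [BS_eq S l h t, Db_eq l h (XT T) t]
    have e1 : ∀ τ, W * (GS qk S l τ - lam + DP τ) = W * GS qk S l τ - W * lam + W * DP τ :=
      fun τ => by ring
    simp_rw [e1]
    rw [intervalIntegral.integral_add (Continuous.intervalIntegrable (by fun_prop) _ _)
      (Continuous.intervalIntegrable (by fun_prop) _ _),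
      intervalIntegral.integral_sub (Continuous.intervalIntegrable (by fun_prop) _ _)
      (Continuous.intervalIntegrable (by fun_prop) _ _), intervalIntegral.integral_const,
      smul_eq_mul]
    have e2 : (t + h - t) * (W * lam) = a := by rw [← hWh]; ring
    rw [e2]
  have hRb : ∀ t ∈ Icc (T + L) (2 * T - L - 7), |R t| ≤ CE * a / L +
      (CA * Λ / W) * ∫ τ in t..(t + h), VV lam T τ := by
    intro t ht
    rw [hRint t]
    refine (intervalIntegral.abs_integral_le_integral_abs (by linarith only [hh0])).trans ?_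
    have h1 : ∫ τ in t..(t + h), |W * (GS qk S l τ - lam + DP τ)| ≤
        ∫ τ in t..(t + h), (W * (CE / L) + CA * Λ / W * VV lam T τ) := by
      refine intervalIntegral.integral_mono_on (by linarith only [hh0])
        (Continuous.intervalIntegrable (by fun_prop) _ _)
        (Continuous.intervalIntegrable (by fun_prop) _ _) fun τ hτ => ?_
      rw [abs_mul, abs_of_pos hW0]
      have h2 := hAct τ (by linarith only [ht.1, hτ.1]) (by linarith only [ht.2, hτ.2, hh7])
      have h3 := hAt τ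
      have h4 : |GS qk S l τ - lam + DP τ| ≤ CA / W ^ 2 * Λ * VV lam T τ + CE / L := by
        have e3 : GS qk S l τ - lam + DP τ = (GS qk S l τ - 2 * (HTo l U1 U2 τ).re) +
            (2 * (HTo l U1 U2 τ).re - (lam - DP τ)) := by ring
        rw [e3]
        exact (abs_add_le _ _).trans (add_le_add h3 h2)
      calc W * |GS qk S l τ - lam + DP τ| ≤ W * (CA / W ^ 2 * Λ * VV lam T τ + CE / L) :=
            mul_le_mul_of_nonneg_left h4 hW0.le
        _ = _ := by field_simp; ring
    refine h1.trans ?_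
    rw [intervalIntegral.integral_add (Continuous.intervalIntegrable (by fun_prop) _ _)
      (Continuous.intervalIntegrable (by fun_prop) _ _), intervalIntegral.integral_const,
      intervalIntegral.integral_const_mul, smul_eq_mul]
    have e4 : (t + h - t) * (W * (CE / L)) = CE * a / L / lam := by
      have : (t + h - t) * (W * (CE / L)) = (W * h) * (CE / L) := by ring
      rw [this, hWh2]; field_simp
    rw [e4]
    have e5 : CE * a / L / lam ≤ CE * a / L := div_le_self (by positivity) (by linarith only [hlam])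
    linarith only [e5]
  have hRes := R_est hAB hh0.le hRc hVVc hVi hRb
  have haL1 : a / L ≤ 1 := by rw [div_le_one hL0]; exact haL'
  have hR2 : ∫ t in (T + L)..(2 * T - L - 7), R t ^ 2 ≤ CR * T * (a / L) ^ 2 := by
    refine hRes.trans ?_
    have e1 : 2 * (CE * a / L) ^ 2 * (2 * T - L - 7 - (T + L)) ≤ 2 * CE ^ 2 * (a / L) ^ 2 * T := by
      have : 2 * (CE * a / L) ^ 2 * (2 * T - L - 7 - (T + L)) ≤ 2 * (CE * a / L) ^ 2 * T := by
        apply mul_le_mul_of_nonneg_left _ (by positivity)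
        linarith only [hT0, hL0]
      refine this.trans (le_of_eq ?_)
      ring
    have e2 : h / W = 4 * Real.pi ^ 2 * lam * (a / L) / L := by
      rw [hW, hl, hh]; field_simp; ring
    have e3 : 2 * (CA * Λ / W) ^ 2 * h * (h * ∫ t, VV lam T t ^ 2) ≤
        2 * (CA * Λ * (4 * Real.pi ^ 2 * lam)) ^ 2 * CV * T * (a / L) ^ 2 := by
      calc 2 * (CA * Λ / W) ^ 2 * h * (h * ∫ t, VV lam T t ^ 2) =
          2 * (CA * Λ) ^ 2 * (h / W) ^ 2 * ∫ t, VV lam T t ^ 2 := by
            field_simp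
        _ ≤ 2 * (CA * Λ) ^ 2 * (h / W) ^ 2 * (CV * T) := by gcongr
        _ = 2 * (CA * Λ * (4 * Real.pi ^ 2 * lam)) ^ 2 * CV * T * (a / L) ^ 2 / L ^ 2 := by
            rw [e2]; ring
        _ ≤ _ := by
            apply div_le_self (by positivity)
            nlinarith only [hL1]
    calc _ ≤ 2 * CE ^ 2 * (a / L) ^ 2 * T +
          2 * (CA * Λ * (4 * Real.pi ^ 2 * lam)) ^ 2 * CV * T * (a / L) ^ 2 := add_le_add e1 e3
      _ = _ := by rw [hCR]; ring
  have haL20 : 0 < a / L := by positivity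
  have hq1 : ∫ t in (T + L)..(2 * T - L - 7), R t ^ 2 ≤ CR * T := by
    refine hR2.trans ?_
    have : (a / L) ^ 2 ≤ 1 := pow_le_one₀ haL20.le haL1
    have h0 : 0 ≤ CR * T := by positivity
    nlinarith only [this, h0]
  have hq2 : (L / a) * ∫ t in (T + L)..(2 * T - L - 7), R t ^ 2 ≤ CR * T := by
    calc (L / a) * ∫ t in (T + L)..(2 * T - L - 7), R t ^ 2 ≤
        (L / a) * (CR * T * (a / L) ^ 2) := by gcongr
      _ = CR * T * (a / L) := by field_simp
      _ ≤ CR * T * 1 := by gcongr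
      _ = _ := mul_one _
  have hq3 : (1 / (L / a)) * ∫ t in (T + L)..(2 * T - L - 7), D t ^ 2 ≤ (B + CD) * T := by
    have h1 : ∫ t in (T + L)..(2 * T - L - 7), D t ^ 2 ≤
        T / Real.pi ^ 2 * Real.log a + CD * T := by
      linarith only [(abs_le.1 hDt).2]
    calc (1 / (L / a)) * ∫ t in (T + L)..(2 * T - L - 7), D t ^ 2 ≤
        (1 / (L / a)) * (T / Real.pi ^ 2 * Real.log a + CD * T) := by gcongr
      _ = T / Real.pi ^ 2 * ((a * Real.log a) / L) + CD * T * (a / L) := by field_simp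
      _ ≤ T / 1 * B + CD * T * 1 := by
          have h2 : (a * Real.log a) / L ≤ B := by rw [div_le_iff₀ hL0]; exact haL
          have h3 : T / Real.pi ^ 2 ≤ T / 1 := by
            apply div_le_div_of_nonneg_left hT0.le (by norm_num)
            nlinarith only [hpi3]
          have h4 : 0 ≤ (a * Real.log a) / L := by positivity
          gcongr
      _ = _ := by ring
  have hcross := cross_est hPc hPd S hl0 hVfc hVf0 hVfi hVfM hqV hJV hPV (h := h) (a := a)
    hh0.le ha0.le hAB
  have hcross2 : |∫ t in (T + L)..(2 * T - L - 7), E t * J t| ≤ Cx * T := by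
    refine hcross.trans ?_
    rw [← hW]
    have e1 : (W * h * M + a) * (2 * M / W) = 2 * h * M ^ 2 + 2 * M * (a / W) := by
      field_simp
    have e2 : a / W = 2 * Real.pi * lam * (a / L) := by
      rw [hW, hl]; field_simp
    have e3 : h ≤ 2 * Real.pi := by
      rw [hh, mul_div_assoc]
      nlinarith only [haL1, hpi]
    rw [e1, e2]
    have e4 : 2 * h * M ^ 2 ≤ 2 * (2 * Real.pi) * (K ^ 2 * T) := by gcongr
    have e5 : 2 * M * (2 * Real.pi * lam * (a / L)) ≤ 2 * (K * T) * (2 * Real.pi * lam * 1) := by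
      gcongr
    have e6 : 4 * ∫ t, Vf t ^ 2 ≤ 4 * (K ^ 2 * CV * T) := by gcongr
    calc 2 * (2 * h * M ^ 2 + 2 * M * (2 * Real.pi * lam * (a / L))) + 4 * ∫ t, Vf t ^ 2 ≤
        2 * (2 * (2 * Real.pi) * (K ^ 2 * T) + 2 * (K * T) * (2 * Real.pi * lam * 1)) +
          4 * (K ^ 2 * CV * T) := by linarith only [e4, e5, e6]
      _ = Cx * T := by rw [hCx]; ring
  have hJ2 : ∫ t in (T + L)..(2 * T - L - 7), J t ^ 2 ≤ 4 * (K ^ 2 * CV) * T := by
    have hJi2 : IntervalIntegrable (fun t => J t ^ 2) volume (T + L) (2 * T - L - 7) := by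
      refine bdd_int (hJmeas.pow_const 2) (M := (2 * M) ^ 2) (fun t => ?_) _ _
      rw [abs_pow]
      exact pow_le_pow_left₀ (abs_nonneg _) (hJM t) 2
    have h1 : ∫ t in (T + L)..(2 * T - L - 7), J t ^ 2 ≤
        ∫ t in (T + L)..(2 * T - L - 7), (2 * Vf t ^ 2 + 2 * Vf (t + h) ^ 2) := by
      refine intervalIntegral.integral_mono_on hAB hJi2
        (Continuous.intervalIntegrable (by fun_prop) _ _) fun x _ => ?_
      have h2 := hJb x
      have h3 : J x ^ 2 ≤ (Vf x + Vf (x + h)) ^ 2 := by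
        rw [← sq_abs]
        exact pow_le_pow_left₀ (abs_nonneg _) h2 2
      nlinarith only [h3, sq_nonneg (Vf x - Vf (x + h))]
    refine h1.trans ?_
    rw [intervalIntegral.integral_add (Continuous.intervalIntegrable (by fun_prop) _ _)
      (Continuous.intervalIntegrable (by fun_prop) _ _), intervalIntegral.integral_const_mul,
      intervalIntegral.integral_const_mul]
    have h5 := int_le_univ hVfi (fun t => sq_nonneg _) hAB
    have h6 := int_shift_le hVfi (fun t => sq_nonneg _) hAB h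
    linarith only [h5, h6, hVfI]
  have hfin := assemble (q := L / a) (CR := CR * T) (CD := (B + CD) * T) (C1 := Cx * T)
    (C2 := 4 * (K ^ 2 * CV) * T) (T := CD * T) (lg := T / Real.pi ^ 2 * Real.log a) hAB hEc hDc
    hJmeas hJM (fun t => rfl) (by positivity) hq1 hq2 hq3 hcross2 hJ2 hDt
  have e9 : ∀ t, NS S h t - a = E t - J t := hNS
  simp_rw [e9]
  refine hfin.trans ?_
  have h0 : 0 ≤ CV * T := by positivity
  linarith only [h0]

end Pool.Agent.TH850.UV
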