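import Mathlib
set_option autoImplicit false
namespace Pool.Agent.TH850.UV
open Complex MeasureTheory

namespace DPM952

lemma osc (c : ℂ) (l a b : ℝ) (hl : l ≠ 0) :
    |∫ t in a..b, (c * cexp (-((l : ℂ) * I) * (t : ℂ))).re| ≤ 2 * ‖c‖ / |l| := by
  have hc : (-((l : ℂ) * I)) ≠ 0 := by
    simp [hl]
  have h1 : ∫ t in a..b, (c * cexp (-((l : ℂ) * I) * (t : ℂ))).re
      = (∫ t in a..b, (c * cexp (-((l : ℂ) * I) * (t : ℂ)))).re := by
    have hi : IntervalIntegrable (fun t : ℝ => c * cexp (-((l : ℂ) * I) * (t : ℂ))) volume a b := by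
      apply Continuous.intervalIntegrable
      fun_prop
    have := Complex.reCLM.intervalIntegral_comp_comm hi
    simpa using this
  have h2 : ∀ x : ℝ, ‖cexp (-((l : ℂ) * I) * (x : ℂ))‖ = 1 := by
    intro x
    rw [Complex.norm_exp]
    simp
  rw [h1]
  refine (Complex.abs_re_le_norm _).trans ?_
  rw [intervalIntegral.integral_const_mul, integral_exp_mul_complex hc, norm_mul, norm_div]
  have h3 : ‖(-((l : ℂ) * I))‖ = |l| := by simp
  rw [h3]
  have h4 : ‖cexp (-((l : ℂ) * I) * (b : ℂ)) - cexp (-((l : ℂ) * I) * (a : ℂ))‖ ≤ 2 := by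
    refine (norm_sub_le _ _).trans ?_
    rw [h2, h2]
    norm_num
  have hl' : 0 < |l| := abs_pos.mpr hl
  rw [mul_comm 2 ‖c‖, mul_div_assoc]
  gcongr

lemma re_mul_re (z w : ℂ) : z.re * w.re = ((z * w).re + (z * (starRingEnd ℂ) w).re) / 2 := by
  simp [Complex.mul_re]

lemma log_gap (X m n : ℕ) (hm : 2 ≤ m) (hn : 2 ≤ n) (hmX : m ≤ X) (hnX : n ≤ X) (h : m ≠ n) :
    1 / (X : ℝ) ≤ |Real.log m - Real.log n| := by
  wlog hlt : n < m with H
  · have := H X n m hn hm hnX hmX h.symm (by omega)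
    rwa [abs_sub_comm] at this
  have hm0 : (0 : ℝ) < m := by positivity
  have hn0 : (0 : ℝ) < n := by positivity
  have h1 : Real.log ((n : ℝ) / m) ≤ (n : ℝ) / m - 1 := Real.log_le_sub_one_of_pos (by positivity)
  rw [Real.log_div hn0.ne' hm0.ne'] at h1
  have h2 : (n : ℝ) + 1 ≤ m := by exact_mod_cast hlt
  have h3 : (n : ℝ) / m ≤ 1 - 1 / m := by
    rw [div_le_iff₀ hm0]
    field_simp
    linarith
  have h4 : 1 / (X : ℝ) ≤ 1 / (m : ℝ) := by
    apply one_div_le_one_div_of_le hm0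
    exact_mod_cast hmX
  have h5 : 1 / (m : ℝ) ≤ Real.log m - Real.log n := by linarith
  exact (h4.trans h5).trans (le_abs_self _)

lemma cpow_eq (n : ℕ) (hn : 2 ≤ n) (t : ℝ) :
    (n : ℂ) ^ (-(t : ℂ) * I) = cexp (-((Real.log n : ℂ) * I) * (t : ℂ)) := by
  have hn0 : (n : ℂ) ≠ 0 := by
    exact_mod_cast (by omega : n ≠ 0)
  rw [Complex.cpow_def_of_ne_zero hn0]
  congr 1
  rw [show Complex.log (n : ℂ) = ((Real.log n : ℝ) : ℂ) by
    rw [Complex.natCast_log]]
  ring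

lemma term (X m n : ℕ) (hm : 2 ≤ m) (hn : 2 ≤ n) (hmX : m ≤ X) (hnX : n ≤ X) (c d : ℂ)
    (a b : ℝ) :
    |(∫ t in a..b, (c * (m : ℂ) ^ (-(t : ℂ) * I)).re * (d * (n : ℂ) ^ (-(t : ℂ) * I)).re) -
      (if m = n then (b - a) / 2 * (c * (starRingEnd ℂ) d).re else 0)| ≤
      4 * X * (‖c‖ * ‖d‖) := by
  have hX2 : (2 : ℝ) ≤ X := by exact_mod_cast hm.trans hmX
  have hX0 : (0 : ℝ) < X := by linarith
  have hlm : Real.log 2 ≤ Real.log m := Real.log_le_log (by norm_num) (by exact_mod_cast hm)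
  have hln : Real.log 2 ≤ Real.log n := Real.log_le_log (by norm_num) (by exact_mod_cast hn)
  have hl2 : (0.5 : ℝ) < Real.log 2 := by
    have := Real.log_two_gt_d9
    linarith
  set lp : ℝ := Real.log m + Real.log n with hlp
  set lq : ℝ := Real.log m - Real.log n with hlq
  have hlp1 : 1 ≤ lp := by rw [hlp]; linarith
  have e1 : ∀ t : ℝ, (c * (m : ℂ) ^ (-(t : ℂ) * I)).re * (d * (n : ℂ) ^ (-(t : ℂ) * I)).re =
      ((c * d) * cexp (-((lp : ℂ) * I) * (t : ℂ))).re / 2 +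
      ((c * (starRingEnd ℂ) d) * cexp (-((lq : ℂ) * I) * (t : ℂ))).re / 2 := by
    intro t
    rw [re_mul_re, cpow_eq m hm, cpow_eq n hn, add_div]
    congr 1
    · congr 2
      rw [show c * cexp (-((Real.log m : ℂ) * I) * t) * (d * cexp (-((Real.log n : ℂ) * I) * t))
        = c * d * (cexp (-((Real.log m : ℂ) * I) * t) * cexp (-((Real.log n : ℂ) * I) * t)) by ring,
        ← Complex.exp_add]
      congr 2
      rw [hlp]
      push_cast
      ring
    · congr 2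
      have : (starRingEnd ℂ) (cexp (-((Real.log n : ℂ) * I) * t)) =
          cexp (((Real.log n : ℂ) * I) * t) := by
        rw [← Complex.exp_conj]
        congr 1
        rw [map_mul, map_neg, map_mul, Complex.conj_ofReal, Complex.conj_ofReal, Complex.conj_I]
        ring
      rw [map_mul, this,
        show c * cexp (-((Real.log m : ℂ) * I) * t) * ((starRingEnd ℂ) d *
          cexp (((Real.log n : ℂ) * I) * t))
        = c * (starRingEnd ℂ) d * (cexp (-((Real.log m : ℂ) * I) * t) *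
          cexp (((Real.log n : ℂ) * I) * t)) by ring,
        ← Complex.exp_add]
      congr 2
      rw [hlq]
      push_cast
      ring
  have e2 : (∫ t in a..b, (c * (m : ℂ) ^ (-(t : ℂ) * I)).re * (d * (n : ℂ) ^ (-(t : ℂ) * I)).re) =
      (∫ t in a..b, ((c * d) * cexp (-((lp : ℂ) * I) * (t : ℂ))).re) / 2 +
      (∫ t in a..b, ((c * (starRingEnd ℂ) d) * cexp (-((lq : ℂ) * I) * (t : ℂ))).re) / 2 := by
    simp_rw [e1]
    rw [intervalIntegral.integral_add, intervalIntegral.integral_div,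
      intervalIntegral.integral_div]
    · apply Continuous.intervalIntegrable
      fun_prop
    · apply Continuous.intervalIntegrable
      fun_prop
  have b1 : |∫ t in a..b, ((c * d) * cexp (-((lp : ℂ) * I) * (t : ℂ))).re| ≤
      2 * (‖c‖ * ‖d‖) := by
    have := osc (c * d) lp a b (by linarith)
    rw [norm_mul] at this
    refine this.trans ?_
    have hp : 1 ≤ |lp| := hlp1.trans (le_abs_self _)
    rw [div_le_iff₀ (by linarith)]
    nlinarith [mul_nonneg (norm_nonneg c) (norm_nonneg d)]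
  rw [e2]
  have hcd : 0 ≤ ‖c‖ * ‖d‖ := mul_nonneg (norm_nonneg c) (norm_nonneg d)
  split_ifs with hmn
  · have : lq = 0 := by rw [hlq, hmn]; ring
    have e3 : (∫ t in a..b, ((c * (starRingEnd ℂ) d) * cexp (-((lq : ℂ) * I) * (t : ℂ))).re) =
        (b - a) * (c * (starRingEnd ℂ) d).re := by
      rw [this]
      simp
      ring
    rw [e3]
    rw [show (∫ t in a..b, ((c * d) * cexp (-((lp : ℂ) * I) * (t : ℂ))).re) / 2 +
        (b - a) * (c * (starRingEnd ℂ) d).re / 2 - (b - a) / 2 * (c * (starRingEnd ℂ) d).re =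
        (∫ t in a..b, ((c * d) * cexp (-((lp : ℂ) * I) * (t : ℂ))).re) / 2 by ring]
    rw [abs_div, abs_of_pos (by norm_num : (0 : ℝ) < 2)]
    nlinarith
  · have hg := log_gap X m n hm hn hmX hnX hmn
    have hq : lq ≠ 0 := by
      intro h
      rw [← hlq, h] at hg
      simp at hg
      have : (0 : ℝ) < (X : ℝ)⁻¹ := by positivity
      linarith
    have b2 : |∫ t in a..b, ((c * (starRingEnd ℂ) d) * cexp (-((lq : ℂ) * I) * (t : ℂ))).re| ≤
        2 * X * (‖c‖ * ‖d‖) := by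
      have := osc (c * (starRingEnd ℂ) d) lq a b hq
      rw [norm_mul, RCLike.norm_conj] at this
      refine this.trans ?_
      have hq' : 0 < |lq| := abs_pos.mpr hq
      rw [div_le_iff₀ hq']
      have : 1 ≤ X * |lq| := by
        have h7 : X * (1 / (X : ℝ)) ≤ X * |lq| := by gcongr
        rwa [mul_one_div_cancel hX0.ne'] at h7
      calc 2 * (‖c‖ * ‖d‖) = 2 * (‖c‖ * ‖d‖) * 1 := by ring
        _ ≤ 2 * (‖c‖ * ‖d‖) * (X * |lq|) := by gcongr
        _ = _ := by ring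
    rw [sub_zero]
    refine (abs_add_le _ _).trans ?_
    rw [abs_div, abs_div, abs_of_pos (by norm_num : (0 : ℝ) < 2)]
    nlinarith

end DPM952

open DPM952 in
theorem dpm (X : ℕ) (κ : ℕ → ℂ) (T1 T2 : ℝ) (hT : T1 ≤ T2) :
    |(∫ t in T1..T2, ((∑ n ∈ Finset.Icc 2 X, κ n * (n : ℂ) ^ (-(t : ℂ) * I)).re) ^ 2) -
      (T2 - T1) / 2 * ∑ n ∈ Finset.Icc 2 X, ‖κ n‖ ^ 2| ≤
      4 * X * (∑ n ∈ Finset.Icc 2 X, ‖κ n‖) ^ 2 := by
  have hcont : ∀ n ∈ Finset.Icc 2 X, Continuous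
      (fun t : ℝ => (κ n * (n : ℂ) ^ (-(t : ℂ) * I)).re) := by
    intro n hn
    have hn2 : 2 ≤ n := (Finset.mem_Icc.mp hn).1
    have : (fun t : ℝ => (κ n * (n : ℂ) ^ (-(t : ℂ) * I)).re) =
        fun t : ℝ => (κ n * cexp (-((Real.log n : ℂ) * I) * (t : ℂ))).re := by
      funext t
      rw [cpow_eq n hn2]
    rw [this]
    fun_prop
  have e1 : (∫ t in T1..T2, ((∑ n ∈ Finset.Icc 2 X, κ n * (n : ℂ) ^ (-(t : ℂ) * I)).re) ^ 2) =
      ∑ m ∈ Finset.Icc 2 X, ∑ n ∈ Finset.Icc 2 X,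
        ∫ t in T1..T2, (κ m * (m : ℂ) ^ (-(t : ℂ) * I)).re * (κ n * (n : ℂ) ^ (-(t : ℂ) * I)).re := by
    have : ∀ t : ℝ, ((∑ n ∈ Finset.Icc 2 X, κ n * (n : ℂ) ^ (-(t : ℂ) * I)).re) ^ 2 =
        ∑ m ∈ Finset.Icc 2 X, ∑ n ∈ Finset.Icc 2 X,
          (κ m * (m : ℂ) ^ (-(t : ℂ) * I)).re * (κ n * (n : ℂ) ^ (-(t : ℂ) * I)).re := by
      intro t
      rw [Complex.re_sum, sq, Finset.sum_mul_sum]
    simp_rw [this]
    rw [intervalIntegral.integral_finsetSum]
    · refine Finset.sum_congr rfl fun m hm => ?_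
      rw [intervalIntegral.integral_finsetSum]
      intro n hn
      exact ((hcont m hm).mul (hcont n hn)).intervalIntegrable _ _
    · intro m hm
      apply Continuous.intervalIntegrable
      exact continuous_finsetSum _ fun n hn => (hcont m hm).mul (hcont n hn)
  have e2 : (T2 - T1) / 2 * ∑ n ∈ Finset.Icc 2 X, ‖κ n‖ ^ 2 =
      ∑ m ∈ Finset.Icc 2 X, ∑ n ∈ Finset.Icc 2 X,
        (if m = n then (T2 - T1) / 2 * (κ m * (starRingEnd ℂ) (κ n)).re else 0) := by
    rw [Finset.mul_sum]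
    refine Finset.sum_congr rfl fun m hm => ?_
    rw [Finset.sum_ite_eq, if_pos hm]
    congr 1
    rw [Complex.mul_conj, Complex.normSq_eq_norm_sq]
    norm_cast
  rw [e1, e2, ← Finset.sum_sub_distrib]
  simp_rw [← Finset.sum_sub_distrib]
  have e3 : 4 * X * (∑ n ∈ Finset.Icc 2 X, ‖κ n‖) ^ 2 =
      ∑ m ∈ Finset.Icc 2 X, ∑ n ∈ Finset.Icc 2 X, 4 * X * (‖κ m‖ * ‖κ n‖) := by
    rw [sq, Finset.sum_mul_sum, Finset.mul_sum]
    refine Finset.sum_congr rfl fun m _ => ?_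
    rw [Finset.mul_sum]
  rw [e3]
  refine (Finset.abs_sum_le_sum_abs _ _).trans ?_
  refine Finset.sum_le_sum fun m hm => ?_
  refine (Finset.abs_sum_le_sum_abs _ _).trans ?_
  refine Finset.sum_le_sum fun n hn => ?_
  rw [Finset.mem_Icc] at hm hn
  exact term X m n hm.1 hn.1 hm.2 hn.2 _ _ _ _

end Pool.Agent.TH850.UV
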