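import Pool.Agent.TH850.UV.KapS

set_option autoImplicit false

/-! # The mean square of the integrated prime sum, continued -/

namespace Pool.Agent.TH850.UV

open Complex Filter Topology MeasureTheory Set

lemma Db_cont (l h : ℝ) (X : ℕ) : Continuous (Db l h X) := by
  unfold Db
  refine Complex.continuous_re.comp (continuous_finsetSum _ fun n hn => ?_)
  have hn0 : (n : ℂ) ≠ 0 := by
    exact_mod_cast (by have := (Finset.mem_Icc.1 hn).1; omega : n ≠ 0)
  exact continuous_const.mul (Continuous.const_cpow (by fun_prop) (Or.inl hn0))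

theorem Db_ms {lam : ℝ} (hlam : 16 ≤ lam) (B : ℝ) (hB : 1 ≤ B) : ∃ C T0 : ℝ, 0 < C ∧ 10 ≤ T0 ∧ ∀ T : ℝ, T0 ≤ T →
    ∀ a : ℝ, lam ≤ a → a * Real.log a ≤ B * Real.log T →
    |(∫ t in (T + Real.log T)..(2 * T - Real.log T - 7),
      Db (Real.log T / lam) (2 * Real.pi * a / Real.log T) (XT T) t ^ 2) -
      T / Real.pi ^ 2 * Real.log a| ≤ C * T := by
  obtain ⟨C, T1, hC, hT1, hk⟩ := kap_sum hlam B hB
  have hpi := Real.pi_pos
  have hB0 : 0 < B := by linarith
  have hpi3 := Real.pi_gt_three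
  have hev1 : ∀ᶠ T : ℝ in atTop, 2 * Real.log T + 7 ≤ 1 * T / 2 := by
    have h1 : (fun T : ℝ => 2 * Real.log T + 7) =o[atTop] fun T : ℝ => T :=
      (Real.isLittleO_log_id_atTop.const_mul_left 2).add (Asymptotics.isLittleO_const_id_atTop _)
    have h2 := h1.bound (c := 1 / 2) (by norm_num)
    filter_upwards [h2, eventually_ge_atTop 1] with T hT hT1
    rw [Real.norm_of_nonneg (by linarith : (0 : ℝ) ≤ T)] at hT
    have := (le_abs_self _).trans hT
    linarith
  have hev2 : ∀ᶠ T : ℝ in atTop, (2 * Real.log T + 7) * (B * Real.log T + C) ≤ T := by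
    have h1 : (fun T : ℝ => (2 * Real.log T + 7) * (B * Real.log T + C)) =o[atTop]
        fun T : ℝ => T := by
      have h2 : (fun T : ℝ => 2 * Real.log T + 7) =o[atTop] fun T : ℝ => T ^ (1 / 2 : ℝ) := by
        refine Asymptotics.IsLittleO.add
          ((isLittleO_log_rpow_atTop (by norm_num)).const_mul_left 2) ?_
        rw [Asymptotics.isLittleO_const_left]
        right
        exact tendsto_norm_atTop_atTop.comp (tendsto_rpow_atTop (by norm_num))
      have h3 : (fun T : ℝ => B * Real.log T + C) =o[atTop] fun T : ℝ => T ^ (1 / 2 : ℝ) := by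
        refine Asymptotics.IsLittleO.add
          ((isLittleO_log_rpow_atTop (by norm_num)).const_mul_left B) ?_
        rw [Asymptotics.isLittleO_const_left]
        right
        exact tendsto_norm_atTop_atTop.comp (tendsto_rpow_atTop (by norm_num))
      refine (h2.mul h3).congr' (Eventually.of_forall fun _ => rfl) ?_
      filter_upwards [eventually_gt_atTop 0] with T hT
      rw [← Real.rpow_add hT]
      norm_num
    have h2 := h1.bound (c := 1) one_pos
    filter_upwards [h2, eventually_ge_atTop 1] with T hT hT1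
    rw [one_mul, Real.norm_of_nonneg (by linarith : (0 : ℝ) ≤ T)] at hT
    exact (le_abs_self _).trans hT
  obtain ⟨T2, hT2⟩ := (hev1.and hev2).exists_forall_of_atTop
  refine ⟨C + 6, max T1 T2, by linarith, hT1.trans (le_max_left _ _), fun T hT a ha haL => ?_⟩
  have hTT1 : T1 ≤ T := (le_max_left _ _).trans hT
  obtain ⟨g1, g2⟩ := hT2 T ((le_max_right _ _).trans hT)
  have hT10 : 10 ≤ T := hT1.trans hTT1
  have hT0 : 0 < T := by linarith
  have hL0 : 0 < Real.log T := Real.log_pos (by linarith)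
  have hlam0 : 0 < lam := by linarith
  have ha0 : 0 < a := by linarith
  have hla : 1 ≤ Real.log a := by
    rw [Real.le_log_iff_exp_le ha0]
    linarith [Real.exp_one_lt_d9]
  have hk1 := hk T hTT1 a ha haL
  set L := Real.log T with hL
  have haL' : Real.log a ≤ B * L := by
    have h1 : 1 * Real.log a ≤ a * Real.log a :=
      mul_le_mul_of_nonneg_right (by linarith) (by linarith)
    linarith
  set S := ∑ n ∈ Finset.Icc 2 (XT T), ‖kap (L / lam) (2 * Real.pi * a / L) n‖ ^ 2 with hS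
  have hd := dpm (XT T) (kap (L / lam) (2 * Real.pi * a / L)) (T + L) (2 * T - L - 7)
    (by linarith)
  rw [← hS] at hd
  set I0 := ∫ t in (T + L)..(2 * T - L - 7),
      Db (L / lam) (2 * Real.pi * a / L) (XT T) t ^ 2 with hI0
  have hI0' : (∫ t in (T + L)..(2 * T - L - 7), ((∑ n ∈ Finset.Icc 2 (XT T),
      kap (L / lam) (2 * Real.pi * a / L) n * (n : ℂ) ^ (-(t : ℂ) * I)).re) ^ 2) = I0 := rfl
  rw [hI0'] at hd
  have hXle : (XT T : ℝ) ≤ T ^ (1 / 8 : ℝ) := Nat.floor_le (by positivity)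
  have hl1 : ∑ n ∈ Finset.Icc 2 (XT T), ‖kap (L / lam) (2 * Real.pi * a / L) n‖ ≤ XT T := by
    calc ∑ n ∈ Finset.Icc 2 (XT T), ‖kap (L / lam) (2 * Real.pi * a / L) n‖ ≤
        ∑ n ∈ Finset.Icc 2 (XT T), (1 : ℝ) :=
          Finset.sum_le_sum fun n hn => kap_le (by positivity) _ n (Finset.mem_Icc.1 hn).1
      _ ≤ XT T := by
          rw [Finset.sum_const, nsmul_eq_mul, mul_one, Nat.card_Icc]
          exact_mod_cast (by omega : XT T + 1 - 2 ≤ XT T)
  have hl10 : 0 ≤ ∑ n ∈ Finset.Icc 2 (XT T), ‖kap (L / lam) (2 * Real.pi * a / L) n‖ :=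
    Finset.sum_nonneg fun n _ => norm_nonneg _
  have herr : 4 * (XT T : ℝ) *
      (∑ n ∈ Finset.Icc 2 (XT T), ‖kap (L / lam) (2 * Real.pi * a / L) n‖) ^ 2 ≤ 4 * T := by
    have hX0 : (0 : ℝ) ≤ XT T := Nat.cast_nonneg _
    calc 4 * (XT T : ℝ) *
      (∑ n ∈ Finset.Icc 2 (XT T), ‖kap (L / lam) (2 * Real.pi * a / L) n‖) ^ 2 ≤
          4 * (XT T : ℝ) * (XT T : ℝ) ^ 2 := by gcongr
      _ = 4 * (XT T : ℝ) ^ 3 := by ring
      _ ≤ 4 * (T ^ (1 / 8 : ℝ)) ^ 3 := by gcongr
      _ = 4 * T ^ (3 / 8 : ℝ) := by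
          rw [← Real.rpow_natCast, ← Real.rpow_mul hT0.le]; norm_num
      _ ≤ 4 * T ^ (1 : ℝ) := by
          apply mul_le_mul_of_nonneg_left _ (by norm_num)
          exact Real.rpow_le_rpow_of_exponent_le (by linarith) (by norm_num)
      _ = 4 * T := by rw [Real.rpow_one]
  have hd2 := hd.trans herr
  have hS0 : 0 ≤ S := Finset.sum_nonneg fun n _ => sq_nonneg _
  have hk2 := abs_le.1 hk1
  have hpi2 : 2 / Real.pi ^ 2 ≤ 1 := by
    rw [div_le_one (by positivity)]
    nlinarith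
  have hpi20 : 0 ≤ 2 / Real.pi ^ 2 := by positivity
  have hSle : S ≤ B * L + C := by
    have : 2 / Real.pi ^ 2 * Real.log a ≤ 1 * (B * L) :=
      mul_le_mul hpi2 haL' (by linarith) zero_le_one
    linarith [hk2.2]
  have e1 : I0 - T / Real.pi ^ 2 * Real.log a =
      (I0 - (2 * T - L - 7 - (T + L)) / 2 * S) + (T / 2 * (S - 2 / Real.pi ^ 2 * Real.log a)) -
      (2 * L + 7) / 2 * S := by
    field_simp
    ring
  have h3 : |T / 2 * (S - 2 / Real.pi ^ 2 * Real.log a)| ≤ T / 2 * C := by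
    rw [abs_mul, abs_of_nonneg (by linarith)]
    exact mul_le_mul_of_nonneg_left hk1 (by linarith)
  have h4 : |(2 * L + 7) / 2 * S| ≤ T := by
    rw [abs_of_nonneg (by positivity)]
    calc (2 * L + 7) / 2 * S ≤ (2 * L + 7) * (B * L + C) := by
          apply mul_le_mul _ hSle hS0 (by positivity)
          linarith
      _ ≤ T := g2
  rw [e1]
  calc |_| ≤ |(I0 - (2 * T - L - 7 - (T + L)) / 2 * S) + (T / 2 * (S - 2 / Real.pi ^ 2 *
        Real.log a))| + |(2 * L + 7) / 2 * S| := abs_sub _ _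
    _ ≤ (|I0 - (2 * T - L - 7 - (T + L)) / 2 * S| + |T / 2 * (S - 2 / Real.pi ^ 2 *
        Real.log a)|) + |(2 * L + 7) / 2 * S| := by gcongr; exact abs_add_le _ _
    _ ≤ (4 * T + T / 2 * C) + T := by gcongr
    _ ≤ (C + 6) * T := by nlinarith

end Pool.Agent.TH850.UV
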