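import Mathlib

set_option autoImplicit false

/-! # Project UV: the number variance of the zeta zeros without hypotheses: the kernel -/

namespace Pool.Agent.TH850.UV

open Complex MeasureTheory Set Filter Topology

/-- the weight, supported in `[-1/2, 1/2]` -/
noncomputable def om (α : ℝ) : ℝ := (max 0 (1 - 4 * α ^ 2)) ^ 4

/-- the kernel -/
noncomputable def kC (z : ℂ) : ℂ :=
  ∫ α in (-(1 / 2 : ℝ))..(1 / 2), (om α : ℂ) * Complex.cos (2 * Real.pi * α * z)

/-- the real part of the kernel on the horizontal line with imaginary part `y` -/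
noncomputable def qk (y x : ℝ) : ℝ := (kC (x + y * I)).re

/-- the primitive of `qk y` -/
noncomputable def Qk (y x : ℝ) : ℝ := 1 / 2 + ∫ u in (0 : ℝ)..x, qk y u

/-- the primitive minus the Heaviside function -/
noncomputable def Jk (y x : ℝ) : ℝ := Qk y x - if 0 < x then 1 else 0

end Pool.Agent.TH850.UV
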