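import Pool.Agent.TH850.UV.HFo

set_option autoImplicit false

/-! # The Gaussian averages of the weight -/

namespace Pool.Agent.TH850.UV

open Filter Topology MeasureTheory Set
open Pool.Agent.TH850.UR (gauss_total gauss_integrable gauss_scaled int_v)

lemma om_low {x : ℝ} (h0 : 0 ≤ x) (h1 : x ≤ 1 / 2) : 1 - 8 * x ≤ om x := by
  unfold om
  have h2 : 0 ≤ 1 - 4 * x ^ 2 := by nlinarith
  rw [max_eq_right h2]
  have h3 := one_add_mul_le_pow (a := -(4 * x ^ 2)) (by nlinarith) 4
  have h4 : (1 + -(4 * x ^ 2)) = 1 - 4 * x ^ 2 := by ring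
  rw [h4] at h3
  push_cast at h3
  nlinarith

/-- the tail of the Gaussian integral -/
lemma gtail (b : ℝ) : ∫ u in Ioi b, Real.exp (-u ^ 2 / 2) ≤ 2 * Real.exp (-b) := by
  have h1 : ∀ u : ℝ, Real.exp (-u ^ 2 / 2) ≤ Real.exp (1 / 2) * Real.exp (-u) := by
    intro u
    rw [← Real.exp_add]
    apply Real.exp_le_exp.2
    nlinarith [sq_nonneg (u - 1)]
  have h2 : IntegrableOn (fun u : ℝ => Real.exp (-u)) (Ioi b) := integrableOn_exp_neg_Ioi b
  calc ∫ u in Ioi b, Real.exp (-u ^ 2 / 2) ≤ ∫ u in Ioi b, Real.exp (1 / 2) * Real.exp (-u) :=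
        setIntegral_mono gauss_integrable.integrableOn (h2.const_mul _) fun u => h1 u
    _ = Real.exp (1 / 2) * Real.exp (-b) := by
        rw [MeasureTheory.integral_const_mul, integral_exp_neg_Ioi]
    _ ≤ 2 * Real.exp (-b) := by
        apply mul_le_mul_of_nonneg_right _ (Real.exp_pos _).le
        have h3 : Real.exp (1 / 2) ≤ 2 := by
          have h4 : Real.exp (1 / 2) ^ 2 = Real.exp 1 := by
            rw [← Real.exp_nat_mul]; norm_num
          have h5 := Real.exp_one_lt_d9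
          nlinarith [Real.exp_pos (1 / 2)]
        exact h3

/-- the Gaussian integral over an interval -/
lemma gint_low (x y : ℝ) (hxy : x ≤ y) :
    Real.sqrt (2 * Real.pi) - 2 * Real.exp x - 2 * Real.exp (-y) ≤
      ∫ u in x..y, Real.exp (-u ^ 2 / 2) := by
  have h1 : ∫ u in Iic x, Real.exp (-u ^ 2 / 2) ≤ 2 * Real.exp x := by
    have h2 := gtail (-x)
    rw [neg_neg] at h2
    have h3 : ∫ u in Iic x, Real.exp (-u ^ 2 / 2) = ∫ u in Ioi (-x), Real.exp (-u ^ 2 / 2) := by
      have h4 := integral_comp_neg_Iic x (fun u : ℝ => Real.exp (-u ^ 2 / 2))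
      rw [← h4]
      refine setIntegral_congr_fun measurableSet_Iic fun u _ => ?_
      simp only [neg_sq]
    rw [h3]
    exact h2
  have h2 := gtail y
  have h3 : (∫ u in Iic x, Real.exp (-u ^ 2 / 2)) + ∫ u in Ioi x, Real.exp (-u ^ 2 / 2) =
      Real.sqrt (2 * Real.pi) := by
    rw [← gauss_total]
    exact intervalIntegral.integral_Iic_add_Ioi gauss_integrable.integrableOn
      gauss_integrable.integrableOn
  have h4 : (∫ u in x..y, Real.exp (-u ^ 2 / 2)) + ∫ u in Ioi y, Real.exp (-u ^ 2 / 2) =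
      ∫ u in Ioi x, Real.exp (-u ^ 2 / 2) :=
    intervalIntegral.integral_interval_add_Ioi gauss_integrable.integrableOn
      gauss_integrable.integrableOn
  linarith

lemma gabs (v b : ℝ) (hb : 0 ≤ b) :
    ∫ w in (0 : ℝ)..b, |w - v| * Real.exp (-(w - v) ^ 2 / 2) ≤ 2 := by
  have h1 : ∫ w in (0 : ℝ)..b, |w - v| * Real.exp (-(w - v) ^ 2 / 2) =
      ∫ u in (0 - v)..(b - v), |u| * Real.exp (-u ^ 2 / 2) :=
    intervalIntegral.integral_comp_sub_right (fun u => |u| * Real.exp (-u ^ 2 / 2)) v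
  rw [h1]
  have hc : Continuous fun u : ℝ => |u| * Real.exp (-u ^ 2 / 2) := by fun_prop
  have h2 : ∀ y : ℝ, |∫ u in (0 : ℝ)..y, |u| * Real.exp (-u ^ 2 / 2)| ≤ 1 := by
    have hpos : ∀ y : ℝ, 0 ≤ y → |∫ u in (0 : ℝ)..y, |u| * Real.exp (-u ^ 2 / 2)| ≤ 1 := by
      intro y hy
      have e : ∫ u in (0 : ℝ)..y, |u| * Real.exp (-u ^ 2 / 2) =
          ∫ u in (0 : ℝ)..y, u * Real.exp (-u ^ 2 / 2) := by
        refine intervalIntegral.integral_congr fun u hu => ?_
        rw [uIcc_of_le hy] at hu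
        show |u| * Real.exp (-u ^ 2 / 2) = u * Real.exp (-u ^ 2 / 2)
        rw [abs_of_nonneg hu.1]
      rw [e, int_v, abs_le]
      have h3 := Real.exp_pos (-y ^ 2 / 2)
      have h4 : Real.exp (-y ^ 2 / 2) ≤ 1 := Real.exp_le_one_iff.2 (by nlinarith [sq_nonneg y])
      constructor <;> linarith
    intro y
    rcases le_total 0 y with hy | hy
    · exact hpos y hy
    · have h3 := hpos (-y) (by linarith)
      have e : ∫ u in (0 : ℝ)..y, |u| * Real.exp (-u ^ 2 / 2) =
          -∫ u in (0 : ℝ)..(-y), |u| * Real.exp (-u ^ 2 / 2) := by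
        have h4 := intervalIntegral.integral_comp_neg (a := (0 : ℝ)) (b := y)
          (fun u => |u| * Real.exp (-u ^ 2 / 2))
        simp only [abs_neg, neg_sq, neg_zero] at h4
        rw [h4, intervalIntegral.integral_symm]
      rw [e, abs_neg]
      exact h3
  have h3 : ∫ u in (0 - v)..(b - v), |u| * Real.exp (-u ^ 2 / 2) =
      (∫ u in (0 : ℝ)..(b - v), |u| * Real.exp (-u ^ 2 / 2)) -
      ∫ u in (0 : ℝ)..(0 - v), |u| * Real.exp (-u ^ 2 / 2) := by
    rw [intervalIntegral.integral_interval_sub_left (hc.intervalIntegrable _ _)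
      (hc.intervalIntegrable _ _)]
  rw [h3]
  have h4 := abs_le.1 (h2 (b - v))
  have h5 := abs_le.1 (h2 (0 - v))
  linarith [h4.2, h5.1]

lemma ggo_eq {l : ℝ} (hl : 0 < l) (n : ℕ) :
    l * ggo l n = ∫ w in (0 : ℝ)..(l / 2), om (w / l) * Real.exp (-(w - Real.log n) ^ 2 / 2) := by
  unfold ggo
  have h := intervalIntegral.mul_integral_comp_mul_right (a := 0) (b := 1 / 2)
    (f := fun w : ℝ => om (w / l) * Real.exp (-(w - Real.log n) ^ 2 / 2)) (c := l)
  have e : ∀ α : ℝ, om (α * l / l) = om α := fun α => by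
    rw [mul_div_assoc, div_self hl.ne', mul_one]
  simp only [e] at h
  rw [h]
  congr 1
  · ring
  · ring

lemma ggo_nonneg (l : ℝ) (n : ℕ) : 0 ≤ ggo l n :=
  intervalIntegral.integral_nonneg (by norm_num) fun x _ =>
    mul_nonneg (om_nonneg0 x) (Real.exp_pos _).le

lemma ggo_le {l : ℝ} (hl : 0 < l) (n : ℕ) : ggo l n ≤ Real.sqrt (2 * Real.pi) / l := by
  have htc := om_cont0
  refine le_trans ?_ (gauss_scaled hl (Real.log n))
  unfold ggo
  refine intervalIntegral.integral_mono_on (by norm_num)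
    (Continuous.intervalIntegrable (by fun_prop) _ _)
    (Continuous.intervalIntegrable (by fun_prop) _ _) fun α _ => ?_
  have h1 := om_le_one α
  have h2 := Real.exp_pos (-(α * l - Real.log n) ^ 2 / 2)
  nlinarith

lemma gint_le (x y : ℝ) (hxy : x ≤ y) :
    ∫ u in x..y, Real.exp (-u ^ 2 / 2) ≤ Real.sqrt (2 * Real.pi) := by
  rw [intervalIntegral.integral_of_le hxy, ← gauss_total]
  exact setIntegral_le_integral gauss_integrable (Eventually.of_forall fun x => (Real.exp_pos _).le)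

/-- the lower bound of the coefficients -/
lemma ggo_low {l : ℝ} (hl : 1 ≤ l) (n : ℕ) (hn : 1 ≤ n) (hnl : Real.log n ≤ l / 2) :
    Real.sqrt (2 * Real.pi) - 40 * ((1 + Real.log n) / l + 1 / n) ≤ l * ggo l n := by
  have hl0 : 0 < l := by linarith
  have htc := om_cont0
  have hn0 : (0 : ℝ) < n := by exact_mod_cast hn
  set v := Real.log n with hv
  have hv0 : 0 ≤ v := Real.log_nonneg (by exact_mod_cast hn)
  rw [ggo_eq hl0]
  have h1 : (∫ w in (0 : ℝ)..(l / 2), Real.exp (-(w - v) ^ 2 / 2)) -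
      (8 / l) * ∫ w in (0 : ℝ)..(l / 2), (|w - v| * Real.exp (-(w - v) ^ 2 / 2) +
        v * Real.exp (-(w - v) ^ 2 / 2)) ≤
      ∫ w in (0 : ℝ)..(l / 2), om (w / l) * Real.exp (-(w - v) ^ 2 / 2) := by
    rw [← intervalIntegral.integral_const_mul, ← intervalIntegral.integral_sub
      (Continuous.intervalIntegrable (by fun_prop) _ _)
      (Continuous.intervalIntegrable (by fun_prop) _ _)]
    refine intervalIntegral.integral_mono_on (by linarith)
      (Continuous.intervalIntegrable (by fun_prop) _ _)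
      (Continuous.intervalIntegrable (by fun_prop) _ _) fun w hw => ?_
    have h2 : 1 - 8 * (w / l) ≤ om (w / l) := by
      apply om_low (div_nonneg hw.1 hl0.le)
      rw [div_le_iff₀ hl0]; linarith [hw.2]
    have h3 : w ≤ |w - v| + v := by linarith [le_abs_self (w - v)]
    have h4 := Real.exp_pos (-(w - v) ^ 2 / 2)
    calc Real.exp (-(w - v) ^ 2 / 2) - 8 / l * (|w - v| * Real.exp (-(w - v) ^ 2 / 2) +
          v * Real.exp (-(w - v) ^ 2 / 2)) =
        (1 - 8 / l * (|w - v| + v)) * Real.exp (-(w - v) ^ 2 / 2) := by ring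
      _ ≤ (1 - 8 / l * w) * Real.exp (-(w - v) ^ 2 / 2) := by gcongr
      _ = (1 - 8 * (w / l)) * Real.exp (-(w - v) ^ 2 / 2) := by ring
      _ ≤ _ := by gcongr
  have h2 : ∫ w in (0 : ℝ)..(l / 2), Real.exp (-(w - v) ^ 2 / 2) =
      ∫ u in (0 - v)..(l / 2 - v), Real.exp (-u ^ 2 / 2) :=
    intervalIntegral.integral_comp_sub_right (fun u => Real.exp (-u ^ 2 / 2)) v
  have h3 := gint_low (0 - v) (l / 2 - v) (by linarith)
  have h3' := gint_le (0 - v) (l / 2 - v) (by linarith)
  have h4 := gabs v (l / 2) (by linarith)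
  rw [intervalIntegral.integral_add (Continuous.intervalIntegrable (by fun_prop) _ _)
      (Continuous.intervalIntegrable (by fun_prop) _ _), intervalIntegral.integral_const_mul, h2]
    at h1
  have h5 : Real.exp (0 - v) = 1 / n := by
    rw [zero_sub, Real.exp_neg, hv, Real.exp_log hn0, one_div]
  have h6 : Real.exp (-(l / 2 - v)) ≤ 2 * (1 + v) / l := by
    rw [Real.exp_neg, ← one_div, div_le_div_iff₀ (Real.exp_pos _) hl0]
    have h7 := Real.add_one_le_exp (l / 2 - v)
    have h8 : l ≤ 2 * (1 + v) * (l / 2 - v + 1) := by nlinarith [mul_nonneg hv0 (sub_nonneg.2 hnl)]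
    calc 1 * l = l := one_mul _
      _ ≤ 2 * (1 + v) * (l / 2 - v + 1) := h8
      _ ≤ _ := by gcongr
  have h7 : Real.sqrt (2 * Real.pi) ≤ 3 := by
    rw [Real.sqrt_le_left (by norm_num)]
    linarith [Real.pi_lt_d2]
  rw [h5] at h3
  have h8 : 8 / l * ((∫ w in (0 : ℝ)..(l / 2), |w - v| * Real.exp (-(w - v) ^ 2 / 2)) +
      v * ∫ u in (0 - v)..(l / 2 - v), Real.exp (-u ^ 2 / 2)) ≤ 8 / l * (2 + v * 3) := by
    apply mul_le_mul_of_nonneg_left _ (by positivity)
    apply add_le_add h4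
    exact mul_le_mul_of_nonneg_left (h3'.trans h7) hv0
  have h9 : 8 / l * (2 + v * 3) ≤ 24 * ((1 + v) / l) := by
    have : 24 * ((1 + v) / l) - 8 / l * (2 + v * 3) = 8 / l := by
      field_simp; ring
    have h10 : 0 < 8 / l := by positivity
    linarith
  have h10 : 2 * (1 + v) / l = 2 * ((1 + v) / l) := by ring
  have h11 : 0 ≤ (1 + v) / l := by positivity
  have h12 : 0 ≤ 1 / (n : ℝ) := by positivity
  rw [h10] at h6
  linarith

/-- the main coefficient -/
lemma ggo_one {l : ℝ} (hl : 1 ≤ l) :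
    |l * ggo l 1 - Real.sqrt (2 * Real.pi) / 2| ≤ 20 / l := by
  have hl0 : 0 < l := by linarith
  have htc := om_cont0
  rw [ggo_eq hl0, Nat.cast_one, Real.log_one]
  simp_rw [sub_zero]
  have h0 : ∫ u in Ioi (0 : ℝ), Real.exp (-u ^ 2 / 2) = Real.sqrt (2 * Real.pi) / 2 := by
    have h := integral_gaussian_Ioi (1 / 2)
    have e : ∀ x : ℝ, Real.exp (-x ^ 2 / 2) = Real.exp (-(1 / 2) * x ^ 2) := fun x => by
      congr 1; ring
    simp_rw [e]
    rw [h]
    congr 2
    field_simp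
  have h4 : (∫ u in (0 : ℝ)..(l / 2), Real.exp (-u ^ 2 / 2)) +
      ∫ u in Ioi (l / 2), Real.exp (-u ^ 2 / 2) = Real.sqrt (2 * Real.pi) / 2 := by
    rw [← h0]
    exact intervalIntegral.integral_interval_add_Ioi gauss_integrable.integrableOn
      gauss_integrable.integrableOn
  have h5 : 0 ≤ ∫ u in Ioi (l / 2), Real.exp (-u ^ 2 / 2) :=
    integral_nonneg fun u => (Real.exp_pos _).le
  have h6 := gtail (l / 2)
  have h7 : Real.exp (-(l / 2)) ≤ 2 / l := by
    rw [Real.exp_neg, ← one_div, div_le_div_iff₀ (Real.exp_pos _) hl0]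
    have h7 := Real.add_one_le_exp (l / 2)
    linarith
  have h8 : ∫ w in (0 : ℝ)..(l / 2), om (w / l) * Real.exp (-w ^ 2 / 2) ≤
      ∫ u in (0 : ℝ)..(l / 2), Real.exp (-u ^ 2 / 2) := by
    refine intervalIntegral.integral_mono_on (by linarith)
      (Continuous.intervalIntegrable (by fun_prop) _ _)
      (Continuous.intervalIntegrable (by fun_prop) _ _) fun w _ => ?_
    have h1 := om_le_one (w / l)
    have h2 := Real.exp_pos (-w ^ 2 / 2)
    nlinarith
  have h9 : (∫ u in (0 : ℝ)..(l / 2), Real.exp (-u ^ 2 / 2)) -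
      (8 / l) * ∫ w in (0 : ℝ)..(l / 2), w * Real.exp (-w ^ 2 / 2) ≤
      ∫ w in (0 : ℝ)..(l / 2), om (w / l) * Real.exp (-w ^ 2 / 2) := by
    rw [← intervalIntegral.integral_const_mul, ← intervalIntegral.integral_sub
      (Continuous.intervalIntegrable (by fun_prop) _ _)
      (Continuous.intervalIntegrable (by fun_prop) _ _)]
    refine intervalIntegral.integral_mono_on (by linarith)
      (Continuous.intervalIntegrable (by fun_prop) _ _)
      (Continuous.intervalIntegrable (by fun_prop) _ _) fun w hw => ?_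
    have h2 : 1 - 8 * (w / l) ≤ om (w / l) := by
      apply om_low (div_nonneg hw.1 hl0.le)
      rw [div_le_iff₀ hl0]; linarith [hw.2]
    have h4 := Real.exp_pos (-w ^ 2 / 2)
    calc Real.exp (-w ^ 2 / 2) - 8 / l * (w * Real.exp (-w ^ 2 / 2)) =
        (1 - 8 * (w / l)) * Real.exp (-w ^ 2 / 2) := by ring
      _ ≤ _ := by gcongr
  rw [int_v] at h9
  have h10 : 8 / l * (1 - Real.exp (-(l / 2) ^ 2 / 2)) ≤ 8 / l * 1 := by
    apply mul_le_mul_of_nonneg_left _ (by positivity)
    linarith [Real.exp_pos (-(l / 2) ^ 2 / 2)]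
  have h11 : 2 * (2 / l) = 4 / l := by ring
  have h12 : (20 : ℝ) / l = 8 / l + 4 / l + 8 / l := by ring
  have h13 : 0 < 8 / l := by positivity
  rw [abs_le]
  constructor
  · linarith
  · linarith

end Pool.Agent.TH850.UV
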