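import Pool.Agent.TH850.UV.Defs
import Pool.Agent.TH850.UR.ClaimA
import Pool.Agent.H345R2.A2.EFb

set_option autoImplicit false

/-! # The linear statistic of all zeros, from the explicit formula: the smooth kernel -/

namespace Pool.Agent.TH850.UV

open Complex Filter Topology MeasureTheory Set
open scoped ComplexConjugate
open Pool.Agent.TH850.NR
open Pool.Agent.TH850.UR (int_symC int_e int_v)
open H370 (zz hh mult Zf zset AA AA_eq hh_eq zz_refl mult_refl sum_refl mem_Zf good_zeta GoodL pterm)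

lemma om_cont0 : Continuous om := by
  unfold om
  fun_prop

lemma om_even0 (α : ℝ) : om (-α) = om α := by
  unfold om
  rw [neg_sq]

lemma om_nonneg0 (α : ℝ) : 0 ≤ om α := by
  unfold om
  positivity

lemma om_le_one (α : ℝ) : om α ≤ 1 := by
  unfold om
  apply pow_le_one₀ (le_max_left _ _)
  apply max_le zero_le_one
  nlinarith [sq_nonneg α]

/-- the coefficients -/
noncomputable def ggo (l : ℝ) (n : ℕ) : ℝ :=
  ∫ α in (0 : ℝ)..(1 / 2), om α * Real.exp (-(α * l - Real.log n) ^ 2 / 2)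

/-- the half transform of the zeros -/
noncomputable def HTo (l U1 U2 t : ℝ) : ℂ :=
  ∫ α in (0 : ℝ)..(1 / 2), (om α : ℂ) * cexp (-(I * ((α * l : ℝ) : ℂ) * t)) *
    AA riemannZeta U1 U2 (α * l) t

/-- the half kernel -/
noncomputable def chio (l : ℝ) (w : ℂ) : ℂ :=
  ∫ α in (0 : ℝ)..(1 / 2), (om α : ℂ) * cexp (I * ((α * l : ℝ) : ℂ) * w)

lemma kC_chio (l : ℝ) (w : ℂ) :
    kC (w * (l / (2 * Real.pi) : ℝ)) = chio l w + chio l (-w) := by
  have htc := om_cont0
  have hpi : (Real.pi : ℂ) ≠ 0 := by exact_mod_cast Real.pi_ne_zero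
  unfold kC
  rw [int_symC (fun α => (om α : ℂ) *
    Complex.cos (2 * Real.pi * α * (w * (l / (2 * Real.pi) : ℝ)))) (by fun_prop)]
  unfold chio
  rw [← intervalIntegral.integral_add (Continuous.intervalIntegrable (by fun_prop) _ _)
    (Continuous.intervalIntegrable (by fun_prop) _ _)]
  refine intervalIntegral.integral_congr fun α _ => ?_
  show (om α : ℂ) * Complex.cos (2 * Real.pi * α * (w * (l / (2 * Real.pi) : ℝ))) +
    (om (-α) : ℂ) * Complex.cos (2 * Real.pi * ((-α : ℝ) : ℂ) * (w * (l / (2 * Real.pi) : ℝ))) =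
    (om α : ℂ) * cexp (I * ((α * l : ℝ) : ℂ) * w) +
    (om α : ℂ) * cexp (I * ((α * l : ℝ) : ℂ) * (-w))
  have e1 : (2 * Real.pi * α * (w * (l / (2 * Real.pi) : ℝ)) : ℂ) = α * l * w := by
    push_cast; field_simp
  have e2 : (2 * Real.pi * ((-α : ℝ) : ℂ) * (w * (l / (2 * Real.pi) : ℝ)) : ℂ) = -(α * l * w) := by
    push_cast; field_simp
  rw [om_even0, e1, e2, Complex.cos_neg]
  unfold Complex.cos
  have e3 : (α * l * w * I : ℂ) = I * ((α * l : ℝ) : ℂ) * w := by push_cast; ring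
  have e4 : (-(α * l * w) * I : ℂ) = I * ((α * l : ℝ) : ℂ) * (-w) := by push_cast; ring
  rw [e3, e4]
  ring

lemma chio_conj (l : ℝ) (w : ℂ) : conj (chio l w) = chio l (-(conj w)) := by
  unfold chio
  rw [← intervalIntegral.intervalIntegral_conj]
  refine intervalIntegral.integral_congr fun α _ => ?_
  show conj ((om α : ℂ) * cexp (I * ((α * l : ℝ) : ℂ) * w)) =
    (om α : ℂ) * cexp (I * ((α * l : ℝ) : ℂ) * (-(conj w)))
  rw [map_mul, Complex.conj_ofReal, ← Complex.exp_conj, map_mul, map_mul, Complex.conj_I,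
    Complex.conj_ofReal]
  congr 2
  ring

lemma HTo_eq (l : ℝ) {U1 U2 : ℝ} (hU : 1 ≤ U1) (t : ℝ) :
    HTo l U1 U2 t = ∑ s ∈ Zf riemannZeta U1 U2, (mult riemannZeta s : ℂ) *
      cexp (-(zz s - t) ^ 2 / 2) * chio l (zz s - t) := by
  have htc := om_cont0
  unfold HTo chio
  have h1 : ∀ α : ℝ, (om α : ℂ) * cexp (-(I * ((α * l : ℝ) : ℂ) * t)) *
      AA riemannZeta U1 U2 (α * l) t = ∑ s ∈ Zf riemannZeta U1 U2, (mult riemannZeta s : ℂ) *
        cexp (-(zz s - t) ^ 2 / 2) * ((om α : ℂ) * cexp (I * ((α * l : ℝ) : ℂ) * (zz s - t))) := by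
    intro α
    rw [AA_eq good_zeta hU, Finset.mul_sum]
    refine Finset.sum_congr rfl fun s _ => ?_
    rw [hh_eq]
    have e : cexp (I * ((α * l : ℝ) : ℂ) * (zz s - t)) =
        cexp (-(I * ((α * l : ℝ) : ℂ) * t)) * cexp (I * ((α * l : ℝ) : ℂ) * zz s) := by
      rw [← Complex.exp_add]; congr 1; ring
    rw [e]
    ring
  simp_rw [h1]
  rw [intervalIntegral.integral_finsetSum fun s _ =>
    Continuous.intervalIntegrable (by fun_prop) _ _]
  simp_rw [intervalIntegral.integral_const_mul]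

/-- the statistic with the full kernel -/
lemma fullo (l : ℝ) {U1 U2 : ℝ} (hU : 1 ≤ U1) (t : ℝ) :
    ∑ s ∈ Zf riemannZeta U1 U2, (mult riemannZeta s : ℂ) * cexp (-(zz s - t) ^ 2 / 2) *
      kC ((zz s - t) * (l / (2 * Real.pi) : ℝ)) = ((2 * (HTo l U1 U2 t).re : ℝ) : ℂ) := by
  have h1 : conj (HTo l U1 U2 t) = ∑ s ∈ Zf riemannZeta U1 U2, (mult riemannZeta s : ℂ) *
      cexp (-(zz s - t) ^ 2 / 2) * chio l (-(zz s - t)) := by
    rw [HTo_eq l hU, map_sum, ← sum_refl good_zeta hU (fun s => (mult riemannZeta s : ℂ) *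
      cexp (-(zz s - t) ^ 2 / 2) * chio l (-(zz s - t)))]
    refine Finset.sum_congr rfl fun s hs => ?_
    rw [mem_Zf good_zeta hU] at hs
    rw [map_mul, map_mul, Complex.conj_natCast, chio_conj, zz_refl,
      mult_refl good_zeta hs.1 hs.2.1 (by linarith [hs.2.2.1]), ← Complex.exp_conj]
    congr 2
    · simp only [map_div₀, map_neg, map_pow, map_sub, Complex.conj_ofReal, Complex.conj_ofNat]
    · simp only [map_sub, Complex.conj_ofReal]
  have h2 : ((2 * (HTo l U1 U2 t).re : ℝ) : ℂ) = HTo l U1 U2 t + conj (HTo l U1 U2 t) := by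
    rw [Complex.add_conj]
  rw [h2, h1, HTo_eq l hU, ← Finset.sum_add_distrib]
  refine Finset.sum_congr rfl fun s _ => ?_
  rw [kC_chio]
  ring

lemma kC_cont0 : Continuous kC := by
  have htc := om_cont0
  unfold kC
  fun_prop

lemma HTo_re_cont (l : ℝ) {U1 U2 : ℝ} (hU : 1 ≤ U1) :
    Continuous fun t => 2 * (HTo l U1 U2 t).re := by
  have hc := kC_cont0
  have : (fun t => 2 * (HTo l U1 U2 t).re) = fun t : ℝ =>
      (∑ s ∈ Zf riemannZeta U1 U2, (mult riemannZeta s : ℂ) * cexp (-(zz s - t) ^ 2 / 2) *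
      kC ((zz s - t) * (l / (2 * Real.pi) : ℝ))).re := by
    funext t
    rw [fullo l hU, Complex.ofReal_re]
  rw [this]
  fun_prop

/-- the prime sum -/
noncomputable def DDo (a : ℕ → ℂ) (l : ℝ) (X : ℕ) (t : ℝ) : ℂ :=
  ∑ n ∈ Finset.Icc 1 X, (a n * (Real.sqrt n : ℂ)⁻¹ * (ggo l n : ℂ)) * (n : ℂ) ^ (-(t : ℂ) * I)

lemma DDo_cont (a : ℕ → ℂ) (l : ℝ) (X : ℕ) : Continuous (DDo a l X) := by
  unfold DDo
  refine continuous_finsetSum _ fun n hn => ?_
  have hn1 : 1 ≤ n := (Finset.mem_Icc.mp hn).1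
  have hn0 : (n : ℂ) ≠ 0 := by exact_mod_cast (by omega : n ≠ 0)
  refine continuous_const.mul ?_
  exact Continuous.const_cpow (by fun_prop) (Or.inl hn0)

/-- the explicit formula, integrated against the kernel -/
lemma H_esto {a : ℕ → ℂ} (l U1 U2 t L C E : ℝ) (X : ℕ) (hU : 1 ≤ U1)
    (hl : 0 ≤ l)
    (h : ∀ u : ℝ, 0 ≤ u → u ≤ l / 2 → ‖AA riemannZeta U1 U2 u t -
      (1 / Real.sqrt (2 * Real.pi) : ℝ) * (L * cexp (I * u * t) * Real.exp (-u ^ 2 / 2) -
        ∑ n ∈ Finset.Icc 1 X, pterm a u t n)‖ ≤ C * Real.exp (-u) + E) :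
    ‖HTo l U1 U2 t - (1 / Real.sqrt (2 * Real.pi) : ℝ) * (L * (ggo l 1 : ℂ) - DDo a l X t)‖ ≤
      ∫ α in (0 : ℝ)..(1 / 2), om α * (C * Real.exp (-(α * l)) + E) := by
  have htc := om_cont0
  have hAA : Continuous fun α : ℝ => AA riemannZeta U1 U2 (α * l) t := by
    simp_rw [AA_eq good_zeta hU, hh_eq]
    fun_prop
  set c : ℂ := ((1 / Real.sqrt (2 * Real.pi) : ℝ) : ℂ) with hc
  -- the prime terms
  have hp : ∀ n ∈ Finset.Icc 1 X, ∀ u : ℝ, cexp (-(I * (u : ℂ) * t)) * pterm a u t n =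
      a n * (Real.sqrt n : ℂ)⁻¹ * (n : ℂ) ^ (-(t : ℂ) * I) *
        ((Real.exp (-(u - Real.log n) ^ 2 / 2) : ℝ) : ℂ) := by
    intro n hn u
    have hn1 : 1 ≤ n := (Finset.mem_Icc.mp hn).1
    have hn0 : (n : ℂ) ≠ 0 := by exact_mod_cast (by omega : n ≠ 0)
    unfold H370.pterm
    have h3 : cexp (I * t * (u - Real.log n)) = cexp (I * (u : ℂ) * t) *
        (n : ℂ) ^ (-(t : ℂ) * I) := by
      rw [Complex.cpow_def_of_ne_zero hn0, ← Complex.exp_add, ← Complex.natCast_log]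
      congr 1
      ring
    have h4 : cexp (-(I * (u : ℂ) * t)) * cexp (I * (u : ℂ) * t) = 1 := by
      rw [← Complex.exp_add, neg_add_cancel, Complex.exp_zero]
    rw [h3]
    linear_combination (a n * (Real.sqrt n : ℂ)⁻¹ * (n : ℂ) ^ (-(t : ℂ) * I) *
        ((Real.exp (-(u - Real.log n) ^ 2 / 2) : ℝ) : ℂ)) * h4
  have hmain : c * (L * (ggo l 1 : ℂ) - DDo a l X t) =
      ∫ α in (0 : ℝ)..(1 / 2), (om α : ℂ) * cexp (-(I * ((α * l : ℝ) : ℂ) * t)) *
        (c * (L * cexp (I * ((α * l : ℝ) : ℂ) * t) * Real.exp (-(α * l) ^ 2 / 2) -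
        ∑ n ∈ Finset.Icc 1 X, pterm a (α * l) t n)) := by
    have e1 : ∀ α : ℝ, (om α : ℂ) * cexp (-(I * ((α * l : ℝ) : ℂ) * t)) *
        (c * (L * cexp (I * ((α * l : ℝ) : ℂ) * t) * Real.exp (-(α * l) ^ 2 / 2) -
        ∑ n ∈ Finset.Icc 1 X, pterm a (α * l) t n)) =
        c * (L * ((om α * Real.exp (-(α * l - Real.log ((1 : ℕ) : ℝ)) ^ 2 / 2) : ℝ) : ℂ)) -
        c * ∑ n ∈ Finset.Icc 1 X, (a n * (Real.sqrt n : ℂ)⁻¹ * (n : ℂ) ^ (-(t : ℂ) * I)) *
          ((om α * Real.exp (-(α * l - Real.log n) ^ 2 / 2) : ℝ) : ℂ) := by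
      intro α
      have h4 : cexp (-(I * ((α * l : ℝ) : ℂ) * t)) * cexp (I * ((α * l : ℝ) : ℂ) * t) = 1 := by
        rw [← Complex.exp_add, neg_add_cancel, Complex.exp_zero]
      have h5 : (om α : ℂ) * cexp (-(I * ((α * l : ℝ) : ℂ) * t)) *
          ∑ n ∈ Finset.Icc 1 X, pterm a (α * l) t n =
          ∑ n ∈ Finset.Icc 1 X, (a n * (Real.sqrt n : ℂ)⁻¹ * (n : ℂ) ^ (-(t : ℂ) * I)) *
          ((om α * Real.exp (-(α * l - Real.log n) ^ 2 / 2) : ℝ) : ℂ) := by
        rw [Finset.mul_sum]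
        refine Finset.sum_congr rfl fun n hn => ?_
        rw [mul_assoc, hp n hn (α * l)]
        push_cast
        ring
      rw [← h5]
      rw [Nat.cast_one, Real.log_one, sub_zero]
      push_cast at h4 ⊢
      linear_combination ((om α : ℂ) * c * L * cexp (-(↑α * ↑l) ^ 2 / 2)) * h4
    simp_rw [e1]
    rw [intervalIntegral.integral_sub (Continuous.intervalIntegrable (by fun_prop) _ _)
      (Continuous.intervalIntegrable (by fun_prop) _ _),
      intervalIntegral.integral_const_mul, intervalIntegral.integral_const_mul,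
      intervalIntegral.integral_const_mul, intervalIntegral.integral_ofReal,
      intervalIntegral.integral_finsetSum fun n _ =>
        Continuous.intervalIntegrable (by fun_prop) _ _]
    simp_rw [intervalIntegral.integral_const_mul, intervalIntegral.integral_ofReal]
    unfold DDo ggo
    rw [mul_sub]
    congr 2
    refine Finset.sum_congr rfl fun n _ => ?_
    ring
  rw [hmain]
  unfold HTo
  have hpt : Continuous fun α : ℝ => ∑ n ∈ Finset.Icc 1 X, pterm a (α * l) t n := by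
    unfold H370.pterm
    fun_prop
  rw [← intervalIntegral.integral_sub (Continuous.intervalIntegrable (by fun_prop) _ _)
    (Continuous.intervalIntegrable (by fun_prop) _ _)]
  refine (intervalIntegral.norm_integral_le_integral_norm (by norm_num)).trans ?_
  refine intervalIntegral.integral_mono_on (by norm_num)
    (Continuous.intervalIntegrable (by fun_prop) _ _)
    (Continuous.intervalIntegrable (by fun_prop) _ _) fun α hα => ?_
  have h1 := h (α * l) (mul_nonneg hα.1 hl) (by nlinarith [hα.2])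
  rw [← mul_sub, norm_mul, norm_mul, Complex.norm_real, Real.norm_of_nonneg (om_nonneg0 α)]
  have h2 : ‖cexp (-(I * ((α * l : ℝ) : ℂ) * t))‖ = 1 := by
    rw [show (-(I * ((α * l : ℝ) : ℂ) * t) : ℂ) = ((-(α * l * t) : ℝ) : ℂ) * I by push_cast; ring,
      Complex.norm_exp_ofReal_mul_I]
  rw [h2, mul_one]
  exact mul_le_mul_of_nonneg_left h1 (om_nonneg0 α)



end Pool.Agent.TH850.UV
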