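import Pool.Agent.H370R2.NT
set_option autoImplicit false

/-!
The sum of `Λ(n)² / (n log² n) (1 - cos (h log n))` (job 2637).
-/

open ArithmeticFunction

namespace Pool.Agent.TH850.UV

namespace NTSaux

/-! ### the functions `phi`, `psi`, `gam`, `EE` -/

/-- `(1 - cos u) / u` -/
noncomputable def phi (u : ℝ) : ℝ := (1 - Real.cos u) / u

/-- majorant of the variation of `phi` -/
noncomputable def psi (u : ℝ) : ℝ := if u ≤ 1 then u else 1 + Real.log u

/-- approximate primitive of `phi` -/
noncomputable def gam (u : ℝ) : ℝ := if u ≤ 1 then 0 else Real.log u - Real.sin u / u + Real.sin 1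

/-- a bounded increasing function -/
noncomputable def EE (u : ℝ) : ℝ := if u ≤ 1 then u else 2 - 1 / u

theorem phi_zero : phi 0 = 0 := by simp [phi]

theorem phi_nonneg {u : ℝ} (hu : 0 ≤ u) : 0 ≤ phi u :=
  div_nonneg (by linarith [Real.cos_le_one u]) hu

theorem one_sub_cos_le {u : ℝ} : 1 - Real.cos u ≤ u ^ 2 / 2 := by
  have := Real.one_sub_sq_div_two_le_cos (x := u)
  linarith

theorem phi_le_one {u : ℝ} (hu : 0 ≤ u) : phi u ≤ 1 := by
  rcases hu.eq_or_lt with rfl | hu
  · rw [phi_zero]; norm_num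
  · unfold phi
    rw [div_le_one hu]
    rcases le_or_gt u 2 with h | h
    · have := one_sub_cos_le (u := u)
      nlinarith
    · have := Real.neg_one_le_cos u
      linarith

theorem psi_nonneg {u : ℝ} (hu : 0 ≤ u) : 0 ≤ psi u := by
  unfold psi
  split_ifs with h
  · exact hu
  · have := Real.log_nonneg (not_le.mp h).le
    linarith

theorem hasDerivAt_phi {u : ℝ} (hu : 0 < u) :
    HasDerivAt phi ((Real.sin u * u - (1 - Real.cos u)) / u ^ 2) u := by
  have h1 : HasDerivAt (fun u => 1 - Real.cos u) (Real.sin u) u := by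
    have := (Real.hasDerivAt_cos u).const_sub 1
    simpa using this
  have h2 := h1.div (hasDerivAt_id u) hu.ne'
  simp only [id, mul_one] at h2
  exact h2

theorem dphi_bound1 {u : ℝ} (hu : 0 < u) (hu1 : u ≤ 1) :
    |(Real.sin u * u - (1 - Real.cos u)) / u ^ 2| ≤ 3 := by
  rw [abs_div, abs_of_pos (by positivity : 0 < u ^ 2), div_le_iff₀ (by positivity)]
  have h1 := Real.sin_le hu.le
  have h2 : 0 ≤ Real.sin u := Real.sin_nonneg_of_nonneg_of_le_pi hu.le
    (by linarith [Real.pi_gt_three])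
  have h3 := one_sub_cos_le (u := u)
  have h4 := Real.cos_le_one u
  rw [abs_le]
  constructor <;> nlinarith

theorem dphi_bound2 {u : ℝ} (hu1 : 1 ≤ u) :
    |(Real.sin u * u - (1 - Real.cos u)) / u ^ 2| ≤ 3 / u := by
  have hu : 0 < u := by linarith
  rw [abs_div, abs_of_pos (by positivity : 0 < u ^ 2), div_le_div_iff₀ (by positivity) hu]
  have h1 := Real.sin_le_one u
  have h2 := Real.neg_one_le_sin u
  have h3 := Real.cos_le_one u
  have h4 := Real.neg_one_le_cos u
  have h5 : |Real.sin u * u - (1 - Real.cos u)| ≤ 3 * u := by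
    rw [abs_le]
    constructor <;> nlinarith
  nlinarith

theorem phi_lip1 {x y : ℝ} (hx : 0 < x) (hxy : x ≤ y) (hy : y ≤ 1) :
    |phi y - phi x| ≤ 3 * (y - x) := by
  have hd : ∀ u ∈ Set.Icc x y, HasDerivWithinAt phi
      ((Real.sin u * u - (1 - Real.cos u)) / u ^ 2) (Set.Icc x y) u := fun u hu =>
    (hasDerivAt_phi (hx.trans_le hu.1)).hasDerivWithinAt
  have h1 := (convex_Icc x y).norm_image_sub_le_of_norm_hasDerivWithin_le (C := 3) hd
    (fun u hu => by
      rw [Real.norm_eq_abs]
      exact dphi_bound1 (hx.trans_le hu.1) (hu.2.trans hy))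
    (Set.left_mem_Icc.mpr hxy) (Set.right_mem_Icc.mpr hxy)
  rw [Real.norm_eq_abs, Real.norm_eq_abs, abs_of_nonneg (by linarith : 0 ≤ y - x)] at h1
  exact h1

theorem phi_lip2 {x y : ℝ} (hx : 1 ≤ x) (hxy : x ≤ y) :
    |phi y - phi x| ≤ 3 * (Real.log y - Real.log x) := by
  have hpos : ∀ u ∈ Set.Icc x y, 0 < u := fun u hu => by linarith [hu.1]
  have hda : ∀ u ∈ Set.Icc x y, HasDerivAt (fun u => 3 * Real.log u + phi u)
      (3 * u⁻¹ + (Real.sin u * u - (1 - Real.cos u)) / u ^ 2) u := fun u hu =>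
    ((Real.hasDerivAt_log (hpos u hu).ne').const_mul 3).add (hasDerivAt_phi (hpos u hu))
  have hdb : ∀ u ∈ Set.Icc x y, HasDerivAt (fun u => 3 * Real.log u - phi u)
      (3 * u⁻¹ - (Real.sin u * u - (1 - Real.cos u)) / u ^ 2) u := fun u hu =>
    ((Real.hasDerivAt_log (hpos u hu).ne').const_mul 3).sub (hasDerivAt_phi (hpos u hu))
  have m1 : MonotoneOn (fun u => 3 * Real.log u + phi u) (Set.Icc x y) := by
    apply monotoneOn_of_deriv_nonneg (convex_Icc x y)
    · exact fun u hu => (hda u hu).continuousAt.continuousWithinAt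
    · exact fun u hu => (hda u (interior_subset hu)).differentiableAt.differentiableWithinAt
    · intro u hu
      have hu' := interior_subset hu
      rw [(hda u hu').deriv]
      have h1 := dphi_bound2 (hx.trans hu'.1)
      have h2 := (abs_le.mp h1).1
      rw [div_eq_mul_inv] at h2
      linarith
  have m2 : MonotoneOn (fun u => 3 * Real.log u - phi u) (Set.Icc x y) := by
    apply monotoneOn_of_deriv_nonneg (convex_Icc x y)
    · exact fun u hu => (hdb u hu).continuousAt.continuousWithinAt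
    · exact fun u hu => (hdb u (interior_subset hu)).differentiableAt.differentiableWithinAt
    · intro u hu
      have hu' := interior_subset hu
      rw [(hdb u hu').deriv]
      have h1 := dphi_bound2 (hx.trans hu'.1)
      have h2 := (abs_le.mp h1).2
      rw [div_eq_mul_inv 3] at h2
      linarith
  have e1 := m1 (Set.left_mem_Icc.mpr hxy) (Set.right_mem_Icc.mpr hxy) hxy
  have e2 := m2 (Set.left_mem_Icc.mpr hxy) (Set.right_mem_Icc.mpr hxy) hxy
  simp only at e1 e2
  rw [abs_le]
  constructor <;> linarith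

theorem psi_of_le {u : ℝ} (h : u ≤ 1) : psi u = u := by simp [psi, h]

theorem psi_of_ge {u : ℝ} (h : 1 ≤ u) : psi u = 1 + Real.log u := by
  rcases h.eq_or_lt with rfl | h
  · simp [psi]
  · simp [psi, not_le.mpr h]

theorem phi_psi {x y : ℝ} (hx : 0 ≤ x) (hxy : x ≤ y) :
    |phi y - phi x| ≤ 3 * (psi y - psi x) := by
  rcases hx.eq_or_lt with rfl | hx
  · rw [phi_zero, sub_zero, abs_of_nonneg (phi_nonneg hxy), psi_of_le zero_le_one, sub_zero]
    rcases le_or_gt y 1 with hy | hy
    · rw [psi_of_le hy]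
      rcases hxy.eq_or_lt with rfl | hy0
      · simp [phi_zero]
      · unfold phi
        rw [div_le_iff₀ hy0]
        have := one_sub_cos_le (u := y)
        nlinarith
    · rw [psi_of_ge hy.le]
      have h1 := phi_le_one hxy
      have h2 := Real.log_nonneg hy.le
      linarith
  · rcases le_or_gt y 1 with hy | hy
    · rw [psi_of_le hy, psi_of_le (hxy.trans hy)]
      exact phi_lip1 hx hxy hy
    · rcases le_or_gt 1 x with hx1 | hx1
      · rw [psi_of_ge hy.le, psi_of_ge hx1]
        have := phi_lip2 hx1 hxy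
        linarith
      · rw [psi_of_ge hy.le, psi_of_le hx1.le]
        have h1 := phi_lip1 hx hx1.le le_rfl
        have h2 := phi_lip2 le_rfl hy.le
        rw [Real.log_one, sub_zero] at h2
        have h3 := abs_sub_le (phi y) (phi 1) (phi x)
        linarith

theorem psi_mono {x y : ℝ} (hx : 0 ≤ x) (hxy : x ≤ y) : psi x ≤ psi y := by
  have := (abs_nonneg _).trans (phi_psi hx hxy)
  linarith

theorem gam_of_le {u : ℝ} (h : u ≤ 1) : gam u = 0 := by simp [gam, h]

theorem gam_of_ge {u : ℝ} (h : 1 ≤ u) : gam u = Real.log u - Real.sin u / u + Real.sin 1 := by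
  rcases h.eq_or_lt with rfl | h
  · simp [gam]
  · simp [gam, not_le.mpr h]

theorem EE_of_le {u : ℝ} (h : u ≤ 1) : EE u = u := by simp [EE, h]

theorem EE_of_ge {u : ℝ} (h : 1 ≤ u) : EE u = 2 - 1 / u := by
  rcases h.eq_or_lt with rfl | h
  · simp [EE]; norm_num
  · simp [EE, not_le.mpr h]

theorem EE_le {u : ℝ} : EE u ≤ 2 := by
  rcases le_or_gt u 1 with h | h
  · rw [EE_of_le h]; linarith
  · rw [EE_of_ge h.le]
    have : 0 ≤ 1 / u := by positivity
    linarith

theorem hasDerivAt_gam {u : ℝ} (hu : 0 < u) :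
    HasDerivAt (fun u => Real.log u - Real.sin u / u) (phi u + Real.sin u / u ^ 2) u := by
  have h1 := (Real.hasDerivAt_sin u).div (hasDerivAt_id u) hu.ne'
  have h2 := (Real.hasDerivAt_log hu.ne').sub h1
  simp only [id, mul_one] at h2
  have h3 : u⁻¹ - (Real.cos u * u - Real.sin u) / u ^ 2 = phi u + Real.sin u / u ^ 2 := by
    unfold phi
    field_simp
    ring
  rw [h3] at h2
  exact h2

theorem hasDerivAt_inv' {u : ℝ} (hu : 0 < u) :
    HasDerivAt (fun u : ℝ => 1 / u) (-(1 / u ^ 2)) u := by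
  have h1 := hasDerivAt_inv hu.ne'
  have h2 : (fun u : ℝ => 1 / u) = fun u => u⁻¹ := by
    funext u
    rw [one_div]
  rw [h2, one_div]
  exact h1

theorem gam_step {x y : ℝ} (hx : 1 ≤ x) (hxy : x ≤ y) :
    |(y - x) * phi y - (gam y - gam x)| ≤
      3 * (y - x) * (Real.log y - Real.log x) + (1 / x - 1 / y) := by
  have hy : 1 ≤ y := hx.trans hxy
  rw [gam_of_ge hx, gam_of_ge hy]
  set S : ℝ := 3 * (Real.log y - Real.log x) with hS
  have hpos : ∀ u ∈ Set.Icc x y, 0 < u := fun u hu => by linarith [hu.1]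
  have hb : ∀ u ∈ Set.Icc x y, |phi y - phi u| ≤ S := by
    intro u hu
    have h1 := phi_lip2 (hx.trans hu.1) hu.2
    have h2 := Real.log_le_log (by linarith) hu.1
    rw [hS]
    linarith
  have hda : ∀ u ∈ Set.Icc x y, HasDerivAt
      (fun u => (phi y + S) * u - ((Real.log u - Real.sin u / u) + 1 / u))
      ((phi y + S) * 1 - ((phi u + Real.sin u / u ^ 2) + -(1 / u ^ 2))) u := fun u hu =>
    ((hasDerivAt_id u).const_mul (phi y + S)).sub
      ((hasDerivAt_gam (hpos u hu)).add (hasDerivAt_inv' (hpos u hu)))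
  have hdb : ∀ u ∈ Set.Icc x y, HasDerivAt
      (fun u => ((Real.log u - Real.sin u / u) - 1 / u) - (phi y - S) * u)
      (((phi u + Real.sin u / u ^ 2) - -(1 / u ^ 2)) - (phi y - S) * 1) u := fun u hu =>
    ((hasDerivAt_gam (hpos u hu)).sub (hasDerivAt_inv' (hpos u hu))).sub
      ((hasDerivAt_id u).const_mul (phi y - S))
  have hsin : ∀ u ∈ Set.Icc x y, |Real.sin u / u ^ 2| ≤ 1 / u ^ 2 := by
    intro u hu
    have := hpos u hu
    rw [abs_div, abs_of_pos (by positivity : 0 < u ^ 2)]
    exact div_le_div_of_nonneg_right (Real.abs_sin_le_one u) (by positivity)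
  have m1 : MonotoneOn (fun u => (phi y + S) * u - ((Real.log u - Real.sin u / u) + 1 / u))
      (Set.Icc x y) := by
    apply monotoneOn_of_deriv_nonneg (convex_Icc x y)
    · exact fun u hu => (hda u hu).continuousAt.continuousWithinAt
    · exact fun u hu => (hda u (interior_subset hu)).differentiableAt.differentiableWithinAt
    · intro u hu
      have hu' := interior_subset hu
      rw [(hda u hu').deriv]
      have h1 := (abs_le.mp (hb u hu')).1
      have h2 := (abs_le.mp (hsin u hu')).2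
      linarith
  have m2 : MonotoneOn (fun u => ((Real.log u - Real.sin u / u) - 1 / u) - (phi y - S) * u)
      (Set.Icc x y) := by
    apply monotoneOn_of_deriv_nonneg (convex_Icc x y)
    · exact fun u hu => (hdb u hu).continuousAt.continuousWithinAt
    · exact fun u hu => (hdb u (interior_subset hu)).differentiableAt.differentiableWithinAt
    · intro u hu
      have hu' := interior_subset hu
      rw [(hdb u hu').deriv]
      have h1 := (abs_le.mp (hb u hu')).2
      have h2 := (abs_le.mp (hsin u hu')).1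
      linarith
  have e1 := m1 (Set.left_mem_Icc.mpr hxy) (Set.right_mem_Icc.mpr hxy) hxy
  have e2 := m2 (Set.left_mem_Icc.mpr hxy) (Set.right_mem_Icc.mpr hxy) hxy
  simp only at e1 e2
  have e3 : 3 * (y - x) * (Real.log y - Real.log x) = S * (y - x) := by rw [hS]; ring
  rw [e3, abs_le]
  constructor <;> nlinarith

theorem step {x y : ℝ} (hx : 0 ≤ x) (hxy : x ≤ y) :
    |(y - x) * phi y - (gam y - gam x)| ≤ (EE y - EE x) + 3 * (y - x) * (psi y - psi x) := by
  have hpy0 : 0 ≤ phi y := phi_nonneg (hx.trans hxy)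
  have hpy1 : phi y ≤ 1 := phi_le_one (hx.trans hxy)
  have hps := psi_mono hx hxy
  rcases le_or_gt y 1 with hy | hy
  · rw [gam_of_le hy, gam_of_le (hxy.trans hy), EE_of_le hy, EE_of_le (hxy.trans hy), sub_zero,
      sub_zero, abs_of_nonneg (mul_nonneg (by linarith) hpy0)]
    have h1 : 0 ≤ 3 * (y - x) * (psi y - psi x) :=
      mul_nonneg (by linarith) (by linarith)
    nlinarith
  · rcases le_or_gt 1 x with hx1 | hx1
    · rw [EE_of_ge hy.le, EE_of_ge hx1, psi_of_ge hy.le, psi_of_ge hx1]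
      have := gam_step hx1 hxy
      refine this.trans (le_of_eq ?_)
      ring
    · have h1 := gam_step (le_refl 1) hy.le
      rw [gam_of_le (le_refl 1), sub_zero, Real.log_one, sub_zero] at h1
      rw [gam_of_le hx1.le, sub_zero, EE_of_ge hy.le, EE_of_le hx1.le, psi_of_ge hy.le,
        psi_of_le hx1.le]
      have h2 : (y - x) * phi y - gam y = (1 - x) * phi y + ((y - 1) * phi y - gam y) := by ring
      rw [h2]
      have h3 : |(1 - x) * phi y| ≤ 1 - x := by
        rw [abs_of_nonneg (mul_nonneg (by linarith) hpy0)]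
        nlinarith
      have h4 : 0 ≤ Real.log y := Real.log_nonneg hy.le
      have h5 : 3 * (y - 1) * Real.log y ≤ 3 * (y - x) * (1 + Real.log y - x) := by
        have : (y - 1) * Real.log y ≤ (y - x) * (1 + Real.log y - x) :=
          mul_le_mul (by linarith) (by linarith) h4 (by linarith)
        linarith
      refine (abs_add_le _ _).trans ?_
      have h6 : (1 : ℝ) / 1 = 1 := by norm_num
      rw [h6] at h1
      linarith

theorem abs_gam_sub_log {u : ℝ} (hu : 1 ≤ u) : |gam u - Real.log u| ≤ 2 := by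
  rw [gam_of_ge hu]
  have h1 : |Real.sin u / u| ≤ 1 := by
    rw [abs_div, abs_of_pos (by linarith : 0 < u), div_le_one (by linarith)]
    exact (Real.abs_sin_le_one u).trans hu
  have h2 := Real.abs_sin_le_one 1
  have h3 : Real.log u - Real.sin u / u + Real.sin 1 - Real.log u =
      -(Real.sin u / u) + Real.sin 1 := by ring
  rw [h3]
  refine (abs_add_le _ _).trans ?_
  rw [abs_neg]
  linarith

/-! ### the sum with the differences of logarithms -/

theorem log_diff {n : ℕ} (hn : 2 ≤ n) :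
    0 ≤ Real.log n - Real.log ((n - 1 : ℕ) : ℝ) ∧ Real.log n - Real.log ((n - 1 : ℕ) : ℝ) ≤ 1 := by
  have h1 : (1 : ℝ) ≤ ((n - 1 : ℕ) : ℝ) := by exact_mod_cast (by omega : 1 ≤ n - 1)
  have h2 : (n : ℝ) = ((n - 1 : ℕ) : ℝ) + 1 := by
    rw [Nat.cast_sub (by omega)]
    push_cast
    ring
  constructor
  · have := Real.log_le_log (by linarith) (by linarith : ((n - 1 : ℕ) : ℝ) ≤ n)
    linarith
  · rw [← Real.log_div (by positivity) (by positivity)]
    have h3 : (n : ℝ) / ((n - 1 : ℕ) : ℝ) ≤ 2 := by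
      rw [div_le_iff₀ (by linarith)]
      linarith
    have h4 : 0 < (n : ℝ) / ((n - 1 : ℕ) : ℝ) := by positivity
    have := Real.log_le_sub_one_of_pos h4
    linarith

theorem sum3 (h : ℝ) (hh : 0 < h) (X : ℕ) (hX : 1 ≤ X) :
    |∑ n ∈ Finset.Icc 2 X, (h * Real.log n - h * Real.log ((n - 1 : ℕ) : ℝ)) *
      phi (h * Real.log n) - gam (h * Real.log X)| ≤
      EE (h * Real.log X) + 3 * h * psi (h * Real.log X) := by
  induction X, hX using Nat.le_induction with
  | base =>
    simp [gam_of_le, EE_of_le, psi_of_le]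
  | succ X hX ih =>
    rw [Finset.sum_Icc_succ_top (by omega)]
    have hd := log_diff (n := X + 1) (by omega)
    have hXe : ((X + 1 - 1 : ℕ) : ℝ) = X := by simp
    rw [hXe] at hd ⊢
    have hX0 : 0 ≤ Real.log X := Real.log_nonneg (by exact_mod_cast hX)
    have hle : h * Real.log X ≤ h * Real.log ((X + 1 : ℕ) : ℝ) :=
      mul_le_mul_of_nonneg_left (by linarith [hd.1]) hh.le
    have h1 := step (x := h * Real.log X) (y := h * Real.log ((X + 1 : ℕ) : ℝ)) (by positivity) hle
    have hps := psi_mono (x := h * Real.log X) (y := h * Real.log ((X + 1 : ℕ) : ℝ))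
      (by positivity) hle
    have h2 : 3 * (h * Real.log ((X + 1 : ℕ) : ℝ) - h * Real.log X) *
        (psi (h * Real.log ((X + 1 : ℕ) : ℝ)) - psi (h * Real.log X)) ≤
        3 * h * (psi (h * Real.log ((X + 1 : ℕ) : ℝ)) - psi (h * Real.log X)) := by
      apply mul_le_mul_of_nonneg_right _ (by linarith)
      nlinarith [hd.2]
    set a := ∑ n ∈ Finset.Icc 2 X, (h * Real.log n - h * Real.log ((n - 1 : ℕ) : ℝ)) *
      phi (h * Real.log n) with ha
    have h3 : a + (h * Real.log ((X + 1 : ℕ) : ℝ) - h * Real.log X) *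
        phi (h * Real.log ((X + 1 : ℕ) : ℝ)) - gam (h * Real.log ((X + 1 : ℕ) : ℝ)) =
        (a - gam (h * Real.log X)) +
        ((h * Real.log ((X + 1 : ℕ) : ℝ) - h * Real.log X) *
        phi (h * Real.log ((X + 1 : ℕ) : ℝ)) -
        (gam (h * Real.log ((X + 1 : ℕ) : ℝ)) - gam (h * Real.log X))) := by ring
    rw [h3]
    refine (abs_add_le _ _).trans ?_
    linarith

/-! ### prime powers -/

/-- the constant for the proper prime powers -/
noncomputable def Cpp : ℝ := 2 * ∑' n : ℕ, 1 / (n : ℝ) ^ 2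

theorem Cpp_nonneg : 0 ≤ Cpp := mul_nonneg (by norm_num) (tsum_nonneg fun n => by positivity)

theorem geo {r : ℝ} (hr0 : 0 ≤ r) (hr : 2 * r ≤ 1) (K : ℕ) (hK : 1 ≤ K) :
    ∑ k ∈ Finset.Icc 2 K, r ^ k ≤ 2 * r ^ 2 - 2 * r ^ (K + 1) := by
  induction K, hK using Nat.le_induction with
  | base => simp
  | succ K hK ih =>
    rw [Finset.sum_Icc_succ_top (by omega)]
    have h1 : r ^ (K + 1 + 1) = r ^ (K + 1) * r := pow_succ _ _
    have h2 : 0 ≤ r ^ (K + 1) := by positivity
    rw [h1]
    nlinarith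

theorem pp_sum (X : ℕ) : ∑ n ∈ (Finset.Icc 2 X).filter (fun n => IsPrimePow n ∧ ¬ n.Prime),
    1 / (n : ℝ) ≤ Cpp := by
  classical
  rcases Nat.lt_or_ge X 2 with hX | hX
  · have : Finset.Icc 2 X = ∅ := Finset.Icc_eq_empty (by omega)
    rw [this]
    simp [Cpp_nonneg]
  set S := (Finset.Icc 2 X).filter (fun n => IsPrimePow n ∧ ¬ n.Prime) with hS
  let φ : ℕ → ℕ × ℕ := fun n => (n.minFac, n.factorization n.minFac)
  let F : ℕ × ℕ → ℝ := fun z => (1 / (z.1 : ℝ)) ^ z.2
  have hpow : ∀ n ∈ S, n.minFac ^ n.factorization n.minFac = n := by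
    intro n hn
    exact (Finset.mem_filter.mp hn).2.1.minFac_pow_factorization_eq
  have hinj : Set.InjOn φ S := by
    intro a ha b hb hab
    have h1 := hpow a ha
    have h2 := hpow b hb
    simp only [φ, Prod.mk.injEq] at hab
    rw [← h1, ← h2, hab.2, hab.1]
  have hmap : S.image φ ⊆ Finset.Icc 2 X ×ˢ Finset.Icc 2 X := by
    intro z hz
    obtain ⟨n, hn, rfl⟩ := Finset.mem_image.mp hz
    have hn' := Finset.mem_filter.mp hn
    have hnX := Finset.mem_Icc.mp hn'.1
    have hp : n.minFac.Prime := Nat.minFac_prime (by omega)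
    have hpw := hpow n hn
    have hk0 : n.factorization n.minFac ≠ 0 := by
      intro h0
      rw [h0, pow_zero] at hpw
      omega
    have hk1 : n.factorization n.minFac ≠ 1 := by
      intro h0
      rw [h0, pow_one] at hpw
      exact hn'.2.2 (hpw ▸ hp)
    have hk2 : n.factorization n.minFac ≤ X := by
      have h1 : n.factorization n.minFac < 2 ^ n.factorization n.minFac := Nat.lt_two_pow_self
      have h2 : 2 ^ n.factorization n.minFac ≤ n.minFac ^ n.factorization n.minFac :=
        Nat.pow_le_pow_left hp.two_le _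
      omega
    have hm : n.minFac ≤ X := (Nat.minFac_le (by omega)).trans hnX.2
    simp only [φ, Finset.mem_product, Finset.mem_Icc]
    exact ⟨⟨hp.two_le, hm⟩, ⟨by omega, hk2⟩⟩
  have hF0 : ∀ z, 0 ≤ F z := fun z => by positivity
  calc ∑ n ∈ S, 1 / (n : ℝ) = ∑ n ∈ S, F (φ n) := by
        refine Finset.sum_congr rfl fun n hn => ?_
        show 1 / (n : ℝ) = (1 / ((n.minFac : ℕ) : ℝ)) ^ (n.factorization n.minFac)
        rw [one_div_pow]
        congr 1
        exact_mod_cast (hpow n hn).symm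
    _ = ∑ z ∈ S.image φ, F z := (Finset.sum_image hinj).symm
    _ ≤ ∑ z ∈ Finset.Icc 2 X ×ˢ Finset.Icc 2 X, F z :=
        Finset.sum_le_sum_of_subset_of_nonneg hmap fun z _ _ => hF0 z
    _ = ∑ m ∈ Finset.Icc 2 X, ∑ k ∈ Finset.Icc 2 X, (1 / (m : ℝ)) ^ k := Finset.sum_product _ _ _
    _ ≤ ∑ m ∈ Finset.Icc 2 X, 2 * (1 / (m : ℝ) ^ 2) := by
        refine Finset.sum_le_sum fun m hm => ?_
        have hm2 : (2 : ℝ) ≤ m := by exact_mod_cast (Finset.mem_Icc.mp hm).1
        have h1 := geo (r := 1 / (m : ℝ)) (by positivity) (by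
          rw [mul_one_div, div_le_one (by linarith)]; exact hm2) X (by omega)
        have h2 : 0 ≤ (1 / (m : ℝ)) ^ (X + 1) := by positivity
        rw [one_div_pow (m : ℝ) 2] at h1
        linarith
    _ ≤ Cpp := by
        rw [← Finset.mul_sum]
        unfold Cpp
        refine mul_le_mul_of_nonneg_left ?_ (by norm_num)
        exact (Real.summable_one_div_nat_pow.mpr (by norm_num)).sum_le_tsum _
          (fun n _ => by positivity)

theorem D_bound {n : ℕ} (hn : 2 ≤ n) :
    0 ≤ vonMangoldt n / (n * Real.log n) - vonMangoldt n ^ 2 / (n * Real.log n ^ 2) ∧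
    vonMangoldt n / (n * Real.log n) - vonMangoldt n ^ 2 / (n * Real.log n ^ 2) ≤
      if IsPrimePow n ∧ ¬ n.Prime then 1 / (n : ℝ) else 0 := by
  have hn0 : (0 : ℝ) < n := by exact_mod_cast (by omega : 0 < n)
  have hlog : 0 < Real.log n := Real.log_pos (by exact_mod_cast (by omega : 1 < n))
  have hL0 : 0 ≤ vonMangoldt n := vonMangoldt_nonneg
  have hL1 : vonMangoldt n ≤ Real.log n := vonMangoldt_le_log
  have heq : vonMangoldt n / (n * Real.log n) - vonMangoldt n ^ 2 / (n * Real.log n ^ 2) =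
      1 / (n : ℝ) * ((vonMangoldt n / Real.log n) * (1 - vonMangoldt n / Real.log n)) := by
    field_simp
  set t := vonMangoldt n / Real.log n with ht
  have ht0 : 0 ≤ t := div_nonneg hL0 hlog.le
  have ht1 : t ≤ 1 := (div_le_one hlog).mpr hL1
  rw [heq]
  refine ⟨by have : 0 ≤ 1 - t := by linarith
             positivity, ?_⟩
  split_ifs with hc
  · have h1 : t * (1 - t) ≤ 1 := by nlinarith
    have h2 : 0 ≤ 1 / (n : ℝ) := by positivity
    nlinarith
  · rw [not_and_or, not_not] at hc
    rcases hc with hc | hc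
    · have : vonMangoldt n = 0 := vonMangoldt_eq_zero_iff.mpr hc
      rw [ht, this]
      simp
    · have : vonMangoldt n = Real.log n := vonMangoldt_apply_prime hc
      rw [ht, this, div_self hlog.ne']
      simp

end NTSaux

open NTSaux in
theorem nts : ∃ C : ℝ, 0 < C ∧ ∀ (h : ℝ) (X : ℕ), 0 < h → h ≤ 7 → 2 ≤ X → 1 ≤ h * Real.log X →
    |∑ n ∈ Finset.Icc 2 X, ArithmeticFunction.vonMangoldt n ^ 2 / (n * Real.log n ^ 2) *
      (1 - Real.cos (h * Real.log n)) - Real.log (h * Real.log X)| ≤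
      C * (1 + h * Real.log (h * Real.log X)) := by
  refine ⟨2 * Cpp + 300, by linarith [Cpp_nonneg], fun h X hh hh7 hX hV => ?_⟩
  have hX1 : 1 ≤ X := by omega
  have hXR : (1 : ℝ) ≤ X := by exact_mod_cast hX1
  set V := h * Real.log X with hVd
  have hlogV : 0 ≤ Real.log V := Real.log_nonneg hV
  have hpsiV : psi V = 1 + Real.log V := psi_of_ge hV
  -- the three sums
  set S1 := ∑ n ∈ Finset.Icc 2 X, ArithmeticFunction.vonMangoldt n ^ 2 / (n * Real.log n ^ 2) *
      (1 - Real.cos (h * Real.log n)) with hS1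
  set S2 := ∑ n ∈ Finset.Icc 2 X, ArithmeticFunction.vonMangoldt n / (n * Real.log n) *
      (1 - Real.cos (h * Real.log n)) with hS2
  set S3 := ∑ n ∈ Finset.Icc 2 X, (h * Real.log n - h * Real.log ((n - 1 : ℕ) : ℝ)) *
      phi (h * Real.log n) with hS3
  have h12 : |S1 - S2| ≤ 2 * Cpp := by
    rw [hS1, hS2, ← Finset.sum_sub_distrib]
    refine (Finset.abs_sum_le_sum_abs _ _).trans ?_
    have h1 : ∀ n ∈ Finset.Icc 2 X, |ArithmeticFunction.vonMangoldt n ^ 2 / (n * Real.log n ^ 2) *
        (1 - Real.cos (h * Real.log n)) - ArithmeticFunction.vonMangoldt n / (n * Real.log n) *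
        (1 - Real.cos (h * Real.log n))| ≤
        2 * (if IsPrimePow n ∧ ¬ n.Prime then 1 / (n : ℝ) else 0) := by
      intro n hn
      obtain ⟨d0, d1⟩ := D_bound (Finset.mem_Icc.mp hn).1
      rw [← sub_mul, abs_mul, abs_sub_comm, abs_of_nonneg d0]
      have c1 := Real.cos_le_one (h * Real.log n)
      have c2 := Real.neg_one_le_cos (h * Real.log n)
      rw [abs_of_nonneg (by linarith : 0 ≤ 1 - Real.cos (h * Real.log n)), mul_comm]
      exact mul_le_mul (by linarith) d1 d0 (by norm_num)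
    refine (Finset.sum_le_sum h1).trans ?_
    rw [← Finset.mul_sum, ← Finset.sum_filter]
    exact mul_le_mul_of_nonneg_left (pp_sum X) (by norm_num)
  -- Abel summation
  let g : ℕ → ℝ := fun n => h * phi (h * Real.log n)
  have hg1 : g 1 = 0 := by simp [g, phi_zero]
  have hgn : ∀ n : ℕ, 2 ≤ n → g n = (1 - Real.cos (h * Real.log n)) / Real.log n := by
    intro n hn
    have hlog : 0 < Real.log n := Real.log_pos (by exact_mod_cast (by omega : 1 < n))
    show h * ((1 - Real.cos (h * Real.log n)) / (h * Real.log n)) = _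
    field_simp
  have hsplit : ∀ (w : ℕ → ℝ), ∑ n ∈ Finset.Icc 1 X, w n * g n =
      ∑ n ∈ Finset.Icc 2 X, w n * g n := by
    intro w
    rw [← Finset.add_sum_Ioc_eq_sum_Icc hX1, hg1, mul_zero, zero_add]
    rfl
  have hS2' : S2 = ∑ n ∈ Finset.Icc 1 X, (ArithmeticFunction.vonMangoldt n / n) * g n := by
    rw [hsplit, hS2]
    refine Finset.sum_congr rfl fun n hn => ?_
    rw [hgn n (Finset.mem_Icc.mp hn).1]
    have hn2 := (Finset.mem_Icc.mp hn).1
    have hlog : 0 < Real.log n := Real.log_pos (by exact_mod_cast (by omega : 1 < n))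
    have hn0 : (0 : ℝ) < n := by exact_mod_cast (by omega : 0 < n)
    field_simp
  let ℓ : ℕ → ℝ := fun n => Real.log n - Real.log ((n - 1 : ℕ) : ℝ)
  have hℓsum : ∀ N : ℕ, ∑ n ∈ Finset.Icc 1 N, ℓ n = Real.log N := by
    intro N
    induction N with
    | zero => simp
    | succ N ih =>
      rw [Finset.sum_Icc_succ_top (by omega), ih]
      simp [ℓ]
  have hS3' : S3 = ∑ n ∈ Finset.Icc 1 X, ℓ n * g n := by
    rw [hsplit, hS3]
    refine Finset.sum_congr rfl fun n _ => ?_
    show _ = (Real.log n - Real.log ((n - 1 : ℕ) : ℝ)) * (h * phi (h * Real.log n))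
    ring
  have hA := _root_.H370.nt_abel (fun n => ArithmeticFunction.vonMangoldt n / n) g X hX1
  have hB := _root_.H370.nt_abel ℓ g X hX1
  simp only [hℓsum] at hB
  have hR : ∀ N : ℕ, 1 ≤ N →
      |∑ n ∈ Finset.Icc 1 N, ArithmeticFunction.vonMangoldt n / n - Real.log N| ≤ 6 := by
    intro N hN
    have r1 := _root_.H370.nt_mertens_lower N hN
    have r2 := _root_.H370.nt_mertens_upper N hN
    rw [abs_le]
    constructor <;> linarith
  have hTV : ∀ N : ℕ, 1 ≤ N → ∑ n ∈ Finset.Ico 1 N, |g (n + 1) - g n| ≤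
      3 * h * psi (h * Real.log N) := by
    intro N hN
    induction N, hN using Nat.le_induction with
    | base => simp [psi_of_le]
    | succ N hN ih =>
      rw [Finset.sum_Ico_succ_top hN]
      have hN0 : 0 ≤ Real.log N := Real.log_nonneg (by exact_mod_cast hN)
      have hle : h * Real.log N ≤ h * Real.log ((N + 1 : ℕ) : ℝ) := by
        apply mul_le_mul_of_nonneg_left _ hh.le
        apply Real.log_le_log (by exact_mod_cast (by omega : 0 < N))
        push_cast
        linarith
      have h1 := phi_psi (x := h * Real.log N) (y := h * Real.log ((N + 1 : ℕ) : ℝ))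
        (by positivity) hle
      have h2 : |g (N + 1) - g N| ≤
          3 * h * (psi (h * Real.log ((N + 1 : ℕ) : ℝ)) - psi (h * Real.log N)) := by
        show |h * phi (h * Real.log ((N + 1 : ℕ) : ℝ)) - h * phi (h * Real.log N)| ≤ _
        rw [← mul_sub, abs_mul, abs_of_pos hh]
        have := mul_le_mul_of_nonneg_left h1 hh.le
        linarith
      linarith
  have h23 : |S2 - S3| ≤ 6 * h + 18 * h * psi V := by
    rw [hS2', hS3', hA, hB]
    have e1 : (∑ n ∈ Finset.Icc 1 X, ArithmeticFunction.vonMangoldt n / (n : ℝ)) * g X -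
        ∑ n ∈ Finset.Ico 1 X, (∑ k ∈ Finset.Icc 1 n, ArithmeticFunction.vonMangoldt k / (k : ℝ)) *
          (g (n + 1) - g n) -
        (Real.log X * g X - ∑ n ∈ Finset.Ico 1 X, Real.log n * (g (n + 1) - g n)) =
        (∑ n ∈ Finset.Icc 1 X, ArithmeticFunction.vonMangoldt n / (n : ℝ) - Real.log X) * g X -
        ∑ n ∈ Finset.Ico 1 X, ((∑ k ∈ Finset.Icc 1 n, ArithmeticFunction.vonMangoldt k / (k : ℝ)) -
          Real.log n) * (g (n + 1) - g n) := by
      simp only [sub_mul, Finset.sum_sub_distrib]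
      ring
    rw [e1]
    refine (abs_sub _ _).trans ?_
    have hgX : |g X| ≤ h := by
      show |h * phi (h * Real.log X)| ≤ h
      rw [abs_mul, abs_of_pos hh, abs_of_nonneg (phi_nonneg (by linarith))]
      have := phi_le_one (u := h * Real.log X) (by linarith)
      nlinarith
    have t1 : |(∑ n ∈ Finset.Icc 1 X, ArithmeticFunction.vonMangoldt n / (n : ℝ) - Real.log X) *
        g X| ≤ 6 * h := by
      rw [abs_mul]
      exact mul_le_mul (hR X hX1) hgX (abs_nonneg _) (by norm_num)
    have t2 : |∑ n ∈ Finset.Ico 1 X,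
        ((∑ k ∈ Finset.Icc 1 n, ArithmeticFunction.vonMangoldt k / (k : ℝ)) -
          Real.log n) * (g (n + 1) - g n)| ≤ 18 * h * psi V := by
      refine (Finset.abs_sum_le_sum_abs _ _).trans ?_
      have t3 : ∀ n ∈ Finset.Ico 1 X,
          |((∑ k ∈ Finset.Icc 1 n, ArithmeticFunction.vonMangoldt k / (k : ℝ)) -
          Real.log n) * (g (n + 1) - g n)| ≤ 6 * |g (n + 1) - g n| := by
        intro n hn
        rw [abs_mul]
        exact mul_le_mul_of_nonneg_right (hR n (Finset.mem_Ico.mp hn).1) (abs_nonneg _)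
      refine (Finset.sum_le_sum t3).trans ?_
      rw [← Finset.mul_sum]
      have := hTV X hX1
      linarith
    linarith
  have h34 := sum3 h hh X hX1
  rw [← hS3, ← hVd] at h34
  have h4 := abs_gam_sub_log hV
  have hE := EE_le (u := V)
  have hfin : |S1 - Real.log V| ≤ |S1 - S2| + |S2 - S3| + |S3 - gam V| + |gam V - Real.log V| := by
    have a1 := abs_sub_le S1 S2 (Real.log V)
    have a2 := abs_sub_le S2 S3 (Real.log V)
    have a3 := abs_sub_le S3 (gam V) (Real.log V)
    linarith
  have hCpp := Cpp_nonneg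
  have hhl : 0 ≤ h * Real.log V := by positivity
  have hhpsi : h * psi V ≤ 7 + h * Real.log V := by
    rw [hpsiV]
    nlinarith
  have hprod : 0 ≤ Cpp * (h * Real.log V) := by positivity
  calc |S1 - Real.log V| ≤ 2 * Cpp + (6 * h + 18 * h * psi V) + (EE V + 3 * h * psi V) + 2 := by
        linarith
    _ ≤ 2 * Cpp + 42 + 21 * (7 + h * Real.log V) + 4 := by nlinarith
    _ ≤ (2 * Cpp + 300) * (1 + h * Real.log V) := by nlinarith

end Pool.Agent.TH850.UV
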