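import Pool.Agent.TH850.UV.AcE
import Pool.Agent.TH850.UV.NTS
import Pool.Agent.TH850.UV.DPM

set_option autoImplicit false

/-! # The mean square of the integrated prime sum -/

namespace Pool.Agent.TH850.UV

open Complex Filter Topology MeasureTheory Set
open ArithmeticFunction (vonMangoldt)
open H370.A2 (lamC lamC_norm)

/-- the coefficients of the integrated prime sum -/
noncomputable def kap (l h : ℝ) (n : ℕ) : ℂ :=
  (2 * (1 / Real.sqrt (2 * Real.pi)) : ℝ) * (lamC n * (Real.sqrt n : ℂ)⁻¹ * (ggo l n : ℂ)) *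
    ((l / (2 * Real.pi) : ℝ) * ((1 - (n : ℂ) ^ (-(h : ℂ) * I)) / (I * Real.log n)))

/-- the integrated prime sum -/
noncomputable def Db (l h : ℝ) (X : ℕ) (t : ℝ) : ℝ :=
  (∑ n ∈ Finset.Icc 2 X, kap l h n * (n : ℂ) ^ (-(t : ℂ) * I)).re

lemma lamC_one : lamC 1 = 0 := by
  unfold H370.A2.lamC
  simp

lemma cpow_add (n : ℕ) (hn : 1 ≤ n) (t h : ℝ) :
    (n : ℂ) ^ (-((t + h : ℝ) : ℂ) * I) = (n : ℂ) ^ (-(t : ℂ) * I) * (n : ℂ) ^ (-(h : ℂ) * I) := by
  have hn0 : (n : ℂ) ≠ 0 := by exact_mod_cast (by omega : n ≠ 0)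
  rw [← Complex.cpow_add _ _ hn0]
  congr 1
  push_cast
  ring

lemma int_cpow (n : ℕ) (hn : 2 ≤ n) (t h : ℝ) :
    ∫ τ in t..(t + h), (n : ℂ) ^ (-(τ : ℂ) * I) =
      (n : ℂ) ^ (-(t : ℂ) * I) * ((1 - (n : ℂ) ^ (-(h : ℂ) * I)) / (I * Real.log n)) := by
  have hn0 : (n : ℂ) ≠ 0 := by exact_mod_cast (by omega : n ≠ 0)
  have hlog : Real.log n ≠ 0 := by
    apply (Real.log_pos _).ne'
    exact_mod_cast (by omega : 1 < n)
  have hlogC : (Real.log n : ℂ) ≠ 0 := by exact_mod_cast hlog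
  have hd : ∀ τ ∈ Set.uIcc t (t + h), HasDerivAt
      (fun τ : ℝ => (n : ℂ) ^ (-(τ : ℂ) * I) / (-(I * Real.log n)))
      ((n : ℂ) ^ (-(τ : ℂ) * I)) τ := by
    intro τ _
    have h1 : HasDerivAt (fun z : ℂ => -z * I) (-1 * I) (τ : ℂ) :=
      ((hasDerivAt_id' (τ : ℂ)).neg).mul_const I
    have h2 := (h1.const_cpow (c := (n : ℂ)) (Or.inl hn0)).comp_ofReal
    have h3 := h2.div_const (-(I * Real.log n))
    refine h3.congr_deriv ?_
    rw [← Complex.natCast_log]
    field_simp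
  have hc : Continuous fun τ : ℝ => (n : ℂ) ^ (-(τ : ℂ) * I) :=
    Continuous.const_cpow (by fun_prop) (Or.inl hn0)
  rw [intervalIntegral.integral_eq_sub_of_hasDerivAt hd (hc.intervalIntegrable _ _)]
  rw [cpow_add n (by omega)]
  field_simp
  ring

lemma Db_eq (l h : ℝ) (X : ℕ) (t : ℝ) :
    Db l h X t = ∫ τ in t..(t + h), (l / (2 * Real.pi)) * (2 * (1 / Real.sqrt (2 * Real.pi)) *
      (DDo lamC l X τ).re) := by
  have hc := DDo_cont lamC l X
  have h1 : ∫ τ in t..(t + h), (l / (2 * Real.pi)) * (2 * (1 / Real.sqrt (2 * Real.pi)) *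
      (DDo lamC l X τ).re) = (((l / (2 * Real.pi) : ℝ) : ℂ) *
      ((2 * (1 / Real.sqrt (2 * Real.pi)) : ℝ) : ℂ) * ∫ τ in t..(t + h), DDo lamC l X τ).re := by
    rw [← Complex.ofReal_mul, Complex.re_ofReal_mul, intervalIntegral.integral_const_mul,
      intervalIntegral.integral_const_mul]
    have h2 := Complex.reCLM.intervalIntegral_comp_comm
      (hc.intervalIntegrable (μ := volume) t (t + h))
    simp only [Complex.reCLM_apply] at h2
    rw [h2]
    ring
  rw [h1]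
  unfold Db DDo
  congr 1
  rw [intervalIntegral.integral_finsetSum]
  · rw [Finset.mul_sum]
    rcases Nat.lt_or_ge X 1 with hX | hX
    · have hX0 : X = 0 := by omega
      subst hX0
      simp
    · rw [← Finset.add_sum_Ioc_eq_sum_Icc hX]
      rw [lamC_one, zero_mul, zero_mul]
      simp only [zero_mul, intervalIntegral.integral_zero, mul_zero, zero_add]
      have e : Finset.Ioc 1 X = Finset.Icc 2 X := by
        ext n; simp only [Finset.mem_Ioc, Finset.mem_Icc]; omega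
      rw [e]
      refine Finset.sum_congr rfl fun n hn => ?_
      rw [intervalIntegral.integral_const_mul, int_cpow n (Finset.mem_Icc.1 hn).1]
      unfold kap
      ring
  · intro n hn
    have hn0 : (n : ℂ) ≠ 0 := by
      exact_mod_cast (by have := (Finset.mem_Icc.1 hn).1; omega : n ≠ 0)
    apply Continuous.intervalIntegrable
    exact continuous_const.mul (Continuous.const_cpow (by fun_prop) (Or.inl hn0))

lemma norm_one_sub_cpow (n : ℕ) (hn : 1 ≤ n) (h : ℝ) :
    ‖1 - (n : ℂ) ^ (-(h : ℂ) * I)‖ ^ 2 = 2 * (1 - Real.cos (h * Real.log n)) := by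
  have hn0 : (n : ℂ) ≠ 0 := by exact_mod_cast (by omega : n ≠ 0)
  rw [Complex.cpow_def_of_ne_zero hn0, ← Complex.natCast_log]
  have e : (Real.log n : ℂ) * (-(h : ℂ) * I) = ((-(h * Real.log n) : ℝ) : ℂ) * I := by
    push_cast; ring
  rw [e, Complex.exp_mul_I, ← Complex.ofReal_cos, ← Complex.ofReal_sin]
  rw [← Complex.normSq_eq_norm_sq, Complex.normSq_apply]
  simp only [Complex.sub_re, Complex.sub_im, Complex.one_re, Complex.one_im, Complex.add_re,
    Complex.add_im, Complex.mul_re, Complex.mul_im, Complex.ofReal_re, Complex.ofReal_im,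
    Complex.I_re, Complex.I_im, mul_zero, mul_one, zero_sub, sub_zero, add_zero, zero_add,
    Real.cos_neg, Real.sin_neg]
  have := Real.sin_sq_add_cos_sq (h * Real.log n)
  nlinarith

lemma kap_sq {l : ℝ} (hl : 0 < l) (h : ℝ) (n : ℕ) (hn : 2 ≤ n) :
    ‖kap l h n‖ ^ 2 = 1 / Real.pi ^ 3 * (vonMangoldt n ^ 2 / (n * Real.log n ^ 2) *
      (1 - Real.cos (h * Real.log n))) * (l * ggo l n) ^ 2 := by
  have hpi := Real.pi_pos
  have hn0 : (0 : ℝ) < n := by exact_mod_cast (by omega : 0 < n)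
  have hlog : 0 < Real.log n := Real.log_pos (by exact_mod_cast (by omega : 1 < n))
  unfold kap
  rw [norm_mul, norm_mul, norm_mul, norm_mul, norm_mul, norm_div, norm_mul, Complex.norm_I,
    one_mul, norm_inv, Complex.norm_real, Complex.norm_real, Complex.norm_real, Complex.norm_real,
    Complex.norm_real, lamC_norm]
  rw [Real.norm_of_nonneg (Real.sqrt_nonneg _), Real.norm_of_nonneg (ggo_nonneg l n),
    Real.norm_of_nonneg hlog.le, Real.norm_of_nonneg (by positivity : 0 ≤ l / (2 * Real.pi)),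
    Real.norm_of_nonneg (by positivity : 0 ≤ 2 * (1 / Real.sqrt (2 * Real.pi)))]
  have e1 := norm_one_sub_cpow n (by omega) h
  have e2 : Real.sqrt n ^ 2 = n := Real.sq_sqrt hn0.le
  have e3 : Real.sqrt (2 * Real.pi) ^ 2 = 2 * Real.pi := Real.sq_sqrt (by positivity)
  have hs1 : Real.sqrt n ≠ 0 := (Real.sqrt_pos.2 hn0).ne'
  have hs2 : Real.sqrt (2 * Real.pi) ≠ 0 := (Real.sqrt_pos.2 (by positivity)).ne'
  generalize ‖1 - (n : ℂ) ^ (-(h : ℂ) * I)‖ = N at e1 ⊢
  generalize Real.sqrt (2 * Real.pi) = s2 at e3 hs2 ⊢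
  generalize Real.sqrt n = s1 at e2 hs1 ⊢
  have e4 : (2 * (1 / s2) * (vonMangoldt n * s1⁻¹ * ggo l n) *
      (l / (2 * Real.pi) * (N / Real.log n))) ^ 2 =
      4 / s2 ^ 2 * (vonMangoldt n ^ 2 / s1 ^ 2 * ggo l n ^ 2) *
        (l ^ 2 / (4 * Real.pi ^ 2) * (N ^ 2 / Real.log n ^ 2)) := by
    field_simp
  rw [e4, e1, e2, e3]
  field_simp

lemma kap_le {l : ℝ} (hl : 0 < l) (h : ℝ) (n : ℕ) (hn : 2 ≤ n) : ‖kap l h n‖ ≤ 1 := by
  have hpi := Real.pi_pos
  have hn0 : (0 : ℝ) < n := by exact_mod_cast (by omega : 0 < n)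
  have hn1 : (1 : ℝ) ≤ n := by exact_mod_cast (by omega : 1 ≤ n)
  have hlog : 0 < Real.log n := Real.log_pos (by exact_mod_cast (by omega : 1 < n))
  have h1 := kap_sq hl h n hn
  have h2 : vonMangoldt n ^ 2 / (n * Real.log n ^ 2) ≤ 1 := by
    rw [div_le_one (by positivity)]
    have h3 : vonMangoldt n ^ 2 ≤ Real.log n ^ 2 :=
      pow_le_pow_left₀ ArithmeticFunction.vonMangoldt_nonneg
        ArithmeticFunction.vonMangoldt_le_log 2
    have h4 : 0 < Real.log n ^ 2 := by positivity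
    nlinarith
  have h3 : 1 - Real.cos (h * Real.log n) ≤ 2 := by
    linarith [Real.neg_one_le_cos (h * Real.log n)]
  have h3' : 0 ≤ 1 - Real.cos (h * Real.log n) := by
    linarith [Real.cos_le_one (h * Real.log n)]
  have h4 : (l * ggo l n) ^ 2 ≤ 2 * Real.pi := by
    have h5 := ggo_le hl n
    rw [le_div_iff₀ hl] at h5
    have h6 : 0 ≤ l * ggo l n := mul_nonneg hl.le (ggo_nonneg l n)
    calc (l * ggo l n) ^ 2 ≤ Real.sqrt (2 * Real.pi) ^ 2 :=
          pow_le_pow_left₀ h6 (by linarith) 2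
      _ = 2 * Real.pi := Real.sq_sqrt (by positivity)
  have h5 : ‖kap l h n‖ ^ 2 ≤ 1 := by
    rw [h1]
    calc 1 / Real.pi ^ 3 * (vonMangoldt n ^ 2 / (n * Real.log n ^ 2) *
          (1 - Real.cos (h * Real.log n))) * (l * ggo l n) ^ 2 ≤
        1 / Real.pi ^ 3 * (1 * 2) * (2 * Real.pi) := by
          apply mul_le_mul _ h4 (sq_nonneg _) (by positivity)
          apply mul_le_mul_of_nonneg_left _ (by positivity)
          exact mul_le_mul h2 h3 h3' zero_le_one
      _ = 4 / Real.pi ^ 2 := by field_simp; ring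
      _ ≤ 1 := by
          rw [div_le_one (by positivity)]
          nlinarith [Real.pi_gt_three]
  nlinarith [norm_nonneg (kap l h n)]

end Pool.Agent.TH850.UV
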