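import Pool.Agent.TH850.UV.Kap

set_option autoImplicit false

/-! # The sum of the squares of the coefficients -/

namespace Pool.Agent.TH850.UV

open Complex Filter Topology MeasureTheory Set
open ArithmeticFunction (vonMangoldt)

/-- the weight -/
noncomputable def wn (h : ℝ) (n : ℕ) : ℝ :=
  vonMangoldt n ^ 2 / (n * Real.log n ^ 2) * (1 - Real.cos (h * Real.log n))

lemma wn_nonneg (h : ℝ) (n : ℕ) : 0 ≤ wn h n := by
  unfold wn
  have : 0 ≤ 1 - Real.cos (h * Real.log n) := by linarith [Real.cos_le_one (h * Real.log n)]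
  positivity

lemma wn_le (h : ℝ) (n : ℕ) (hn : 2 ≤ n) : wn h n ≤ 2 * (vonMangoldt n / n) / Real.log n := by
  have hn0 : (0 : ℝ) < n := by exact_mod_cast (by omega : 0 < n)
  have hlog : 0 < Real.log n := Real.log_pos (by exact_mod_cast (by omega : 1 < n))
  have h0 : 0 ≤ vonMangoldt n := ArithmeticFunction.vonMangoldt_nonneg
  have h1 : vonMangoldt n ≤ Real.log n := ArithmeticFunction.vonMangoldt_le_log
  have h3 : 1 - Real.cos (h * Real.log n) ≤ 2 := by
    linarith [Real.neg_one_le_cos (h * Real.log n)]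
  have h3' : 0 ≤ 1 - Real.cos (h * Real.log n) := by
    linarith [Real.cos_le_one (h * Real.log n)]
  unfold wn
  have h2 : vonMangoldt n ^ 2 / (n * Real.log n ^ 2) ≤ (vonMangoldt n / n) / Real.log n := by
    rw [div_div, div_le_div_iff₀ (by positivity) (by positivity)]
    have h4 : 0 ≤ (n : ℝ) * Real.log n * vonMangoldt n := by positivity
    nlinarith [mul_le_mul_of_nonneg_left h1 h4]
  calc _ ≤ (vonMangoldt n / n) / Real.log n * 2 := mul_le_mul h2 h3 h3' (by positivity)
    _ = _ := by ring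

lemma wn_le2 (h : ℝ) (n : ℕ) (hn : 2 ≤ n) : wn h n ≤ 2 / n := by
  have hn0 : (0 : ℝ) < n := by exact_mod_cast (by omega : 0 < n)
  have hlog : 0 < Real.log n := Real.log_pos (by exact_mod_cast (by omega : 1 < n))
  refine (wn_le h n hn).trans ?_
  have h1 : vonMangoldt n ≤ Real.log n := ArithmeticFunction.vonMangoldt_le_log
  rw [div_le_div_iff₀ hlog hn0]
  have : 2 * (vonMangoldt n / n) * n = 2 * vonMangoldt n := by field_simp
  rw [this]
  linarith

/-- the range of the parameter -/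
lemma range_le {a B L : ℝ} (ha : 1 ≤ a) (hB : 0 < B) (h1 : Real.exp B ≤ L)
    (h2 : a * Real.log a ≤ B * L) : a ≤ L := by
  have ha0 : 0 < a := by linarith
  rcases le_total (Real.log a) B with h | h
  · rw [Real.log_le_iff_le_exp ha0] at h
    linarith
  · have h3 : a * B ≤ a * Real.log a := mul_le_mul_of_nonneg_left h ha0.le
    nlinarith

lemma kap_sum {lam : ℝ} (hlam : 16 ≤ lam) (B : ℝ) (hB : 1 ≤ B) : ∃ C T0 : ℝ, 0 < C ∧ 10 ≤ T0 ∧ ∀ T : ℝ, T0 ≤ T →
    ∀ a : ℝ, lam ≤ a → a * Real.log a ≤ B * Real.log T →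
    |∑ n ∈ Finset.Icc 2 (XT T), ‖kap (Real.log T / lam) (2 * Real.pi * a / Real.log T) n‖ ^ 2 -
      2 / Real.pi ^ 2 * Real.log a| ≤ C := by
  obtain ⟨C1, hC1, hnts⟩ := nts
  have hB0 : 0 < B := by linarith
  have hlam0 : 0 < lam := by linarith
  have hpi := Real.pi_pos
  have hpi3 := Real.pi_gt_three
  have hpi4 := Real.pi_lt_d2
  have hlog := Real.tendsto_log_atTop
  have hll : Tendsto (fun T : ℝ => Real.log T / lam) atTop atTop := hlog.atTop_div_const hlam0
  obtain ⟨T2, hT2⟩ := ((hll.eventually_ge_atTop 16).and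
    (hlog.eventually_ge_atTop (Real.exp B))).exists_forall_of_atTop
  set ζ2 : ℝ := ∑' n : ℕ, 1 / (n : ℝ) ^ 2 with hζ2
  have hζ0 : 0 ≤ ζ2 := tsum_nonneg fun n => by positivity
  refine ⟨2 * (8 * B * C1 + Real.log lam) + 2 * (lam + 10) + 240 * (3 + 20 + 2 * ζ2) + 1, max 10 T2,
    ?_, le_max_left _ _, fun T hT a ha haL => ?_⟩
  · have : 0 ≤ Real.log lam := Real.log_nonneg (by linarith)
    positivity
  have hT10 : 10 ≤ T := (le_max_left _ _).trans hT
  obtain ⟨g1, g1'⟩ := hT2 T ((le_max_right _ _).trans hT)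
  have hT0 : 0 < T := by linarith
  have hL0 : 0 < Real.log T := Real.log_pos (by linarith)
  have ha16 : 16 ≤ a := hlam.trans ha
  have ha0 : 0 < a := by linarith
  have hla : 1 ≤ Real.log a := by
    rw [Real.le_log_iff_exp_le ha0]
    linarith [Real.exp_one_lt_d9]
  set L := Real.log T with hL
  set l := L / lam with hl
  set h := 2 * Real.pi * a / L with hh
  have hl0 : 0 < l := by positivity
  have hl1 : 1 ≤ l := by linarith
  have hlamlog : 0 ≤ Real.log lam := Real.log_nonneg (by linarith)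
  have haL' : a ≤ L := range_le (by linarith) (by linarith) g1' haL
  have hh0 : 0 < h := by positivity
  have hh7 : h ≤ 7 := by
    rw [hh, div_le_iff₀ hL0]
    nlinarith only [hpi4, haL', hL0, ha0]
  -- the cut
  set Y : ℕ := ⌊Real.exp (l / 2)⌋₊ with hY
  have hYle : (Y : ℝ) ≤ Real.exp (l / 2) := Nat.floor_le (Real.exp_pos _).le
  have hYlt : Real.exp (l / 2) < Y + 1 := Nat.lt_floor_add_one _
  have hY2 : 2 ≤ Y := by
    rw [hY]
    apply Nat.le_floor
    have := Real.add_one_le_exp (l / 2)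
    push_cast
    linarith
  have hY0 : (0 : ℝ) < Y := by exact_mod_cast (by omega : 0 < Y)
  have hY1 : (1 : ℝ) ≤ Y := by exact_mod_cast (by omega : 1 ≤ Y)
  have hYlog : Real.log Y ≤ l / 2 := by
    rw [Real.log_le_iff_le_exp hY0]; exact hYle
  have hYlog2 : l / 2 - 1 ≤ Real.log Y := by
    rw [Real.le_log_iff_exp_le hY0, Real.exp_sub]
    rw [div_le_iff₀ (Real.exp_pos _)]
    have : (2 : ℝ) ≤ Real.exp 1 := by linarith [Real.exp_one_gt_d9]
    nlinarith
  have hXY : Y ≤ XT T := by
    unfold XT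
    rw [hY]
    apply Nat.floor_le_floor
    rw [Real.rpow_def_of_pos hT0]
    apply Real.exp_le_exp.2
    rw [← hL]
    have : l ≤ L / 16 := div_le_div_of_nonneg_left hL0.le (by norm_num) hlam
    linarith
  have hXlog : Real.log (XT T) ≤ L / 8 := by
    have hX0 : (0 : ℝ) < XT T := by exact_mod_cast (by omega : 0 < XT T)
    calc Real.log (XT T) ≤ Real.log (T ^ (1 / 8 : ℝ)) :=
          Real.log_le_log hX0 (Nat.floor_le (by positivity))
      _ = L / 8 := by rw [Real.log_rpow hT0]; ring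
  -- the main term
  have hhY : h * (l / 2) = Real.pi * a / lam := by
    rw [hh, hl]; field_simp
  have hm1 : h * Real.log Y ≤ a := by
    calc h * Real.log Y ≤ h * (l / 2) := by gcongr
      _ = Real.pi * a / lam := hhY
      _ ≤ a := by
          rw [div_le_iff₀ hlam0]
          nlinarith
  have hm2 : a / lam ≤ h * Real.log Y := by
    calc a / lam ≤ Real.pi * a / lam / 2 := by
          rw [div_div, div_le_div_iff₀ hlam0 (by positivity)]
          have : 0 < a * lam := by positivity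
          nlinarith
      _ = h * (l / 4) := by rw [← hhY]; ring
      _ ≤ h * Real.log Y := by
          apply mul_le_mul_of_nonneg_left _ hh0.le
          linarith
  have hm3 : 1 ≤ h * Real.log Y := by
    refine le_trans ?_ hm2
    rw [le_div_iff₀ hlam0]; linarith
  have hS := hnts h Y hh0 hh7 hY2 hm3
  have hm4 : Real.log (h * Real.log Y) ≤ Real.log a :=
    Real.log_le_log (by linarith) hm1
  have hm5 : Real.log a - Real.log lam ≤ Real.log (h * Real.log Y) := by
    rw [← Real.log_div ha0.ne' hlam0.ne']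
    exact Real.log_le_log (by positivity) hm2
  have hm6 : h * Real.log (h * Real.log Y) ≤ 7 * B := by
    calc h * Real.log (h * Real.log Y) ≤ h * Real.log a := by gcongr
      _ = 2 * Real.pi * (a * Real.log a) / L := by rw [hh]; ring
      _ ≤ 2 * Real.pi * (B * L) / L := by gcongr
      _ = 2 * Real.pi * B := by field_simp
      _ ≤ 7 * B := by nlinarith only [hpi4, hB]
  have hSw : |∑ n ∈ Finset.Icc 2 Y, wn h n - Real.log a| ≤ 8 * B * C1 + Real.log lam := by
    have h1 : ∑ n ∈ Finset.Icc 2 Y, wn h n - Real.log a =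
        (∑ n ∈ Finset.Icc 2 Y, wn h n - Real.log (h * Real.log Y)) +
        (Real.log (h * Real.log Y) - Real.log a) := by ring
    rw [h1]
    refine (abs_add_le _ _).trans (add_le_add (hS.trans ?_) ?_)
    · have h2 : C1 * (1 + h * Real.log (h * Real.log Y)) ≤ C1 * (B + 7 * B) := by
        apply mul_le_mul_of_nonneg_left _ hC1.le
        linarith only [hm6, hB]
      linarith only [h2]
    · rw [abs_le]; constructor <;> linarith
  -- the split
  set G : ℕ → ℝ := fun n => (l * ggo l n) ^ 2 with hG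
  have hG0 : ∀ n, 0 ≤ l * ggo l n := fun n => mul_nonneg hl0.le (ggo_nonneg l n)
  have hs2 : Real.sqrt (2 * Real.pi) ^ 2 = 2 * Real.pi := Real.sq_sqrt (by positivity)
  have hs0 : 0 ≤ Real.sqrt (2 * Real.pi) := Real.sqrt_nonneg _
  have hs3 : Real.sqrt (2 * Real.pi) ≤ 3 := by
    rw [Real.sqrt_le_left (by norm_num)]
    linarith
  have hGs : ∀ n, l * ggo l n ≤ Real.sqrt (2 * Real.pi) := by
    intro n
    have h5 := ggo_le hl0 n
    rw [le_div_iff₀ hl0] at h5
    linarith
  have hG1 : ∀ n, G n ≤ 2 * Real.pi := by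
    intro n
    rw [← hs2]
    exact pow_le_pow_left₀ (hG0 n) (hGs n) 2
  have hG2 : ∀ n ∈ Finset.Icc 2 Y, 2 * Real.pi - G n ≤ 240 * ((1 + Real.log n) / l + 1 / n) := by
    intro n hn
    rw [Finset.mem_Icc] at hn
    have hn0 : (0 : ℝ) < n := by exact_mod_cast (by omega : 0 < n)
    have h6 : Real.log n ≤ l / 2 := by
      refine le_trans ?_ hYlog
      exact Real.log_le_log hn0 (by exact_mod_cast hn.2)
    have h7 := ggo_low hl1 n (by omega) h6
    have h8 : 0 ≤ (1 + Real.log n) / l + 1 / n := by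
      have : 0 ≤ Real.log n := Real.log_nonneg (by exact_mod_cast (by omega : 1 ≤ n))
      positivity
    have h9 : 2 * Real.pi - G n = (Real.sqrt (2 * Real.pi) - l * ggo l n) *
        (Real.sqrt (2 * Real.pi) + l * ggo l n) := by
      have e : 2 * Real.pi - G n = Real.sqrt (2 * Real.pi) ^ 2 - (l * ggo l n) ^ 2 := by
        rw [hs2]
      rw [e]; ring
    rw [h9]
    calc _ ≤ (40 * ((1 + Real.log n) / l + 1 / n)) * (3 + 3) := by
          apply mul_le_mul (by linarith) _ (by linarith [hG0 n]) (by positivity)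
          linarith [hGs n]
      _ = _ := by ring
  have hsplit : ∑ n ∈ Finset.Icc 2 (XT T), ‖kap l h n‖ ^ 2 =
      ∑ n ∈ Finset.Icc 2 Y, 1 / Real.pi ^ 3 * wn h n * G n +
      ∑ n ∈ Finset.Ioc Y (XT T), 1 / Real.pi ^ 3 * wn h n * G n := by
    have e1 : Finset.Icc 2 (XT T) = Finset.Icc 2 Y ∪ Finset.Ioc Y (XT T) := by
      ext n; simp only [Finset.mem_union, Finset.mem_Icc, Finset.mem_Ioc]; omega
    have e2 : Disjoint (Finset.Icc 2 Y) (Finset.Ioc Y (XT T)) := by
      rw [Finset.disjoint_left]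
      intro n h1 h2
      simp only [Finset.mem_Icc, Finset.mem_Ioc] at h1 h2
      omega
    rw [Finset.sum_congr rfl fun n hn => kap_sq hl0 h n (Finset.mem_Icc.1 hn).1, e1,
      Finset.sum_union e2]
    rfl
  -- the tail
  have hp3 : 1 / Real.pi ^ 3 ≤ 1 / 27 := by
    apply one_div_le_one_div_of_le (by norm_num)
    calc (27 : ℝ) = 3 ^ 3 := by norm_num
      _ ≤ Real.pi ^ 3 := pow_le_pow_left₀ (by norm_num) hpi3.le 3
  have hpp : 0 ≤ 1 / Real.pi ^ 3 := by positivity
  have htail : ∑ n ∈ Finset.Ioc Y (XT T), 1 / Real.pi ^ 3 * wn h n * G n ≤ 2 * (lam + 10) := by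
    have hvm : ∀ n : ℕ, 0 ≤ vonMangoldt n / (n : ℝ) := fun n =>
      div_nonneg ArithmeticFunction.vonMangoldt_nonneg (Nat.cast_nonneg _)
    have h1 : ∀ n ∈ Finset.Ioc Y (XT T), 1 / Real.pi ^ 3 * wn h n * G n ≤
        (4 / l) * (vonMangoldt n / n) := by
      intro n hn
      rw [Finset.mem_Ioc] at hn
      have hn2 : 2 ≤ n := by omega
      have hn0 : (0 : ℝ) < n := by exact_mod_cast (by omega : 0 < n)
      have h2 := wn_le h n hn2
      have h3 : l / 2 ≤ Real.log n := by
        rw [Real.le_log_iff_exp_le hn0]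
        have : ((Y : ℝ) + 1) ≤ n := by exact_mod_cast hn.1
        linarith
      have h4 : 2 * (vonMangoldt n / n) / Real.log n ≤ 2 * (vonMangoldt n / n) / (l / 2) :=
        div_le_div_of_nonneg_left (by have := hvm n; linarith) (by positivity) h3
      have h5 : 2 * (vonMangoldt n / n) / (l / 2) = 4 / l * (vonMangoldt n / n) := by
        field_simp; ring
      have h6 := hG1 n
      have h7 := wn_nonneg h n
      calc 1 / Real.pi ^ 3 * wn h n * G n ≤ 1 / 27 * wn h n * 27 := by
            apply mul_le_mul _ (by linarith) (by simp only [hG]; positivity) (by positivity)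
            gcongr
        _ = wn h n := by ring
        _ ≤ _ := by linarith
    have hXT1 : 1 ≤ XT T := by omega
    have hmer := H370.nt_mertens_upper (XT T) hXT1
    have h2 : ∑ n ∈ Finset.Ioc Y (XT T), vonMangoldt n / (n : ℝ) ≤ L / 8 + 6 := by
      refine (Finset.sum_le_sum_of_subset_of_nonneg ?_ fun n _ _ => hvm n).trans
        (hmer.trans (by linarith))
      intro n hn
      rw [Finset.mem_Ioc] at hn
      rw [Finset.mem_Icc]
      omega
    refine (Finset.sum_le_sum h1).trans ?_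
    rw [← Finset.mul_sum]
    calc 4 / l * ∑ n ∈ Finset.Ioc Y (XT T), vonMangoldt n / (n : ℝ) ≤ 4 / l * (L / 8 + 6) := by
          gcongr
      _ = lam / 2 + 24 / l := by rw [hl]; field_simp; ring
      _ ≤ 2 * (lam + 10) := by
          have : 24 / l ≤ 20 := by
            rw [div_le_iff₀ hl0]; linarith
          linarith
  have htail0 : 0 ≤ ∑ n ∈ Finset.Ioc Y (XT T), 1 / Real.pi ^ 3 * wn h n * G n :=
    Finset.sum_nonneg fun n _ => by
      have := wn_nonneg h n
      simp only [hG]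
      positivity
  -- the deficiency
  have hdef : ∑ n ∈ Finset.Icc 2 Y, wn h n * (2 * Real.pi - G n) ≤
      240 * (3 + 20 + 2 * ζ2) := by
    have hvm : ∀ n : ℕ, 0 ≤ vonMangoldt n / (n : ℝ) := fun n =>
      div_nonneg ArithmeticFunction.vonMangoldt_nonneg (Nat.cast_nonneg _)
    have h1 : ∀ n ∈ Finset.Icc 2 Y, wn h n * (2 * Real.pi - G n) ≤
        240 * (6 / l * (vonMangoldt n / n) + 2 * (1 / (n : ℝ) ^ 2)) := by
      intro n hn
      have h0 := hG2 n hn
      rw [Finset.mem_Icc] at hn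
      have hn0 : (0 : ℝ) < n := by exact_mod_cast (by omega : 0 < n)
      have hlog2 : Real.log 2 ≤ Real.log n :=
        Real.log_le_log (by norm_num) (by exact_mod_cast hn.1)
      have hl2 := Real.log_two_gt_d9
      have hlogn : 0 < Real.log n := by linarith
      have h2 : wn h n * ((1 + Real.log n) / l) ≤ 6 / l * (vonMangoldt n / n) := by
        have h3 := wn_le h n hn.1
        have h4 : (1 + Real.log n) ≤ 3 * Real.log n := by linarith
        calc wn h n * ((1 + Real.log n) / l) ≤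
            (2 * (vonMangoldt n / n) / Real.log n) * ((3 * Real.log n) / l) := by
              apply mul_le_mul h3 _ (by positivity) (by have := hvm n; positivity)
              gcongr
          _ = _ := by field_simp; ring
      have h3 : wn h n * (1 / n) ≤ 2 * (1 / (n : ℝ) ^ 2) := by
        calc wn h n * (1 / n) ≤ (2 / n) * (1 / n) := by
              apply mul_le_mul_of_nonneg_right (wn_le2 h n hn.1) (by positivity)
          _ = _ := by field_simp
      calc wn h n * (2 * Real.pi - G n) ≤ wn h n * (240 * ((1 + Real.log n) / l + 1 / n)) :=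
            mul_le_mul_of_nonneg_left h0 (wn_nonneg h n)
        _ = 240 * (wn h n * ((1 + Real.log n) / l) + wn h n * (1 / n)) := by ring
        _ ≤ _ := by gcongr
    refine (Finset.sum_le_sum h1).trans ?_
    rw [← Finset.mul_sum]
    apply mul_le_mul_of_nonneg_left _ (by norm_num)
    rw [Finset.sum_add_distrib, ← Finset.mul_sum, ← Finset.mul_sum]
    have hmer := H370.nt_mertens_upper Y (by omega)
    have h2 : ∑ n ∈ Finset.Icc 2 Y, vonMangoldt n / (n : ℝ) ≤ l / 2 + 6 := by
      refine (Finset.sum_le_sum_of_subset_of_nonneg ?_ fun n _ _ => hvm n).trans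
        (hmer.trans (by linarith))
      intro n hn
      rw [Finset.mem_Icc] at hn ⊢
      omega
    have h3 : ∑ n ∈ Finset.Icc 2 Y, 1 / (n : ℝ) ^ 2 ≤ ζ2 :=
      (Real.summable_one_div_nat_pow.2 (by norm_num)).sum_le_tsum _ fun k _ => by positivity
    have h4 : 6 / l * ∑ n ∈ Finset.Icc 2 Y, vonMangoldt n / (n : ℝ) ≤ 6 / l * (l / 2 + 6) := by
      gcongr
    have h5 : 6 / l * (l / 2 + 6) = 3 + 36 / l := by field_simp; ring
    have h6 : 36 / l ≤ 20 := by
      rw [div_le_iff₀ hl0]; linarith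
    linarith
  have hdef0 : 0 ≤ ∑ n ∈ Finset.Icc 2 Y, wn h n * (2 * Real.pi - G n) :=
    Finset.sum_nonneg fun n _ => mul_nonneg (wn_nonneg h n) (by linarith [hG1 n])
  have hmain : ∑ n ∈ Finset.Icc 2 Y, 1 / Real.pi ^ 3 * wn h n * G n =
      2 / Real.pi ^ 2 * ∑ n ∈ Finset.Icc 2 Y, wn h n -
      1 / Real.pi ^ 3 * ∑ n ∈ Finset.Icc 2 Y, wn h n * (2 * Real.pi - G n) := by
    rw [Finset.mul_sum, Finset.mul_sum, ← Finset.sum_sub_distrib]
    refine Finset.sum_congr rfl fun n _ => ?_
    field_simp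
    ring
  rw [hsplit, hmain]
  set S1 := ∑ n ∈ Finset.Icc 2 Y, wn h n with hS1
  set S2 := ∑ n ∈ Finset.Icc 2 Y, wn h n * (2 * Real.pi - G n) with hS2
  set S3 := ∑ n ∈ Finset.Ioc Y (XT T), 1 / Real.pi ^ 3 * wn h n * G n with hS3
  have e1 : 2 / Real.pi ^ 2 * S1 - 1 / Real.pi ^ 3 * S2 + S3 - 2 / Real.pi ^ 2 * Real.log a =
      2 / Real.pi ^ 2 * (S1 - Real.log a) - 1 / Real.pi ^ 3 * S2 + S3 := by ring
  rw [e1]
  have hp2 : 2 / Real.pi ^ 2 ≤ 2 := by
    rw [div_le_iff₀ (by positivity)]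
    nlinarith
  have hp20 : 0 ≤ 2 / Real.pi ^ 2 := by positivity
  have b1 : |2 / Real.pi ^ 2 * (S1 - Real.log a)| ≤ 2 * (8 * B * C1 + Real.log lam) := by
    rw [abs_mul, abs_of_nonneg hp20]
    exact mul_le_mul hp2 hSw (abs_nonneg _) (by norm_num)
  have b2 : 1 / Real.pi ^ 3 * S2 ≤ 240 * (3 + 20 + 2 * ζ2) := by
    calc 1 / Real.pi ^ 3 * S2 ≤ 1 * (240 * (3 + 20 + 2 * ζ2)) := by
          apply mul_le_mul (by linarith) hdef hdef0 zero_le_one
      _ = _ := one_mul _
  have b3 : 0 ≤ 1 / Real.pi ^ 3 * S2 := mul_nonneg hpp hdef0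
  have b4 := abs_le.1 b1
  have b5 : 0 ≤ 240 * (3 + 20 + 2 * ζ2) := by positivity
  rw [abs_le]
  constructor
  · linarith [b4.1]
  · linarith [b4.2]

end Pool.Agent.TH850.UV
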