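import Pool.Agent.TH850.UV.Core2
import Pool.Agent.TH850.UR.Comp

set_option autoImplicit false

/-! # The number variance -/

namespace Pool.Agent.TH850.UV

open Complex Filter Topology MeasureTheory Set
open Pool.Agent.TH850.UR (ew zeros mem_Z fin_eq)
open H370 (zz Zf mult mem_Zf good_zeta NN NN_eq zz_re zz_im)

/-- the number of zeros with ordinate in `(t, t + h]`, with multiplicity -/
noncomputable def cnt (t h : ℝ) : ℕ :=
  ∑ᶠ s ∈ {s : ℂ | s ∈ zeros ∧ (t < s.im ∧ s.im ≤ t + h)}, analyticOrderNatAt riemannZeta s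

lemma cnt_eq {A B t h : ℝ} (hA : 1 ≤ A) (h1 : A ≤ t) (h2 : t + h ≤ B) :
    (cnt t h : ℝ) = NS (Zf riemannZeta A B) h t := by
  classical
  unfold cnt NS
  rw [fin_eq (A := A) (B := B) hA (fun s => t < s.im ∧ s.im ≤ t + h)
    (fun s hs => ⟨by linarith [hs.1], by linarith [hs.2]⟩)]
  push_cast
  refine Finset.sum_congr rfl fun s _ => ?_
  unfold mS mult
  by_cases hs : t < s.im ∧ s.im ≤ t + h
  · rw [if_pos hs, if_pos hs, mul_one]
  · rw [if_neg hs, if_neg hs, mul_zero]

lemma NS_nonneg (S : Finset ℂ) (h t : ℝ) : 0 ≤ NS S h t := by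
  unfold NS
  refine Finset.sum_nonneg fun s _ => mul_nonneg (mS_nonneg s) ?_
  split_ifs <;> norm_num

lemma NS_meas (S : Finset ℂ) (h : ℝ) : Measurable (NS S h) := by
  unfold NS
  refine Finset.measurable_sum _ fun s _ => measurable_const.mul ?_
  refine Measurable.ite ?_ measurable_const measurable_const
  exact (measurableSet_lt measurable_id measurable_const).inter
    (measurableSet_le measurable_const (measurable_id.add_const h))

/-- the crude bound -/
lemma cnt_crude : ∃ C : ℝ, 0 < C ∧ ∀ T : ℝ, 10 ≤ T → ∀ t h : ℝ, T / 2 ≤ t → t ≤ 3 * T → 0 ≤ h →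
    h ≤ 8 → (cnt t h : ℝ) ≤ C * Real.log T := by
  classical
  obtain ⟨C, hC, hz⟩ := H370.zcount good_zeta
  refine ⟨8 * C, by positivity, fun T hT t h ht ht2 hh hh8 => ?_⟩
  have hlT : 0 < Real.log T := Real.log_pos (by linarith)
  have ht1 : 1 ≤ t := by linarith
  rw [cnt_eq (A := t) (B := t + 8) ht1 le_rfl (by linarith)]
  set S := Zf riemannZeta t (t + 8) with hS
  have h1 : NS S h t ≤ ∑ j ∈ Finset.range 4, NS S 2 (t + 2 * j) := by
    unfold NS
    rw [Finset.sum_comm]
    refine Finset.sum_le_sum fun s hs => ?_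
    rw [← Finset.mul_sum]
    apply mul_le_mul_of_nonneg_left _ (mS_nonneg s)
    rw [hS, mem_Zf good_zeta ht1] at hs
    have h3 := hs.2.2.1
    have h4 := hs.2.2.2.1
    have hle : (if t < s.im ∧ s.im ≤ t + h then (1 : ℝ) else 0) ≤ 1 := by
      split_ifs <;> norm_num
    refine hle.trans ?_
    have hpos : ∀ j ∈ Finset.range 4, (0 : ℝ) ≤
        (if t + 2 * (j : ℝ) < s.im ∧ s.im ≤ t + 2 * (j : ℝ) + 2 then (1 : ℝ) else 0) := by
      intro j _
      split_ifs <;> norm_num
    rcases le_or_gt s.im (t + 2) with h5 | h5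
    · refine le_trans (le_of_eq ?_) (Finset.single_le_sum hpos (Finset.mem_range.2 (by norm_num : 0 < 4)))
      rw [if_pos ⟨by push_cast; linarith, by push_cast; linarith⟩]
    rcases le_or_gt s.im (t + 4) with h6 | h6
    · refine le_trans (le_of_eq ?_) (Finset.single_le_sum hpos (Finset.mem_range.2 (by norm_num : 1 < 4)))
      rw [if_pos ⟨by push_cast; linarith, by push_cast; linarith⟩]
    rcases le_or_gt s.im (t + 6) with h7 | h7
    · refine le_trans (le_of_eq ?_) (Finset.single_le_sum hpos (Finset.mem_range.2 (by norm_num : 2 < 4)))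
      rw [if_pos ⟨by push_cast; linarith, by push_cast; linarith⟩]
    · refine le_trans (le_of_eq ?_) (Finset.single_le_sum hpos (Finset.mem_range.2 (by norm_num : 3 < 4)))
      rw [if_pos ⟨by push_cast; linarith, by push_cast; linarith⟩]
  refine h1.trans ?_
  have h2 : ∀ j ∈ Finset.range 4, NS S 2 (t + 2 * j) ≤ 2 * C * Real.log T := by
    intro j hj
    rw [Finset.mem_range] at hj
    have hj0 : (0 : ℝ) ≤ j := Nat.cast_nonneg _
    have hj4 : (j : ℝ) ≤ 3 := by exact_mod_cast (by omega : j ≤ 3)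
    have h3 := hz (t + 2 * j + 1) (by linarith)
    have e1 : t + 2 * (j : ℝ) + 1 - 1 = t + 2 * j := by ring
    have e2 : t + 2 * (j : ℝ) + 1 + 1 = t + 2 * j + 2 := by ring
    rw [e1, e2, NN_eq good_zeta (by linarith), Nat.cast_sum] at h3
    have h4 : Real.log (t + 2 * j + 1) ≤ 2 * Real.log T := by
      have : Real.log (t + 2 * j + 1) ≤ Real.log (T ^ 2) := by
        apply Real.log_le_log (by linarith)
        nlinarith
      rw [Real.log_pow] at this
      exact_mod_cast this
    calc NS S 2 (t + 2 * j) ≤ ∑ s ∈ Zf riemannZeta (t + 2 * j) (t + 2 * j + 2),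
          (mult riemannZeta s : ℝ) := by
          unfold NS
          have e3 : ∀ s, mS s * (if t + 2 * (j : ℝ) < s.im ∧ s.im ≤ t + 2 * (j : ℝ) + 2 then
              (1 : ℝ) else 0) = if t + 2 * (j : ℝ) < s.im ∧ s.im ≤ t + 2 * (j : ℝ) + 2 then
              (mult riemannZeta s : ℝ) else 0 := by
            intro s
            unfold mS
            split_ifs <;> simp
          simp_rw [e3]
          rw [← Finset.sum_filter]
          refine Finset.sum_le_sum_of_subset_of_nonneg ?_ fun s _ _ => Nat.cast_nonneg _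
          intro s hs
          rw [Finset.mem_filter, hS, mem_Zf good_zeta ht1] at hs
          rw [mem_Zf good_zeta (by linarith)]
          exact ⟨hs.1.1, hs.1.2.1, hs.2.1, hs.2.2, hs.1.2.2.2.2⟩
      _ ≤ C * Real.log (t + 2 * j + 1) := h3
      _ ≤ C * (2 * Real.log T) := by gcongr
      _ = _ := by ring
  refine (Finset.sum_le_sum h2).trans (le_of_eq ?_)
  rw [Finset.sum_const, Finset.card_range, nsmul_eq_mul]
  push_cast
  ring

/-- the count is dominated by the majorant -/
lemma cnt_dom {lam T a t : ℝ} (hlam : 1 ≤ lam) (hT : 10 ≤ T) (ha : 0 < a) (hal : a ≤ lam)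
    (ht : T ≤ t) (ht2 : t + 2 * Real.pi * a / Real.log T ≤ 2 * T) :
    (cnt t (2 * Real.pi * a / Real.log T) : ℝ) ≤ (1 + (2 * Real.pi * lam) ^ 2) * VV lam T t := by
  have hpi := Real.pi_pos
  have hL0 : 0 < Real.log T := Real.log_pos (by linarith)
  rw [cnt_eq (A := T) (B := 2 * T) (by linarith) ht ht2]
  unfold NS VV
  rw [Finset.mul_sum]
  refine Finset.sum_le_sum fun s _ => ?_
  unfold mS
  have hew : 1 ≤ ew (1 / (2 * lam)) (Real.log T) s := by
    unfold Pool.Agent.TH850.UR.ew
    apply Real.one_le_exp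
    positivity
  have hm : (0 : ℝ) ≤ (mult riemannZeta s : ℝ) := Nat.cast_nonneg _
  by_cases h : t < s.im ∧ s.im ≤ t + 2 * Real.pi * a / Real.log T
  · rw [if_pos h, mul_one]
    have h1 : (s.im - t) * Real.log T ≤ 2 * Real.pi * lam := by
      have h2 : s.im - t ≤ 2 * Real.pi * a / Real.log T := by linarith [h.2]
      rw [le_div_iff₀ hL0] at h2
      refine h2.trans ?_
      gcongr
    have h0 : 0 ≤ (s.im - t) * Real.log T := mul_nonneg (by linarith [h.1]) hL0.le
    have h2 : ((s.im - t) * Real.log T) ^ 2 ≤ (2 * Real.pi * lam) ^ 2 := pow_le_pow_left₀ h0 h1 2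
    rw [mul_div_assoc', le_div_iff₀ (by positivity)]
    calc (mult riemannZeta s : ℝ) * (1 + ((s.im - t) * Real.log T) ^ 2) ≤
        (mult riemannZeta s : ℝ) * (1 + (2 * Real.pi * lam) ^ 2) := by gcongr
      _ = (1 + (2 * Real.pi * lam) ^ 2) * ((mult riemannZeta s : ℝ) * 1) := by ring
      _ ≤ _ := by gcongr
  · rw [if_neg h, mul_zero]
    have := ew_nonneg (1 / (2 * lam)) (Real.log T) s
    positivity

end Pool.Agent.TH850.UV
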