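import Pool.Agent.TH850.UV.NVf

set_option autoImplicit false

/-! # The number variance: the final form -/

namespace Pool.Agent.TH850.UV

open Complex Filter Topology MeasureTheory Set
open H370 (zz Zf mult mem_Zf good_zeta NN NN_eq zz_re zz_im)

lemma int_const_bd {g : ℝ → ℝ} {A B K : ℝ} (hAB : A ≤ B) (hg : IntervalIntegrable g volume A B)
    (h : ∀ t ∈ Icc A B, g t ≤ K) : ∫ t in A..B, g t ≤ (B - A) * K := by
  have := intervalIntegral.integral_mono_on hAB hg
    (continuous_const.intervalIntegrable (μ := volume) A B) h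
  rwa [intervalIntegral.integral_const, smul_eq_mul] at this

theorem nv (B : ℝ) (hB : 1 ≤ B) : ∃ C T0 : ℝ, 0 < C ∧ 10 ≤ T0 ∧ ∀ T : ℝ, T0 ≤ T →
    ∀ a : ℝ, 1 ≤ a → a * Real.log a ≤ B * Real.log T →
    IntervalIntegrable (fun t => ((cnt t (2 * Real.pi * a / Real.log T) : ℝ) - a) ^ 2)
      volume T (2 * T) ∧
    |(∫ t in T..(2 * T), ((cnt t (2 * Real.pi * a / Real.log T) : ℝ) - a) ^ 2) -
      T / Real.pi ^ 2 * Real.log a| ≤ C * T := by
  classical
  obtain ⟨lam, C, T1, hlam, hC, hT1, hcore⟩ := core B hB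
  obtain ⟨CC, hCC, hcr⟩ := cnt_crude
  have hlam0 : 0 < lam := by linarith
  have hpi := Real.pi_pos
  have hB0 : 0 < B := by linarith
  have hpi3 := Real.pi_gt_three
  have hlog := Real.tendsto_log_atTop
  have hev1 : ∀ᶠ T : ℝ in atTop, 2 * Real.log T + 7 ≤ 1 * T / 2 := by
    have h1 : (fun T : ℝ => 2 * Real.log T + 7) =o[atTop] fun T : ℝ => T :=
      (Real.isLittleO_log_id_atTop.const_mul_left 2).add (Asymptotics.isLittleO_const_id_atTop _)
    have h2 := h1.bound (c := 1 / 2) (by norm_num)
    filter_upwards [h2, eventually_ge_atTop 1] with T hT hT1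
    rw [Real.norm_of_nonneg (by linarith : (0 : ℝ) ≤ T)] at hT
    have := (le_abs_self _).trans hT
    linarith
  have hev2 : ∀ᶠ T : ℝ in atTop, (2 * Real.log T + 7) * ((CC + 1) * Real.log T) ^ 2 ≤ T := by
    have hlit : ∀ r : ℝ, 0 < r → ∀ c d : ℝ, (fun T : ℝ => c * Real.log T + d) =o[atTop]
        fun T : ℝ => T ^ r := by
      intro r hr c d
      refine Asymptotics.IsLittleO.add
          ((isLittleO_log_rpow_atTop hr).const_mul_left c) ?_
      rw [Asymptotics.isLittleO_const_left]
      right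
      exact tendsto_norm_atTop_atTop.comp (tendsto_rpow_atTop hr)
    have h1 : (fun T : ℝ => (2 * Real.log T + 7) * ((CC + 1) * Real.log T) ^ 2) =o[atTop]
        fun T : ℝ => T := by
      have h2 := hlit (1 / 2) (by norm_num) 2 7
      have h3 := hlit (1 / 4) (by norm_num) (CC + 1) 0
      have h4 := h2.mul (h3.pow (n := 2) (by norm_num))
      refine h4.congr' (Eventually.of_forall fun T => by simp only [add_zero]) ?_
      filter_upwards [eventually_gt_atTop 0] with T hT
      rw [← Real.rpow_natCast, ← Real.rpow_mul hT.le, ← Real.rpow_add hT]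
      norm_num
    have h2 := h1.bound (c := 1) one_pos
    filter_upwards [h2, eventually_ge_atTop 1] with T hT hT1
    rw [one_mul, Real.norm_of_nonneg (by linarith : (0 : ℝ) ≤ T)] at hT
    exact (le_abs_self _).trans hT
  have hev3 : ∀ᶠ T : ℝ in atTop, lam ≤ Real.log T ∧ Real.exp B ≤ Real.log T :=
    (hlog.eventually_ge_atTop _).and (hlog.eventually_ge_atTop _)
  obtain ⟨T2, hT2⟩ := (hev1.and (hev2.and hev3)).exists_forall_of_atTop
  set KV := (1 + (2 * Real.pi * lam) ^ 2) with hKV
  refine ⟨C + (2 * KV ^ 2 * C + 2 * lam ^ 2 + Real.log lam) + 1, max T1 T2, ?_,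
    hT1.trans (le_max_left _ _), fun T hT a ha haL => ?_⟩
  · have : 0 ≤ Real.log lam := Real.log_nonneg (by linarith)
    positivity
  have hTT1 : T1 ≤ T := (le_max_left _ _).trans hT
  obtain ⟨g1, g2, g3, g5⟩ := hT2 T ((le_max_right _ _).trans hT)
  have hT10 : 10 ≤ T := hT1.trans hTT1
  have hT0 : 0 < T := by linarith
  obtain ⟨⟨hVi, hVb⟩, hmain⟩ := hcore T hTT1
  have hL0 : 0 < Real.log T := Real.log_pos (by linarith)
  have ha0 : 0 < a := by linarith
  have hlamlog : 0 ≤ Real.log lam := Real.log_nonneg (by linarith)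
  have hcrT := hcr T hT10
  set L := Real.log T with hL
  have hL16 : 16 ≤ L := by linarith
  have haL' : a ≤ L := range_le ha (by linarith) g5 haL
  set h := 2 * Real.pi * a / L with hh
  have hh0 : 0 < h := by positivity
  have hh7 : h ≤ 7 := by
    rw [hh, div_le_iff₀ hL0]
    nlinarith only [Real.pi_lt_d2, haL', hL0, ha0]
  -- the function
  set g : ℝ → ℝ := fun t => (NS (Zf riemannZeta T (3 * T)) h t - a) ^ 2 with hg
  have hgm : Measurable g := ((NS_meas _ h).sub_const a).pow_const 2
  have hg0 : ∀ t, 0 ≤ g t := fun t => sq_nonneg _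
  have hgi : ∀ A B : ℝ, IntervalIntegrable g volume A B := by
    intro A B
    set M := ∑ s ∈ Zf riemannZeta T (3 * T), mS s with hM
    have hNM : ∀ t, NS (Zf riemannZeta T (3 * T)) h t ≤ M := by
      intro t
      unfold NS
      refine Finset.sum_le_sum fun s _ => ?_
      have := mS_nonneg s
      split_ifs
      · rw [mul_one]
      · rw [mul_zero]; exact this
    refine bdd_int hgm (M := (M + a) ^ 2) (fun t => ?_) A B
    rw [abs_of_nonneg (hg0 t)]
    have h1 := NS_nonneg (Zf riemannZeta T (3 * T)) h t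
    have h2 := hNM t
    show (NS (Zf riemannZeta T (3 * T)) h t - a) ^ 2 ≤ (M + a) ^ 2
    rw [← sq_abs (NS (Zf riemannZeta T (3 * T)) h t - a)]
    apply pow_le_pow_left₀ (abs_nonneg _)
    rw [abs_le]
    constructor <;> linarith
  have hcg : ∀ t ∈ Icc T (2 * T), ((cnt t h : ℝ) - a) ^ 2 = g t := by
    intro t ht
    simp only [hg]
    rw [cnt_eq (A := T) (B := 3 * T) (by linarith) ht.1 (by linarith [ht.2])]
  have hint : IntervalIntegrable (fun t => ((cnt t h : ℝ) - a) ^ 2) volume T (2 * T) := by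
    refine (hgi T (2 * T)).congr fun t ht => ?_
    rw [uIoc_of_le (by linarith)] at ht
    exact (hcg t ⟨ht.1.le, ht.2⟩).symm
  refine ⟨hint, ?_⟩
  have e1 : ∫ t in T..(2 * T), ((cnt t h : ℝ) - a) ^ 2 = ∫ t in T..(2 * T), g t := by
    refine intervalIntegral.integral_congr fun t ht => ?_
    rw [uIcc_of_le (by linarith)] at ht
    exact hcg t ht
  rw [e1]
  set A := T + L with hA
  set B' := 2 * T - L - 7 with hB'
  have hAB : A ≤ B' := by rw [hA, hB']; linarith
  have e2 : ∫ t in T..(2 * T), g t = (∫ t in T..A, g t) + (∫ t in A..B', g t) +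
      ∫ t in B'..(2 * T), g t := by
    rw [intervalIntegral.integral_add_adjacent_intervals (hgi _ _) (hgi _ _),
      intervalIntegral.integral_add_adjacent_intervals (hgi _ _) (hgi _ _)]
  have hgK : ∀ t ∈ Icc T (2 * T), g t ≤ ((CC + 1) * L) ^ 2 := by
    intro t ht
    rw [← hcg t ht, ← sq_abs ((cnt t h : ℝ) - a)]
    apply pow_le_pow_left₀ (abs_nonneg _)
    have h1 := hcrT t h (by linarith [ht.1]) (by linarith [ht.2]) hh0.le (by linarith)
    have h2 : (0 : ℝ) ≤ cnt t h := Nat.cast_nonneg _
    have h3 : 0 ≤ CC * L := by positivity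
    rw [abs_le]
    constructor <;> nlinarith only [h1, h2, haL', ha0, h3, hL0]
  have i1 : ∫ t in T..A, g t ≤ (A - T) * ((CC + 1) * L) ^ 2 :=
    int_const_bd (by rw [hA]; linarith) (hgi _ _) fun t ht =>
      hgK t ⟨ht.1, by linarith [ht.2]⟩
  have i2 : ∫ t in B'..(2 * T), g t ≤ (2 * T - B') * ((CC + 1) * L) ^ 2 :=
    int_const_bd (by rw [hB']; linarith) (hgi _ _) fun t ht =>
      hgK t ⟨by linarith [ht.1], ht.2⟩
  have i10 : 0 ≤ ∫ t in T..A, g t :=
    intervalIntegral.integral_nonneg (by rw [hA]; linarith) fun t _ => hg0 t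
  have i20 : 0 ≤ ∫ t in B'..(2 * T), g t :=
    intervalIntegral.integral_nonneg (by rw [hB']; linarith) fun t _ => hg0 t
  have i3 : (∫ t in T..A, g t) + ∫ t in B'..(2 * T), g t ≤ T := by
    have : (A - T) * ((CC + 1) * L) ^ 2 + (2 * T - B') * ((CC + 1) * L) ^ 2 =
        (2 * L + 7) * ((CC + 1) * L) ^ 2 := by rw [hA, hB']; ring
    linarith
  have hmid : |(∫ t in A..B', g t) - T / Real.pi ^ 2 * Real.log a| ≤
      (C + (2 * KV ^ 2 * C + 2 * lam ^ 2 + Real.log lam)) * T := by
    rcases le_total lam a with hal | hal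
    · obtain ⟨U1, U2, hU1, hU1', hU2', hU2, hm⟩ := hmain a hal haL
      have e3 : ∫ t in A..B', g t = ∫ t in A..B', (NS (Zf riemannZeta U1 U2) h t - a) ^ 2 := by
        refine intervalIntegral.integral_congr fun t ht => ?_
        rw [uIcc_of_le hAB] at ht
        simp only [hA, hB'] at ht
        show g t = (NS (Zf riemannZeta U1 U2) h t - a) ^ 2
        rw [← hcg t ⟨by linarith [ht.1], by linarith [ht.2]⟩,
          cnt_eq (A := U1) (B := U2) (by linarith) (by linarith [ht.1]) (by linarith [ht.2])]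
      rw [e3]
      refine hm.trans ?_
      have h0 : 0 ≤ (2 * KV ^ 2 * C + 2 * lam ^ 2 + Real.log lam) * T := by positivity
      linarith
    · have h1 : ∫ t in A..B', g t ≤ 2 * KV ^ 2 * (C * T) + T * (2 * lam ^ 2) := by
        have hVc := VV_cont lam T
        have h2 : ∫ t in A..B', g t ≤ ∫ t in A..B', (2 * KV ^ 2 * VV lam T t ^ 2 + 2 * lam ^ 2) := by
          refine intervalIntegral.integral_mono_on hAB (hgi _ _)
            (Continuous.intervalIntegrable (by fun_prop) _ _) fun t ht => ?_
          simp only [hA, hB'] at ht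
          rw [← hcg t ⟨by linarith [ht.1], by linarith [ht.2]⟩]
          have h3 := cnt_dom (lam := lam) (T := T) (a := a) (t := t) (by linarith) hT10 ha0 hal
            (by linarith [ht.1]) (by linarith [ht.2])
          have h4 : (0 : ℝ) ≤ cnt t h := Nat.cast_nonneg _
          have h5 : (cnt t h : ℝ) ^ 2 ≤ (KV * VV lam T t) ^ 2 := pow_le_pow_left₀ h4 h3 2
          have h6 : a ^ 2 ≤ lam ^ 2 := pow_le_pow_left₀ ha0.le hal 2
          nlinarith [sq_nonneg ((cnt t h : ℝ) + a)]
        refine h2.trans ?_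
        rw [intervalIntegral.integral_add (Continuous.intervalIntegrable (by fun_prop) _ _)
          (Continuous.intervalIntegrable (by fun_prop) _ _), intervalIntegral.integral_const_mul,
          intervalIntegral.integral_const, smul_eq_mul]
        have h3 := int_le_univ hVi (fun t => sq_nonneg _) hAB
        have h4 : 2 * KV ^ 2 * (∫ t in A..B', VV lam T t ^ 2) ≤ 2 * KV ^ 2 * (C * T) := by
          apply mul_le_mul_of_nonneg_left _ (by positivity)
          linarith
        have h5 : (B' - A) * (2 * lam ^ 2) ≤ T * (2 * lam ^ 2) := by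
          apply mul_le_mul_of_nonneg_right _ (by positivity)
          rw [hA, hB']; linarith
        linarith
      have h2 : 0 ≤ ∫ t in A..B', g t := intervalIntegral.integral_nonneg hAB fun t _ => hg0 t
      have h3 : 0 ≤ T / Real.pi ^ 2 * Real.log a := by
        have : 0 ≤ Real.log a := Real.log_nonneg ha
        positivity
      have h4 : T / Real.pi ^ 2 * Real.log a ≤ T * Real.log lam := by
        have h5 : Real.log a ≤ Real.log lam := Real.log_le_log ha0 hal
        have h6 : T / Real.pi ^ 2 ≤ T := by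
          apply div_le_self hT0.le
          nlinarith only [hpi3]
        exact mul_le_mul h6 h5 (Real.log_nonneg ha) hT0.le
      have h5 : 0 ≤ C * T := by positivity
      have h6 : 0 ≤ 2 * KV ^ 2 * (C * T) + T * (2 * lam ^ 2) := by positivity
      have h7 : 0 ≤ T * Real.log lam := by positivity
      rw [abs_le]
      constructor
      · nlinarith only [h1, h2, h3, h4, h5, h6, h7]
      · nlinarith only [h1, h2, h3, h4, h5, h6, h7]
  rw [e2]
  have a1 := abs_le.1 hmid
  rw [abs_le]
  constructor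
  · nlinarith only [a1.1, i10, i20, hT0]
  · nlinarith only [a1.2, i3]

end Pool.Agent.TH850.UV
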