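import Pool.Agent.TH850.UV.NVh

set_option autoImplicit false

/-! # The number variance and the pairs of zeros in a dyadic block -/

namespace Pool.Agent.TH850.UV

open Filter Topology MeasureTheory Set
open H370 (Zf mult mem_Zf good_zeta)

/-- the indicator of the window -/
noncomputable def wi (h t x : ℝ) : ℝ := if t < x ∧ x ≤ t + h then 1 else 0

lemma wi_mul (h t x y : ℝ) : wi h t x * wi h t y =
    (Ico (max x y - h) (min x y)).indicator (fun _ => (1 : ℝ)) t := by
  unfold wi
  by_cases h1 : (t < x ∧ x ≤ t + h) ∧ (t < y ∧ y ≤ t + h)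
  · rw [if_pos h1.1, if_pos h1.2, indicator_of_mem, mul_one]
    rw [mem_Ico]
    refine ⟨?_, lt_min h1.1.1 h1.2.1⟩
    have := max_le h1.1.2 h1.2.2
    linarith
  · rw [indicator_of_notMem]
    · rw [not_and_or] at h1
      rcases h1 with h1 | h1
      · rw [if_neg h1, zero_mul]
      · rw [if_neg h1, mul_zero]
    · intro h2
      rw [mem_Ico] at h2
      apply h1
      have h3 := le_max_left x y
      have h4 := le_max_right x y
      have h5 := min_le_left x y
      have h6 := min_le_right x y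
      exact ⟨⟨by linarith, by linarith⟩, ⟨by linarith, by linarith⟩⟩

lemma wi_mul_int (h x y : ℝ) : Integrable fun t => wi h t x * wi h t y := by
  simp_rw [wi_mul]
  exact (integrable_indicator_iff measurableSet_Ico).2 (integrableOn_const (by simp))

lemma wi_mul_integral (h x y : ℝ) : ∫ t, wi h t x * wi h t y = max 0 (h - |x - y|) := by
  simp_rw [wi_mul]
  rw [integral_indicator measurableSet_Ico, setIntegral_const, smul_eq_mul, mul_one,
    Real.volume_real_Ico, max_comm]
  congr 1
  have := max_sub_min_eq_abs x y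
  rw [abs_sub_comm y x] at this
  linarith

/-- the Fejer sum over the pairs -/
noncomputable def FS (S : Finset ℂ) (h : ℝ) : ℝ :=
  ∑ s ∈ S, ∑ s' ∈ S, mS s * mS s' * max 0 (h - |s.im - s'.im|)

/-- the number of zeros -/
noncomputable def ZS (S : Finset ℂ) : ℝ := ∑ s ∈ S, mS s

lemma NS_wi (S : Finset ℂ) (h t : ℝ) : NS S h t = ∑ s ∈ S, mS s * wi h t s.im := rfl

lemma NS_sq_eq (S : Finset ℂ) (h t : ℝ) : NS S h t ^ 2 =
    ∑ s ∈ S, ∑ s' ∈ S, mS s * mS s' * (wi h t s.im * wi h t s'.im) := by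
  rw [NS_wi, sq, Finset.sum_mul_sum]
  refine Finset.sum_congr rfl fun s _ => Finset.sum_congr rfl fun s' _ => ?_
  ring

lemma NS_sq_integrable (S : Finset ℂ) (h : ℝ) : Integrable fun t => NS S h t ^ 2 := by
  simp_rw [NS_sq_eq]
  exact integrable_finsetSum _ fun s _ => integrable_finsetSum _ fun s' _ =>
    (wi_mul_int h s.im s'.im).const_mul _

lemma NS_sq_integral (S : Finset ℂ) (h : ℝ) : ∫ t, NS S h t ^ 2 = FS S h := by
  simp_rw [NS_sq_eq]
  rw [integral_finsetSum _ fun s _ => integrable_finsetSum _ fun s' _ =>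
    (wi_mul_int h s.im s'.im).const_mul _]
  unfold FS
  refine Finset.sum_congr rfl fun s _ => ?_
  rw [integral_finsetSum _ fun s' _ => (wi_mul_int h s.im s'.im).const_mul _]
  refine Finset.sum_congr rfl fun s' _ => ?_
  rw [MeasureTheory.integral_const_mul, wi_mul_integral]

lemma wi_sq (h t x : ℝ) : wi h t x = wi h t x * wi h t x := by
  unfold wi
  split_ifs <;> norm_num

lemma wi_eq (h x : ℝ) : (fun t => wi h t x) = fun t => wi h t x * wi h t x :=
  funext fun t => wi_sq h t x

lemma wi_int (h x : ℝ) : Integrable fun t => wi h t x := by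
  rw [wi_eq]
  exact wi_mul_int h x x

lemma wi_integral {h : ℝ} (hh : 0 ≤ h) (x : ℝ) : ∫ t, wi h t x = h := by
  rw [wi_eq, wi_mul_integral, sub_self, abs_zero, sub_zero, max_eq_right hh]

lemma NS_integrable (S : Finset ℂ) (h : ℝ) : Integrable fun t => NS S h t := by
  simp_rw [NS_wi]
  exact integrable_finsetSum _ fun s _ => (wi_int h s.im).const_mul _

lemma NS_integral (S : Finset ℂ) {h : ℝ} (hh : 0 ≤ h) : ∫ t, NS S h t = h * ZS S := by
  simp_rw [NS_wi]
  rw [integral_finsetSum _ fun s _ => (wi_int h s.im).const_mul _]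
  unfold ZS
  rw [Finset.mul_sum]
  refine Finset.sum_congr rfl fun s _ => ?_
  rw [MeasureTheory.integral_const_mul, wi_integral hh]
  ring

lemma NS_zero {U1 U2 h t : ℝ} (hU : 1 ≤ U1) (ht : t + h ≤ U1 ∨ U2 ≤ t) :
    NS (Zf riemannZeta U1 U2) h t = 0 := by
  unfold NS
  refine Finset.sum_eq_zero fun s hs => ?_
  rw [mem_Zf good_zeta hU] at hs
  rw [if_neg, mul_zero]
  rintro ⟨h1, h2⟩
  rcases ht with ht | ht
  · linarith [hs.2.2.1]
  · linarith [hs.2.2.2.1]

lemma int_all {g : ℝ → ℝ} {A B : ℝ} (hAB : A ≤ B) (h0 : ∀ t, t ≤ A ∨ B ≤ t → g t = 0) :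
    ∫ t, g t = ∫ t in A..B, g t := by
  rw [intervalIntegral.integral_of_le hAB]
  symm
  refine setIntegral_eq_integral_of_forall_compl_eq_zero fun t ht => h0 t ?_
  rw [mem_Ioc, not_and_or, not_lt, not_le] at ht
  rcases ht with ht | ht
  · exact Or.inl ht
  · exact Or.inr ht.le

lemma NS_subset {S S' : Finset ℂ} (hS : S ⊆ S') (h t : ℝ) : NS S h t ≤ NS S' h t := by
  unfold NS
  refine Finset.sum_le_sum_of_subset_of_nonneg hS fun s _ _ => ?_
  have := mS_nonneg s
  split_ifs
  · rw [mul_one]; exact this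
  · rw [mul_zero]

/-- the pairs in the block from the number variance -/
theorem ident (B : ℝ) (hB : 1 ≤ B) : ∃ C T0 : ℝ, 0 < C ∧ 10 ≤ T0 ∧ ∀ U : ℝ, T0 ≤ U →
    ∀ a : ℝ, 0 < a → a * Real.log a ≤ B * Real.log U →
    |FS (Zf riemannZeta U (2 * U)) (2 * Real.pi * a / Real.log U) -
      (U / Real.pi ^ 2 * Real.log (1 + a) + 2 * a * (2 * Real.pi * a / Real.log U) *
        ZS (Zf riemannZeta U (2 * U)) - a ^ 2 * U)| ≤ C * U := by
  classical
  obtain ⟨C, T1, hC, hT1, hnv⟩ := nv2 B hB
  obtain ⟨CC, hCC, hcr⟩ := cnt_crude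
  have hpi := Real.pi_pos
  have hpi3 := Real.pi_gt_three
  have hev2 : ∀ᶠ T : ℝ in atTop, 30 * ((CC + 1) * Real.log T) ^ 2 ≤ T := by
    have h1 : (fun T : ℝ => 30 * ((CC + 1) * Real.log T) ^ 2) =o[atTop] fun T : ℝ => T := by
      refine Asymptotics.IsLittleO.const_mul_left ?_ _
      have h3 : (fun T : ℝ => (CC + 1) * Real.log T) =o[atTop] fun T : ℝ => T ^ (1 / 2 : ℝ) :=
        (isLittleO_log_rpow_atTop (by norm_num)).const_mul_left _
      refine (h3.pow (n := 2) (by norm_num)).congr' (Eventually.of_forall fun T => rfl) ?_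
      filter_upwards [eventually_gt_atTop 0] with T hT
      rw [← Real.rpow_natCast, ← Real.rpow_mul hT.le]
      norm_num
    have h2 := h1.bound (c := 1) one_pos
    filter_upwards [h2, eventually_ge_atTop 1] with T hT hT1
    rw [one_mul, Real.norm_of_nonneg (by linarith : (0 : ℝ) ≤ T)] at hT
    exact (le_abs_self _).trans hT
  obtain ⟨T2, hT2⟩ := (hev2.and (Real.tendsto_log_atTop.eventually_ge_atTop
    (Real.exp B))).exists_forall_of_atTop
  refine ⟨C + 3, max (max T1 T2) 30, by linarith, le_trans (by norm_num) (le_max_right _ _),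
    fun U hU a ha haL => ?_⟩
  have hUT1 : T1 ≤ U := ((le_max_left _ _).trans (le_max_left _ _)).trans hU
  obtain ⟨g1, g2⟩ := hT2 U (((le_max_right _ _).trans (le_max_left _ _)).trans hU)
  have hU30 : 30 ≤ U := (le_max_right _ _).trans hU
  have hU0 : 0 < U := by linarith
  have hL0 : 0 < Real.log U := Real.log_pos (by linarith)
  obtain ⟨-, hv⟩ := hnv U hUT1 a ha haL
  have hcrU := hcr U (by linarith)
  set L := Real.log U with hL
  have hL1 : 1 ≤ L := by
    have := Real.add_one_le_exp B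
    linarith
  have haL' : a ≤ L := by
    rcases le_total 1 a with h | h
    · exact range_le h (by linarith) g2 haL
    · linarith
  set h := 2 * Real.pi * a / L with hh
  have hh0 : 0 < h := by positivity
  have hh7 : h ≤ 7 := by
    rw [hh, div_le_iff₀ hL0]
    nlinarith only [Real.pi_lt_d2, haL', hL0, ha]
  set S := Zf riemannZeta U (2 * U) with hS
  set S' := Zf riemannZeta (U / 2) (3 * U) with hS'
  have hSS' : S ⊆ S' := by
    intro s hs
    rw [hS, mem_Zf good_zeta (by linarith)] at hs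
    rw [hS', mem_Zf good_zeta (by linarith)]
    exact ⟨hs.1, hs.2.1, by linarith [hs.2.2.1], by linarith [hs.2.2.2.1], hs.2.2.2.2⟩
  have hcnt : ∀ t, U / 2 ≤ t → t + h ≤ 3 * U → (cnt t h : ℝ) = NS S' h t := fun t h1 h2 =>
    cnt_eq (by linarith) h1 h2
  -- the full integral
  set g : ℝ → ℝ := fun t => (NS S h t - a) ^ 2 with hg
  have hgi : ∀ x y : ℝ, IntervalIntegrable g volume x y := fun x y => sq_int S h a x y
  set g' : ℝ → ℝ := fun t => (NS S' h t - a) ^ 2 with hg'
  have hgi' : ∀ x y : ℝ, IntervalIntegrable g' volume x y := fun x y => sq_int S' h a x y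
  have e1 : ∫ t in (U - h)..(2 * U), g t = FS S h - 2 * a * (h * ZS S) + a ^ 2 * (U + h) := by
    have i1 : IntervalIntegrable (fun t => NS S h t ^ 2) volume (U - h) (2 * U) :=
      (NS_sq_integrable S h).intervalIntegrable
    have i2 : IntervalIntegrable (fun t => NS S h t) volume (U - h) (2 * U) :=
      (NS_integrable S h).intervalIntegrable
    have e2 : ∀ t, g t = NS S h t ^ 2 - 2 * a * NS S h t + a ^ 2 := fun t => by
      simp only [hg]; ring
    simp_rw [e2]
    rw [intervalIntegral.integral_add (i1.sub (i2.const_mul _))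
      (continuous_const.intervalIntegrable _ _), intervalIntegral.integral_sub i1 (i2.const_mul _),
      intervalIntegral.integral_const_mul, intervalIntegral.integral_const, smul_eq_mul,
      ← NS_sq_integral, ← NS_integral S hh0.le]
    have hz : ∀ t, t ≤ U - h ∨ 2 * U ≤ t → NS S h t = 0 := by
      intro t ht
      apply NS_zero (by linarith)
      rcases ht with ht | ht
      · left; linarith
      · right; exact ht
    rw [int_all (A := U - h) (B := 2 * U) (by linarith) (fun t ht => by rw [hz t ht]; norm_num),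
      int_all (A := U - h) (B := 2 * U) (g := fun t => NS S h t) (by linarith) hz]
    ring
  -- the integral of the count
  have e3 : ∫ t in U..(2 * U), ((cnt t h : ℝ) - a) ^ 2 = ∫ t in U..(2 * U), g' t := by
    refine intervalIntegral.integral_congr fun t ht => ?_
    rw [uIcc_of_le (by linarith)] at ht
    show ((cnt t h : ℝ) - a) ^ 2 = (NS S' h t - a) ^ 2
    rw [hcnt t (by linarith [ht.1]) (by linarith [ht.2])]
  rw [e3] at hv
  -- the comparison
  have hbd : ∀ t, U / 2 ≤ t → t ≤ 2 * U → NS S' h t ≤ CC * L := by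
    intro t h1 h2
    rw [← hcnt t h1 (by linarith)]
    exact hcrU t h h1 (by linarith) hh0.le (by linarith)
  have hsqb : ∀ x : ℝ, 0 ≤ x → x ≤ CC * L → (x - a) ^ 2 ≤ ((CC + 1) * L) ^ 2 := by
    intro x h1 h2
    rw [← sq_abs]
    apply pow_le_pow_left₀ (abs_nonneg _)
    have h3 : 0 ≤ CC * L := by positivity
    rw [abs_le]
    constructor <;> nlinarith only [h1, h2, haL', ha, h3, hL0]
  have hgb : ∀ t, U / 2 ≤ t → t ≤ 2 * U → g t ≤ ((CC + 1) * L) ^ 2 := fun t h1 h2 =>
    hsqb _ (NS_nonneg S h t) ((NS_subset hSS' h t).trans (hbd t h1 h2))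
  have hgb' : ∀ t, U / 2 ≤ t → t ≤ 2 * U → g' t ≤ ((CC + 1) * L) ^ 2 := fun t h1 h2 =>
    hsqb _ (NS_nonneg S' h t) (hbd t h1 h2)
  have hmid : ∫ t in U..(2 * U - h), g t = ∫ t in U..(2 * U - h), g' t := by
    refine intervalIntegral.integral_congr fun t ht => ?_
    rw [uIcc_of_le (by linarith)] at ht
    show (NS S h t - a) ^ 2 = (NS S' h t - a) ^ 2
    rw [← hcnt t (by linarith [ht.1]) (by linarith [ht.2]),
      cnt_eq (A := U) (B := 2 * U) (by linarith) ht.1 (by linarith [ht.2])]
  have s1 : (∫ t in (U - h)..U, g t) + (∫ t in U..(2 * U - h), g t) +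
      (∫ t in (2 * U - h)..(2 * U), g t) = ∫ t in (U - h)..(2 * U), g t := by
    rw [intervalIntegral.integral_add_adjacent_intervals (hgi _ _) (hgi _ _),
      intervalIntegral.integral_add_adjacent_intervals (hgi _ _) (hgi _ _)]
  have s2 : (∫ t in U..(2 * U - h), g' t) + (∫ t in (2 * U - h)..(2 * U), g' t) =
      ∫ t in U..(2 * U), g' t :=
    intervalIntegral.integral_add_adjacent_intervals (hgi' _ _) (hgi' _ _)
  set K := ((CC + 1) * L) ^ 2 with hK
  have hK0 : 0 ≤ K := sq_nonneg _
  have b1 : ∫ t in (U - h)..U, g t ≤ (U - (U - h)) * K :=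
    int_const_bd (by linarith) (hgi _ _) fun t ht =>
      hgb t (by linarith [ht.1]) (by linarith [ht.2])
  have b2 : ∫ t in (2 * U - h)..(2 * U), g t ≤ (2 * U - (2 * U - h)) * K :=
    int_const_bd (by linarith) (hgi _ _) fun t ht =>
      hgb t (by linarith [ht.1]) (by linarith [ht.2])
  have b3 : ∫ t in (2 * U - h)..(2 * U), g' t ≤ (2 * U - (2 * U - h)) * K :=
    int_const_bd (by linarith) (hgi' _ _) fun t ht =>
      hgb' t (by linarith [ht.1]) (by linarith [ht.2])
  have c1 : 0 ≤ ∫ t in (U - h)..U, g t :=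
    intervalIntegral.integral_nonneg (by linarith) fun t _ => sq_nonneg _
  have c2 : 0 ≤ ∫ t in (2 * U - h)..(2 * U), g t :=
    intervalIntegral.integral_nonneg (by linarith) fun t _ => sq_nonneg _
  have c3 : 0 ≤ ∫ t in (2 * U - h)..(2 * U), g' t :=
    intervalIntegral.integral_nonneg (by linarith) fun t _ => sq_nonneg _
  have d1 : h * K ≤ U / 4 := by
    have : h * K ≤ 7 * K := mul_le_mul_of_nonneg_right hh7 hK0
    linarith
  have d2 : a ^ 2 * h ≤ U / 4 := by
    have h1 : a ^ 2 ≤ K := by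
      rw [hK]
      apply pow_le_pow_left₀ ha.le
      have : 0 ≤ CC * L := by positivity
      nlinarith only [haL', this]
    have h2 : a ^ 2 * h ≤ K * h := mul_le_mul_of_nonneg_right h1 hh0.le
    linarith
  have d3 : 0 ≤ a ^ 2 * h := by positivity
  have hv' := abs_le.1 hv
  rw [abs_le]
  constructor
  · nlinarith only [hv'.1, s1, s2, e1, hmid, b1, b2, b3, c1, c2, c3, d1, d2, d3, hU0]
  · nlinarith only [hv'.2, s1, s2, e1, hmid, b1, b2, b3, c1, c2, c3, d1, d2, d3, hU0]

end Pool.Agent.TH850.UV
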