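import Pool.Agent.TH850.UV.PB1
import Pool.Agent.H370R2.Count

set_option autoImplicit false

/-! # The pairs of zeros in a dyadic block -/

namespace Pool.Agent.TH850.UV

open Filter Topology MeasureTheory Set
open H370 (Zf mult mem_Zf good_zeta NN NN_eq nn_asymp)

/-- the number of pairs at distance at most `h` -/
noncomputable def QS (S : Finset ℂ) (h : ℝ) : ℝ :=
  ∑ s ∈ S, ∑ s' ∈ S, mS s * mS s' * (if |s.im - s'.im| ≤ h then 1 else 0)

lemma QS_nonneg (S : Finset ℂ) (h : ℝ) : 0 ≤ QS S h := by
  unfold QS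
  refine Finset.sum_nonneg fun s _ => Finset.sum_nonneg fun s' _ => ?_
  have h1 := mS_nonneg s
  have h2 := mS_nonneg s'
  split_ifs
  · positivity
  · rw [mul_zero]

lemma FS_up (S : Finset ℂ) {h δ : ℝ} (hδ : 0 ≤ δ) : δ * QS S h ≤ FS S (h + δ) - FS S h := by
  unfold FS QS
  rw [← Finset.sum_sub_distrib, Finset.mul_sum]
  refine Finset.sum_le_sum fun s _ => ?_
  rw [← Finset.sum_sub_distrib, Finset.mul_sum]
  refine Finset.sum_le_sum fun s' _ => ?_
  have h1 := mul_nonneg (mS_nonneg s) (mS_nonneg s')
  rw [← mul_sub, mul_left_comm]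
  apply mul_le_mul_of_nonneg_left _ h1
  set g := |s.im - s'.im| with hg
  by_cases h2 : g ≤ h
  · rw [if_pos h2, max_eq_right (by linarith), max_eq_right (by linarith)]
    linarith
  · rw [if_neg h2, mul_zero, sub_nonneg]
    exact max_le_max le_rfl (by linarith)

lemma FS_low (S : Finset ℂ) {h δ : ℝ} (hδ : 0 ≤ δ) : FS S h - FS S (h - δ) ≤ δ * QS S h := by
  unfold FS QS
  rw [← Finset.sum_sub_distrib, Finset.mul_sum]
  refine Finset.sum_le_sum fun s _ => ?_
  rw [← Finset.sum_sub_distrib, Finset.mul_sum]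
  refine Finset.sum_le_sum fun s' _ => ?_
  have h1 := mul_nonneg (mS_nonneg s) (mS_nonneg s')
  rw [← mul_sub, mul_left_comm δ]
  apply mul_le_mul_of_nonneg_left _ h1
  set g := |s.im - s'.im| with hg
  by_cases h2 : g ≤ h
  · rw [if_pos h2, max_eq_right (by linarith)]
    have := le_max_right 0 (h - δ - g)
    linarith
  · rw [if_neg h2, mul_zero, max_eq_left (by linarith), max_eq_left (by linarith)]
    linarith

lemma FS_nonneg (S : Finset ℂ) (h : ℝ) : 0 ≤ FS S h := by
  unfold FS
  refine Finset.sum_nonneg fun s _ => Finset.sum_nonneg fun s' _ => ?_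
  have h1 := mul_nonneg (mS_nonneg s) (mS_nonneg s')
  exact mul_nonneg h1 (le_max_left _ _)

theorem block (B : ℝ) (hB : 1 ≤ B) : ∃ C T0 : ℝ, 0 < C ∧ 10 ≤ T0 ∧ ∀ U : ℝ, T0 ≤ U →
    ∀ a : ℝ, 0 ≤ a → a * Real.log a ≤ B * Real.log U →
    |QS (Zf riemannZeta U (2 * U)) (2 * Real.pi * a / Real.log U) -
      a * (U * Real.log U / Real.pi)| ≤ C * (U * Real.log U) := by
  obtain ⟨C1, T1, hC1, hT1, hid⟩ := ident (B + 1) (by linarith)
  obtain ⟨C2, T2, hC2, hT2, hnn⟩ := nn_asymp good_zeta
  have hpi := Real.pi_pos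
  have hpi3 := Real.pi_gt_three
  have hev : ∀ᶠ T : ℝ in atTop, 1 + Real.log (Real.log T + 1) ≤ Real.log T := by
    have h1 : Tendsto (fun L : ℝ => L + 1) atTop atTop := tendsto_atTop_add_const_right _ _ tendsto_id
    have h2 : (fun x : ℝ => 2 + Real.log x) =o[atTop] fun x : ℝ => x :=
      (Asymptotics.isLittleO_const_id_atTop _).add Real.isLittleO_log_id_atTop
    have h3 := h2.bound (c := 1) one_pos
    have h4 : ∀ᶠ x : ℝ in atTop, 2 + Real.log x ≤ x := by
      filter_upwards [h3, eventually_ge_atTop 1] with x hx hx1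
      rw [one_mul, Real.norm_of_nonneg (by linarith : (0 : ℝ) ≤ x)] at hx
      exact (le_abs_self _).trans hx
    have h5 := (h1.comp Real.tendsto_log_atTop).eventually h4
    filter_upwards [h5] with T hT
    simp only [Function.comp_apply] at hT
    linarith
  obtain ⟨T3, hT3⟩ := (hev.and (Real.tendsto_log_atTop.eventually_ge_atTop
    (Real.exp B))).exists_forall_of_atTop
  refine ⟨4 * Real.pi * C2 + C1 + 2, max (max T1 T2) T3, by positivity,
    hT1.trans ((le_max_left _ _).trans (le_max_left _ _)), fun U hU a ha haL => ?_⟩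
  have hUT1 : T1 ≤ U := ((le_max_left _ _).trans (le_max_left _ _)).trans hU
  have hUT2 : T2 ≤ U := ((le_max_right _ _).trans (le_max_left _ _)).trans hU
  obtain ⟨g1, g2⟩ := hT3 U ((le_max_right _ _).trans hU)
  have hU10 : 10 ≤ U := hT1.trans hUT1
  have hU0 : 0 < U := by linarith
  have hL0 : 0 < Real.log U := Real.log_pos (by linarith)
  have hidU := hid U hUT1
  have hZ := hnn U hUT2 U (2 * U) le_rfl (by linarith) (by linarith) le_rfl
  rw [NN_eq good_zeta (by linarith), Nat.cast_sum] at hZ
  have hZ' : |ZS (Zf riemannZeta U (2 * U)) - U * Real.log U / (2 * Real.pi)| ≤ C2 * U := hZ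
  set S := Zf riemannZeta U (2 * U) with hS
  set L := Real.log U with hL
  set Z := ZS S with hZd
  have hL1 : 1 ≤ L := by
    have := Real.add_one_le_exp B
    linarith
  have haL' : a ≤ L := by
    rcases le_total 1 a with h | h
    · exact range_le h (by linarith) g2 haL
    · linarith
  -- the count of zeros
  have hZ2 := abs_le.1 hZ'
  have hz1 : 4 * Real.pi / L * Z ≤ 2 * U + 4 * Real.pi * C2 * U / L := by
    have h1 : Z ≤ U * L / (2 * Real.pi) + C2 * U := by linarith [hZ2.2]
    calc 4 * Real.pi / L * Z ≤ 4 * Real.pi / L * (U * L / (2 * Real.pi) + C2 * U) := by gcongr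
      _ = _ := by field_simp; ring
  have hz2 : 2 * U - 4 * Real.pi * C2 * U / L ≤ 4 * Real.pi / L * Z := by
    have h1 : U * L / (2 * Real.pi) - C2 * U ≤ Z := by linarith [hZ2.1]
    calc 2 * U - 4 * Real.pi * C2 * U / L = 4 * Real.pi / L * (U * L / (2 * Real.pi) - C2 * U) := by
          field_simp; ring
      _ ≤ _ := by gcongr
  set δ := 2 * Real.pi / L with hδ
  have hδ0 : 0 < δ := by positivity
  have hQ0 := QS_nonneg S (2 * Real.pi * a / L)
  have hP : U / Real.pi ^ 2 ≤ U := div_le_self hU0.le (by nlinarith only [hpi3])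
  have hP0 : 0 ≤ U / Real.pi ^ 2 := by positivity
  have hc0 : 0 ≤ 4 * Real.pi * C2 * U / L := by positivity
  have haL3 : 4 * Real.pi * C2 * U / L * (2 * a + 1) ≤ 12 * Real.pi * C2 * U := by
    rw [div_mul_eq_mul_div, div_le_iff₀ hL0]
    have h1 : 2 * a + 1 ≤ 3 * L := by linarith
    calc 4 * Real.pi * C2 * U * (2 * a + 1) ≤ 4 * Real.pi * C2 * U * (3 * L) := by gcongr
      _ = _ := by ring
  rw [abs_le]
  constructor
  · -- lower bound
    rcases le_or_gt a 1 with ha1 | ha1
    · have h1 : a * (U * L / Real.pi) ≤ U * L := by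
        calc a * (U * L / Real.pi) ≤ 1 * (U * L / 1) := by
              apply mul_le_mul ha1 _ (by positivity) zero_le_one
              exact div_le_div_of_nonneg_left (by positivity) (by norm_num) (by linarith)
          _ = U * L := by ring
      have h2 : 0 < U * L := by positivity
      have h3 : 0 ≤ (4 * Real.pi * C2 + C1) * (U * L) := by positivity
      nlinarith only [h1, h2, h3, hQ0]
    · have ha0 : 0 < a := by linarith
      have hb0 : 0 < a - 1 := by linarith
      have hbL : (a - 1) * Real.log (a - 1) ≤ (B + 1) * L := by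
        rcases le_total (a - 1) 1 with h | h
        · have h1 : Real.log (a - 1) ≤ 0 := Real.log_nonpos hb0.le h
          have h2 : 0 ≤ (B + 1) * L := by positivity
          nlinarith only [h1, h2, hb0]
        · have h1 : Real.log (a - 1) ≤ Real.log a := Real.log_le_log hb0 (by linarith)
          have h2 : 0 ≤ Real.log (a - 1) := Real.log_nonneg h
          have h3 : (a - 1) * Real.log (a - 1) ≤ a * Real.log a :=
            mul_le_mul (by linarith) h1 h2 ha0.le
          linarith
      have f1 := (abs_le.1 (hidU a ha0 (by linarith))).1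
      have f2 := (abs_le.1 (hidU (a - 1) hb0 hbL)).2
      have f3 := FS_low S (h := 2 * Real.pi * a / L) hδ0.le
      have e1 : 2 * Real.pi * a / L - δ = 2 * Real.pi * (a - 1) / L := by
        rw [hδ]; field_simp
      rw [e1] at f3
      have hlog : 0 ≤ U / Real.pi ^ 2 * (Real.log (1 + a) - Real.log (1 + (a - 1))) := by
        apply mul_nonneg hP0
        have := Real.log_le_log (by linarith : 0 < 1 + (a - 1)) (by linarith : 1 + (a - 1) ≤ 1 + a)
        linarith
      have e2 : 2 * a * (2 * Real.pi * a / L) * Z - 2 * (a - 1) * (2 * Real.pi * (a - 1) / L) * Z =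
          4 * Real.pi / L * Z * (2 * a - 1) := by ring
      have h4 : (2 * U - 4 * Real.pi * C2 * U / L) * (2 * a - 1) ≤
          4 * Real.pi / L * Z * (2 * a - 1) := mul_le_mul_of_nonneg_right hz2 (by linarith)
      have h5 : 4 * Real.pi * C2 * U / L * (2 * a - 1) ≤ 12 * Real.pi * C2 * U := by
        refine le_trans ?_ haL3
        apply mul_le_mul_of_nonneg_left (by linarith) hc0
      have h6 : (2 * a - 1) * U - 12 * Real.pi * C2 * U - 2 * (C1 * U) ≤
          δ * QS S (2 * Real.pi * a / L) := by
        nlinarith only [f1, f2, f3, hlog, e2, h4, h5]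
      have h7 : a * (U * L / Real.pi) - (4 * Real.pi * C2 + C1 + 2) * (U * L) ≤
          QS S (2 * Real.pi * a / L) := by
        have h8 : L / (2 * Real.pi) * ((2 * a - 1) * U - 12 * Real.pi * C2 * U - 2 * (C1 * U)) ≤
            L / (2 * Real.pi) * (δ * QS S (2 * Real.pi * a / L)) :=
          mul_le_mul_of_nonneg_left h6 (by positivity)
        have h9 : L / (2 * Real.pi) * (δ * QS S (2 * Real.pi * a / L)) =
            QS S (2 * Real.pi * a / L) := by rw [hδ]; field_simp
        have h10 : L / (2 * Real.pi) * ((2 * a - 1) * U - 12 * Real.pi * C2 * U - 2 * (C1 * U)) =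
            a * (U * L / Real.pi) - (U * L) * (1 / (2 * Real.pi) + 6 * C2 + C1 / Real.pi) := by
          field_simp; ring
        have h11 : 1 / (2 * Real.pi) + 6 * C2 + C1 / Real.pi ≤ 4 * Real.pi * C2 + C1 + 2 := by
          have h12 : 1 / (2 * Real.pi) ≤ 1 := by
            rw [div_le_one (by positivity)]; linarith
          have h13 : C1 / Real.pi ≤ C1 := div_le_self hC1.le (by linarith)
          nlinarith only [h12, h13, hpi3, hC2]
        have h12 : (U * L) * (1 / (2 * Real.pi) + 6 * C2 + C1 / Real.pi) ≤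
            (U * L) * (4 * Real.pi * C2 + C1 + 2) :=
          mul_le_mul_of_nonneg_left h11 (by positivity)
        linarith
      linarith
  · -- upper bound
    have hb0 : 0 < a + 1 := by linarith
    have hbL : (a + 1) * Real.log (a + 1) ≤ (B + 1) * L := by
      have h1 : Real.log (a + 1) ≤ Real.log (L + 1) := Real.log_le_log hb0 (by linarith)
      have h2 : a * Real.log (a + 1) ≤ a * Real.log a + 1 := by
        rcases ha.eq_or_lt with h0 | h0
        · rw [← h0]; simp
        · have h3 : Real.log (a + 1) - Real.log a ≤ 1 / a := by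
            rw [← Real.log_div (by linarith) h0.ne']
            have h5 := Real.log_le_sub_one_of_pos (show 0 < (a + 1) / a by positivity)
            have h6 : (a + 1) / a - 1 = 1 / a := by field_simp; ring
            linarith
          have h4 : a * (Real.log (a + 1) - Real.log a) ≤ a * (1 / a) :=
            mul_le_mul_of_nonneg_left h3 ha
          have h5 : a * (1 / a) = 1 := by field_simp
          linarith
      linarith
    have f1 := (abs_le.1 (hidU (a + 1) hb0 hbL)).2
    have f2 : U / Real.pi ^ 2 * Real.log (1 + a) + 2 * a * (2 * Real.pi * a / L) * Z - a ^ 2 * U -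
        C1 * U ≤ FS S (2 * Real.pi * a / L) := by
      rcases ha.eq_or_lt with h0 | h0
      · rw [← h0]
        have h1 := FS_nonneg S (2 * Real.pi * 0 / L)
        have h2 : 0 < C1 * U := by positivity
        simp only [add_zero, Real.log_one, mul_zero, zero_mul, zero_div] at h1 ⊢
        nlinarith
      · linarith [(abs_le.1 (hidU a h0 (by linarith))).1]
    have f3 := FS_up S (h := 2 * Real.pi * a / L) hδ0.le
    have e1 : 2 * Real.pi * a / L + δ = 2 * Real.pi * (a + 1) / L := by
      rw [hδ]; field_simp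
    rw [e1] at f3
    have hlog : U / Real.pi ^ 2 * (Real.log (1 + (a + 1)) - Real.log (1 + a)) ≤ U * 1 := by
      have h5 := Real.log_le_sub_one_of_pos (show 0 < (1 + (a + 1)) / (1 + a) by positivity)
      have h6 : (1 + (a + 1)) / (1 + a) - 1 = 1 / (1 + a) := by field_simp; ring
      have h7 : 1 / (1 + a) ≤ 1 := by rw [div_le_one (by linarith)]; linarith
      rw [← Real.log_div (by linarith) (by linarith)]
      apply mul_le_mul hP (by linarith) _ hU0.le
      apply Real.log_nonneg
      rw [le_div_iff₀ (by linarith)]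
      linarith
    have e2 : 2 * (a + 1) * (2 * Real.pi * (a + 1) / L) * Z - 2 * a * (2 * Real.pi * a / L) * Z =
        4 * Real.pi / L * Z * (2 * a + 1) := by ring
    have h4 : 4 * Real.pi / L * Z * (2 * a + 1) ≤
        (2 * U + 4 * Real.pi * C2 * U / L) * (2 * a + 1) :=
      mul_le_mul_of_nonneg_right hz1 (by linarith)
    have h6 : δ * QS S (2 * Real.pi * a / L) ≤
        (2 * a + 1) * U + U + 12 * Real.pi * C2 * U + 2 * (C1 * U) := by
      nlinarith only [f1, f2, f3, hlog, e2, h4, haL3]
    have h8 : L / (2 * Real.pi) * (δ * QS S (2 * Real.pi * a / L)) ≤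
        L / (2 * Real.pi) * ((2 * a + 1) * U + U + 12 * Real.pi * C2 * U + 2 * (C1 * U)) :=
      mul_le_mul_of_nonneg_left h6 (by positivity)
    have h9 : L / (2 * Real.pi) * (δ * QS S (2 * Real.pi * a / L)) =
        QS S (2 * Real.pi * a / L) := by rw [hδ]; field_simp
    have h10 : L / (2 * Real.pi) * ((2 * a + 1) * U + U + 12 * Real.pi * C2 * U + 2 * (C1 * U)) =
        a * (U * L / Real.pi) + (U * L) * (1 / Real.pi + 6 * C2 + C1 / Real.pi) := by
      field_simp; ring
    have h11 : 1 / Real.pi + 6 * C2 + C1 / Real.pi ≤ 4 * Real.pi * C2 + C1 + 2 := by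
      have h12 : 1 / Real.pi ≤ 1 := by
        rw [div_le_one (by positivity)]; linarith
      have h13 : C1 / Real.pi ≤ C1 := div_le_self hC1.le (by linarith)
      nlinarith only [h12, h13, hpi3, hC2]
    have h12 : (U * L) * (1 / Real.pi + 6 * C2 + C1 / Real.pi) ≤
        (U * L) * (4 * Real.pi * C2 + C1 + 2) :=
      mul_le_mul_of_nonneg_left h11 (by positivity)
    linarith

end Pool.Agent.TH850.UV
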