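import Pool.Agent.TH850.UV.PB2
import Pool.Agent.W54.TCF.NT

set_option autoImplicit false

/-! # The pairs of zeros up to height `T` -/

namespace Pool.Agent.TH850.UV

open Filter Topology MeasureTheory Set
open H370 (Zf mult mem_Zf good_zeta NN NN_eq zset zeta_zeros_finite)

/-- the zeros with ordinate in `(0, T]` -/
noncomputable def ZT (T : ℝ) : Finset ℂ := (zeta_zeros_finite T).toFinset

lemma mem_ZT {T : ℝ} {s : ℂ} : s ∈ ZT T ↔ 0 < s.re ∧ s.re < 1 ∧ 0 < s.im ∧ s.im ≤ T ∧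
    riemannZeta s = 0 := by
  unfold ZT
  rw [Set.Finite.mem_toFinset]
  rfl

lemma ZT_two {V : ℝ} (hV : 1 ≤ V) : ZT (2 * V) = ZT V ∪ Zf riemannZeta V (2 * V) := by
  classical
  ext s
  rw [Finset.mem_union, mem_ZT, mem_ZT, mem_Zf good_zeta hV]
  constructor
  · rintro ⟨h1, h2, h3, h4, h5⟩
    rcases le_or_gt s.im V with h | h
    · exact Or.inl ⟨h1, h2, h3, h, h5⟩
    · exact Or.inr ⟨h1, h2, h, h4, h5⟩
  · rintro (⟨h1, h2, h3, h4, h5⟩ | ⟨h1, h2, h3, h4, h5⟩)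
    · exact ⟨h1, h2, h3, by linarith, h5⟩
    · exact ⟨h1, h2, by linarith, h4, h5⟩

lemma ZT_disj {V : ℝ} (hV : 1 ≤ V) : Disjoint (ZT V) (Zf riemannZeta V (2 * V)) := by
  rw [Finset.disjoint_left]
  intro s h1 h2
  rw [mem_ZT] at h1
  rw [mem_Zf good_zeta hV] at h2
  linarith [h1.2.2.2.1, h2.2.2.1]

/-- the pairs between two sets -/
noncomputable def XS (S S' : Finset ℂ) (h : ℝ) : ℝ :=
  ∑ s ∈ S, ∑ s' ∈ S', mS s * mS s' * (if |s.im - s'.im| ≤ h then 1 else 0)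

lemma QS_union {S S' : Finset ℂ} [DecidableEq ℂ] (hd : Disjoint S S') (h : ℝ) :
    QS (S ∪ S') h = QS S h + QS S' h + 2 * XS S S' h := by
  unfold QS XS
  rw [Finset.sum_union hd]
  simp_rw [Finset.sum_union hd, Finset.sum_add_distrib]
  have e : ∑ x ∈ S', ∑ x' ∈ S, mS x * mS x' * (if |x.im - x'.im| ≤ h then (1 : ℝ) else 0) =
      ∑ x ∈ S, ∑ x' ∈ S', mS x * mS x' * (if |x.im - x'.im| ≤ h then (1 : ℝ) else 0) := by
    rw [Finset.sum_comm]
    refine Finset.sum_congr rfl fun x _ => Finset.sum_congr rfl fun y _ => ?_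
    rw [abs_sub_comm, mul_comm (mS y)]
  rw [e]
  ring

lemma XS_nonneg (S S' : Finset ℂ) (h : ℝ) : 0 ≤ XS S S' h := by
  unfold XS
  refine Finset.sum_nonneg fun s _ => Finset.sum_nonneg fun s' _ => ?_
  have h1 := mS_nonneg s
  have h2 := mS_nonneg s'
  split_ifs
  · positivity
  · rw [mul_zero]

lemma NS_ZT_le {V h t : ℝ} (ht : 1 ≤ t) : NS (ZT V) h t ≤ (cnt t h : ℝ) := by
  classical
  rw [cnt_eq (A := t) (B := t + h) ht le_rfl le_rfl]
  unfold NS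
  have e : ∀ s : ℂ, mS s * (if t < s.im ∧ s.im ≤ t + h then (1 : ℝ) else 0) =
      if t < s.im ∧ s.im ≤ t + h then mS s else 0 := by
    intro s
    split_ifs <;> simp
  simp_rw [e]
  rw [← Finset.sum_filter, ← Finset.sum_filter]
  refine Finset.sum_le_sum_of_subset_of_nonneg ?_ fun s _ _ => mS_nonneg s
  intro s hs
  rw [Finset.mem_filter, mem_ZT] at hs
  rw [Finset.mem_filter, mem_Zf good_zeta ht]
  exact ⟨⟨hs.1.1, hs.1.2.1, hs.2.1, hs.2.2, hs.1.2.2.2.2⟩, hs.2⟩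

lemma XS_le {V h : ℝ} (hV : 20 ≤ V) (hh : 0 ≤ h) (hh7 : h ≤ 7) :
    XS (ZT V) (Zf riemannZeta V (2 * V)) h ≤ (cnt (V - h) h : ℝ) * (cnt V h : ℝ) := by
  have h1 : NS (ZT V) h (V - h) ≤ (cnt (V - h) h : ℝ) := NS_ZT_le (by linarith)
  have h2 : NS (Zf riemannZeta V (2 * V)) h V = (cnt V h : ℝ) :=
    (cnt_eq (A := V) (B := 2 * V) (by linarith) le_rfl (by linarith)).symm
  rw [← h2]
  refine le_trans ?_ (mul_le_mul_of_nonneg_right h1 (NS_nonneg _ _ _))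
  unfold XS NS
  rw [Finset.sum_mul_sum]
  refine Finset.sum_le_sum fun s hs => Finset.sum_le_sum fun s' hs' => ?_
  rw [mem_ZT] at hs
  rw [mem_Zf good_zeta (by linarith)] at hs'
  have h3 := mul_nonneg (mS_nonneg s) (mS_nonneg s')
  rw [mul_mul_mul_comm]
  apply mul_le_mul_of_nonneg_left _ h3
  by_cases h4 : |s.im - s'.im| ≤ h
  · have h5 := abs_le.1 h4
    have h6 := hs.2.2.2.1
    have h7 := hs'.2.2.1
    rw [if_pos h4, if_pos ⟨by linarith [h5.1], by linarith⟩, if_pos ⟨h7, by linarith [h5.1]⟩,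
      mul_one]
  · rw [if_neg h4]
    split_ifs <;> norm_num

lemma QS_le_sq (S : Finset ℂ) (h : ℝ) : QS S h ≤ ZS S ^ 2 := by
  unfold QS ZS
  rw [sq, Finset.sum_mul_sum]
  refine Finset.sum_le_sum fun s _ => Finset.sum_le_sum fun s' _ => ?_
  have h3 := mul_nonneg (mS_nonneg s) (mS_nonneg s')
  split_ifs
  · rw [mul_one]
  · rw [mul_zero]; exact h3

lemma ZS_ZT (V : ℝ) : ZS (ZT V) = (NN riemannZeta 0 V : ℝ) := by
  unfold ZS mS ZT NN
  rw [finsum_mem_eq_finite_toFinset_sum _ (zeta_zeros_finite V), Nat.cast_sum]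

end Pool.Agent.TH850.UV
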