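import Pool.Agent.TH850.UV.PB3

set_option autoImplicit false

/-! # The pairs of zeros up to height `T`, continued -/

namespace Pool.Agent.TH850.UV

open Filter Topology MeasureTheory Set
open H370 (Zf mult mem_Zf good_zeta NN NN_eq zset zeta_zeros_finite)

/-- the main term for the pairs at distance at most `h` up to height `V` -/
noncomputable def gm (h V : ℝ) : ℝ := h * V * Real.log V ^ 2 / (2 * Real.pi ^ 2)

/-- the step -/
theorem step (B : ℝ) (hB : 1 ≤ B) : ∃ C T0 : ℝ, 0 < C ∧ 20 ≤ T0 ∧ ∀ V : ℝ, T0 ≤ V →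
    ∀ h : ℝ, 0 ≤ h → h ≤ 7 → (h * Real.log V / (2 * Real.pi)) *
      Real.log (h * Real.log V / (2 * Real.pi)) ≤ B * Real.log V →
    |QS (ZT (2 * V)) h - gm h (2 * V)| ≤ |QS (ZT V) h - gm h V| + C * (V * Real.log V) := by
  classical
  obtain ⟨C1, T1, hC1, hT1, hbl⟩ := block B hB
  obtain ⟨CC, hCC, hcr⟩ := cnt_crude
  have hpi := Real.pi_pos
  have hpi3 := Real.pi_gt_three
  refine ⟨C1 + 2 * CC ^ 2 + 8, max T1 20, by positivity, le_max_right _ _,
    fun V hV h hh hh7 hcond => ?_⟩
  have hV1 : T1 ≤ V := (le_max_left _ _).trans hV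
  have hV20 : 20 ≤ V := (le_max_right _ _).trans hV
  have hV0 : 0 < V := by linarith
  have hL0 : 0 < Real.log V := Real.log_pos (by linarith)
  have hlV : Real.log V ≤ V := by linarith [Real.log_le_sub_one_of_pos hV0]
  have hL1 : 1 ≤ Real.log V := by
    rw [Real.le_log_iff_exp_le hV0]
    linarith [Real.exp_one_lt_d9]
  have hb := hbl V hV1 (h * Real.log V / (2 * Real.pi)) (by positivity) hcond
  have e1 : 2 * Real.pi * (h * Real.log V / (2 * Real.pi)) / Real.log V = h := by
    field_simp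
  have e2 : h * Real.log V / (2 * Real.pi) * (V * Real.log V / Real.pi) = gm h V := by
    unfold gm; field_simp
  rw [e1, e2] at hb
  rw [ZT_two (by linarith), QS_union (ZT_disj (by linarith))]
  have hx0 := XS_nonneg (ZT V) (Zf riemannZeta V (2 * V)) h
  have hx1 := XS_le hV20 hh hh7
  have c1 := hcr V (by linarith) (V - h) h (by linarith) (by linarith) hh (by linarith)
  have c2 := hcr V (by linarith) V h (by linarith) (by linarith) hh (by linarith)
  have c3 : (cnt (V - h) h : ℝ) * (cnt V h : ℝ) ≤ (CC * Real.log V) * (CC * Real.log V) :=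
    mul_le_mul c1 c2 (Nat.cast_nonneg _) (by positivity)
  have c4 : (CC * Real.log V) * (CC * Real.log V) ≤ CC ^ 2 * (V * Real.log V) := by
    have : Real.log V * Real.log V ≤ V * Real.log V := mul_le_mul_of_nonneg_right hlV hL0.le
    calc _ = CC ^ 2 * (Real.log V * Real.log V) := by ring
      _ ≤ _ := by gcongr
  have hg : |2 * gm h V - gm h (2 * V)| ≤ 8 * (V * Real.log V) := by
    unfold gm
    have h1 : Real.log (2 * V) = Real.log 2 + Real.log V := Real.log_mul (by norm_num) hV0.ne'
    rw [h1]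
    have h2 : 2 * (h * V * Real.log V ^ 2 / (2 * Real.pi ^ 2)) -
        h * (2 * V) * (Real.log 2 + Real.log V) ^ 2 / (2 * Real.pi ^ 2) =
        -(h * V * Real.log 2 * (Real.log 2 + 2 * Real.log V) / Real.pi ^ 2) := by
      field_simp; ring
    have hl2 := Real.log_two_lt_d9
    have hl20 : 0 < Real.log 2 := Real.log_pos one_lt_two
    rw [h2, abs_neg, abs_of_nonneg (by positivity), div_le_iff₀ (by positivity)]
    calc h * V * Real.log 2 * (Real.log 2 + 2 * Real.log V) ≤
        7 * V * 1 * (Real.log V + 2 * Real.log V) := by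
          gcongr
          · linarith
          · linarith
      _ = 21 * (V * Real.log V) := by ring
      _ ≤ 8 * (V * Real.log V) * Real.pi ^ 2 := by
          have h3 : 0 < V * Real.log V := by positivity
          have h4 : 9 ≤ Real.pi ^ 2 := by nlinarith
          nlinarith
  set Q := QS (ZT V) h with hQ
  set Qb := QS (Zf riemannZeta V (2 * V)) h with hQb
  set X := XS (ZT V) (Zf riemannZeta V (2 * V)) h with hX
  have e3 : Q + Qb + 2 * X - gm h (2 * V) = (Q - gm h V) + (Qb - gm h V) + 2 * X +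
      (2 * gm h V - gm h (2 * V)) := by ring
  rw [e3]
  have h5 : |2 * X| ≤ 2 * CC ^ 2 * (V * Real.log V) := by
    rw [abs_of_nonneg (by linarith)]
    linarith
  calc _ ≤ |(Q - gm h V) + (Qb - gm h V) + 2 * X| + |2 * gm h V - gm h (2 * V)| := abs_add_le _ _
    _ ≤ (|(Q - gm h V) + (Qb - gm h V)| + |2 * X|) + |2 * gm h V - gm h (2 * V)| := by
        gcongr; exact abs_add_le _ _
    _ ≤ ((|Q - gm h V| + |Qb - gm h V|) + |2 * X|) + |2 * gm h V - gm h (2 * V)| := by
        gcongr; exact abs_add_le _ _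
    _ ≤ ((|Q - gm h V| + C1 * (V * Real.log V)) + 2 * CC ^ 2 * (V * Real.log V)) +
        8 * (V * Real.log V) := by gcongr
    _ = _ := by ring

/-- the number of pairs of zeros up to height `T` at distance at most `a` mean spacings -/
theorem pairs_abs (B : ℝ) (hB : 1 ≤ B) : ∃ C T0 : ℝ, 0 < C ∧ 10 ≤ T0 ∧ ∀ T : ℝ, T0 ≤ T →
    ∀ a : ℝ, 0 ≤ a → a * Real.log a ≤ B * Real.log T →
    |QS (ZT T) (2 * Real.pi * a / Real.log T) - a * (T * Real.log T / Real.pi)| ≤
      C * (T * Real.log T) := by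
  obtain ⟨C1, T1, hC1, hT1, hst⟩ := step B hB
  obtain ⟨C2, T2, hC2, hT2, hN⟩ := Pool.Agent.W54.TCF.NT_asymp
  have hpi := Real.pi_pos
  have hpi3 := Real.pi_gt_three
  have hlog := Real.tendsto_log_atTop
  have hev1 : ∀ᶠ T : ℝ in atTop, max T1 T2 ≤ T ^ (1 / 4 : ℝ) :=
    (tendsto_rpow_atTop (by norm_num)).eventually_ge_atTop _
  have hev2 : ∀ᶠ T : ℝ in atTop, (2 * T ^ (1 / 4 : ℝ) * ((C2 + 1) * Real.log T)) ^ 2 ≤ T := by
    have h1 : (fun T : ℝ => (2 * T ^ (1 / 4 : ℝ) * ((C2 + 1) * Real.log T)) ^ 2) =o[atTop]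
        fun T : ℝ => T := by
      have h3 : (fun T : ℝ => (C2 + 1) * Real.log T) =o[atTop] fun T : ℝ => T ^ (1 / 4 : ℝ) :=
        (isLittleO_log_rpow_atTop (by norm_num)).const_mul_left _
      have h4 : (fun T : ℝ => 2 * T ^ (1 / 4 : ℝ)) =O[atTop] fun T : ℝ => T ^ (1 / 4 : ℝ) :=
        (Asymptotics.isBigO_refl _ _).const_mul_left _
      have h5 := (h4.mul_isLittleO h3).pow (n := 2) (by norm_num)
      refine h5.congr' (Eventually.of_forall fun T => rfl) ?_
      filter_upwards [eventually_gt_atTop 0] with T hT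
      rw [← Real.rpow_add hT, ← Real.rpow_natCast, ← Real.rpow_mul hT.le]
      norm_num
    have h2 := h1.bound (c := 1) one_pos
    filter_upwards [h2, eventually_ge_atTop 1] with T hT hT1
    rw [one_mul, Real.norm_of_nonneg (by linarith : (0 : ℝ) ≤ T)] at hT
    exact (le_abs_self _).trans hT
  have hev3 : ∀ᶠ T : ℝ in atTop, 14 * T ^ (1 / 4 : ℝ) * Real.log T ^ 2 ≤ T := by
    have h1 : (fun T : ℝ => 14 * T ^ (1 / 4 : ℝ) * Real.log T ^ 2) =o[atTop]
        fun T : ℝ => T := by
      have h3 : (fun T : ℝ => Real.log T) =o[atTop] fun T : ℝ => T ^ (3 / 8 : ℝ) :=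
        isLittleO_log_rpow_atTop (by norm_num)
      have h4 : (fun T : ℝ => 14 * T ^ (1 / 4 : ℝ)) =O[atTop] fun T : ℝ => T ^ (1 / 4 : ℝ) :=
        (Asymptotics.isBigO_refl _ _).const_mul_left _
      have h5 := h4.mul_isLittleO (h3.pow (n := 2) (by norm_num))
      refine h5.congr' (Eventually.of_forall fun T => rfl) ?_
      filter_upwards [eventually_gt_atTop 0] with T hT
      rw [← Real.rpow_natCast, ← Real.rpow_mul hT.le, ← Real.rpow_add hT]
      norm_num
    have h2 := h1.bound (c := 1) one_pos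
    filter_upwards [h2, eventually_ge_atTop 1] with T hT hT1
    rw [one_mul, Real.norm_of_nonneg (by linarith : (0 : ℝ) ≤ T)] at hT
    exact (le_abs_self _).trans hT
  obtain ⟨T3, hT3⟩ := (hev1.and (hev2.and (hev3.and
    (hlog.eventually_ge_atTop (Real.exp B))))).exists_forall_of_atTop
  refine ⟨C1 + 2, max (max T1 T2) T3, by linarith, by
    refine le_trans ?_ ((le_max_left _ _).trans (le_max_left _ _)); linarith,
    fun T hT a ha haL => ?_⟩
  have hTT1 : T1 ≤ T := ((le_max_left _ _).trans (le_max_left _ _)).trans hT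
  obtain ⟨g1, g2, g3, g4⟩ := hT3 T ((le_max_right _ _).trans hT)
  have hT20 : 20 ≤ T := hT1.trans hTT1
  have hT0 : 0 < T := by linarith
  have hL0 : 0 < Real.log T := Real.log_pos (by linarith)
  set L := Real.log T with hL
  have hL1 : 1 ≤ L := by
    have := Real.add_one_le_exp B
    linarith
  have haL' : a ≤ L := by
    rcases le_total 1 a with h | h
    · exact range_le h (by linarith) g4 haL
    · linarith
  set h := 2 * Real.pi * a / L with hh
  have hh0 : 0 ≤ h := by positivity
  have hh7 : h ≤ 7 := by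
    rw [hh, div_le_iff₀ hL0]
    nlinarith only [Real.pi_lt_d2, haL', hL0, ha]
  -- the base
  obtain ⟨K, hK1, hK2⟩ := exists_nat_pow_near (x := T ^ (3 / 4 : ℝ)) (y := 2)
    (Real.one_le_rpow (by linarith) (by norm_num)) (by norm_num)
  have h2K : (0 : ℝ) < 2 ^ K := by positivity
  set V0 := T / 2 ^ K with hV0
  have hT34 : T ^ (3 / 4 : ℝ) * T ^ (1 / 4 : ℝ) = T := by
    rw [← Real.rpow_add hT0]; norm_num
  have hT14 : 0 < T ^ (1 / 4 : ℝ) := by positivity
  have hV1 : T ^ (1 / 4 : ℝ) ≤ V0 := by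
    rw [hV0, le_div_iff₀ h2K]
    calc T ^ (1 / 4 : ℝ) * 2 ^ K ≤ T ^ (1 / 4 : ℝ) * T ^ (3 / 4 : ℝ) := by gcongr
      _ = T := by rw [mul_comm]; exact hT34
  have hV2 : V0 ≤ 2 * T ^ (1 / 4 : ℝ) := by
    rw [hV0, div_le_iff₀ h2K]
    calc T = T ^ (3 / 4 : ℝ) * T ^ (1 / 4 : ℝ) := hT34.symm
      _ ≤ 2 ^ (K + 1) * T ^ (1 / 4 : ℝ) := by gcongr
      _ = _ := by rw [pow_succ]; ring
  have hV0pos : 0 < V0 := hT14.trans_le hV1
  have hV0T1 : T1 ≤ V0 := (le_max_left _ _).trans (g1.trans hV1)
  have hV0T2 : T2 ≤ V0 := (le_max_right _ _).trans (g1.trans hV1)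
  have hV0T : V0 ≤ T := div_le_self hT0.le (one_le_pow₀ (by norm_num))
  have hlV0 : Real.log V0 ≤ L := Real.log_le_log hV0pos hV0T
  have hlV00 : 1 ≤ Real.log V0 := by
    rw [Real.le_log_iff_exp_le hV0pos]
    linarith [Real.exp_one_lt_d9]
  have hbase : |QS (ZT V0) h - gm h V0| ≤ 2 * (T * L) := by
    have b1 : QS (ZT V0) h ≤ T := by
      refine (QS_le_sq _ _).trans (le_trans ?_ g2)
      rw [ZS_ZT]
      have b2 := (abs_le.1 (hN V0 hV0T2)).2
      have b3 : (NN riemannZeta 0 V0 : ℝ) ≤ V0 * ((C2 + 1) * L) := by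
        have b4 : V0 * Real.log V0 / (2 * Real.pi) ≤ V0 * Real.log V0 / 1 := by
          apply div_le_div_of_nonneg_left (by positivity) (by norm_num) (by linarith)
        have b5 : V0 * Real.log V0 ≤ V0 * L := by gcongr
        have b6 : C2 * V0 ≤ C2 * V0 * L := le_mul_of_one_le_right (by positivity) hL1
        rw [div_one] at b4
        nlinarith only [b2, b4, b5, b6]
      calc (NN riemannZeta 0 V0 : ℝ) ^ 2 ≤ (V0 * ((C2 + 1) * L)) ^ 2 :=
            pow_le_pow_left₀ (Nat.cast_nonneg _) b3 2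
        _ ≤ (2 * T ^ (1 / 4 : ℝ) * ((C2 + 1) * L)) ^ 2 := by gcongr
    have b2 : gm h V0 ≤ T := by
      refine le_trans ?_ g3
      unfold gm
      calc h * V0 * Real.log V0 ^ 2 / (2 * Real.pi ^ 2) ≤ h * V0 * Real.log V0 ^ 2 / 1 := by
            apply div_le_div_of_nonneg_left (by positivity) (by norm_num)
            nlinarith only [hpi3]
        _ = h * V0 * Real.log V0 ^ 2 := div_one _
        _ ≤ 7 * (2 * T ^ (1 / 4 : ℝ)) * L ^ 2 := by
            have : 0 ≤ Real.log V0 := by linarith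
            gcongr
        _ = _ := by ring
    have b3 := QS_nonneg (ZT V0) h
    have b4 : 0 ≤ gm h V0 := by unfold gm; positivity
    have b5 : T * 1 ≤ T * L := mul_le_mul_of_nonneg_left hL1 hT0.le
    rw [abs_le]
    constructor <;> linarith
  -- the induction
  have hind : ∀ j : ℕ, j ≤ K → |QS (ZT (V0 * 2 ^ j)) h - gm h (V0 * 2 ^ j)| ≤
      2 * (T * L) + C1 * (V0 * 2 ^ j * L) := by
    intro j
    induction j with
    | zero =>
      intro _
      rw [pow_zero, mul_one]
      have : 0 ≤ C1 * (V0 * L) := by positivity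
      linarith
    | succ j ih =>
      intro hj
      have ih' := ih (by omega)
      have h2j : (1 : ℝ) ≤ 2 ^ j := one_le_pow₀ (by norm_num)
      set V := V0 * 2 ^ j with hV
      have hVV0 : V0 ≤ V := le_mul_of_one_le_right hV0pos.le h2j
      have hVpos : 0 < V := by linarith
      have hVT : V ≤ T := by
        have h3 : (2 : ℝ) ^ j ≤ 2 ^ K := pow_le_pow_right₀ (by norm_num) (by omega)
        calc V ≤ V0 * 2 ^ K := by rw [hV]; gcongr
          _ = T := by rw [hV0]; field_simp
      have hlV : Real.log V ≤ L := Real.log_le_log hVpos hVT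
      have hlV1 : 1 ≤ Real.log V := hlV00.trans (Real.log_le_log hV0pos hVV0)
      have hcond : (h * Real.log V / (2 * Real.pi)) *
          Real.log (h * Real.log V / (2 * Real.pi)) ≤ B * Real.log V := by
        have e1 : h * Real.log V / (2 * Real.pi) = a * (Real.log V / L) := by
          rw [hh]; field_simp
        rw [e1]
        rcases ha.eq_or_lt with h0 | h0
        · rw [← h0, zero_mul, zero_mul]
          have : 0 ≤ Real.log V := by linarith
          positivity
        · have h1 : Real.log V / L ≤ 1 := by rw [div_le_one hL0]; exact hlV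
          have h2 : 0 < Real.log V / L := by positivity
          have h3 : a * (Real.log V / L) ≤ a := mul_le_of_le_one_right ha h1
          have h4 : Real.log (a * (Real.log V / L)) ≤ Real.log a :=
            Real.log_le_log (by positivity) h3
          calc a * (Real.log V / L) * Real.log (a * (Real.log V / L)) =
              (Real.log V / L) * (a * Real.log (a * (Real.log V / L))) := by ring
            _ ≤ (Real.log V / L) * (a * Real.log a) := by gcongr
            _ ≤ (Real.log V / L) * (B * L) := by gcongr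
            _ = B * Real.log V := by field_simp
      have hs := hst V (hV0T1.trans hVV0) h hh0 hh7 hcond
      have e2 : V0 * 2 ^ (j + 1) = 2 * V := by rw [hV, pow_succ]; ring
      rw [e2]
      have h5 : C1 * (V * Real.log V) ≤ C1 * (V * L) := by gcongr
      calc _ ≤ |QS (ZT V) h - gm h V| + C1 * (V * Real.log V) := hs
        _ ≤ (2 * (T * L) + C1 * (V * L)) + C1 * (V * L) := add_le_add ih' h5
        _ = _ := by ring
  have hfin := hind K le_rfl
  have e3 : V0 * 2 ^ K = T := by rw [hV0]; field_simp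
  rw [e3] at hfin
  have e4 : gm h T = a * (T * L / Real.pi) := by
    unfold gm
    rw [← hL, hh]
    field_simp
  rw [e4] at hfin
  refine hfin.trans (le_of_eq ?_)
  ring

end Pool.Agent.TH850.UV
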