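import Pool.Agent.TH850.UV.PB4

set_option autoImplicit false

/-! # The pair counts -/

namespace Pool.Agent.TH850.UV

open Filter Topology MeasureTheory Set
open H370 (Zf mult mem_Zf good_zeta NN NN_eq zset zeta_zeros_finite)
open Pool.Agent.TH850.UR (zeros)

/-- the pairs with difference in `[x, y]` -/
noncomputable def WS (S : Finset ℂ) (x y : ℝ) : ℝ :=
  ∑ s ∈ S, ∑ s' ∈ S, mS s * mS s' * (if x ≤ s.im - s'.im ∧ s.im - s'.im ≤ y then 1 else 0)

/-- the symmetric form -/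
lemma WS_two (S : Finset ℂ) (x y : ℝ) : 2 * WS S x y =
    ∑ s ∈ S, ∑ s' ∈ S, mS s * mS s' * ((if x ≤ s.im - s'.im ∧ s.im - s'.im ≤ y then 1 else 0) +
      (if x ≤ -(s.im - s'.im) ∧ -(s.im - s'.im) ≤ y then 1 else 0)) := by
  have e : WS S x y = ∑ s ∈ S, ∑ s' ∈ S, mS s * mS s' *
      (if x ≤ -(s.im - s'.im) ∧ -(s.im - s'.im) ≤ y then 1 else 0) := by
    unfold WS
    rw [Finset.sum_comm]
    refine Finset.sum_congr rfl fun s _ => Finset.sum_congr rfl fun s' _ => ?_
    rw [neg_sub, mul_comm (mS s')]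
  have e2 : 2 * WS S x y = WS S x y + WS S x y := by ring
  rw [e2]
  nth_rewrite 2 [e]
  unfold WS
  rw [← Finset.sum_add_distrib]
  refine Finset.sum_congr rfl fun s _ => ?_
  rw [← Finset.sum_add_distrib]
  refine Finset.sum_congr rfl fun s' _ => ?_
  rw [← mul_add]

lemma WS_symm (S : Finset ℂ) (x y : ℝ) : WS S x y = WS S (-y) (-x) := by
  unfold WS
  rw [Finset.sum_comm]
  refine Finset.sum_congr rfl fun s _ => Finset.sum_congr rfl fun s' _ => ?_
  rw [mul_comm (mS s')]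
  congr 1
  by_cases h : x ≤ s'.im - s.im ∧ s'.im - s.im ≤ y
  · rw [if_pos h, if_pos ⟨by linarith [h.2], by linarith [h.1]⟩]
  · rw [if_neg h, if_neg]
    rintro ⟨h1, h2⟩
    exact h ⟨by linarith, by linarith⟩

lemma WS_mid (S : Finset ℂ) {x y : ℝ} (hx : x ≤ 0) (hy : 0 ≤ y) :
    2 * WS S x y = QS S y + QS S (-x) := by
  rw [WS_two]
  unfold QS
  rw [← Finset.sum_add_distrib]
  refine Finset.sum_congr rfl fun s _ => ?_
  rw [← Finset.sum_add_distrib]
  refine Finset.sum_congr rfl fun s' _ => ?_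
  rw [← mul_add]
  congr 1
  set d := s.im - s'.im with hd
  rcases le_total 0 d with h | h
  · rw [abs_of_nonneg h]
    have e1 : (x ≤ d ∧ d ≤ y) ↔ d ≤ y := ⟨fun h1 => h1.2, fun h1 => ⟨by linarith, h1⟩⟩
    have e2 : (x ≤ -d ∧ -d ≤ y) ↔ d ≤ -x :=
      ⟨fun h1 => by linarith [h1.1], fun h1 => ⟨by linarith, by linarith⟩⟩
    simp only [e1, e2]
  · rw [abs_of_nonpos h]
    have e1 : (x ≤ d ∧ d ≤ y) ↔ -d ≤ -x :=
      ⟨fun h1 => by linarith [h1.1], fun h1 => ⟨by linarith, by linarith⟩⟩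
    have e2 : (x ≤ -d ∧ -d ≤ y) ↔ -d ≤ y := ⟨fun h1 => h1.2, fun h1 => ⟨by linarith, h1⟩⟩
    simp only [e1, e2]
    ring

lemma WS_up (S : Finset ℂ) {x x' y : ℝ} (hx : 0 < x) (hx' : x' < x) (hxy : x ≤ y) :
    2 * WS S x y ≤ QS S y - QS S x' := by
  rw [WS_two]
  unfold QS
  rw [← Finset.sum_sub_distrib]
  refine Finset.sum_le_sum fun s _ => ?_
  rw [← Finset.sum_sub_distrib]
  refine Finset.sum_le_sum fun s' _ => ?_
  rw [← mul_sub]
  apply mul_le_mul_of_nonneg_left _ (mul_nonneg (mS_nonneg s) (mS_nonneg s'))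
  set d := s.im - s'.im with hd
  have key : (if x ≤ d ∧ d ≤ y then (1 : ℝ) else 0) + (if x ≤ -d ∧ -d ≤ y then 1 else 0) =
      if x ≤ |d| ∧ |d| ≤ y then 1 else 0 := by
    rcases le_total 0 d with h | h
    · rw [abs_of_nonneg h, if_neg (fun h1 : x ≤ -d ∧ -d ≤ y => by linarith [h1.1]), add_zero]
    · rw [abs_of_nonpos h, if_neg (fun h1 : x ≤ d ∧ d ≤ y => by linarith [h1.1]), zero_add]
  rw [key]
  by_cases h1 : |d| ≤ x'
  · rw [if_neg (fun h2 : x ≤ |d| ∧ |d| ≤ y => by linarith [h2.1]), if_pos h1,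
      if_pos (by linarith : |d| ≤ y), sub_self]
  · rw [if_neg h1, sub_zero]
    by_cases h2 : |d| ≤ y
    · rw [if_pos h2]
      split_ifs <;> norm_num
    · rw [if_neg h2, if_neg (fun h3 : x ≤ |d| ∧ |d| ≤ y => h2 h3.2)]

lemma WS_low (S : Finset ℂ) {x y : ℝ} (hx : 0 < x) :
    QS S y - QS S x ≤ 2 * WS S x y := by
  rw [WS_two]
  unfold QS
  rw [← Finset.sum_sub_distrib]
  refine Finset.sum_le_sum fun s _ => ?_
  rw [← Finset.sum_sub_distrib]
  refine Finset.sum_le_sum fun s' _ => ?_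
  rw [← mul_sub]
  apply mul_le_mul_of_nonneg_left _ (mul_nonneg (mS_nonneg s) (mS_nonneg s'))
  set d := s.im - s'.im with hd
  have key : (if x ≤ d ∧ d ≤ y then (1 : ℝ) else 0) + (if x ≤ -d ∧ -d ≤ y then 1 else 0) =
      if x ≤ |d| ∧ |d| ≤ y then 1 else 0 := by
    rcases le_total 0 d with h | h
    · rw [abs_of_nonneg h, if_neg (fun h1 : x ≤ -d ∧ -d ≤ y => by linarith [h1.1]), add_zero]
    · rw [abs_of_nonpos h, if_neg (fun h1 : x ≤ d ∧ d ≤ y => by linarith [h1.1]), zero_add]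
  rw [key]
  by_cases h1 : |d| ≤ x
  · rw [if_pos h1]
    split_ifs <;> norm_num
  · rw [if_neg h1, sub_zero]
    push Not at h1
    by_cases h2 : |d| ≤ y
    · rw [if_pos h2, if_pos ⟨h1.le, h2⟩]
    · rw [if_neg h2]
      split_ifs <;> norm_num

lemma QS_neg (S : Finset ℂ) {h : ℝ} (hh : h < 0) : QS S h = 0 := by
  unfold QS
  refine Finset.sum_eq_zero fun s _ => Finset.sum_eq_zero fun s' _ => ?_
  rw [if_neg, mul_zero]
  have := abs_nonneg (s.im - s'.im)
  intro h1
  linarith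

/-- the number of pairs with difference in a window -/
theorem pairs_window (B : ℝ) (hB : 1 ≤ B) : ∃ C T0 : ℝ, 0 < C ∧ 10 ≤ T0 ∧ ∀ T : ℝ, T0 ≤ T →
    ∀ R : ℝ, 1 ≤ R → R * Real.log R ≤ B * Real.log T → ∀ α β : ℝ, -R ≤ α → α ≤ β → β ≤ R →
    |WS (ZT T) (2 * Real.pi * α / Real.log T) (2 * Real.pi * β / Real.log T) -
      (β - α) * (T * Real.log T / (2 * Real.pi))| ≤ C * (T * Real.log T) := by
  obtain ⟨C, T0, hC, hT0, hp⟩ := pairs_abs B hB
  have hpi := Real.pi_pos
  have hpi3 := Real.pi_gt_three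
  refine ⟨C + 1, T0, by linarith, hT0, fun T hT R hR hRL => ?_⟩
  have hT10 : 10 ≤ T := hT0.trans hT
  have hTpos : 0 < T := by linarith
  have hL0 : 0 < Real.log T := Real.log_pos (by linarith)
  have hpT := hp T hT
  set L := Real.log T with hL
  set S := ZT T with hS
  have hTL : 0 < T * L := by positivity
  have hrange : ∀ u : ℝ, 0 ≤ u → u ≤ R → u * Real.log u ≤ B * L := by
    intro u hu huR
    rcases le_total u 1 with h | h
    · have h1 : Real.log u ≤ 0 := Real.log_nonpos hu h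
      have h2 : 0 ≤ B * L := by positivity
      nlinarith only [h1, h2, hu]
    · have h1 : Real.log u ≤ Real.log R := Real.log_le_log (by linarith) huR
      have h2 : 0 ≤ Real.log u := Real.log_nonneg h
      exact (mul_le_mul huR h1 h2 (by linarith)).trans hRL
  have hq : ∀ u : ℝ, 0 ≤ u → u ≤ R → |QS S (2 * Real.pi * u / L) - u * (T * L / Real.pi)| ≤
      C * (T * L) := fun u hu huR => hpT u hu (hrange u hu huR)
  have hhalf : ∀ u : ℝ, u * (T * L / (2 * Real.pi)) = u * (T * L / Real.pi) / 2 := by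
    intro u
    field_simp
  have hTLpi : T * L / Real.pi ≤ T * L := div_le_self hTL.le (by linarith)
  have hTLpi0 : 0 < T * L / Real.pi := by positivity
  have hCTL : 0 < C * (T * L) := by positivity
  -- positive windows
  have hpos : ∀ α β : ℝ, 0 < α → α ≤ β → β ≤ R →
      |WS S (2 * Real.pi * α / L) (2 * Real.pi * β / L) - (β - α) * (T * L / (2 * Real.pi))| ≤
      (C + 1) * (T * L) := by
    intro α β hα hαβ hβ
    have hx : 0 < 2 * Real.pi * α / L := by positivity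
    have hxy : 2 * Real.pi * α / L ≤ 2 * Real.pi * β / L := by gcongr
    have h1 := abs_le.1 (hq β (by linarith) hβ)
    have h2 := abs_le.1 (hq α hα.le (by linarith))
    have h3 := WS_low S (y := 2 * Real.pi * β / L) hx
    have h4 : 2 * WS S (2 * Real.pi * α / L) (2 * Real.pi * β / L) ≤
        β * (T * L / Real.pi) + C * (T * L) - ((α - 1) * (T * L / Real.pi) - C * (T * L)) := by
      rcases le_or_gt 1 α with h | h
      · have h5 : 2 * Real.pi * (α - 1) / L < 2 * Real.pi * α / L := by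
          apply div_lt_div_of_pos_right _ hL0
          nlinarith
        have h6 := WS_up S hx h5 hxy
        have h7 := abs_le.1 (hq (α - 1) (by linarith) (by linarith))
        linarith [h1.2, h7.1]
      · have h5 : (-1 : ℝ) < 2 * Real.pi * α / L := by linarith
        have h6 := WS_up S hx h5 hxy
        rw [QS_neg S (by norm_num : (-1 : ℝ) < 0)] at h6
        nlinarith only [h6, h1.2, h, hTLpi0, hCTL]
    rw [hhalf, abs_le]
    constructor
    · nlinarith only [h1.1, h2.2, h3, hTL, hCTL]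
    · nlinarith only [h4, hTLpi, hTLpi0, hTL, hCTL]
  intro α β hα hαβ hβ
  rcases lt_or_ge 0 α with h | h
  · exact hpos α β h hαβ hβ
  rcases lt_or_ge β 0 with h' | h'
  · rw [WS_symm]
    have e1 : -(2 * Real.pi * β / L) = 2 * Real.pi * (-β) / L := by ring
    have e2 : -(2 * Real.pi * α / L) = 2 * Real.pi * (-α) / L := by ring
    rw [e1, e2]
    have h1 := hpos (-β) (-α) (by linarith) (by linarith) (by linarith)
    have e3 : -α - -β = β - α := by ring
    rw [e3] at h1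
    exact h1
  · have hx : 2 * Real.pi * α / L ≤ 0 := by
      apply div_nonpos_of_nonpos_of_nonneg _ hL0.le
      nlinarith
    have hy : 0 ≤ 2 * Real.pi * β / L := by positivity
    have h1 := WS_mid S hx hy
    have e2 : -(2 * Real.pi * α / L) = 2 * Real.pi * (-α) / L := by ring
    rw [e2] at h1
    have h2 := abs_le.1 (hq β h' hβ)
    have h3 := abs_le.1 (hq (-α) (by linarith) (by linarith))
    rw [hhalf, abs_le]
    constructor
    · nlinarith only [h1, h2.1, h3.1, hTL]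
    · nlinarith only [h1, h2.2, h3.2, hTL]

/-- the number of pairs as a finite sum over pairs -/
noncomputable def pairN (T x y : ℝ) : ℕ :=
  ∑ᶠ p ∈ {p : ℂ × ℂ | (p.1 ∈ zeros ∧ 0 < p.1.im ∧ p.1.im ≤ T) ∧
    (p.2 ∈ zeros ∧ 0 < p.2.im ∧ p.2.im ≤ T) ∧ x ≤ p.1.im - p.2.im ∧ p.1.im - p.2.im ≤ y},
    analyticOrderNatAt riemannZeta p.1 * analyticOrderNatAt riemannZeta p.2

lemma pairN_eq (T x y : ℝ) : (pairN T x y : ℝ) = WS (ZT T) x y := by
  classical
  have hset : {p : ℂ × ℂ | (p.1 ∈ zeros ∧ 0 < p.1.im ∧ p.1.im ≤ T) ∧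
      (p.2 ∈ zeros ∧ 0 < p.2.im ∧ p.2.im ≤ T) ∧ x ≤ p.1.im - p.2.im ∧ p.1.im - p.2.im ≤ y} =
      ↑((ZT T ×ˢ ZT T).filter fun p : ℂ × ℂ => x ≤ p.1.im - p.2.im ∧ p.1.im - p.2.im ≤ y) := by
    ext p
    simp only [Finset.coe_filter, Finset.mem_product, mem_ZT, mem_ofPred_eq, zeros]
    tauto
  unfold pairN
  rw [hset, finsum_mem_coe_finset, Finset.sum_filter, Finset.sum_product]
  unfold WS
  push_cast
  refine Finset.sum_congr rfl fun s _ => Finset.sum_congr rfl fun s' _ => ?_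
  unfold mS mult
  split_ifs <;> simp

end Pool.Agent.TH850.UV
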