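import Pool.Agent.TH850.UV.Vm
import Pool.Agent.TH850.UV.Kern
import Pool.Agent.TH850.UV.DbMs

set_option autoImplicit false

/-! # The statistics of the zeros -/

namespace Pool.Agent.TH850.UV

open Complex Filter Topology MeasureTheory Set
open Pool.Agent.TH850.UR (ew)
open H370 (zz Zf mult mem_Zf good_zeta NN NN_eq zz_re zz_im)

/-- the height of a zero -/
noncomputable def yS (l : ℝ) (s : ℂ) : ℝ := -(s.re - 1 / 2) * (l / (2 * Real.pi))

/-- the position of a zero -/
noncomputable def xS (l t : ℝ) (s : ℂ) : ℝ := (s.im - t) * (l / (2 * Real.pi))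

/-- the multiplicity -/
noncomputable def mS (s : ℂ) : ℝ := (mult riemannZeta s : ℝ)

/-- a general statistic -/
noncomputable def GS (f : ℝ → ℝ → ℝ) (S : Finset ℂ) (l t : ℝ) : ℝ :=
  ∑ s ∈ S, mS s * f (yS l s) (xS l t s)

/-- the number of zeros in `(t, t + h]` -/
noncomputable def NS (S : Finset ℂ) (h t : ℝ) : ℝ :=
  ∑ s ∈ S, mS s * (if t < s.im ∧ s.im ≤ t + h then 1 else 0)

lemma mS_nonneg (s : ℂ) : 0 ≤ mS s := Nat.cast_nonneg _

lemma xS_pos {l : ℝ} (hl : 0 < l) (t : ℝ) (s : ℂ) : 0 < xS l t s ↔ t < s.im := by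
  have hpi := Real.pi_pos
  unfold xS
  constructor
  · intro h
    have := pos_of_mul_pos_left h (by positivity)
    linarith
  · intro h
    have : 0 < s.im - t := by linarith
    positivity

/-- the count in terms of the statistics -/
lemma NS_eq (S : Finset ℂ) {l h : ℝ} (hl : 0 < l) (hh : 0 ≤ h) (t : ℝ) :
    NS S h t = (GS Qk S l t - GS Qk S l (t + h)) - (GS Jk S l t - GS Jk S l (t + h)) := by
  unfold NS GS
  rw [← Finset.sum_sub_distrib, ← Finset.sum_sub_distrib, ← Finset.sum_sub_distrib]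
  refine Finset.sum_congr rfl fun s _ => ?_
  unfold Jk
  have e1 : (if 0 < xS l t s then (1 : ℝ) else 0) = if t < s.im then 1 else 0 := by
    by_cases h1 : t < s.im
    · rw [if_pos h1, if_pos ((xS_pos hl t s).2 h1)]
    · rw [if_neg h1, if_neg (fun h2 => h1 ((xS_pos hl t s).1 h2))]
  have e2 : (if 0 < xS l (t + h) s then (1 : ℝ) else 0) = if t + h < s.im then 1 else 0 := by
    by_cases h1 : t + h < s.im
    · rw [if_pos h1, if_pos ((xS_pos hl (t + h) s).2 h1)]
    · rw [if_neg h1, if_neg (fun h2 => h1 ((xS_pos hl (t + h) s).1 h2))]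
  rw [e1, e2]
  have e3 : (if t < s.im ∧ s.im ≤ t + h then (1 : ℝ) else 0) =
      (if t < s.im then 1 else 0) - if t + h < s.im then 1 else 0 := by
    by_cases h1 : t < s.im
    · by_cases h2 : s.im ≤ t + h
      · rw [if_pos ⟨h1, h2⟩, if_pos h1, if_neg (not_lt.2 h2), sub_zero]
      · rw [if_neg (fun h3 => h2 h3.2), if_pos h1, if_pos (not_le.1 h2), sub_self]
    · rw [if_neg (fun h3 => h1 h3.1), if_neg h1, if_neg (fun h3 => h1 (by linarith)), sub_self]
  rw [e3]
  ring

lemma Qk_deriv (y x : ℝ) : HasDerivAt (Qk y) (qk y x) x := by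
  have h := KernAux.cont_y y
  have h1 := intervalIntegral.integral_hasDerivAt_right (f := qk y) (a := 0) (b := x)
    (h.intervalIntegrable _ _) (h.stronglyMeasurableAtFilter _ _) h.continuousAt
  have h2 := h1.const_add (1 / 2)
  exact h2

lemma xS_deriv (l t : ℝ) (s : ℂ) :
    HasDerivAt (fun t => xS l t s) (-(l / (2 * Real.pi))) t := by
  unfold xS
  have h := ((hasDerivAt_id' t).const_sub s.im).mul_const (l / (2 * Real.pi))
  refine h.congr_deriv ?_
  ring

lemma GSQ_deriv (S : Finset ℂ) (l t : ℝ) :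
    HasDerivAt (GS Qk S l) (-(l / (2 * Real.pi)) * GS qk S l t) t := by
  have h1 : ∀ s ∈ S, HasDerivAt (fun t => mS s * Qk (yS l s) (xS l t s))
      (mS s * (qk (yS l s) (xS l t s) * (-(l / (2 * Real.pi))))) t := fun s _ =>
    ((Qk_deriv (yS l s) (xS l t s)).comp t (xS_deriv l t s)).const_mul _
  have h2 := HasDerivAt.fun_sum h1
  refine h2.congr_deriv ?_
  unfold GS
  rw [Finset.mul_sum]
  refine Finset.sum_congr rfl fun s _ => ?_
  ring

lemma GSq_cont (S : Finset ℂ) (l : ℝ) : Continuous (GS qk S l) := by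
  unfold GS
  refine continuous_finsetSum _ fun s _ => continuous_const.mul ?_
  have h := KernAux.cont_y (yS l s)
  refine h.comp ?_
  unfold xS
  fun_prop

lemma GSQ_cont (S : Finset ℂ) (l : ℝ) : Continuous (GS Qk S l) :=
  continuous_iff_continuousAt.2 fun t => (GSQ_deriv S l t).continuousAt

lemma GSJ_meas (S : Finset ℂ) (l : ℝ) : Measurable (GS Jk S l) := by
  unfold GS
  refine Finset.measurable_sum _ fun s _ => measurable_const.mul ?_
  have h : Measurable (Jk (yS l s)) := by
    have : Jk (yS l s) = fun x => Qk (yS l s) x - if 0 < x then 1 else 0 := rfl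
    rw [this]
    exact (KernAux.Qk_cont _).measurable.sub
      (Measurable.ite (measurableSet_lt measurable_const measurable_id) measurable_const
        measurable_const)
  refine h.comp ?_
  unfold xS
  fun_prop

/-- the smoothed count -/
lemma BS_eq (S : Finset ℂ) (l h t : ℝ) :
    GS Qk S l t - GS Qk S l (t + h) = ∫ τ in t..(t + h), (l / (2 * Real.pi)) * GS qk S l τ := by
  have h1 := intervalIntegral.integral_eq_sub_of_hasDerivAt
    (fun τ (_ : τ ∈ Set.uIcc t (t + h)) => GSQ_deriv S l τ)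
    ((continuous_const.mul (GSq_cont S l)).intervalIntegrable _ _)
  have h2 : ∫ τ in t..(t + h), (l / (2 * Real.pi)) * GS qk S l τ =
      -∫ τ in t..(t + h), -(l / (2 * Real.pi)) * GS qk S l τ := by
    rw [← intervalIntegral.integral_neg]
    refine intervalIntegral.integral_congr fun τ _ => ?_
    ring
  rw [h2, h1]
  ring

/-- the domination by the majorant -/
lemma GS_dom (f : ℝ → ℝ → ℝ) (C lam T : ℝ) (hC : 0 ≤ C) (hlam : 1 ≤ lam) (hT : 10 ≤ T)
    (hf : ∀ y x, |f y x| ≤ C * Real.exp (Real.pi * |y|) / (1 + x ^ 2)) (S : Finset ℂ)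
    (hS : S ⊆ Zf riemannZeta T (2 * T)) (t : ℝ) :
    |GS f S (Real.log T / lam) t| ≤ C * (2 * Real.pi * lam) ^ 2 * VV lam T t := by
  have hpi := Real.pi_pos
  have hpi3 := Real.pi_gt_three
  have hlam0 : 0 < lam := by linarith
  have hL0 : 0 < Real.log T := Real.log_pos (by linarith)
  set L := Real.log T with hL
  have h1 : ∀ s, |mS s * f (yS (L / lam) s) (xS (L / lam) t s)| ≤ C * (2 * Real.pi * lam) ^ 2 *
      (((mult riemannZeta s : ℝ) * ew (1 / (2 * lam)) L s) / (1 + ((s.im - t) * L) ^ 2)) := by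
    intro s
    rw [abs_mul, abs_of_nonneg (mS_nonneg s)]
    have h2 := hf (yS (L / lam) s) (xS (L / lam) t s)
    have h3 : Real.exp (Real.pi * |yS (L / lam) s|) = ew (1 / (2 * lam)) L s := by
      unfold Pool.Agent.TH850.UR.ew yS
      congr 1
      rw [abs_mul, abs_neg, abs_of_pos (by positivity : 0 < L / lam / (2 * Real.pi))]
      field_simp
    rw [h3] at h2
    have h4 : (1 + ((s.im - t) * L) ^ 2) / (2 * Real.pi * lam) ^ 2 ≤
        1 + (xS (L / lam) t s) ^ 2 := by
      unfold xS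
      rw [div_le_iff₀ (by positivity)]
      have h5 : (1 + ((s.im - t) * (L / lam / (2 * Real.pi))) ^ 2) * (2 * Real.pi * lam) ^ 2 =
          (2 * Real.pi * lam) ^ 2 + ((s.im - t) * L) ^ 2 := by
        field_simp
      rw [h5]
      have h6 : 1 ≤ 2 * Real.pi * lam := by nlinarith
      nlinarith
    have h5 : C * ew (1 / (2 * lam)) L s / (1 + (xS (L / lam) t s) ^ 2) ≤
        C * ew (1 / (2 * lam)) L s / ((1 + ((s.im - t) * L) ^ 2) / (2 * Real.pi * lam) ^ 2) := by
      apply div_le_div_of_nonneg_left _ (by positivity) h4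
      exact mul_nonneg hC (ew_nonneg _ _ _)
    calc mS s * |f (yS (L / lam) s) (xS (L / lam) t s)| ≤ mS s * (C * ew (1 / (2 * lam)) L s /
        ((1 + ((s.im - t) * L) ^ 2) / (2 * Real.pi * lam) ^ 2)) :=
          mul_le_mul_of_nonneg_left (h2.trans h5) (mS_nonneg s)
      _ = _ := by
          unfold mS
          have : (1 + ((s.im - t) * L) ^ 2) ≠ 0 := by positivity
          field_simp
  unfold GS VV
  refine (Finset.abs_sum_le_sum_abs _ _).trans ?_
  rw [Finset.mul_sum]
  refine (Finset.sum_le_sum fun s _ => h1 s).trans ?_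
  refine Finset.sum_le_sum_of_subset_of_nonneg hS fun s _ _ => ?_
  have := ew_nonneg (1 / (2 * lam)) L s
  positivity

end Pool.Agent.TH850.UV
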