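import Pool.Agent.TH850.UV.St

set_option autoImplicit false

/-! # The cross term and the comparison with the explicit formula -/

namespace Pool.Agent.TH850.UV

open Complex Filter Topology MeasureTheory Set
open Pool.Agent.TH850.UR (ew)
open H370 (zz Zf mult mem_Zf good_zeta NN NN_eq zz_re zz_im)

theorem prim_exists : ∃ C : ℝ, 0 < C ∧ ∃ P : ℝ → ℝ → ℝ, (∀ y, Continuous (P y)) ∧
    (∀ y x : ℝ, HasDerivWithinAt (P y) (Jk y x) (Iio x) x) ∧
    ∀ y x : ℝ, |P y x| ≤ C * Real.exp (Real.pi * |y|) / (1 + x ^ 2) := by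
  obtain ⟨C, hC, h⟩ := Pk_exists
  choose P h1 h2 h3 using h
  exact ⟨C, hC, P, h1, h2, h3⟩

lemma GSP_deriv {P : ℝ → ℝ → ℝ} (hP : ∀ y x : ℝ, HasDerivWithinAt (P y) (Jk y x) (Iio x) x)
    (S : Finset ℂ) {l : ℝ} (hl : 0 < l) (t : ℝ) :
    HasDerivWithinAt (GS P S l) (-(l / (2 * Real.pi)) * GS Jk S l t) (Ioi t) t := by
  have hpi := Real.pi_pos
  have h1 : ∀ s ∈ S, HasDerivWithinAt (fun t => mS s * P (yS l s) (xS l t s))
      (mS s * (Jk (yS l s) (xS l t s) * (-(l / (2 * Real.pi))))) (Ioi t) t := by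
    intro s _
    refine HasDerivWithinAt.const_mul _ ?_
    refine (hP (yS l s) (xS l t s)).comp t (xS_deriv l t s).hasDerivWithinAt ?_
    intro u hu
    rw [mem_Ioi] at hu
    rw [mem_Iio]
    unfold xS
    have : 0 < l / (2 * Real.pi) := by positivity
    nlinarith
  have h2 := HasDerivWithinAt.fun_sum h1
  refine h2.congr_deriv ?_
  unfold GS
  rw [Finset.mul_sum]
  refine Finset.sum_congr rfl fun s _ => ?_
  ring

lemma GSP_cont {P : ℝ → ℝ → ℝ} (hP : ∀ y, Continuous (P y)) (S : Finset ℂ) (l : ℝ) :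
    Continuous (GS P S l) := by
  unfold GS
  refine continuous_finsetSum _ fun s _ => continuous_const.mul ?_
  refine (hP _).comp ?_
  unfold xS
  fun_prop

lemma bdd_int {f : ℝ → ℝ} (hf : Measurable f) {M : ℝ} (h : ∀ t, |f t| ≤ M) (A B : ℝ) :
    IntervalIntegrable f volume A B := by
  refine (intervalIntegrable_const (c := M)).mono_fun hf.aestronglyMeasurable ?_
  refine Eventually.of_forall fun t => ?_
  show |f t| ≤ |M|
  exact (h t).trans (le_abs_self _)

lemma int_le_univ {g : ℝ → ℝ} (hg : Integrable g) (h0 : ∀ t, 0 ≤ g t) {A B : ℝ} (hAB : A ≤ B) :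
    ∫ t in A..B, g t ≤ ∫ t, g t := by
  rw [intervalIntegral.integral_of_le hAB]
  exact setIntegral_le_integral hg (Eventually.of_forall h0)

lemma int_shift_le {g : ℝ → ℝ} (hg : Integrable g) (h0 : ∀ t, 0 ≤ g t) {A B : ℝ} (hAB : A ≤ B)
    (h : ℝ) : ∫ t in A..B, g (t + h) ≤ ∫ t, g t := by
  rw [intervalIntegral.integral_comp_add_right g h]
  exact int_le_univ hg h0 (by linarith)

lemma int_win_le {g : ℝ → ℝ} (hg : Integrable g) (hc : Continuous g) (h0 : ∀ t, 0 ≤ g t)
    {A B : ℝ} (hAB : A ≤ B) {h : ℝ} (hh : 0 ≤ h) :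
    ∫ t in A..B, ∫ τ in t..(t + h), g τ ≤ h * ∫ t, g t := by
  set G : ℝ → ℝ := fun x => ∫ τ in A..x, g τ with hG
  have hGc : Continuous G := intervalIntegral.continuous_primitive (fun a b =>
    hc.intervalIntegrable a b) A
  have hGm : ∀ x y, x ≤ y → G x ≤ G y := by
    intro x y hxy
    have h1 : G y - G x = ∫ τ in x..y, g τ :=
      intervalIntegral.integral_interval_sub_left (hc.intervalIntegrable _ _)
        (hc.intervalIntegrable _ _)
    have h2 : 0 ≤ ∫ τ in x..y, g τ := intervalIntegral.integral_nonneg hxy fun u _ => h0 u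
    linarith
  have h1 : ∀ t, ∫ τ in t..(t + h), g τ = G (t + h) - G t := fun t =>
    (intervalIntegral.integral_interval_sub_left (hc.intervalIntegrable _ _)
        (hc.intervalIntegrable _ _)).symm
  simp_rw [h1]
  rw [intervalIntegral.integral_sub (Continuous.intervalIntegrable (by fun_prop) _ _)
    (hGc.intervalIntegrable _ _), intervalIntegral.integral_comp_add_right G h]
  have h2 : (∫ x in (A + h)..(B + h), G x) - ∫ x in A..B, G x =
      (∫ x in B..(B + h), G x) - ∫ x in A..(A + h), G x := by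
    have e1 : (∫ x in A..(A + h), G x) + ∫ x in (A + h)..(B + h), G x =
        ∫ x in A..(B + h), G x :=
      intervalIntegral.integral_add_adjacent_intervals (hGc.intervalIntegrable _ _)
        (hGc.intervalIntegrable _ _)
    have e2 : (∫ x in A..B, G x) + ∫ x in B..(B + h), G x =
        ∫ x in A..(B + h), G x :=
      intervalIntegral.integral_add_adjacent_intervals (hGc.intervalIntegrable _ _)
        (hGc.intervalIntegrable _ _)
    linarith
  rw [h2]
  have h3 : ∫ x in B..(B + h), G x ≤ h * G (B + h) := by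
    have : ∫ x in B..(B + h), G x ≤ ∫ x in B..(B + h), G (B + h) :=
      intervalIntegral.integral_mono_on (by linarith) (hGc.intervalIntegrable _ _)
        (continuous_const.intervalIntegrable _ _) fun x hx => hGm x _ hx.2
    rw [intervalIntegral.integral_const, smul_eq_mul] at this
    linarith
  have h4 : 0 ≤ ∫ x in A..(A + h), G x := by
    refine intervalIntegral.integral_nonneg (by linarith) fun x hx => ?_
    exact intervalIntegral.integral_nonneg hx.1 fun u _ => h0 u
  have h5 : G (B + h) ≤ ∫ t, g t := int_le_univ hg h0 (by linarith)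
  have h6 : h * G (B + h) ≤ h * ∫ t, g t := mul_le_mul_of_nonneg_left h5 hh
  linarith

/-- the cross term -/
lemma cross_est {P : ℝ → ℝ → ℝ} (hPc : ∀ y, Continuous (P y))
    (hP : ∀ y x : ℝ, HasDerivWithinAt (P y) (Jk y x) (Iio x) x) (S : Finset ℂ) {l : ℝ}
    (hl : 0 < l) {V : ℝ → ℝ} (hVc : Continuous V) (hV0 : ∀ t, 0 ≤ V t)
    (hVi : Integrable fun t => V t ^ 2) {M : ℝ} (hVM : ∀ t, V t ≤ M)
    (hq : ∀ t, |GS qk S l t| ≤ V t) (hJ : ∀ t, |GS Jk S l t| ≤ V t)
    (hPV : ∀ t, |GS P S l t| ≤ V t) {h a A B : ℝ} (hh : 0 ≤ h) (ha : 0 ≤ a) (hAB : A ≤ B) :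
    |∫ t in A..B, (GS Qk S l t - GS Qk S l (t + h) - a) * (GS Jk S l t - GS Jk S l (t + h))| ≤
      2 * ((l / (2 * Real.pi) * h * M + a) * (2 * M / (l / (2 * Real.pi)))) +
        4 * ∫ t, V t ^ 2 := by
  have hpi := Real.pi_pos
  set W := l / (2 * Real.pi) with hW
  have hW0 : 0 < W := by positivity
  have hM0 : 0 ≤ M := (hV0 0).trans (hVM 0)
  set u : ℝ → ℝ := fun t => GS Qk S l t - GS Qk S l (t + h) - a with hu
  set u' : ℝ → ℝ := fun t => -W * GS qk S l t - -W * GS qk S l (t + h) with hu'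
  set v : ℝ → ℝ := fun t => -(1 / W) * (GS P S l t - GS P S l (t + h)) with hv
  set v' : ℝ → ℝ := fun t => GS Jk S l t - GS Jk S l (t + h) with hv'
  have hQc := GSQ_cont S l
  have hqc := GSq_cont S l
  have hPcc := GSP_cont hPc S l
  have hJm := GSJ_meas S l
  have hud : ∀ t, HasDerivAt u (u' t) t := by
    intro t
    have h1 := GSQ_deriv S l t
    have h2 := (GSQ_deriv S l (t + h)).comp_add_const t h
    exact (h1.sub h2).sub_const a
  have hvd : ∀ t, HasDerivWithinAt v (v' t) (Ioi t) t := by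
    intro t
    have h1 := GSP_deriv hP S hl t
    have h2 : HasDerivWithinAt (fun x => GS P S l (x + h)) (-W * GS Jk S l (t + h)) (Ioi t) t := by
      have h3 := GSP_deriv hP S hl (t + h)
      have h4 : HasDerivWithinAt (fun x : ℝ => x + h) 1 (Ioi t) t :=
        ((hasDerivAt_id' t).add_const h).hasDerivWithinAt
      have h5 := h3.comp t h4 (fun x hx => by
        rw [mem_Ioi] at hx ⊢
        linarith)
      rw [mul_one] at h5
      exact h5
    have h3 := (h1.sub h2).const_mul (-(1 / W))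
    refine h3.congr_deriv ?_
    simp only [hv']
    rw [← hW]
    field_simp
    ring
  have hv'i : IntervalIntegrable v' volume A B := by
    refine bdd_int (f := v') (hJm.sub (hJm.comp (measurable_id.add_const h))) (M := 2 * M)
      (fun t => ?_) A B
    show |GS Jk S l t - GS Jk S l (t + h)| ≤ 2 * M
    refine (abs_sub _ _).trans ?_
    have h1 := (hJ t).trans (hVM t)
    have h2 := (hJ (t + h)).trans (hVM (t + h))
    linarith
  have huc : Continuous u := by simp only [hu]; fun_prop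
  have hu'c : Continuous u' := by simp only [hu']; fun_prop
  have hvc : Continuous v := by simp only [hv]; fun_prop
  have hparts := intervalIntegral.integral_mul_deriv_eq_deriv_mul_of_hasDeriv_right
    (u := u) (v := v) (u' := u') (v' := v') (a := A) (b := B) huc.continuousOn hvc.continuousOn
    (fun x _ => (hud x).hasDerivWithinAt) (fun x _ => hvd x)
    (hu'c.intervalIntegrable _ _) hv'i
  have hub : ∀ t, |u t| ≤ W * h * M + a := by
    intro t
    have h1 : u t = (∫ τ in t..(t + h), W * GS qk S l τ) - a := by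
      simp only [hu]
      rw [BS_eq S l h t]
    rw [h1]
    refine (abs_sub _ _).trans ?_
    rw [abs_of_nonneg ha]
    have h2 : ‖∫ τ in t..(t + h), W * GS qk S l τ‖ ≤ (W * M) * |t + h - t| := by
      apply intervalIntegral.norm_integral_le_of_norm_le_const
      intro x _
      rw [norm_mul, Real.norm_of_nonneg hW0.le, Real.norm_eq_abs]
      exact mul_le_mul_of_nonneg_left ((hq x).trans (hVM x)) hW0.le
    rw [Real.norm_eq_abs, add_sub_cancel_left, abs_of_nonneg hh] at h2
    linarith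
  have hvb : ∀ t, |v t| ≤ 2 * M / W := by
    intro t
    simp only [hv]
    rw [abs_mul, abs_neg, abs_of_pos (by positivity : 0 < 1 / W)]
    have h1 : |GS P S l t - GS P S l (t + h)| ≤ 2 * M := by
      refine (abs_sub _ _).trans ?_
      have h1 := (hPV t).trans (hVM t)
      have h2 := (hPV (t + h)).trans (hVM (t + h))
      linarith
    calc 1 / W * |GS P S l t - GS P S l (t + h)| ≤ 1 / W * (2 * M) := by gcongr
      _ = _ := by ring
  have hVs : Continuous fun t => V t ^ 2 := by fun_prop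
  have hlast : |∫ x in A..B, u' x * v x| ≤ 4 * ∫ t, V t ^ 2 := by
    refine (intervalIntegral.abs_integral_le_integral_abs hAB).trans ?_
    have h1 : ∫ x in A..B, |u' x * v x| ≤ ∫ x in A..B, (2 * V x ^ 2 + 2 * V (x + h) ^ 2) := by
      refine intervalIntegral.integral_mono_on hAB (Continuous.intervalIntegrable (by fun_prop) _ _)
        (Continuous.intervalIntegrable (by fun_prop) _ _) fun x _ => ?_
      have e1 : u' x * v x = (GS qk S l x - GS qk S l (x + h)) *
          (GS P S l x - GS P S l (x + h)) := by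
        simp only [hu', hv]
        field_simp
        ring
      rw [e1, abs_mul]
      have h2 : |GS qk S l x - GS qk S l (x + h)| ≤ V x + V (x + h) :=
        (abs_sub _ _).trans (add_le_add (hq x) (hq (x + h)))
      have h3 : |GS P S l x - GS P S l (x + h)| ≤ V x + V (x + h) :=
        (abs_sub _ _).trans (add_le_add (hPV x) (hPV (x + h)))
      have h4 : 0 ≤ V x + V (x + h) := add_nonneg (hV0 _) (hV0 _)
      calc _ ≤ (V x + V (x + h)) * (V x + V (x + h)) :=
            mul_le_mul h2 h3 (abs_nonneg _) h4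
        _ ≤ _ := by nlinarith [sq_nonneg (V x - V (x + h))]
    refine h1.trans ?_
    rw [intervalIntegral.integral_add (Continuous.intervalIntegrable (by fun_prop) _ _)
      (Continuous.intervalIntegrable (by fun_prop) _ _), intervalIntegral.integral_const_mul,
      intervalIntegral.integral_const_mul]
    have h5 := int_le_univ hVi (fun t => sq_nonneg _) hAB
    have h6 := int_shift_le hVi (fun t => sq_nonneg _) hAB h
    linarith
  rw [hparts]
  have hb1 : |u B * v B| ≤ (W * h * M + a) * (2 * M / W) := by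
    rw [abs_mul]
    exact mul_le_mul (hub B) (hvb B) (abs_nonneg _) (by positivity)
  have hb2 : |u A * v A| ≤ (W * h * M + a) * (2 * M / W) := by
    rw [abs_mul]
    exact mul_le_mul (hub A) (hvb A) (abs_nonneg _) (by positivity)
  calc |u B * v B - u A * v A - ∫ x in A..B, u' x * v x| ≤
      |u B * v B - u A * v A| + |∫ x in A..B, u' x * v x| := abs_sub _ _
    _ ≤ (|u B * v B| + |u A * v A|) + |∫ x in A..B, u' x * v x| := by
        gcongr; exact abs_sub _ _
    _ ≤ _ := by linarith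

/-- the Gaussian factor -/
lemma gauss_fac (z : ℂ) (hz : |z.im| ≤ 1 / 2) : ‖1 - cexp (-z ^ 2 / 2)‖ ≤ 2 * ‖z‖ ^ 2 := by
  have h0 : ‖-z ^ 2 / 2‖ = ‖z‖ ^ 2 / 2 := by
    rw [norm_div, norm_neg, norm_pow]; simp
  by_cases h1 : ‖z‖ ^ 2 ≤ 2
  · have h2 : ‖-z ^ 2 / 2‖ ≤ 1 := by rw [h0]; linarith
    have h3 := Complex.norm_exp_sub_one_le h2
    rw [norm_sub_rev] at h3
    rw [h0] at h3
    nlinarith [sq_nonneg ‖z‖]
  · push Not at h1
    have h2 : ‖cexp (-z ^ 2 / 2)‖ ≤ 2 := by
      rw [Complex.norm_exp]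
      have h3 : (-z ^ 2 / 2).re = (z.im ^ 2 - z.re ^ 2) / 2 := by
        have : (-z ^ 2 / 2 : ℂ) = ((-(z.re ^ 2 - z.im ^ 2) / 2 : ℝ) : ℂ) +
            ((-(z.re * z.im) : ℝ) : ℂ) * I := by
          conv_lhs => rw [← Complex.re_add_im z]
          push_cast
          ring_nf
          rw [Complex.I_sq]
          ring
        rw [this]
        simp only [Complex.add_re, Complex.ofReal_re, Complex.mul_re, Complex.ofReal_im,
          Complex.I_re, Complex.I_im]
        ring
      rw [h3]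
      have h4 : (z.im ^ 2 - z.re ^ 2) / 2 ≤ 1 / 2 := by
        have h5 : z.im ^ 2 ≤ 1 / 4 := by
          rw [← sq_abs]
          have := abs_nonneg z.im
          nlinarith
        nlinarith [sq_nonneg z.re]
      refine (Real.exp_le_exp.2 h4).trans ?_
      have h4 : Real.exp (1 / 2) ^ 2 = Real.exp 1 := by
        rw [← Real.exp_nat_mul]; norm_num
      have h5 := Real.exp_one_lt_d9
      nlinarith [Real.exp_pos (1 / 2)]
    have h3 : ‖1 - cexp (-z ^ 2 / 2)‖ ≤ 1 + 2 := by
      refine (norm_sub_le _ _).trans ?_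
      rw [norm_one]
      linarith
    linarith

/-- the comparison with the explicit formula -/
lemma An_Ac : ∃ C : ℝ, 0 < C ∧ ∀ lam T : ℝ, 1 ≤ lam → 10 ≤ T → ∀ U1 U2 : ℝ, T ≤ U1 →
    U2 ≤ 2 * T → ∀ t : ℝ,
    |GS qk (Zf riemannZeta U1 U2) (Real.log T / lam) t -
      2 * (HTo (Real.log T / lam) U1 U2 t).re| ≤
      C / (Real.log T / lam / (2 * Real.pi)) ^ 2 * (2 * Real.pi * lam) ^ 2 * VV lam T t := by
  obtain ⟨C, hC, hk⟩ := kC_decay
  refine ⟨2 * C, by positivity, fun lam T hlam hT U1 U2 hU1 hU2 t => ?_⟩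
  have hpi := Real.pi_pos
  have hlam0 : 0 < lam := by linarith
  have hL0 : 0 < Real.log T := Real.log_pos (by linarith)
  set l := Real.log T / lam with hl
  have hl0 : 0 < l := by positivity
  set W := l / (2 * Real.pi) with hW
  have hW0 : 0 < W := by positivity
  have hU : 1 ≤ U1 := by linarith
  have hfull := fullo l (U2 := U2) hU t
  set S := Zf riemannZeta U1 U2 with hS
  have hsub : S ⊆ Zf riemannZeta T (2 * T) := by
    intro s hs
    rw [hS, mem_Zf good_zeta hU] at hs
    rw [mem_Zf good_zeta (by linarith)]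
    exact ⟨hs.1, hs.2.1, by linarith [hs.2.2.1], by linarith [hs.2.2.2.1], hs.2.2.2.2⟩
  have hZ : ∀ s : ℂ, (zz s - t) * ((l / (2 * Real.pi) : ℝ) : ℂ) = (xS l t s : ℂ) + (yS l s : ℂ) * I := by
    intro s
    apply Complex.ext
    · rw [Complex.re_mul_ofReal, Complex.sub_re, zz_re, Complex.ofReal_re, Complex.add_re,
        Complex.ofReal_re, Complex.re_ofReal_mul, Complex.I_re, mul_zero, add_zero]
      rfl
    · rw [Complex.im_mul_ofReal, Complex.sub_im, zz_im, Complex.ofReal_im, Complex.add_im,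
        Complex.ofReal_im, Complex.im_ofReal_mul, Complex.I_im, mul_one, zero_add, sub_zero]
      rfl
  have e1 : GS qk S l t - 2 * (HTo l U1 U2 t).re =
      ∑ s ∈ S, mS s * (kC ((xS l t s : ℂ) + (yS l s : ℂ) * I) *
        (1 - cexp (-(zz s - t) ^ 2 / 2))).re := by
    have h1 : 2 * (HTo l U1 U2 t).re = (∑ s ∈ S, (mult riemannZeta s : ℂ) *
        cexp (-(zz s - t) ^ 2 / 2) * kC ((zz s - t) * (l / (2 * Real.pi) : ℝ))).re := by
      rw [hfull, Complex.ofReal_re]
    rw [h1, Complex.re_sum]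
    unfold GS
    rw [← Finset.sum_sub_distrib]
    refine Finset.sum_congr rfl fun s _ => ?_
    rw [hZ]
    have h2 : (mult riemannZeta s : ℂ) * cexp (-(zz s - t) ^ 2 / 2) *
        kC ((xS l t s : ℂ) + (yS l s : ℂ) * I) = (mS s : ℂ) *
        (cexp (-(zz s - t) ^ 2 / 2) * kC ((xS l t s : ℂ) + (yS l s : ℂ) * I)) := by
      unfold mS; push_cast; ring
    rw [h2, Complex.re_ofReal_mul, ← mul_sub]
    congr 1
    unfold qk
    rw [← Complex.sub_re]
    congr 1
    ring
  set f : ℝ → ℝ → ℝ := fun y x => (2 * C / W ^ 2) * Real.exp (Real.pi * |y|) / (1 + x ^ 2) with hf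
  have hdom := GS_dom f (2 * C / W ^ 2) lam T (by positivity) hlam hT (fun y x => by
    simp only [hf]
    rw [abs_of_nonneg (by positivity)]) S hsub t
  rw [e1]
  refine le_trans ?_ ((le_abs_self _).trans hdom)
  refine (Finset.abs_sum_le_sum_abs _ _).trans ?_
  unfold GS
  refine Finset.sum_le_sum fun s hs => ?_
  rw [abs_mul, abs_of_nonneg (mS_nonneg s)]
  apply mul_le_mul_of_nonneg_left _ (mS_nonneg s)
  refine (Complex.abs_re_le_norm _).trans ?_
  rw [norm_mul]
  rw [hS, mem_Zf good_zeta hU] at hs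
  set z := zz s - t with hz
  set Zc := (xS l t s : ℂ) + (yS l s : ℂ) * I with hZc
  have hzim : |z.im| ≤ 1 / 2 := by
    rw [hz, Complex.sub_im, zz_im, Complex.ofReal_im, sub_zero, abs_neg, abs_le]
    constructor <;> linarith [hs.1, hs.2.1]
  have h3 := gauss_fac z hzim
  have h4 := hk Zc
  have h5 : Zc = z * ((W : ℝ) : ℂ) := (hZ s).symm
  have h6 : ‖Zc‖ = ‖z‖ * W := by
    rw [h5, norm_mul, Complex.norm_real, Real.norm_of_nonneg hW0.le]
  have h7 : Zc.im = yS l s := by simp [hZc]
  have h8 : Zc.re = xS l t s := by simp [hZc]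
  rw [h7, h6] at h4
  have h9 : (xS l t s) ^ 2 ≤ (‖z‖ * W) ^ 2 := by
    rw [← h6, ← h8, ← sq_abs Zc.re]
    exact pow_le_pow_left₀ (abs_nonneg _) (Complex.abs_re_le_norm _) 2
  set E := Real.exp (Real.pi * |yS l s|) with hE
  set r := ‖z‖ with hr
  have hr0 : 0 ≤ r := norm_nonneg _
  have hkn : 0 ≤ ‖kC Zc‖ := norm_nonneg _
  have h10 : ‖kC Zc‖ ≤ C * E / (1 + (r * W) ^ 2) ^ 2 := by
    rw [le_div_iff₀ (by positivity)]
    exact h4
  calc ‖kC Zc‖ * ‖1 - cexp (-z ^ 2 / 2)‖ ≤ (C * E / (1 + (r * W) ^ 2) ^ 2) * (2 * r ^ 2) :=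
        mul_le_mul h10 h3 (norm_nonneg _) (by positivity)
    _ = (2 * C / W ^ 2) * E * ((r * W) ^ 2 / (1 + (r * W) ^ 2)) / (1 + (r * W) ^ 2) := by
        field_simp
    _ ≤ (2 * C / W ^ 2) * E * 1 / (1 + (xS l t s) ^ 2) := by
        have h11 : (r * W) ^ 2 / (1 + (r * W) ^ 2) ≤ 1 := by
          rw [div_le_one (by positivity)]
          linarith
        gcongr
    _ = f (yS l s) (xS l t s) := by simp only [hf]; ring

end Pool.Agent.TH850.UV
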