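import Mathlib

set_option autoImplicit false

/-!
# From the window second moment to the weighted second moment
-/

namespace Pool.Agent.TH850.UV

open MeasureTheory

namespace V2aux

/-- the window sum -/
noncomputable def F (S : Finset ℂ) (w : ℂ → ℝ) (L : ℝ) (t : ℝ) : ℝ :=
  ∑ s ∈ S.filter (fun s => |s.im - t| ≤ 1 / L), w s

lemma F_eq (S : Finset ℂ) (w : ℂ → ℝ) (L t : ℝ) :
    F S w L t = ∑ s ∈ S, if |s.im - t| ≤ 1 / L then w s else 0 := by
  unfold F
  rw [Finset.sum_filter]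

lemma F_meas (S : Finset ℂ) (w : ℂ → ℝ) (L : ℝ) : Measurable (F S w L) := by
  have : F S w L = fun t => ∑ s ∈ S, if |s.im - t| ≤ 1 / L then w s else 0 := funext (F_eq S w L)
  rw [this]
  refine Finset.measurable_sum _ (fun s _ => ?_)
  refine Measurable.ite ?_ measurable_const measurable_const
  exact measurableSet_le (by fun_prop) measurable_const

lemma F_nonneg (S : Finset ℂ) {w : ℂ → ℝ} (hw : ∀ s, 0 ≤ w s) (L t : ℝ) : 0 ≤ F S w L t :=
  Finset.sum_nonneg (fun s _ => hw s)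

lemma F_le (S : Finset ℂ) {w : ℂ → ℝ} (hw : ∀ s, 0 ≤ w s) (L t : ℝ) : F S w L t ≤ ∑ s ∈ S, w s :=
  Finset.sum_le_sum_of_subset_of_nonneg (Finset.filter_subset _ _) (fun s _ _ => hw s)

/-- the integral of `1/(1+v^2)` over a window -/
lemma win (x : ℝ) : 1 / (1 + x ^ 2) ≤ 3 / 2 * ∫ v : ℝ, (if |x - v| ≤ 1 then (1 + v ^ 2)⁻¹ else 0) := by
  have e : (fun v : ℝ => if |x - v| ≤ 1 then (1 + v ^ 2)⁻¹ else 0) =
      (Set.Icc (x - 1) (x + 1)).indicator (fun v : ℝ => (1 + v ^ 2)⁻¹) := by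
    ext v
    by_cases hv : |x - v| ≤ 1
    · rw [if_pos hv, Set.indicator_of_mem]
      rw [abs_le] at hv
      constructor <;> linarith [hv.1, hv.2]
    · rw [if_neg hv, Set.indicator_of_notMem]
      intro hv'
      apply hv
      rw [abs_le]
      constructor <;> linarith [hv'.1, hv'.2]
  rw [e, integral_indicator measurableSet_Icc]
  have h1 : ∫ v in Set.Icc (x - 1) (x + 1), (1 / (3 * (1 + x ^ 2)) : ℝ) ≤
      ∫ v in Set.Icc (x - 1) (x + 1), (1 + v ^ 2)⁻¹ := by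
    refine setIntegral_mono_on ?_ ?_ measurableSet_Icc ?_
    · exact integrableOn_const (by simp)
    · exact integrable_inv_one_add_sq.integrableOn
    · intro v hv
      rw [one_div]
      refine inv_anti₀ (by positivity) ?_
      have h2 : v ^ 2 ≤ (|x| + 1) ^ 2 := by
        rw [sq_le_sq, abs_of_nonneg (by positivity : 0 ≤ |x| + 1), abs_le]
        have := le_abs_self x
        have := neg_abs_le x
        constructor <;> linarith [hv.1, hv.2]
      have h3 : |x| ^ 2 = x ^ 2 := sq_abs x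
      nlinarith [sq_nonneg (|x| - 1)]
  rw [setIntegral_const, smul_eq_mul] at h1
  have h4 : (volume : Measure ℝ).real (Set.Icc (x - 1) (x + 1)) = 2 := by
    rw [measureReal_def, Real.volume_Icc, ENNReal.toReal_ofReal (by linarith)]
    ring
  rw [h4] at h1
  have h5 : 1 / (1 + x ^ 2) = 3 / 2 * (2 * (1 / (3 * (1 + x ^ 2)))) := by
    have : 1 + x ^ 2 ≠ 0 := by positivity
    field_simp
  rw [h5]
  linarith

/-- Cauchy-Schwarz with the weight `1/(1+v^2)` for bounded functions -/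
lemma cs (G : ℝ → ℝ) (hG : Measurable G) (W : ℝ) (hW : ∀ v, |G v| ≤ W) :
    (∫ v : ℝ, G v * (1 + v ^ 2)⁻¹) ^ 2 ≤ Real.pi * ∫ v : ℝ, G v ^ 2 * (1 + v ^ 2)⁻¹ := by
  have hi : Integrable (fun v : ℝ => (1 + v ^ 2)⁻¹) := integrable_inv_one_add_sq
  have h1 : Integrable (fun v : ℝ => G v * (1 + v ^ 2)⁻¹) :=
    hi.bdd_mul (c := W) hG.aestronglyMeasurable (Filter.Eventually.of_forall (fun v => hW v))
  have h2 : Integrable (fun v : ℝ => G v ^ 2 * (1 + v ^ 2)⁻¹) :=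
    hi.bdd_mul (c := W ^ 2) (hG.pow_const 2).aestronglyMeasurable
      (Filter.Eventually.of_forall (fun v => by
        rw [Real.norm_eq_abs, abs_pow]
        exact pow_le_pow_left₀ (abs_nonneg _) (hW v) 2))
  obtain ⟨a, ha⟩ : ∃ a, a = ∫ v : ℝ, G v * (1 + v ^ 2)⁻¹ := ⟨_, rfl⟩
  obtain ⟨b, hb⟩ : ∃ b, b = ∫ v : ℝ, G v ^ 2 * (1 + v ^ 2)⁻¹ := ⟨_, rfl⟩
  rw [← ha, ← hb]
  have hpi := Real.pi_pos
  have h3 : 0 ≤ ∫ v : ℝ, (G v - a / Real.pi) ^ 2 * (1 + v ^ 2)⁻¹ :=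
    integral_nonneg (fun v => by positivity)
  have h4 : ∫ v : ℝ, (G v - a / Real.pi) ^ 2 * (1 + v ^ 2)⁻¹ =
      b - 2 * (a / Real.pi) * a + (a / Real.pi) ^ 2 * Real.pi := by
    have e : (fun v : ℝ => (G v - a / Real.pi) ^ 2 * (1 + v ^ 2)⁻¹) =
        fun v => G v ^ 2 * (1 + v ^ 2)⁻¹ - 2 * (a / Real.pi) * (G v * (1 + v ^ 2)⁻¹) +
          (a / Real.pi) ^ 2 * (1 + v ^ 2)⁻¹ := by
      ext v; ring
    have i1 : Integrable (fun v : ℝ => 2 * (a / Real.pi) * (G v * (1 + v ^ 2)⁻¹)) := h1.const_mul _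
    have i2 : Integrable (fun v : ℝ => (a / Real.pi) ^ 2 * (1 + v ^ 2)⁻¹) := hi.const_mul _
    have i3 : Integrable (fun v : ℝ => G v ^ 2 * (1 + v ^ 2)⁻¹ -
        2 * (a / Real.pi) * (G v * (1 + v ^ 2)⁻¹)) := h2.sub i1
    rw [e, integral_add i3 i2, integral_sub h2 i1,
      integral_const_mul, integral_const_mul, ← ha, ← hb, integral_univ_inv_one_add_sq]
  rw [h4] at h3
  have h5 : Real.pi * (b - 2 * (a / Real.pi) * a + (a / Real.pi) ^ 2 * Real.pi) =
      Real.pi * b - a ^ 2 := by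
    field_simp
    ring
  have h6 := mul_nonneg hpi.le h3
  rw [h5] at h6
  linarith

/-- pointwise bound -/
lemma pt (S : Finset ℂ) {w : ℂ → ℝ} (hw : ∀ s, 0 ≤ w s) {L : ℝ} (hL : 0 < L) (t : ℝ) :
    (∑ s ∈ S, w s / (1 + ((s.im - t) * L) ^ 2)) ≤
      3 / 2 * ∫ v : ℝ, F S w L (t + v / L) * (1 + v ^ 2)⁻¹ := by
  have e : (fun v : ℝ => F S w L (t + v / L) * (1 + v ^ 2)⁻¹) =
      fun v : ℝ => ∑ s ∈ S, w s * (if |(s.im - t) * L - v| ≤ 1 then (1 + v ^ 2)⁻¹ else 0) := by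
    ext v
    rw [F_eq, Finset.sum_mul]
    refine Finset.sum_congr rfl (fun s _ => ?_)
    have hiff : |s.im - (t + v / L)| ≤ 1 / L ↔ |(s.im - t) * L - v| ≤ 1 := by
      have e1 : (s.im - t) * L - v = (s.im - (t + v / L)) * L := by field_simp; ring
      rw [e1, abs_mul, abs_of_pos hL, le_div_iff₀ hL]
    by_cases hc : |(s.im - t) * L - v| ≤ 1
    · rw [if_pos hc, if_pos (hiff.mpr hc)]
    · rw [if_neg hc, if_neg (fun h => hc (hiff.mp h))]
      ring
  have hint : ∀ x : ℝ, Integrable (fun v : ℝ => if |x - v| ≤ 1 then (1 + v ^ 2)⁻¹ else 0) := by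
    intro x
    refine Integrable.mono' integrable_inv_one_add_sq ?_ ?_
    · refine (Measurable.ite ?_ (by fun_prop) measurable_const).aestronglyMeasurable
      exact measurableSet_le (by fun_prop) measurable_const
    · refine Filter.Eventually.of_forall (fun v => ?_)
      have : 0 ≤ (1 + v ^ 2)⁻¹ := by positivity
      split_ifs
      · rw [Real.norm_of_nonneg this]
      · simpa using this
  rw [e, integral_finsetSum _ (fun s _ => (hint _).const_mul _), Finset.mul_sum]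
  refine Finset.sum_le_sum (fun s _ => ?_)
  rw [integral_const_mul]
  have := mul_le_mul_of_nonneg_left (win ((s.im - t) * L)) (hw s)
  calc w s / (1 + ((s.im - t) * L) ^ 2) = w s * (1 / (1 + ((s.im - t) * L) ^ 2)) := by ring
    _ ≤ _ := this
    _ = _ := by ring

end V2aux

open V2aux

theorem v2 (S : Finset ℂ) (w : ℂ → ℝ) (hw : ∀ s, 0 ≤ w s) (L : ℝ) (hL : 0 < L) (A : ℝ) (hA : 0 ≤ A)
    (h : ∫⁻ t : ℝ, ENNReal.ofReal ((∑ s ∈ S.filter (fun s => |s.im - t| ≤ 1 / L), w s) ^ 2) ≤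
      ENNReal.ofReal A) :
    Integrable (fun t : ℝ => (∑ s ∈ S, w s / (1 + ((s.im - t) * L) ^ 2)) ^ 2) ∧
    ∫ t : ℝ, (∑ s ∈ S, w s / (1 + ((s.im - t) * L) ^ 2)) ^ 2 ≤ 25 * A := by
  have hF : Measurable (F S w L) := F_meas S w L
  have hpi := Real.pi_pos
  have h' : ∫⁻ t : ℝ, ENNReal.ofReal (F S w L t ^ 2) ≤ ENNReal.ofReal A := h
  obtain ⟨W, hW⟩ : ∃ W, W = ∑ s ∈ S, w s := ⟨_, rfl⟩
  have hFW : ∀ t, |F S w L t| ≤ W := fun t => by
    rw [abs_of_nonneg (F_nonneg S hw L t), hW]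
    exact F_le S hw L t
  -- pointwise bound of the square
  have h1 : ∀ t, (∑ s ∈ S, w s / (1 + ((s.im - t) * L) ^ 2)) ^ 2 ≤
      9 / 4 * Real.pi * ∫ v : ℝ, F S w L (t + v / L) ^ 2 * (1 + v ^ 2)⁻¹ := by
    intro t
    have g0 : 0 ≤ ∑ s ∈ S, w s / (1 + ((s.im - t) * L) ^ 2) :=
      Finset.sum_nonneg (fun s _ => div_nonneg (hw s) (by positivity))
    have g1 := pt S hw hL t
    have g2 := cs (fun v => F S w L (t + v / L)) (hF.comp (by fun_prop)) W (fun v => hFW _)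
    calc (∑ s ∈ S, w s / (1 + ((s.im - t) * L) ^ 2)) ^ 2
        ≤ (3 / 2 * ∫ v : ℝ, F S w L (t + v / L) * (1 + v ^ 2)⁻¹) ^ 2 := pow_le_pow_left₀ g0 g1 2
      _ = 9 / 4 * (∫ v : ℝ, F S w L (t + v / L) * (1 + v ^ 2)⁻¹) ^ 2 := by ring
      _ ≤ 9 / 4 * (Real.pi * ∫ v : ℝ, F S w L (t + v / L) ^ 2 * (1 + v ^ 2)⁻¹) :=
          mul_le_mul_of_nonneg_left g2 (by norm_num)
      _ = _ := by ring
  have h2 : ∀ t, ENNReal.ofReal ((∑ s ∈ S, w s / (1 + ((s.im - t) * L) ^ 2)) ^ 2) ≤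
      ENNReal.ofReal (9 / 4 * Real.pi) * ∫⁻ v : ℝ, ENNReal.ofReal (F S w L (t + v / L) ^ 2) *
        ENNReal.ofReal ((1 + v ^ 2)⁻¹) := by
    intro t
    refine (ENNReal.ofReal_le_ofReal (h1 t)).trans ?_
    rw [ENNReal.ofReal_mul (by positivity)]
    refine mul_le_mul_right ?_ _
    rw [ofReal_integral_eq_lintegral_ofReal]
    · refine lintegral_mono (fun v => ?_)
      rw [ENNReal.ofReal_mul (by positivity)]
    · refine integrable_inv_one_add_sq.bdd_mul (c := W ^ 2)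
        ((hF.comp (by fun_prop : Measurable fun v : ℝ => t + v / L)).pow_const 2).aestronglyMeasurable
        (Filter.Eventually.of_forall (fun v => ?_))
      rw [Real.norm_eq_abs, abs_pow]
      exact pow_le_pow_left₀ (abs_nonneg _) (hFW _) 2
    · exact Filter.Eventually.of_forall (fun v => by positivity)
  have h3 : ∫⁻ t : ℝ, ENNReal.ofReal ((∑ s ∈ S, w s / (1 + ((s.im - t) * L) ^ 2)) ^ 2) ≤
      ENNReal.ofReal (9 / 4 * Real.pi) * (ENNReal.ofReal Real.pi * ENNReal.ofReal A) := by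
    refine (lintegral_mono h2).trans ?_
    rw [lintegral_const_mul' _ _ ENNReal.ofReal_ne_top]
    refine mul_le_mul_right ?_ _
    have hm : Measurable (fun p : ℝ × ℝ => ENNReal.ofReal (F S w L (p.1 + p.2 / L) ^ 2) *
        ENNReal.ofReal ((1 + p.2 ^ 2)⁻¹)) := by
      have m1 : Measurable (fun p : ℝ × ℝ => ENNReal.ofReal (F S w L (p.1 + p.2 / L) ^ 2)) :=
        ENNReal.measurable_ofReal.comp
          ((hF.comp (by fun_prop : Measurable fun p : ℝ × ℝ => p.1 + p.2 / L)).pow_const 2)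
      have m2 : Measurable (fun p : ℝ × ℝ => ENNReal.ofReal ((1 + p.2 ^ 2)⁻¹)) :=
        ENNReal.measurable_ofReal.comp (by fun_prop)
      exact m1.mul m2
    have hm' : AEMeasurable (Function.uncurry (fun (t v : ℝ) =>
        ENNReal.ofReal (F S w L (t + v / L) ^ 2) * ENNReal.ofReal ((1 + v ^ 2)⁻¹)))
        ((volume : Measure ℝ).prod (volume : Measure ℝ)) := hm.aemeasurable
    rw [lintegral_lintegral_swap hm']
    have e1 : ∀ v : ℝ, ∫⁻ t : ℝ, ENNReal.ofReal (F S w L (t + v / L) ^ 2) *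
        ENNReal.ofReal ((1 + v ^ 2)⁻¹) =
        (∫⁻ t : ℝ, ENNReal.ofReal (F S w L t ^ 2)) * ENNReal.ofReal ((1 + v ^ 2)⁻¹) := by
      intro v
      rw [lintegral_mul_const' _ _ ENNReal.ofReal_ne_top]
      congr 1
      exact lintegral_add_right_eq_self (fun t : ℝ => ENNReal.ofReal (F S w L t ^ 2)) (v / L)
    rw [lintegral_congr e1]
    have hne : (∫⁻ t : ℝ, ENNReal.ofReal (F S w L t ^ 2)) ≠ ⊤ :=
      (lt_of_le_of_lt h' ENNReal.ofReal_lt_top).ne
    rw [lintegral_const_mul' _ _ hne]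
    have e2 : ∫⁻ v : ℝ, ENNReal.ofReal ((1 + v ^ 2)⁻¹) = ENNReal.ofReal Real.pi := by
      rw [← ofReal_integral_eq_lintegral_ofReal integrable_inv_one_add_sq
        (Filter.Eventually.of_forall (fun v => by positivity)), integral_univ_inv_one_add_sq]
    rw [e2, mul_comm]
    exact mul_le_mul_right h' _
  have h4 : ENNReal.ofReal (9 / 4 * Real.pi) * (ENNReal.ofReal Real.pi * ENNReal.ofReal A) ≤
      ENNReal.ofReal (25 * A) := by
    rw [← ENNReal.ofReal_mul hpi.le, ← ENNReal.ofReal_mul (by positivity)]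
    refine ENNReal.ofReal_le_ofReal ?_
    have h5 : Real.pi ^ 2 ≤ 10 := by
      have := Real.pi_lt_d2
      nlinarith
    calc 9 / 4 * Real.pi * (Real.pi * A) = 9 / 4 * Real.pi ^ 2 * A := by ring
      _ ≤ 25 * A := mul_le_mul_of_nonneg_right (by linarith) hA
  have h5 := h3.trans h4
  have hcont : Continuous (fun t : ℝ => (∑ s ∈ S, w s / (1 + ((s.im - t) * L) ^ 2)) ^ 2) := by
    refine Continuous.pow (continuous_finsetSum _ (fun s _ => ?_)) 2
    refine Continuous.div (by fun_prop) (by fun_prop) (fun t => by positivity)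
  have hint : Integrable (fun t : ℝ => (∑ s ∈ S, w s / (1 + ((s.im - t) * L) ^ 2)) ^ 2) := by
    refine ⟨hcont.aestronglyMeasurable, ?_⟩
    rw [hasFiniteIntegral_iff_ofReal (Filter.Eventually.of_forall (fun t => by positivity))]
    exact lt_of_le_of_lt h5 ENNReal.ofReal_lt_top
  refine ⟨hint, ?_⟩
  rw [← ofReal_integral_eq_lintegral_ofReal hint
    (Filter.Eventually.of_forall (fun t => by positivity))] at h5
  exact (ENNReal.ofReal_le_ofReal_iff (by positivity)).mp h5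

end Pool.Agent.TH850.UV
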