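import Pool.Agent.TH850.UV.Loc
import Pool.Agent.TH850.UV.V2
import Pool.Agent.H370R2.Local

set_option autoImplicit false

/-! # The majorant of the local statistics -/

namespace Pool.Agent.TH850.UV

open Complex Filter Topology MeasureTheory Set
open Pool.Agent.TH850.UR (ew)
open H370 (Zf mult mem_Zf good_zeta NN NN_eq)

/-- the majorant -/
noncomputable def VV (lam T t : ℝ) : ℝ :=
  ∑ s ∈ Zf riemannZeta T (2 * T), ((mult riemannZeta s : ℝ) * ew (1 / (2 * lam)) (Real.log T) s) /
    (1 + ((s.im - t) * Real.log T) ^ 2)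

lemma ew_nonneg (κ L : ℝ) (s : ℂ) : 0 ≤ ew κ L s := (Real.exp_pos _).le

lemma VV_nonneg (lam T t : ℝ) : 0 ≤ VV lam T t :=
  Finset.sum_nonneg fun s _ => by
    have := ew_nonneg (1 / (2 * lam)) (Real.log T) s
    positivity

lemma VV_cont (lam T : ℝ) : Continuous (VV lam T) := by
  unfold VV
  refine continuous_finsetSum _ fun s _ => ?_
  refine Continuous.div (by fun_prop) (by fun_prop) fun t => ?_
  positivity

/-- the number of zeros in short windows -/
lemma wcount : ∃ C : ℝ, 0 < C ∧ ∀ T : ℝ, 10 ≤ T → ∀ t r : ℝ, r ≤ 1 / 2 →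
    ∑ s ∈ (Zf riemannZeta T (2 * T)).filter (fun s => |s.im - t| ≤ r),
      (mult riemannZeta s : ℝ) ≤ C * Real.log T := by
  classical
  obtain ⟨C, hC, hz⟩ := H370.zcount good_zeta
  refine ⟨2 * C, by linarith, fun T hT t r hr => ?_⟩
  have hlT : 0 < Real.log T := Real.log_pos (by linarith)
  by_cases ht : t < T - 1 ∨ 2 * T + 1 < t
  · have : (Zf riemannZeta T (2 * T)).filter (fun s => |s.im - t| ≤ r) = ∅ := by
      rw [Finset.filter_eq_empty_iff]
      intro s hs hcon
      rw [mem_Zf good_zeta (by linarith)] at hs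
      have h1 := hs.2.2.1
      have h2 := hs.2.2.2.1
      rw [abs_le] at hcon
      rcases ht with ht | ht
      · linarith [hcon.2]
      · linarith [hcon.1]
    rw [this, Finset.sum_empty]
    positivity
  · push Not at ht
    have h1 := hz t (by linarith [ht.1])
    have h2 : Real.log t ≤ 2 * Real.log T := by
      have : Real.log t ≤ Real.log (T ^ 2) := by
        apply Real.log_le_log (by linarith [ht.1])
        nlinarith [ht.2]
      rw [Real.log_pow] at this
      exact_mod_cast this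
    rw [NN_eq good_zeta (by linarith [ht.1]), Nat.cast_sum] at h1
    calc ∑ s ∈ (Zf riemannZeta T (2 * T)).filter (fun s => |s.im - t| ≤ r),
          (mult riemannZeta s : ℝ) ≤ ∑ s ∈ Zf riemannZeta (t - 1) (t + 1),
          (mult riemannZeta s : ℝ) := by
          refine Finset.sum_le_sum_of_subset_of_nonneg ?_ fun s _ _ => Nat.cast_nonneg _
          intro s hs
          rw [Finset.mem_filter, mem_Zf good_zeta (by linarith)] at hs
          rw [mem_Zf good_zeta (by linarith [ht.1])]
          obtain ⟨⟨h3, h4, h5, h6, h7⟩, h8⟩ := hs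
          rw [abs_le] at h8
          exact ⟨h3, h4, by linarith [h8.1], by linarith [h8.2], h7⟩
      _ ≤ C * Real.log t := h1
      _ ≤ C * (2 * Real.log T) := by gcongr
      _ = _ := by ring

theorem V_facts : ∃ lam C T0 : ℝ, 16 ≤ lam ∧ 0 < C ∧ 10 ≤ T0 ∧ ∀ T : ℝ, T0 ≤ T →
    Integrable (fun t => VV lam T t ^ 2) ∧ ∫ t, VV lam T t ^ 2 ≤ C * T ∧
    ∀ t, VV lam T t ≤ T ^ (1 / 4 : ℝ) := by
  classical
  obtain ⟨κ, C, T1, hκ, hκ1, hC, hT1, hloc⟩ := loc2
  obtain ⟨C2, hC2, hw⟩ := wcount
  set lam := max 16 (1 / κ) with hlamd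
  have hlam : 16 ≤ lam := le_max_left _ _
  have hlam0 : 0 < lam := by linarith
  have hlamκ : 1 / (2 * lam) ≤ κ := by
    have h1 : 1 / κ ≤ lam := le_max_right _ _
    rw [div_le_iff₀ hκ] at h1
    rw [div_le_iff₀ (by positivity)]
    nlinarith
  have hev : ∀ᶠ T : ℝ in atTop, 5 * C2 * Real.log T ≤ T ^ (1 / 8 : ℝ) := by
    have h1 : (fun T : ℝ => 5 * C2 * Real.log T) =o[atTop] fun T : ℝ => T ^ (1 / 8 : ℝ) :=
      Asymptotics.IsLittleO.const_mul_left (isLittleO_log_rpow_atTop (by norm_num)) _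
    have h2 := h1.bound (c := 1) one_pos
    filter_upwards [h2, eventually_ge_atTop 1] with T hT hT1
    rw [one_mul, Real.norm_of_nonneg (Real.rpow_nonneg (by linarith) _)] at hT
    exact (le_abs_self _).trans hT
  obtain ⟨T2, hT2⟩ := hev.exists_forall_of_atTop
  refine ⟨lam, 25 * C, max (max T1 T2) 10, hlam, by positivity, le_max_right _ _, fun T hT => ?_⟩
  have hTT1 : T1 ≤ T := ((le_max_left _ _).trans (le_max_left _ _)).trans hT
  have g1 := hT2 T (((le_max_right _ _).trans (le_max_left _ _)).trans hT)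
  have hT10 : 10 ≤ T := hT1.trans hTT1
  have hT0 : 0 < T := by linarith
  have hL2 : 2 ≤ Real.log T := by
    rw [Real.le_log_iff_exp_le hT0]
    have : Real.exp 2 = Real.exp 1 ^ 2 := by rw [← Real.exp_nat_mul]; norm_num
    rw [this]
    have h2 := Real.exp_one_lt_d9
    have h3 := Real.exp_pos 1
    nlinarith
  have hL0 : 0 < Real.log T := by linarith
  set L := Real.log T with hL
  set w : ℂ → ℝ := fun s => (mult riemannZeta s : ℝ) * ew (1 / (2 * lam)) L s with hwd
  have hw0 : ∀ s, 0 ≤ w s := fun s => mul_nonneg (Nat.cast_nonneg _) (ew_nonneg _ _ _)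
  have hle : ∀ s, w s ≤ (mult riemannZeta s : ℝ) * ew κ L s := by
    intro s
    apply mul_le_mul_of_nonneg_left _ (Nat.cast_nonneg _)
    apply Real.exp_le_exp.2
    have : 0 ≤ |s.re - 1 / 2| * L := by positivity
    exact mul_le_mul_of_nonneg_right hlamκ this
  have h2 : ∫⁻ t : ℝ, ENNReal.ofReal ((∑ s ∈ (Zf riemannZeta T (2 * T)).filter
      (fun s => |s.im - t| ≤ 1 / L), w s) ^ 2) ≤ ENNReal.ofReal (C * T) := by
    refine le_trans (lintegral_mono fun t => ?_) (hloc T hTT1)
    apply ENNReal.ofReal_le_ofReal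
    apply pow_le_pow_left₀ (Finset.sum_nonneg fun s _ => hw0 s)
    exact Finset.sum_le_sum fun s _ => hle s
  obtain ⟨h3, h4⟩ := v2 (Zf riemannZeta T (2 * T)) w hw0 L hL0 (C * T) (by positivity) h2
  refine ⟨h3, ?_, fun t => ?_⟩
  · calc _ ≤ 25 * (C * T) := h4
      _ = _ := by ring
  · have h5 := V2aux.pt (Zf riemannZeta T (2 * T)) hw0 hL0 t
    have h6 : ∀ u : ℝ, V2aux.F (Zf riemannZeta T (2 * T)) w L u ≤ T ^ (1 / 64 : ℝ) * (C2 * L) := by
      intro u
      unfold V2aux.F
      have h7 : ∀ s ∈ (Zf riemannZeta T (2 * T)).filter (fun s => |s.im - u| ≤ 1 / L), w s ≤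
          T ^ (1 / 64 : ℝ) * (mult riemannZeta s : ℝ) := by
        intro s hs
        rw [Finset.mem_filter, mem_Zf good_zeta (by linarith)] at hs
        have h8 : ew (1 / (2 * lam)) L s ≤ T ^ (1 / 64 : ℝ) := by
          unfold Pool.Agent.TH850.UR.ew
          rw [Real.rpow_def_of_pos hT0]
          apply Real.exp_le_exp.2
          have h9 : |s.re - 1 / 2| ≤ 1 / 2 := by
            rw [abs_le]
            constructor <;> linarith [hs.1.1, hs.1.2.1]
          have h10 : 1 / (2 * lam) ≤ 1 / 32 := by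
            apply one_div_le_one_div_of_le (by norm_num)
            linarith
          calc 1 / (2 * lam) * (|s.re - 1 / 2| * L) ≤ 1 / 32 * (1 / 2 * L) := by gcongr
            _ = L * (1 / 64) := by ring
        calc w s = (mult riemannZeta s : ℝ) * ew (1 / (2 * lam)) L s := rfl
          _ ≤ (mult riemannZeta s : ℝ) * T ^ (1 / 64 : ℝ) :=
              mul_le_mul_of_nonneg_left h8 (Nat.cast_nonneg _)
          _ = _ := by ring
      refine (Finset.sum_le_sum h7).trans ?_
      rw [← Finset.mul_sum]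
      apply mul_le_mul_of_nonneg_left _ (by positivity)
      apply hw T hT10 u (1 / L)
      exact one_div_le_one_div_of_le (by norm_num) hL2
    have h7 : ∫ v : ℝ, V2aux.F (Zf riemannZeta T (2 * T)) w L (t + v / L) * (1 + v ^ 2)⁻¹ ≤
        ∫ v : ℝ, (T ^ (1 / 64 : ℝ) * (C2 * L)) * (1 + v ^ 2)⁻¹ := by
      apply integral_mono_of_nonneg
      · refine Eventually.of_forall fun v => ?_
        exact mul_nonneg (V2aux.F_nonneg _ hw0 _ _) (by positivity)
      · exact integrable_inv_one_add_sq.const_mul _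
      · refine Eventually.of_forall fun v => ?_
        exact mul_le_mul_of_nonneg_right (h6 _) (by positivity)
    rw [MeasureTheory.integral_const_mul, integral_univ_inv_one_add_sq] at h7
    calc VV lam T t ≤ 3 / 2 * ((T ^ (1 / 64 : ℝ) * (C2 * L)) * Real.pi) := by
          refine h5.trans ?_
          apply mul_le_mul_of_nonneg_left h7 (by norm_num)
      _ ≤ T ^ (1 / 64 : ℝ) * (5 * C2 * L) := by
          have h8 : 0 ≤ T ^ (1 / 64 : ℝ) * (C2 * L) := by positivity
          have h9 := Real.pi_lt_d2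
          nlinarith
      _ ≤ T ^ (1 / 64 : ℝ) * T ^ (1 / 8 : ℝ) := by gcongr
      _ = T ^ (9 / 64 : ℝ) := by rw [← Real.rpow_add hT0]; norm_num
      _ ≤ T ^ (1 / 4 : ℝ) := Real.rpow_le_rpow_of_exponent_le (by linarith) (by norm_num)

end Pool.Agent.TH850.UV
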